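import Pool.Agent.Lib.MP_87c685_nt_RG.Desc3

/-!
# There is no rational `X > 0` with `X (X + 45) (X + 48)` a square
-/

set_option autoImplicit false

namespace RG

theorem dvd_of_sq_eq {N e M : ℤ} {k : ℕ} (hM : ¬ (2 : ℤ) ∣ M) (hN : (2 : ℤ) ^ k ∣ N)
    (h : N ^ 2 = (e * M) ^ 2) : (2 : ℤ) ^ k ∣ e := by
  have hcop : IsCoprime ((2 : ℤ) ^ k) M := by
    apply IsCoprime.pow_left
    exact (Int.prime_two.coprime_iff_not_dvd).2 hM
  have h1 : (2 : ℤ) ^ k ∣ e * M := by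
    rcases sq_eq_sq_iff_eq_or_eq_neg.1 h with h | h
    · rw [← h]; exact hN
    · have : e * M = -N := by rw [h]; ring
      rw [this]; exact (dvd_neg).2 hN
  exact hcop.dvd_of_dvd_mul_right h1

theorem half_rel (X t w : ℚ) (hX0 : 0 < X) (hw : X * (X + 45) * (X + 48) = w ^ 2)
    (hx : X ^ 2 - 2160 = 2 * t * w) (Y : ℚ) (hY : Y = X ∨ Y * X = 2160) :
    4 * t ^ 2 * (Y * (Y + 45) * (Y + 48)) = (Y ^ 2 - 2160) ^ 2 := by
  rcases hY with rfl | hY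
  · rw [hw, hx]; ring
  · have e : Y = 2160 / X := by rw [eq_div_iff hX0.ne']; exact hY
    have hX := hX0.ne'
    have h1 : Y * (Y + 45) * (Y + 48) * X ^ 4 = 2160 ^ 2 * w ^ 2 := by
      rw [← hw]
      linear_combination (Y ^ 2 * X ^ 3 + 2160 * Y * X ^ 2 + 2160 ^ 2 * X + 93 * X ^ 3 * Y +
        93 * 2160 * X ^ 2 + 2160 * X ^ 3) * hY
    have h2 : (Y ^ 2 - 2160) ^ 2 * X ^ 4 = 2160 ^ 2 * (X ^ 2 - 2160) ^ 2 := by
      have e2 : (Y ^ 2 - 2160) * X ^ 2 = - (2160 * (X ^ 2 - 2160)) := by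
        linear_combination (Y * X + 2160) * hY
      calc (Y ^ 2 - 2160) ^ 2 * X ^ 4 = ((Y ^ 2 - 2160) * X ^ 2) ^ 2 := by ring
        _ = _ := by rw [e2]; ring
    have h3 : (4 * t ^ 2 * (Y * (Y + 45) * (Y + 48))) * X ^ 4 = (Y ^ 2 - 2160) ^ 2 * X ^ 4 := by
      rw [h2, hx]
      linear_combination 4 * t ^ 2 * h1
    exact mul_right_cancel₀ (pow_ne_zero 4 hX) h3

/-- the infinite descent -/
theorem descent (k : ℕ) : ∀ x y z e : ℕ, 0 < x → 0 < e → Nat.Coprime x e →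
    x ^ 2 + 45 * e ^ 2 = y ^ 2 → x ^ 2 + 48 * e ^ 2 = z ^ 2 → 2 ^ k ∣ e := by
  induction k with
  | zero => intro x y z e _ _ _ _ _; simp
  | succ k ih =>
    intro x y z e hx he hc hy hz
    have hxQ : (0 : ℚ) < x := by exact_mod_cast hx
    have heQ : (0 : ℚ) < e := by exact_mod_cast he
    have hy' : (x : ℚ) ^ 2 + 45 * (e : ℚ) ^ 2 = (y : ℚ) ^ 2 := by exact_mod_cast hy
    have hz' : (x : ℚ) ^ 2 + 48 * (e : ℚ) ^ 2 = (z : ℚ) ^ 2 := by exact_mod_cast hz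
    have hyQ : (0 : ℚ) ≤ y := by positivity
    have hzQ : (0 : ℚ) ≤ z := by positivity
    have he' := heQ.ne'
    have hX0 : (0 : ℚ) < (x + y) * (x + z) / e ^ 2 := by positivity
    have hX45 : ((x + y) * (x + z) / e ^ 2 : ℚ) + 45 = (x + y) * (y + z) / e ^ 2 := by
      field_simp
      linear_combination hy'
    have hX48 : ((x + y) * (x + z) / e ^ 2 : ℚ) + 48 = (x + z) * (y + z) / e ^ 2 := by
      field_simp
      linear_combination hz'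
    have hw : ((x + y) * (x + z) / e ^ 2 : ℚ) * (((x + y) * (x + z) / e ^ 2 : ℚ) + 45) *
        (((x + y) * (x + z) / e ^ 2 : ℚ) + 48) =
        ((x + y) * (x + z) * (y + z) / e ^ 3 : ℚ) ^ 2 := by
      rw [hX45, hX48]
      field_simp
    have hh : ((x + y) * (x + z) / e ^ 2 : ℚ) ^ 2 - 2160 =
        2 * ((x : ℚ) / e) * ((x + y) * (x + z) * (y + z) / e ^ 3 : ℚ) := by
      have e1 : (45 : ℚ) * (e : ℚ) ^ 2 = (y : ℚ) ^ 2 - (x : ℚ) ^ 2 := by linarith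
      have e2 : (48 : ℚ) * (e : ℚ) ^ 2 = (z : ℚ) ^ 2 - (x : ℚ) ^ 2 := by linarith
      have e3 : (2160 : ℚ) * (e : ℚ) ^ 4 = ((y : ℚ) ^ 2 - (x : ℚ) ^ 2) *
        ((z : ℚ) ^ 2 - (x : ℚ) ^ 2) := by rw [← e1, ← e2]; ring
      field_simp
      linear_combination -e3
    obtain ⟨Y, a, b, c, hY0, ha, hb, hc', hYX⟩ := desc_rat' _ _ hX0 hw
    have hrel := half_rel _ _ _ hX0 hw hh Y hYX
    obtain ⟨x', y', z', e', hx', he'0, hcop, hy1, hz1, hYe⟩ := int_form Y a b c hY0 ha hb hc'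
    have hdiv : 2 ^ k ∣ e' := ih x' y' z' e' hx' he'0 hcop hy1 hz1
    have hev : (2 : ℤ) ∣ (e' : ℤ) := e_even (x := (x' : ℤ)) (y := (y' : ℤ)) (z := (z' : ℤ))
      (by exact_mod_cast hy1) (by exact_mod_cast hz1)
    have hodd : ¬ (2 : ℤ) ∣ ((x' : ℤ) ^ 4 - 2160 * (e' : ℤ) ^ 4) := by
      intro h
      have h1 : (2 : ℤ) ∣ (x' : ℤ) ^ 4 := by
        have : (2 : ℤ) ∣ 2160 * (e' : ℤ) ^ 4 := Dvd.dvd.mul_right (by norm_num) _
        simpa using dvd_add h this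
      have h2 : (2 : ℤ) ∣ (x' : ℤ) := Int.prime_two.dvd_of_dvd_pow h1
      have h3 : 2 ∣ x' := by exact_mod_cast h2
      have h4 : 2 ∣ e' := by exact_mod_cast hev
      have := Nat.dvd_gcd h3 h4
      rw [hcop] at this
      omega
    have he'Q : (e' : ℚ) ≠ 0 := by exact_mod_cast he'0.ne'
    have hY45 : (Y + 45) * (e' : ℚ) ^ 2 = (y' : ℚ) ^ 2 := by
      rw [add_mul, hYe]; exact_mod_cast hy1
    have hY48 : (Y + 48) * (e' : ℚ) ^ 2 = (z' : ℚ) ^ 2 := by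
      rw [add_mul, hYe]; exact_mod_cast hz1
    have key : (2 * x * x' * y' * z' * e' : ℚ) ^ 2 =
        ((e : ℚ) * ((x' : ℚ) ^ 4 - 2160 * (e' : ℚ) ^ 4)) ^ 2 := by
      have hrel' : 4 * (x : ℚ) ^ 2 * (Y * (Y + 45) * (Y + 48)) =
          (e : ℚ) ^ 2 * (Y ^ 2 - 2160) ^ 2 := by
        rw [← hrel]; field_simp
      have h4 : (x' : ℚ) ^ 4 = Y ^ 2 * (e' : ℚ) ^ 4 := by
        calc (x' : ℚ) ^ 4 = ((x' : ℚ) ^ 2) ^ 2 := by ring
          _ = _ := by rw [← hYe]; ring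
      calc (2 * x * x' * y' * z' * e' : ℚ) ^ 2
          = 4 * (x : ℚ) ^ 2 * ((x' : ℚ) ^ 2 * (y' : ℚ) ^ 2 * (z' : ℚ) ^ 2) * (e' : ℚ) ^ 2 := by
            ring
        _ = (4 * (x : ℚ) ^ 2 * (Y * (Y + 45) * (Y + 48))) * (e' : ℚ) ^ 8 := by
            rw [← hYe, ← hY45, ← hY48]; ring
        _ = _ := by rw [hrel', h4]; ring
    have key' : (2 * x * x' * y' * z' * e' : ℤ) ^ 2 =
        ((e : ℤ) * ((x' : ℤ) ^ 4 - 2160 * (e' : ℤ) ^ 4)) ^ 2 := by exact_mod_cast key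
    have hN : (2 : ℤ) ^ (k + 1) ∣ (2 * x * x' * y' * z' * e' : ℤ) := by
      have h5 : (2 : ℤ) ^ k ∣ (e' : ℤ) := by exact_mod_cast hdiv
      obtain ⟨m, hm⟩ := h5
      exact ⟨x * x' * y' * z' * m, by rw [hm]; ring⟩
    have := dvd_of_sq_eq hodd hN key'
    exact_mod_cast this

/-- **the curve has no rational point with `X > 0`** -/
theorem no_pt (X w : ℚ) (hX : 0 < X) (h : X * (X + 45) * (X + 48) = w ^ 2) : False := by
  obtain ⟨Y, a, b, c, hY0, ha, hb, hc', -⟩ := desc_rat' _ _ hX h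
  obtain ⟨x, y, z, e, hx, he, hcop, hy, hz, -⟩ := int_form Y a b c hY0 ha hb hc'
  have h1 := descent e x y z e hx he hcop hy hz
  have h2 := Nat.le_of_dvd he h1
  have h3 : e < 2 ^ e := Nat.lt_two_pow_self
  omega

end RG
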