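import Pool.Agent.Lib.MP_87c685_nt_RG.Dict
import Pool.Agent.Lib.MP_87c685_nt_RG.Desc4

/-!
# The curve `y² = -3 (r⁴ + 2 r³ - r² + 10 r + 25)` over imaginary quadratic fields
-/

set_option autoImplicit false

open NumberField

namespace RG

theorem coreC (a b t n : ℚ)
    (e1 : 2 * a * b + b ^ 2 * t = -3 * (t ^ 3 - 2 * t * n + 2 * t ^ 2 - 2 * n - t + 10))
    (e2 : a ^ 2 - b ^ 2 * n = 3 * (t ^ 2 * n - n ^ 2 + 2 * t * n - n - 25))
    (hn : 0 < n) (h0 : a ≠ 0 ∨ b ≠ 0) : n = 5 := by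
  obtain ⟨m, hm⟩ : ∃ m : ℚ, m = b ^ 2 + 3 * (t ^ 2 + 2 * t - 1) := ⟨_, rfl⟩
  have ha : a ^ 2 = m * n - 3 * n ^ 2 - 75 := by rw [hm]; linear_combination e2
  have hb : b ^ 2 = m - 3 * t ^ 2 - 6 * t + 3 := by rw [hm]; ring
  have hab : 2 * a * b = -m * t + 6 * t * n + 6 * n - 30 := by rw [hm]; linear_combination e1
  have conic : 4 * (m * n - 3 * n ^ 2 - 75) * (m - 3 * t ^ 2 - 6 * t + 3) =
      (-m * t + 6 * t * n + 6 * n - 30) ^ 2 := by
    rw [← ha, ← hb, ← hab]; ring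
  have hm30 : 30 ≤ m := by
    by_contra h
    push Not at h
    nlinarith [sq_nonneg a, sq_nonneg (n - 5), mul_pos hn (sub_pos.2 h)]
  rcases hm30.eq_or_lt with h | h
  · rw [← h] at ha
    have : (n - 5) ^ 2 = 0 := by nlinarith [sq_nonneg a, sq_nonneg (n - 5)]
    have := pow_eq_zero_iff (two_ne_zero) |>.1 this
    linarith
  · exfalso
    have hX : 0 < m - 30 := sub_pos.2 h
    rcases h0 with h0 | h0
    · apply no_pt (m - 30) ((m - 30) * ((m + 30) * t + 6 * (n + 5)) / (2 * a)) hX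
      rw [div_pow, eq_div_iff (pow_ne_zero 2 (mul_ne_zero two_ne_zero h0))]
      linear_combination (4 * (m - 30) * (m + 15) * (m + 18)) * ha +
        ((m - 30) * (m + 30)) * conic
    · apply no_pt (m - 30) ((6 * (m + 6) * n + 3 * (m - 30) * t - (m ^ 2 + 3 * m + 90)) / b) hX
      rw [div_pow, eq_div_iff (pow_ne_zero 2 h0)]
      linear_combination ((m - 30) * (m + 15) * (m + 18)) * hb + (3 * (m + 6)) * conic

variable {K : Type*} [Field K] [NumberField K]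

theorem lin_indep {r : K} (hr : ∀ q : ℚ, r ≠ (q : K)) (A B : ℚ) (h : (A : K) + (B : K) * r = 0) :
    A = 0 ∧ B = 0 := by
  by_cases hB : B = 0
  · subst hB
    refine ⟨?_, rfl⟩
    have : (A : K) = 0 := by simpa using h
    exact_mod_cast this
  · exfalso
    have hBK : (B : K) ≠ 0 := by exact_mod_cast hB
    apply hr (-A / B)
    push_cast
    field_simp
    linear_combination h

/-- **all points over imaginary quadratic fields** -/
theorem curveC [IsTotallyComplex K] (h2 : Module.finrank ℚ K = 2) (r y : K)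
    (hy : y ^ 2 = -3 * (r ^ 4 + 2 * r ^ 3 - r ^ 2 + 10 * r + 25)) :
    (∃ q : ℚ, r = q) ∨ ∃ t : ℚ, r ^ 2 - t * r + 5 = 0 := by
  by_cases hr : ∃ q : ℚ, r = q
  · exact Or.inl hr
  right
  push Not at hr
  obtain ⟨φ⟩ : Nonempty (K →+* ℂ) := inferInstance
  obtain ⟨t, n, htn, -, hN⟩ := exists_trace_norm h2 φ r
  have hr0 : r ≠ 0 := by
    have := hr 0
    simpa using this
  have hn : 0 < n := by
    have h1 : 0 < Complex.normSq (φ r) := Complex.normSq_pos.2 ((map_ne_zero φ).2 hr0)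
    rw [hN] at h1
    exact_mod_cast h1
  obtain ⟨a, b, hab⟩ := span_of h2 r hr y
  have h0 : a ≠ 0 ∨ b ≠ 0 := by
    by_contra h
    push Not at h
    obtain ⟨rfl, rfl⟩ := h
    have hy0 : y = 0 := by rw [hab]; simp
    rw [hy0] at hy
    have h3 : ((r ^ 2 + r + 5) / (2 * r)) ^ 2 = ((3 : ℕ) : K) := by
      rw [div_pow, div_eq_iff (pow_ne_zero 2 (mul_ne_zero two_ne_zero hr0))]
      push_cast
      linear_combination (1 / 3) * hy
    exact no_sqrt h2 _ 3 (by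
      rintro ⟨m, hm⟩
      have : m < 2 := by nlinarith
      interval_cases m <;> omega) h3
  have hlin : ((a ^ 2 - b ^ 2 * n - 3 * (t ^ 2 * n - n ^ 2 + 2 * t * n - n - 25) : ℚ) : K) +
      ((2 * a * b + b ^ 2 * t + 3 * (t ^ 3 - 2 * t * n + 2 * t ^ 2 - 2 * n - t + 10) : ℚ) : K) *
        r = 0 := by
    push_cast
    rw [hab] at hy
    linear_combination hy - (b ^ 2 + 3 * (r ^ 2 + t * r + t ^ 2 - n + 2 * (r + t) - 1)) * htn
  obtain ⟨e2, e1⟩ := lin_indep hr _ _ hlin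
  have := coreC a b t n (by linarith) (by linarith) hn h0
  refine ⟨t, ?_⟩
  rw [this] at htn
  exact_mod_cast htn

theorem mainC [IsTotallyComplex K] (h2 : Module.finrank ℚ K = 2) (j c y k : K)
    (h5 : k * j = (k ^ 2 + 10 * k + 5) ^ 3) (h3 : c ^ 3 = j)
    (hy : y ^ 2 = -3 * (c ^ 2 + 12 * c + 144)) :
    ∃ r : K, r ≠ 0 ∧ k = r ^ 3 ∧ r * c = k ^ 2 + 10 * k + 5 ∧
      ((∃ q : ℚ, r = q) ∨ ∃ t : ℚ, r ^ 2 - t * r + 5 = 0) := by
  have hj := j_ne h2 j k h5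
  have hc : c ≠ 0 := by
    rintro rfl
    apply hj
    rw [← h3]; simp
  have hr3 : k = ((k ^ 2 + 10 * k + 5) / c) ^ 3 := by
    rw [div_pow, h3, eq_div_iff hj, h5]
  have hrc : ((k ^ 2 + 10 * k + 5) / c) * c = k ^ 2 + 10 * k + 5 := div_mul_cancel₀ _ hc
  have hr0 : (k ^ 2 + 10 * k + 5) / c ≠ 0 := div_ne_zero (k_ne' h2 k) hc
  generalize (k ^ 2 + 10 * k + 5) / c = r at hr3 hrc hr0
  refine ⟨r, hr0, hr3, hrc, ?_⟩
  have hP : r ^ 4 - r ^ 3 + 2 * r ^ 2 + r + 1 ≠ 0 := by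
    intro h
    apply k_ne h2 k
    rw [hr3]
    linear_combination (r ^ 2 + r - 1) * h
  apply curveC h2 r (y * r / (r ^ 4 - r ^ 3 + 2 * r ^ 2 + r + 1))
  have e2 : r * c = r ^ 6 + 10 * r ^ 3 + 5 := by
    rw [hrc, hr3]; ring
  have e3 : r ^ 2 * (c ^ 2 + 12 * c + 144) = (r ^ 4 - r ^ 3 + 2 * r ^ 2 + r + 1) ^ 2 *
      (r ^ 4 + 2 * r ^ 3 - r ^ 2 + 10 * r + 25) := by
    linear_combination (r * c + r ^ 6 + 10 * r ^ 3 + 5 + 12 * r) * e2
  rw [div_pow, div_eq_iff (pow_ne_zero 2 hP)]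
  linear_combination r ^ 2 * hy - 3 * e3

end RG
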