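import Mathlib

/-!
# From the elliptic curve to the modular curves
-/

set_option autoImplicit false

namespace RG

theorem bigA {K : Type*} [Field K] (G k : K)
    (hF : k * ((G + 27) * (G + 3) ^ 3) - G * (k ^ 2 + 10 * k + 5) ^ 3 = 0)
    (N D : K) (hN : N = G ^ 2 + 18 * G - 3 * k * (k ^ 2 + 13 * k + 35))
    (hD : D = (G + 3) * (k ^ 2 + 4 * k - 1)) :
    G ^ 2 * N ^ 5 * D + G * ((N ^ 2 + 5 * N * D - D ^ 2) ^ 3 -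
      27 * N ^ 2 * D ^ 2 * (N ^ 2 + 5 * N * D - D ^ 2)) + 729 * N * D ^ 5 = 0 := by
  rw [hN, hD]
  linear_combination (G ^ 9 * k + 4 * G ^ 9 + 72 * G ^ 8 * k + 288 * G ^ 8 - 15 * G ^ 7 * k ^ 4
      - 210 * G ^ 7 * k ^ 3 - 948 * G ^ 7 * k ^ 2 + 534 * G ^ 7 * k + 7707 * G ^ 7
      + G ^ 6 * k ^ 6 - 6 * G ^ 6 * k ^ 5 - 855 * G ^ 6 * k ^ 4 - 11120 * G ^ 6 * k ^ 3
      - 50337 * G ^ 6 * k ^ 2 - 53250 * G ^ 6 * k + 89639 * G ^ 6 + 45 * G ^ 5 * k ^ 7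
      + 1476 * G ^ 5 * k ^ 6 + 15579 * G ^ 5 * k ^ 5 + 63765 * G ^ 5 * k ^ 4
      - 2115 * G ^ 5 * k ^ 3 - 699948 * G ^ 5 * k ^ 2 - 1259271 * G ^ 5 * k + 354627 * G ^ 5
      + 2052 * G ^ 4 * k ^ 7 + 53838 * G ^ 4 * k ^ 6 + 544968 * G ^ 4 * k ^ 5
      + 2640870 * G ^ 4 * k ^ 4 + 5664060 * G ^ 4 * k ^ 3 + 1729026 * G ^ 4 * k ^ 2
      - 7589808 * G ^ 4 * k - 388854 * G ^ 4 - 1080 * G ^ 3 * k ^ 9 - 32400 * G ^ 3 * k ^ 8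
      - 362394 * G ^ 3 * k ^ 7 - 1864188 * G ^ 3 * k ^ 6 - 3292974 * G ^ 3 * k ^ 5
      + 8830215 * G ^ 3 * k ^ 4 + 47704140 * G ^ 3 * k ^ 3 + 61638408 * G ^ 3 * k ^ 2
      + 6809832 * G ^ 3 * k - 25083 * G ^ 3 + 243 * G ^ 2 * k ^ 11 + 5832 * G ^ 2 * k ^ 10
      + 37665 * G ^ 2 * k ^ 9 - 238140 * G ^ 2 * k ^ 8 - 5262894 * G ^ 2 * k ^ 7
      - 36422055 * G ^ 2 * k ^ 6 - 131964552 * G ^ 2 * k ^ 5 - 256278735 * G ^ 2 * k ^ 4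
      - 225497925 * G ^ 2 * k ^ 3 - 38439441 * G ^ 2 * k ^ 2 - 154305 * G ^ 2 * k
      + 41067 * G ^ 2 + 4374 * G * k ^ 11 + 148716 * G * k ^ 10 + 2135970 * G * k ^ 9
      + 16927380 * G * k ^ 8 + 80499825 * G * k ^ 7 + 231956136 * G * k ^ 6
      + 383330799 * G * k ^ 5 + 306701235 * G * k ^ 4 + 66583215 * G * k ^ 3
      + 4662684 * G * k ^ 2 - 873342 * G * k + 44469 * G - 729 * k ^ 12 - 24057 * k ^ 11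
      - 328050 * k ^ 10 - 2387475 * k ^ 9 - 9852435 * k ^ 8 - 21865626 * k ^ 7
      - 18787788 * k ^ 6 + 10738170 * k ^ 5 + 15473025 * k ^ 4 - 12834045 * k ^ 3
      + 3766014 * k ^ 2 - 500823 * k + 25515) * hF

end RG
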