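import Pool.Agent.Lib.MP_87c685_nt_RG.Quad
import Pool.Agent.Lib.MP_87c685_nt_RG.Big

/-!
# From the `j`-invariant to the modular curves
-/

set_option autoImplicit false

open NumberField

namespace RG

variable {K : Type*} [Field K] [NumberField K]

/-- no element of an imaginary quadratic field has square `d > 0` not a rational square -/
theorem no_sqrt [IsTotallyComplex K] (h2 : Module.finrank ℚ K = 2) (z : K) (d : ℕ)
    (hd : ¬ IsSquare d) (hz : z ^ 2 = d) : False := by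
  obtain ⟨x, hx⟩ := rat_of_sq h2 z d (by push_cast; exact hz) (by positivity)
  apply hd
  have h1 : x ^ 2 = (d : ℚ) := by
    have : ((x ^ 2 : ℚ) : K) = ((d : ℚ) : K) := by
      push_cast
      rw [← hx, hz]
    exact_mod_cast this
  have h3 : IsSquare ((d : ℕ) : ℚ) := ⟨x, by rw [← h1]; ring⟩
  exact Rat.isSquare_natCast_iff.1 h3

theorem no5 [IsTotallyComplex K] (h2 : Module.finrank ℚ K = 2) (z : K) (hz : z ^ 2 = 5) :
    False := no_sqrt h2 z 5 (by norm_num) (by exact_mod_cast hz)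

theorem k_ne [IsTotallyComplex K] (h2 : Module.finrank ℚ K = 2) (k : K) :
    k ^ 2 + 4 * k - 1 ≠ 0 := fun h => no5 h2 (k + 2) (by linear_combination h)

theorem k_ne' [IsTotallyComplex K] (h2 : Module.finrank ℚ K = 2) (k : K) :
    k ^ 2 + 10 * k + 5 ≠ 0 := fun h => no5 h2 ((k + 5) / 2) (by linear_combination (1 / 4) * h)

theorem j_ne [IsTotallyComplex K] (h2 : Module.finrank ℚ K = 2) (j k : K)
    (h5 : k * j = (k ^ 2 + 10 * k + 5) ^ 3) : j ≠ 0 := by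
  intro h
  rw [h, mul_zero, eq_comm] at h5
  exact k_ne' h2 k (pow_eq_zero_iff (three_ne_zero) |>.1 h5)

omit [NumberField K] in
theorem kap_ne [CharZero K] (j k : K) (h5 : k * j = (k ^ 2 + 10 * k + 5) ^ 3) : k ≠ 0 := by
  intro h
  rw [h] at h5
  norm_num at h5

omit [NumberField K] in
theorem G_ne [CharZero K] (j G : K) (h3 : G * j = (G + 27) * (G + 3) ^ 3) : G ≠ 0 := by
  intro h
  rw [h] at h3
  norm_num at h3

omit [NumberField K] in
theorem relA (G v N D : K) (hvD : v * D = N) (hD0 : D ≠ 0)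
    (big : G ^ 2 * N ^ 5 * D + G * ((N ^ 2 + 5 * N * D - D ^ 2) ^ 3 -
      27 * N ^ 2 * D ^ 2 * (N ^ 2 + 5 * N * D - D ^ 2)) + 729 * N * D ^ 5 = 0) :
    G ^ 2 * v ^ 5 + G * ((v ^ 2 + 5 * v - 1) ^ 3 - 27 * v ^ 2 * (v ^ 2 + 5 * v - 1)) +
      729 * v = 0 := by
  subst hvD
  have h6 : D ^ 6 * (G ^ 2 * v ^ 5 + G * ((v ^ 2 + 5 * v - 1) ^ 3 -
      27 * v ^ 2 * (v ^ 2 + 5 * v - 1)) + 729 * v) = 0 := by
    linear_combination big
  rcases mul_eq_zero.1 h6 with h | h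
  · exact absurd (pow_eq_zero_iff (by norm_num) |>.1 h) hD0
  · exact h

omit [NumberField K] in
theorem curveA (G v v' S U u : K) (hG : G ≠ 0) (hv0 : v ≠ 0)
    (hvv : v * v' = -1) (hS : S = v + v' + 5) (hS9 : S ^ 2 - 9 ≠ 0)
    (hUv : U * (G * v ^ 2) = 729) (huS : u * (S ^ 2 - 9) = U - 9 * S)
    (rel : G ^ 2 * v ^ 5 + G * ((v ^ 2 + 5 * v - 1) ^ 3 - 27 * v ^ 2 * (v ^ 2 + 5 * v - 1)) +
      729 * v = 0) : u ^ 2 + S * u + 9 = 0 ∧ u ^ 3 = U := by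
  have hvS : v * S = v ^ 2 + 5 * v - 1 := by rw [hS]; linear_combination hvv
  have hUS : U ^ 2 + (S ^ 3 - 27 * S) * U + 729 = 0 := by
    have h7 : (G * v ^ 2) ^ 2 * v * (U ^ 2 + (S ^ 3 - 27 * S) * U + 729) = 0 := by
      have e1 : v ^ 3 * (S ^ 3 - 27 * S) = (v ^ 2 + 5 * v - 1) ^ 3 -
          27 * v ^ 2 * (v ^ 2 + 5 * v - 1) := by rw [← hvS]; ring
      linear_combination (v * (U * (G * v ^ 2) + 729) + v * (S ^ 3 - 27 * S) * G * v ^ 2) * hUv +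
        729 * G * e1 + 729 * rel
    rcases mul_eq_zero.1 h7 with h | h
    · exact absurd h (mul_ne_zero (pow_ne_zero 2 (mul_ne_zero hG (pow_ne_zero 2 hv0))) hv0)
    · exact h
  have hq : u ^ 2 + S * u + 9 = 0 := by
    have h8 : (S ^ 2 - 9) ^ 2 * (u ^ 2 + S * u + 9) = 0 := by
      linear_combination (u * (S ^ 2 - 9) + U - 9 * S + S * (S ^ 2 - 9)) * huS + hUS
    rcases mul_eq_zero.1 h8 with h | h
    · exact absurd h (pow_ne_zero 2 hS9)
    · exact h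
  exact ⟨hq, by linear_combination (u - S) * hq + huS⟩

theorem dictA [IsTotallyComplex K] (h2 : Module.finrank ℚ K = 2) (j G k : K)
    (h5 : k * j = (k ^ 2 + 10 * k + 5) ^ 3) (h3 : G * j = (G + 27) * (G + 3) ^ 3) :
    ∃ r r' s s' : K, r * r' = 9 ∧ s * s' = -1 ∧ r + r' + s + s' + 5 = 0 ∧
      G * (r ^ 3 * s ^ 2) = 729 ∧
      s * ((G + 3) * (k ^ 2 + 4 * k - 1)) = G ^ 2 + 18 * G - 3 * k * (k ^ 2 + 13 * k + 35) := by
  have hj := j_ne h2 j k h5
  have hk := kap_ne j k h5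
  have hG := G_ne j G h3
  have hG3 : G + 3 ≠ 0 := by
    intro h
    rw [h] at h3
    rcases mul_eq_zero.1 (h3.trans (by ring : (G + 27) * (0 : K) ^ 3 = 0)) with h | h
    · exact hG h
    · exact hj h
  have hk4 := k_ne h2 k
  have hF : k * ((G + 27) * (G + 3) ^ 3) - G * (k ^ 2 + 10 * k + 5) ^ 3 = 0 := by
    rw [← h3, ← h5]; ring
  obtain ⟨N, hN⟩ : ∃ N, N = G ^ 2 + 18 * G - 3 * k * (k ^ 2 + 13 * k + 35) := ⟨_, rfl⟩
  obtain ⟨D, hD⟩ : ∃ D, D = (G + 3) * (k ^ 2 + 4 * k - 1) := ⟨_, rfl⟩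
  have hD0 : D ≠ 0 := by rw [hD]; exact mul_ne_zero hG3 hk4
  have big := bigA G k hF N D hN hD
  have hN0 : N ≠ 0 := by
    intro h
    rw [h] at big
    have : G * D ^ 6 = 0 := by linear_combination -big
    rcases mul_eq_zero.1 this with h | h
    · exact hG h
    · exact hD0 (pow_eq_zero_iff (by norm_num) |>.1 h)
  obtain ⟨v, hvD⟩ : ∃ v, v * D = N := ⟨N / D, div_mul_cancel₀ _ hD0⟩
  have hv0 : v ≠ 0 := by
    intro h; apply hN0; rw [← hvD, h, zero_mul]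
  have rel := relA G v N D hvD hD0 big
  obtain ⟨v', hvv⟩ : ∃ v', v * v' = -1 := ⟨-1 / v, by field_simp⟩
  obtain ⟨S, hS⟩ : ∃ S, S = v + v' + 5 := ⟨_, rfl⟩
  have hvS : v * S = v ^ 2 + 5 * v - 1 := by rw [hS]; linear_combination hvv
  have hS9 : S ^ 2 - 9 ≠ 0 := by
    intro h
    have h1 : (S - 3) * (S + 3) = 0 := by linear_combination h
    rcases mul_eq_zero.1 h1 with h | h
    · exact no_sqrt h2 (v + 1) 2 (by norm_num) (by push_cast; linear_combination v * h - hvS)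
    · exact no_sqrt h2 (v + 4) 17 (by norm_num) (by push_cast; linear_combination v * h - hvS)
  obtain ⟨U, hUv⟩ : ∃ U, U * (G * v ^ 2) = 729 :=
    ⟨729 / (G * v ^ 2), div_mul_cancel₀ _ (mul_ne_zero hG (pow_ne_zero 2 hv0))⟩
  obtain ⟨u, huS⟩ : ∃ u, u * (S ^ 2 - 9) = U - 9 * S :=
    ⟨(U - 9 * S) / (S ^ 2 - 9), div_mul_cancel₀ _ hS9⟩
  obtain ⟨hq, hu3⟩ := curveA G v v' S U u hG hv0 hvv hS hS9 hUv huS rel
  refine ⟨u, -S - u, v, v', ?_, hvv, ?_, ?_, ?_⟩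
  · linear_combination -hq
  · rw [hS]; ring
  · rw [hu3]; linear_combination hUv
  · rw [← hD, ← hN, hvD]

omit [NumberField K] in
theorem curveB (r r' c t X' P E s s' : K) (hr0 : r ≠ 0) (hP0 : P ≠ 0) (hrr : r * r' = 5)
    (e2 : r * c = r ^ 6 + 10 * r ^ 3 + 5) (hX't : t * X' = -9) (hXc : 3 * t + X' = c + 6)
    (hP : P = r ^ 4 - r ^ 3 + 2 * r ^ 2 + r + 1) (hE : E = 3 * r * (r ^ 2 - 2 * r + 2))
    (hsP : s * P = -(X' + E)) (hs'P : s' * P = -(3 * t + E)) :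
    s * s' = 3 ∧ r + r' + s + s' + 1 = 0 := by
  refine ⟨?_, ?_⟩
  · have e1 : P ^ 2 * (s * s') = (X' + E) * (3 * t + E) := by
      linear_combination s' * P * hsP - (X' + E) * hs'P
    have e3 : (X' + E) * (3 * t + E) = -27 + E * (c + 6) + E ^ 2 := by
      linear_combination 3 * hX't + E * hXc
    have h9 : r * (P ^ 2 * (s * s' - 3)) = 0 := by
      have e4 : r * (P ^ 2 * (s * s' - 3)) = r * (-27 + E * (c + 6) + E ^ 2) - 3 * r * P ^ 2 := by
        rw [← e3]; linear_combination r * e1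
      rw [e4, hE, hP]
      linear_combination (3 * r * (r ^ 2 - 2 * r + 2)) * e2
    rcases mul_eq_zero.1 h9 with h | h
    · exact absurd h hr0
    · rcases mul_eq_zero.1 h with h | h
      · exact absurd h (pow_ne_zero 2 hP0)
      · linear_combination h
  · have h9 : r * (P * (r + r' + s + s' + 1)) = 0 := by
      have e4 : r * (P * (r + r' + s + s' + 1)) = P * (r ^ 2 + 5 + r) - r * (c + 6 + 2 * E) := by
        linear_combination P * hrr + r * hsP + r * hs'P - r * hXc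
      rw [e4, hE, hP]
      linear_combination -e2
    rcases mul_eq_zero.1 h9 with h | h
    · exact absurd h hr0
    · rcases mul_eq_zero.1 h with h | h
      · exact absurd h hP0
      · exact h

theorem dictB [IsTotallyComplex K] (h2 : Module.finrank ℚ K = 2) (j c t k : K)
    (h5 : k * j = (k ^ 2 + 10 * k + 5) ^ 3) (h3 : c ^ 3 = j)
    (ht : c * t = 3 * (t + 1) * (t - 3)) :
    ∃ r r' s s' : K, r * r' = 5 ∧ s * s' = 3 ∧ r + r' + s + s' + 1 = 0 ∧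
      k = r ^ 3 ∧ c = r ^ 5 + 10 * r ^ 2 + r' ∧
      s' * (r ^ 4 - r ^ 3 + 2 * r ^ 2 + r + 1) = -(3 * t + 3 * r * (r ^ 2 - 2 * r + 2)) ∧
      t * (s * (r ^ 4 - r ^ 3 + 2 * r ^ 2 + r + 1) + 3 * r * (r ^ 2 - 2 * r + 2)) = 9 := by
  have hj := j_ne h2 j k h5
  have hk := kap_ne j k h5
  have hc : c ≠ 0 := by
    intro h; apply hj; rw [← h3, h]; ring
  have ht0 : t ≠ 0 := by
    intro h; rw [h] at ht; norm_num at ht
  obtain ⟨r, hrc⟩ : ∃ r, r * c = k ^ 2 + 10 * k + 5 :=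
    ⟨(k ^ 2 + 10 * k + 5) / c, div_mul_cancel₀ _ hc⟩
  have hr3 : r ^ 3 = k := by
    have h1 : c ^ 3 * (r ^ 3 - k) = 0 := by
      have : (r * c) ^ 3 = k * c ^ 3 := by rw [hrc, h3, h5]
      linear_combination this
    rcases mul_eq_zero.1 h1 with h | h
    · exact absurd h (pow_ne_zero 3 hc)
    · linear_combination h
  have hr0 : r ≠ 0 := by
    intro h; apply hk; rw [← hr3, h]; ring
  obtain ⟨r', hrr⟩ : ∃ r', r * r' = 5 := ⟨5 / r, by field_simp⟩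
  have e2 : r * c = r ^ 6 + 10 * r ^ 3 + 5 := by rw [hrc, ← hr3]; ring
  have hcr : c = r ^ 5 + 10 * r ^ 2 + r' := by
    apply mul_left_cancel₀ hr0
    rw [e2]
    linear_combination -hrr
  obtain ⟨P, hP⟩ : ∃ P, P = r ^ 4 - r ^ 3 + 2 * r ^ 2 + r + 1 := ⟨_, rfl⟩
  have hP0 : P ≠ 0 := by
    intro h
    apply k_ne h2 k
    have h1 : (r ^ 2 + r - 1) * P = 0 := by rw [h, mul_zero]
    rw [hP] at h1
    rw [← hr3]
    linear_combination h1
  obtain ⟨E, hE⟩ : ∃ E, E = 3 * r * (r ^ 2 - 2 * r + 2) := ⟨_, rfl⟩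
  obtain ⟨X', hX't⟩ : ∃ X', t * X' = -9 := ⟨-9 / t, by field_simp⟩
  have hXc : 3 * t + X' = c + 6 := by
    apply mul_left_cancel₀ ht0
    linear_combination hX't - ht
  obtain ⟨s, hsP⟩ : ∃ s, s * P = -(X' + E) := ⟨-(X' + E) / P, div_mul_cancel₀ _ hP0⟩
  obtain ⟨s', hs'P⟩ : ∃ s', s' * P = -(3 * t + E) := ⟨-(3 * t + E) / P, div_mul_cancel₀ _ hP0⟩
  obtain ⟨h6, h7⟩ := curveB r r' c t X' P E s s' hr0 hP0 hrr e2 hX't hXc hP hE hsP hs'P
  refine ⟨r, r', s, s', hrr, h6, h7, hr3.symm, hcr, ?_, ?_⟩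
  · rw [← hP, ← hE, hs'P]
  · rw [← hP, ← hE, hsP]
    linear_combination -hX't

end RG
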