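import Pool.Agent.Lib.MP_87c685_nt_RG.ValA

/-!
# Valuations at the cusps of `X(s3, b5)`
-/

set_option autoImplicit false

namespace RG

variable {K : Type*} [Field K] {Γ₀ : Type*} [LinearOrderedCommGroupWithZero Γ₀]
  (v : Valuation K Γ₀)

theorem v_P_large {r : K} (hr : 1 < v r) : v (r ^ 4 - r ^ 3 + 2 * r ^ 2 + r + 1) = v r ^ 4 := by
  have p : 0 < v r := lt_trans zero_lt_one hr
  have e : r ^ 4 - r ^ 3 + 2 * r ^ 2 + r + 1 = r ^ 4 + (-(r ^ 3) + 2 * r ^ 2 + r + 1) := by ring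
  have h34 : v r ^ 3 < v (r ^ 4) := by
    rw [map_pow]; exact pow_lt_pow_right₀ hr (by norm_num)
  rw [e, Valuation.map_add_eq_of_lt_left v, map_pow]
  refine lt_of_le_of_lt ?_ h34
  apply v.map_add_le (v.map_add_le (v.map_add_le _ _) _) _
  · rw [Valuation.map_neg, map_pow]
  · rw [map_mul, map_pow]
    calc v 2 * v r ^ 2 ≤ 1 * v r ^ 2 := mul_le_mul_left (v_ofNat v 2) _
      _ = v r ^ 2 := one_mul _
      _ ≤ v r ^ 3 := pow_le_pow_right₀ hr.le (by norm_num)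
  · calc v r = v r ^ 1 := (pow_one _).symm
      _ ≤ v r ^ 3 := pow_le_pow_right₀ hr.le (by norm_num)
  · rw [map_one]; exact one_le_pow₀ hr.le

theorem v_E_large {r : K} (hr : 1 < v r) : v (3 * r * (r ^ 2 - 2 * r + 2)) ≤ v r ^ 3 := by
  have h1 : v (r ^ 2 - 2 * r + 2) = v r ^ 2 := by
    have e : r ^ 2 - 2 * r + 2 = r ^ 2 + (-2) * r + 2 := by ring
    rw [e]
    exact v_quad v (by rw [Valuation.map_neg]; exact v_ofNat v 2) (v_ofNat v 2) hr
  rw [map_mul, map_mul, h1]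
  calc v 3 * v r * v r ^ 2 = v 3 * v r ^ 3 := by rw [mul_assoc, ← pow_succ']
    _ ≤ 1 * v r ^ 3 := mul_le_mul_left (v_ofNat v 3) _
    _ = v r ^ 3 := one_mul _

theorem v_P_small {r : K} (hr : v r < 1) : v (r ^ 4 - r ^ 3 + 2 * r ^ 2 + r + 1) = 1 := by
  have e : r ^ 4 - r ^ 3 + 2 * r ^ 2 + r + 1 = r * (r ^ 3 - r ^ 2 + 2 * r + 1) + 1 := by ring
  have h1 : v (r ^ 3 - r ^ 2 + 2 * r + 1) ≤ 1 := by
    apply v.map_add_le (v.map_add_le (v.map_sub_le _ _) _) (by rw [map_one])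
    · rw [map_pow]; exact pow_le_one' hr.le 3
    · rw [map_pow]; exact pow_le_one' hr.le 2
    · rw [map_mul]; exact mul_le_one' (v_ofNat v 2) hr.le
  have h3 : v (r * (r ^ 3 - r ^ 2 + 2 * r + 1)) < v (1 : K) := by
    rw [map_mul, map_one]
    calc v r * v (r ^ 3 - r ^ 2 + 2 * r + 1) ≤ v r * 1 := mul_le_mul_right h1 _
      _ = v r := mul_one _
      _ < 1 := hr
  rw [e, Valuation.map_add_eq_of_lt_right v h3, map_one]

theorem v_E_small {r : K} (hr : v r < 1) : v (3 * r * (r ^ 2 - 2 * r + 2)) ≤ 1 := by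
  rw [map_mul, map_mul]
  apply mul_le_one' (mul_le_one' (v_ofNat v 3) hr.le)
  apply v.map_add_le (v.map_sub_le _ _) (v_ofNat v 2)
  · rw [map_pow]; exact pow_le_one' hr.le 2
  · rw [map_mul]; exact mul_le_one' (v_ofNat v 2) hr.le

section cusps

variable {j k c t r r' s s' : K}
    (h5 : k * j = (k ^ 2 + 10 * k + 5) ^ 3) (hrr : r * r' = 5) (hss : s * s' = 3)
    (hsum : r + r' + s + s' + 1 = 0) (hk : k = r ^ 3) (h3 : c ^ 3 = j)
    (hc : c = r ^ 5 + 10 * r ^ 2 + r')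
    (ht' : s' * (r ^ 4 - r ^ 3 + 2 * r ^ 2 + r + 1) = -(3 * t + 3 * r * (r ^ 2 - 2 * r + 2)))
    (ht : t * (s * (r ^ 4 - r ^ 3 + 2 * r ^ 2 + r + 1) + 3 * r * (r ^ 2 - 2 * r + 2)) = 9)

include h5 hk in
theorem B_rlarge (hr : 1 < v r) : 1 < v j ∧ 1 < v k := by
  have h1 : 1 < v k := by rw [hk, map_pow]; exact one_lt_pow₀ hr (by norm_num)
  exact ⟨by rw [k_large v h5 h1]; exact one_lt_pow₀ h1 (by norm_num), h1⟩

include hk h3 hc in
theorem B_rsmall (hr : v r < 1) (hr' : 1 < v r') : 1 < v j ∧ ¬ 1 < v k := by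
  have h1 : v k < 1 := by rw [hk, map_pow]; exact pow_lt_one' hr (by norm_num)
  refine ⟨?_, not_lt.2 h1.le⟩
  have h4 : v c = v r' := by
    rw [hc]
    apply Valuation.map_add_eq_of_lt_right
    refine lt_of_le_of_lt ?_ hr'
    apply v.map_add_le
    · rw [map_pow]; exact pow_le_one' hr.le 5
    · rw [map_mul, map_pow]; exact mul_le_one' (v_ofNat v 10) (pow_le_one' hr.le 2)
  rw [← h3, map_pow, h4]
  exact one_lt_pow₀ hr' (by norm_num)

include ht in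
theorem B_t_small (h : 1 < v (s * (r ^ 4 - r ^ 3 + 2 * r ^ 2 + r + 1) +
    3 * r * (r ^ 2 - 2 * r + 2))) : ¬ 1 < v (3 * t) := by
  apply not_lt.2
  have : (s * (r ^ 4 - r ^ 3 + 2 * r ^ 2 + r + 1) + 3 * r * (r ^ 2 - 2 * r + 2)) * (3 * t) = 27 := by
    linear_combination 3 * ht
  exact (v_small v this (v_ofNat v 27) h).le

include h5 hrr hss hsum hk ht in
theorem cuspB1 (h : 1 < v (r * s)) : 1 < v j ∧ ¬ 1 < v (3 * t) ∧ 1 < v k := by
  obtain ⟨h1, h2, -, -⟩ := v_pair v (v_ofNat v 5) (v_ofNat v 3) (by rw [map_one]) hrr hss hsum h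
  obtain ⟨j1, k1⟩ := B_rlarge v h5 hk h1
  refine ⟨j1, ?_, k1⟩
  apply B_t_small v ht
  have e1 : v (s * (r ^ 4 - r ^ 3 + 2 * r ^ 2 + r + 1)) = v r ^ 5 := by
    rw [map_mul, v_P_large v h1, h2, ← pow_succ']
  have e2 : v (3 * r * (r ^ 2 - 2 * r + 2)) < v (s * (r ^ 4 - r ^ 3 + 2 * r ^ 2 + r + 1)) := by
    rw [e1]
    exact lt_of_le_of_lt (v_E_large v h1) (pow_lt_pow_right₀ h1 (by norm_num))
  rw [Valuation.map_add_eq_of_lt_left v e2, e1]
  exact one_lt_pow₀ h1 (by norm_num)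

include hrr hss hsum hk h3 hc ht in
theorem cuspB2 (h : 1 < v (r' * s)) : 1 < v j ∧ ¬ 1 < v (3 * t) ∧ ¬ 1 < v k := by
  obtain ⟨h1, h2, h6, -⟩ := v_pair v (v_ofNat v 5) (v_ofNat v 3) (by rw [map_one])
    (show r' * r = 5 by rw [mul_comm]; exact hrr) hss
    (show r' + r + s + s' + 1 = 0 by linear_combination hsum) h
  obtain ⟨j1, k1⟩ := B_rsmall v hk h3 hc h6 h1
  refine ⟨j1, ?_, k1⟩
  apply B_t_small v ht
  have e1 : v (s * (r ^ 4 - r ^ 3 + 2 * r ^ 2 + r + 1)) = v r' := by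
    rw [map_mul, v_P_small v h6, h2, mul_one]
  have e2 : v (3 * r * (r ^ 2 - 2 * r + 2)) < v (s * (r ^ 4 - r ^ 3 + 2 * r ^ 2 + r + 1)) := by
    rw [e1]
    exact lt_of_le_of_lt (v_E_small v h6) h1
  rw [Valuation.map_add_eq_of_lt_left v e2, e1]
  exact h1

include h5 hrr hss hsum hk ht' in
theorem cuspB3 (h : 1 < v (r * s')) : 1 < v j ∧ 1 < v (3 * t) ∧ 1 < v k := by
  obtain ⟨h1, h2, -, -⟩ := v_pair v (v_ofNat v 5) (v_ofNat v 3) (by rw [map_one]) hrr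
    (show s' * s = 3 by rw [mul_comm]; exact hss)
    (show r + r' + s' + s + 1 = 0 by linear_combination hsum) h
  obtain ⟨j1, k1⟩ := B_rlarge v h5 hk h1
  refine ⟨j1, ?_, k1⟩
  have e1 : v (s' * (r ^ 4 - r ^ 3 + 2 * r ^ 2 + r + 1)) = v r ^ 5 := by
    rw [map_mul, v_P_large v h1, h2, ← pow_succ']
  have e2 : v (3 * r * (r ^ 2 - 2 * r + 2)) < v (s' * (r ^ 4 - r ^ 3 + 2 * r ^ 2 + r + 1)) := by
    rw [e1]
    exact lt_of_le_of_lt (v_E_large v h1) (pow_lt_pow_right₀ h1 (by norm_num))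
  have e3 : 3 * t = -(s' * (r ^ 4 - r ^ 3 + 2 * r ^ 2 + r + 1) +
      3 * r * (r ^ 2 - 2 * r + 2)) := by linear_combination ht'
  rw [e3, Valuation.map_neg, Valuation.map_add_eq_of_lt_left v e2, e1]
  exact one_lt_pow₀ h1 (by norm_num)

include hrr hss hsum hk h3 hc ht' in
theorem cuspB4 (h : 1 < v (r' * s')) : 1 < v j ∧ 1 < v (3 * t) ∧ ¬ 1 < v k := by
  obtain ⟨h1, h2, h6, -⟩ := v_pair v (v_ofNat v 5) (v_ofNat v 3) (by rw [map_one])
    (show r' * r = 5 by rw [mul_comm]; exact hrr)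
    (show s' * s = 3 by rw [mul_comm]; exact hss)
    (show r' + r + s' + s + 1 = 0 by linear_combination hsum) h
  obtain ⟨j1, k1⟩ := B_rsmall v hk h3 hc h6 h1
  refine ⟨j1, ?_, k1⟩
  have e1 : v (s' * (r ^ 4 - r ^ 3 + 2 * r ^ 2 + r + 1)) = v r' := by
    rw [map_mul, v_P_small v h6, h2, mul_one]
  have e2 : v (3 * r * (r ^ 2 - 2 * r + 2)) < v (s' * (r ^ 4 - r ^ 3 + 2 * r ^ 2 + r + 1)) := by
    rw [e1]
    exact lt_of_le_of_lt (v_E_small v h6) h1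
  have e3 : 3 * t = -(s' * (r ^ 4 - r ^ 3 + 2 * r ^ 2 + r + 1) +
      3 * r * (r ^ 2 - 2 * r + 2)) := by linear_combination ht'
  rw [e3, Valuation.map_neg, Valuation.map_add_eq_of_lt_left v e2, e1]
  exact h1

end cusps

end RG
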