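import Pool.Agent.Lib.MP_87c685_nt_RG.BCases
import Pool.Agent.Lib.MP_87c685_nt_RG.Dict
import Pool.Agent.Lib.MP_87c685_nt_RG.ValB

/-!
# Runge's method on `X_0(15)` and `X(s3, b5)` over all imaginary quadratic fields
-/

set_option autoImplicit false

open NumberField IsDedekindDomain

namespace RG

variable {K : Type*} [Field K] [NumberField K]

/-- The primes `w` of `K` at which `j` is not integral have at most two types, where the type of
`w` says whether `x` is integral at `w` and whether `y` is. -/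
def TwoTypes (j x y : K) : Prop :=
  ∃ a b : Prop × Prop, ∀ w : HeightOneSpectrum (𝓞 K), 1 < w.valuation K j →
    (1 < w.valuation K x, 1 < w.valuation K y) = a ∨
      (1 < w.valuation K x, 1 < w.valuation K y) = b

theorem twoTypes_of_two (j x y : K) (P Q : HeightOneSpectrum (𝓞 K))
    (h : ∀ w : HeightOneSpectrum (𝓞 K), 1 < w.valuation K j → w = P ∨ w = Q) :
    TwoTypes j x y := by
  refine ⟨(1 < P.valuation K x, 1 < P.valuation K y), (1 < Q.valuation K x, 1 < Q.valuation K y),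
    ?_⟩
  intro w hw
  rcases h w hw with rfl | rfl
  · exact Or.inl rfl
  · exact Or.inr rfl

theorem int_of_val (x : K) (h : ∀ w : HeightOneSpectrum (𝓞 K), w.valuation K x ≤ 1) :
    IsIntegral ℤ x := by
  obtain ⟨y, hy⟩ := HeightOneSpectrum.mem_integers_of_valuation_le_one K x h
  rw [← hy]
  exact RingOfIntegers.isIntegral_coe y

theorem three_in_two {α : Type*} {a b T1 T2 T3 : α} (d12 : T1 ≠ T2) (d13 : T1 ≠ T3)
    (d23 : T2 ≠ T3) (h1 : T1 = a ∨ T1 = b) (h2 : T2 = a ∨ T2 = b) (h3 : T3 = a ∨ T3 = b) :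
    False := by
  rcases h1 with h1 | h1 <;> rcases h2 with h2 | h2 <;> rcases h3 with h3 | h3
  · exact d12 (h1.trans h2.symm)
  · exact d12 (h1.trans h2.symm)
  · exact d13 (h1.trans h3.symm)
  · exact d23 (h2.trans h3.symm)
  · exact d23 (h2.trans h3.symm)
  · exact d13 (h1.trans h3.symm)
  · exact d12 (h1.trans h2.symm)
  · exact d12 (h1.trans h2.symm)

theorem two_of_four {α : Type*} (a b T1 T2 T3 T4 : α) (d12 : T1 ≠ T2) (d13 : T1 ≠ T3)
    (d14 : T1 ≠ T4) (d23 : T2 ≠ T3) (d24 : T2 ≠ T4) (d34 : T3 ≠ T4) (P1 P2 P3 P4 : Prop)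
    (h1 : P1 ∨ T1 = a ∨ T1 = b) (h2 : P2 ∨ T2 = a ∨ T2 = b) (h3 : P3 ∨ T3 = a ∨ T3 = b)
    (h4 : P4 ∨ T4 = a ∨ T4 = b) :
    (P1 ∧ P2) ∨ (P1 ∧ P3) ∨ (P1 ∧ P4) ∨ (P2 ∧ P3) ∨ (P2 ∧ P4) ∨ (P3 ∧ P4) := by
  rcases h1 with h1 | h1
  · rcases h2 with h2 | h2
    · exact Or.inl ⟨h1, h2⟩
    · rcases h3 with h3 | h3
      · exact Or.inr (Or.inl ⟨h1, h3⟩)
      · rcases h4 with h4 | h4
        · exact Or.inr (Or.inr (Or.inl ⟨h1, h4⟩))
        · exact (three_in_two d23 d24 d34 h2 h3 h4).elim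
  · rcases h2 with h2 | h2
    · rcases h3 with h3 | h3
      · exact Or.inr (Or.inr (Or.inr (Or.inl ⟨h2, h3⟩)))
      · rcases h4 with h4 | h4
        · exact Or.inr (Or.inr (Or.inr (Or.inr (Or.inl ⟨h2, h4⟩))))
        · exact (three_in_two d13 d14 d34 h1 h3 h4).elim
    · rcases h3 with h3 | h3
      · rcases h4 with h4 | h4
        · exact Or.inr (Or.inr (Or.inr (Or.inr (Or.inr ⟨h3, h4⟩))))
        · exact (three_in_two d12 d14 d24 h1 h2 h4).elim
      · exact (three_in_two d12 d13 d23 h1 h2 h3).elim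

theorem int_or_type (j x y f : K) (T a b : Prop × Prop)
    (hab : ∀ w : HeightOneSpectrum (𝓞 K), 1 < w.valuation K j →
      (1 < w.valuation K x, 1 < w.valuation K y) = a ∨
      (1 < w.valuation K x, 1 < w.valuation K y) = b)
    (hf : ∀ w : HeightOneSpectrum (𝓞 K), 1 < w.valuation K f → 1 < w.valuation K j ∧
      (1 < w.valuation K x, 1 < w.valuation K y) = T) :
    IsIntegral ℤ f ∨ T = a ∨ T = b := by
  by_cases h : ∀ w : HeightOneSpectrum (𝓞 K), w.valuation K f ≤ 1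
  · exact Or.inl (int_of_val f h)
  · right
    push Not at h
    obtain ⟨w, hw⟩ := h
    obtain ⟨h1, h2⟩ := hf w hw
    rw [← h2]
    exact hab w h1

theorem pair_eq {p q : Prop} {P Q : Prop} (h1 : p ↔ P) (h2 : q ↔ Q) :
    ((p, q) : Prop × Prop) = (P, Q) := by
  rw [propext h1, propext h2]

section A

theorem A_two [IsTotallyComplex K] (h2 : Module.finrank ℚ K = 2) (r r' s s' : K)
    (hrr : r * r' = 9) (hss : s * s' = -1) (hsum : r + r' + s + s' + 5 = 0)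
    (h : (IsIntegral ℤ (r * s) ∧ IsIntegral ℤ (r' * s)) ∨
      (IsIntegral ℤ (r * s) ∧ IsIntegral ℤ (r * s')) ∨
      (IsIntegral ℤ (r * s) ∧ IsIntegral ℤ (r' * s')) ∨
      (IsIntegral ℤ (r' * s) ∧ IsIntegral ℤ (r * s')) ∨
      (IsIntegral ℤ (r' * s) ∧ IsIntegral ℤ (r' * s')) ∨
      (IsIntegral ℤ (r * s') ∧ IsIntegral ℤ (r' * s'))) :
    (∃ q : ℚ, s = q) ∨ PA (s + s') := by
  have hrr' : r' * r = 9 := by rw [mul_comm]; exact hrr
  have hss' : s' * s = -1 := by rw [mul_comm]; exact hss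
  rcases h with ⟨h1, h3⟩ | ⟨h1, h3⟩ | ⟨h1, h3⟩ | ⟨h1, h3⟩ | ⟨h1, h3⟩ | ⟨h1, h3⟩
  · exact A_S h2 r r' s s' hrr hss hsum (by rw [mul_comm]; exact h1) (by rw [mul_comm]; exact h3)
  · exact A_R h2 r r' s s' hrr hss hsum h1 h3
  · exact A_T h2 r r' s s' hrr hss hsum h1 h3
  · exact A_T h2 r' r s s' hrr' hss (by linear_combination hsum) h1 h3
  · exact A_R h2 r' r s s' hrr' hss (by linear_combination hsum) h1 h3
  · rcases A_S h2 r r' s' s hrr hss' (by linear_combination hsum) (by rw [mul_comm]; exact h1)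
      (by rw [mul_comm]; exact h3) with ⟨q, hq⟩ | h
    · left
      have hs0 : s' ≠ 0 := by
        intro h; rw [h, mul_zero] at hss; norm_num at hss
      refine ⟨-1 / q, ?_⟩
      push_cast
      rw [← hq, eq_div_iff hs0]
      exact hss
    · right
      rw [add_comm]; exact h

theorem mainA' [IsTotallyComplex K] (h2 : Module.finrank ℚ K = 2) (j G k : K)
    (h5 : k * j = (k ^ 2 + 10 * k + 5) ^ 3) (h3 : G * j = (G + 27) * (G + 3) ^ 3)
    (hT : TwoTypes j G k) :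
    ∃ r r' s s' : K, r * r' = 9 ∧ s * s' = -1 ∧ r + r' + s + s' + 5 = 0 ∧
      G * (r ^ 3 * s ^ 2) = 729 ∧
      s * ((G + 3) * (k ^ 2 + 4 * k - 1)) = G ^ 2 + 18 * G - 3 * k * (k ^ 2 + 13 * k + 35) ∧
      ((∃ q : ℚ, s = q) ∨ PA (s + s')) := by
  obtain ⟨r, r', s, s', hrr, hss, hsum, hG, hs⟩ := dictA h2 j G k h5 h3
  refine ⟨r, r', s, s', hrr, hss, hsum, hG, hs, ?_⟩
  obtain ⟨a, b, hab⟩ := hT
  apply A_two h2 r r' s s' hrr hss hsum
  apply two_of_four a b (False, True) (True, False) (False, False) (True, True)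
    (by simp) (by simp) (by simp) (by simp) (by simp) (by simp)
  · apply int_or_type j G k (r * s) _ a b hab
    intro w hw
    obtain ⟨c1, c2, c3⟩ := cuspA1 (w.valuation K) h3 h5 hrr hss hsum hG hs hw
    exact ⟨c1, pair_eq (iff_false_intro c2) (iff_true_intro c3)⟩
  · apply int_or_type j G k (r' * s) _ a b hab
    intro w hw
    obtain ⟨c1, c2, c3⟩ := cuspA2 (w.valuation K) h3 h5 hrr hss hsum hG hs hw
    exact ⟨c1, pair_eq (iff_true_intro c2) (iff_false_intro c3)⟩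
  · apply int_or_type j G k (r * s') _ a b hab
    intro w hw
    obtain ⟨c1, c2, c3⟩ := cuspA3 (w.valuation K) h3 hrr hss hsum hG hs hw
    exact ⟨c1, pair_eq (iff_false_intro c2) (iff_false_intro c3)⟩
  · apply int_or_type j G k (r' * s') _ a b hab
    intro w hw
    obtain ⟨c1, c2, c3⟩ := cuspA4 (w.valuation K) h3 h5 hrr hss hsum hG hs hw
    exact ⟨c1, pair_eq (iff_true_intro c2) (iff_true_intro c3)⟩

/-- **Points of `X_0(15)`.** -/
theorem mainA [IsTotallyComplex K] (h2 : Module.finrank ℚ K = 2) (j G k : K)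
    (h5 : k * j = (k ^ 2 + 10 * k + 5) ^ 3) (h3 : G * j = (G + 27) * (G + 3) ^ 3)
    (hT : TwoTypes j G k) :
    ∃ u v : K, u ≠ 0 ∧ v ≠ 0 ∧ u + 9 / u + v - 1 / v + 5 = 0 ∧ G * (u ^ 3 * v ^ 2) = 729 ∧
      v * ((G + 3) * (k ^ 2 + 4 * k - 1)) = G ^ 2 + 18 * G - 3 * k * (k ^ 2 + 13 * k + 35) ∧
      ((∃ q : ℚ, v = q) ∨ PA (v - 1 / v)) := by
  obtain ⟨r, r', s, s', hrr, hss, hsum, hG, hs, hc⟩ := mainA' h2 j G k h5 h3 hT
  have hr0 : r ≠ 0 := by
    intro h; rw [h, zero_mul] at hrr; norm_num at hrr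
  have hs0 : s ≠ 0 := by
    intro h; rw [h, zero_mul] at hss; norm_num at hss
  have er : 9 / r = r' := by rw [div_eq_iff hr0, mul_comm]; exact hrr.symm
  have es : s - 1 / s = s + s' := by
    have : s' = -(1 / s) := by
      rw [eq_neg_iff_add_eq_zero, ← mul_right_inj' hs0, mul_add, hss, mul_one_div_cancel hs0]
      ring
    rw [this]; ring
  refine ⟨r, s, hr0, hs0, ?_, hG, hs, ?_⟩
  · rw [er]; linear_combination hsum + es
  · rw [es]; exact hc

end A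

section B

theorem B_two [IsTotallyComplex K] (h2 : Module.finrank ℚ K = 2) (r r' s s' : K)
    (hrr : r * r' = 5) (hss : s * s' = 3) (hsum : r + r' + s + s' + 1 = 0)
    (h : (IsIntegral ℤ (r * s) ∧ IsIntegral ℤ (r' * s)) ∨
      (IsIntegral ℤ (r * s) ∧ IsIntegral ℤ (r * s')) ∨
      (IsIntegral ℤ (r * s) ∧ IsIntegral ℤ (r' * s')) ∨
      (IsIntegral ℤ (r' * s) ∧ IsIntegral ℤ (r * s')) ∨
      (IsIntegral ℤ (r' * s) ∧ IsIntegral ℤ (r' * s')) ∨
      (IsIntegral ℤ (r * s') ∧ IsIntegral ℤ (r' * s'))) :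
    (∃ q : ℚ, s = q) ∨ PB (s + s') := by
  have hrr' : r' * r = 5 := by rw [mul_comm]; exact hrr
  have hss' : s' * s = 3 := by rw [mul_comm]; exact hss
  rcases h with ⟨h1, h3⟩ | ⟨h1, h3⟩ | ⟨h1, h3⟩ | ⟨h1, h3⟩ | ⟨h1, h3⟩ | ⟨h1, h3⟩
  · exact B_S h2 r r' s s' hrr hss hsum (by rw [mul_comm]; exact h1) (by rw [mul_comm]; exact h3)
  · exact B_R h2 r r' s s' hrr hss hsum h1 h3
  · exact B_T h2 r r' s s' hrr hss hsum h1 h3
  · exact B_T h2 r' r s s' hrr' hss (by linear_combination hsum) h1 h3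
  · exact B_R h2 r' r s s' hrr' hss (by linear_combination hsum) h1 h3
  · rcases B_S h2 r r' s' s hrr hss' (by linear_combination hsum) (by rw [mul_comm]; exact h1)
      (by rw [mul_comm]; exact h3) with ⟨q, hq⟩ | h
    · left
      have hs0 : s' ≠ 0 := by
        intro h; rw [h, mul_zero] at hss; norm_num at hss
      refine ⟨3 / q, ?_⟩
      push_cast
      rw [← hq, eq_div_iff hs0]
      exact hss
    · right
      rw [add_comm]; exact h

theorem mainB' [IsTotallyComplex K] (h2 : Module.finrank ℚ K = 2) (j c t k : K)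
    (h5 : k * j = (k ^ 2 + 10 * k + 5) ^ 3) (h3 : c ^ 3 = j)
    (ht : c * t = 3 * (t + 1) * (t - 3)) (hT : TwoTypes j (3 * t) k) :
    ∃ r r' s s' : K, r * r' = 5 ∧ s * s' = 3 ∧ r + r' + s + s' + 1 = 0 ∧
      k = r ^ 3 ∧ c = r ^ 5 + 10 * r ^ 2 + r' ∧
      s' * (r ^ 4 - r ^ 3 + 2 * r ^ 2 + r + 1) = -(3 * t + 3 * r * (r ^ 2 - 2 * r + 2)) ∧
      ((∃ q : ℚ, s = q) ∨ PB (s + s')) := by
  obtain ⟨r, r', s, s', hrr, hss, hsum, hk, hc, ht1, ht2⟩ := dictB h2 j c t k h5 h3 ht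
  refine ⟨r, r', s, s', hrr, hss, hsum, hk, hc, ht1, ?_⟩
  obtain ⟨a, b, hab⟩ := hT
  apply B_two h2 r r' s s' hrr hss hsum
  apply two_of_four a b (False, True) (False, False) (True, True) (True, False)
    (by simp) (by simp) (by simp) (by simp) (by simp) (by simp)
  · apply int_or_type j (3 * t) k (r * s) _ a b hab
    intro w hw
    obtain ⟨c1, c2, c3⟩ := cuspB1 (w.valuation K) h5 hrr hss hsum hk ht2 hw
    exact ⟨c1, pair_eq (iff_false_intro c2) (iff_true_intro c3)⟩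
  · apply int_or_type j (3 * t) k (r' * s) _ a b hab
    intro w hw
    obtain ⟨c1, c2, c3⟩ := cuspB2 (w.valuation K) hrr hss hsum hk h3 hc ht2 hw
    exact ⟨c1, pair_eq (iff_false_intro c2) (iff_false_intro c3)⟩
  · apply int_or_type j (3 * t) k (r * s') _ a b hab
    intro w hw
    obtain ⟨c1, c2, c3⟩ := cuspB3 (w.valuation K) h5 hrr hss hsum hk ht1 hw
    exact ⟨c1, pair_eq (iff_true_intro c2) (iff_true_intro c3)⟩
  · apply int_or_type j (3 * t) k (r' * s') _ a b hab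
    intro w hw
    obtain ⟨c1, c2, c3⟩ := cuspB4 (w.valuation K) hrr hss hsum hk h3 hc ht1 hw
    exact ⟨c1, pair_eq (iff_true_intro c2) (iff_false_intro c3)⟩

/-- **Points of `X(s3, b5)`.** -/
theorem mainB [IsTotallyComplex K] (h2 : Module.finrank ℚ K = 2) (j c t k : K)
    (h5 : k * j = (k ^ 2 + 10 * k + 5) ^ 3) (h3 : c ^ 3 = j)
    (ht : c * t = 3 * (t + 1) * (t - 3)) (hT : TwoTypes j (3 * t) k) :
    ∃ r s : K, r ≠ 0 ∧ s ≠ 0 ∧ r + 5 / r + s + 3 / s + 1 = 0 ∧ k = r ^ 3 ∧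
      r * c = k ^ 2 + 10 * k + 5 ∧
      s * (t + r ^ 3 - 2 * r ^ 2 + 2 * r) = -(r ^ 4 - r ^ 3 + 2 * r ^ 2 + r + 1) ∧
      ((∃ q : ℚ, s = q) ∨ PB (s + 3 / s)) := by
  obtain ⟨r, r', s, s', hrr, hss, hsum, hk, hc, ht1, hcc⟩ := mainB' h2 j c t k h5 h3 ht hT
  have hr0 : r ≠ 0 := by
    intro h; rw [h, zero_mul] at hrr; norm_num at hrr
  have hs0 : s ≠ 0 := by
    intro h; rw [h, zero_mul] at hss; norm_num at hss
  have er : 5 / r = r' := by rw [div_eq_iff hr0, mul_comm]; exact hrr.symm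
  have es : 3 / s = s' := by rw [div_eq_iff hs0, mul_comm]; exact hss.symm
  refine ⟨r, s, hr0, hs0, ?_, hk, ?_, ?_, ?_⟩
  · rw [er, es]; linear_combination hsum
  · rw [hc, hk]; linear_combination hrr
  · linear_combination (1 / 3) * s * ht1 -
      (1 / 3 : K) * (r ^ 4 - r ^ 3 + 2 * r ^ 2 + r + 1) * hss
  · rw [es]; exact hcc

end B

end RG
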