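import Pool.Agent.Lib.MP_87c685_nt_RG.JList
import Pool.Agent.Lib.MP_87c685_nt_RG.Main

/-!
# Elliptic curves with a 5-isogeny over imaginary quadratic fields
-/

set_option autoImplicit false

open NumberField IsDedekindDomain

namespace RG

variable {K : Type*} [Field K] [NumberField K]

theorem exists_conj (h2 : Module.finrank ℚ K = 2) : ∃ σ : K ≃ₐ[ℚ] K, σ ≠ 1 := by
  have : Algebra.IsQuadraticExtension ℚ K := ⟨h2⟩
  have : IsGalois ℚ K := inferInstance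
  have h := IsGalois.card_aut_eq_finrank ℚ K
  rw [h2] at h
  have : Nontrivial (K ≃ₐ[ℚ] K) := by
    apply Finite.one_lt_card_iff_nontrivial.1
    rw [h]; norm_num
  exact exists_ne 1

theorem finalA [IsTotallyComplex K] (h2 : Module.finrank ℚ K = 2) (j G k : K)
    (h5 : j * k = (k ^ 2 + 10 * k + 5) ^ 3) (h3 : j * G = (G + 27) * (G + 3) ^ 3)
    (hT : TwoTypes j G k) :
    (∃ q : ℚ, j = q) ∨
      (∃ σ : K ≃ₐ[ℚ] K, σ ≠ 1 ∧ ∃ j1 : K, Iso5 j j1 ∧ Iso3 (σ j) j1) ∨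
      ∃ p ∈ exceptions, (p.1 : K) * j ^ 2 + (p.2.1 : K) * j + (p.2.2 : K) = 0 := by
  obtain ⟨σ, hσ⟩ := exists_conj h2
  have h5' : k * j = (k ^ 2 + 10 * k + 5) ^ 3 := by rw [mul_comm]; exact h5
  have h3' : G * j = (G + 27) * (G + 3) ^ 3 := by rw [mul_comm]; exact h3
  obtain ⟨r, r', s, s', hrr, hss, hsum, hG, -, h⟩ := mainA' h2 j G k h5' h3' hT
  rcases h with h | h
  · rcases qA h2 σ hσ j G r r' s s' hrr hss hsum hG h3' h with h | h
    · exact Or.inl h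
    · exact Or.inr (Or.inl ⟨σ, hσ, h⟩)
  · have hrs0 : r ^ 3 * s ^ 2 ≠ 0 := by
      intro h; rw [h, mul_zero] at hG; norm_num at hG
    have hGe : G = r' ^ 3 * s' ^ 2 := by
      apply mul_right_cancel₀ hrs0
      rw [hG, idG hrr hss]
    have hG0 : G ≠ 0 := by
      rintro rfl; rw [zero_mul] at hG; norm_num at hG
    have key : (∃ q : ℚ, j = q) ∨
        ∃ p ∈ exceptions, (p.1 : K) * j ^ 2 + (p.2.1 : K) * j + (p.2.2 : K) = 0 := by
      rcases h with h | h | h | h | h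
      · exact jA1 hrr hss hsum hGe hG0 h3 h
      · exact jA2 hrr hss hsum hGe hG0 h3 h
      · exact jA3 hrr hss hsum hGe hG0 h3 h
      · exact jA4 hrr hss hsum hGe hG0 h3 h
      · exact jA5 hrr hss hsum hGe hG0 h3 h
    rcases key with h | h
    · exact Or.inl h
    · exact Or.inr (Or.inr h)

theorem finalB [IsTotallyComplex K] (h2 : Module.finrank ℚ K = 2) (j c x k : K)
    (h5 : j * k = (k ^ 2 + 10 * k + 5) ^ 3) (h3 : c ^ 3 = j)
    (hx : c * x = (x + 3) * (x - 9)) (hT : TwoTypes j x k) :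
    (∃ q : ℚ, j = q) ∨ (∃ σ : K ≃ₐ[ℚ] K, σ ≠ 1 ∧ Iso5 j (σ j)) ∨
      ∃ p ∈ exceptions, (p.1 : K) * j ^ 2 + (p.2.1 : K) * j + (p.2.2 : K) = 0 := by
  obtain ⟨σ, hσ⟩ := exists_conj h2
  have h5' : k * j = (k ^ 2 + 10 * k + 5) ^ 3 := by rw [mul_comm]; exact h5
  have h33 : 3 * (x / 3) = x := by ring
  have ht : c * (x / 3) = 3 * (x / 3 + 1) * (x / 3 - 3) := by
    linear_combination (1 / 3) * hx
  obtain ⟨r, r', s, s', hrr, hss, hsum, hk, -, -, h⟩ :=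
    mainB' h2 j c (x / 3) k h5' h3 ht (by rw [h33]; exact hT)
  have hr0 : r ≠ 0 := by
    rintro rfl; rw [zero_mul] at hrr; norm_num at hrr
  have hk0 : k ≠ 0 := by rw [hk]; exact pow_ne_zero 3 hr0
  rcases h with ⟨q, hq⟩ | h
  · have hs0 : s ≠ 0 := by
      rintro rfl; rw [zero_mul] at hss; norm_num at hss
    have er : 5 / r = r' := by rw [div_eq_iff hr0, mul_comm]; exact hrr.symm
    have es : s' = 3 / s := by rw [eq_div_iff hs0, mul_comm]; exact hss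
    rcases qB h2 σ hσ j k r hr0 hk h5' (-1 - q - 3 / q) (by
      rw [er]; push_cast; rw [← hq, ← es]; linear_combination hsum) with h | h
    · exact Or.inl h
    · exact Or.inr (Or.inl ⟨σ, hσ, h⟩)
  · right; right
    rcases h with h | h | h
    · exact jB1 hrr hsum hk hk0 h5 h
    · exact jB2 hrr hsum hk hk0 h5 h
    · exact jB3 hrr hsum hk hk0 h5 h

theorem finalC [IsTotallyComplex K] (h2 : Module.finrank ℚ K = 2) (j c y k : K)
    (h5 : j * k = (k ^ 2 + 10 * k + 5) ^ 3) (h3 : c ^ 3 = j)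
    (hy : y ^ 2 = -3 * (c ^ 2 + 12 * c + 144)) :
    (∃ q : ℚ, j = q) ∨ (∃ σ : K ≃ₐ[ℚ] K, σ ≠ 1 ∧ Iso5 j (σ j)) := by
  obtain ⟨σ, hσ⟩ := exists_conj h2
  have h5' : k * j = (k ^ 2 + 10 * k + 5) ^ 3 := by rw [mul_comm]; exact h5
  obtain ⟨r, hr0, hk, -, h⟩ := mainC h2 j c y k h5' h3 hy
  have hk0 : k ≠ 0 := by rw [hk]; exact pow_ne_zero 3 hr0
  rcases h with ⟨a, ha⟩ | ⟨t, ht⟩
  · left
    have hka : k = ((a ^ 3 : ℚ) : K) := by rw [hk, ha]; push_cast; ring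
    refine rat_of_eq hk0 h5 _ (((a ^ 3) ^ 2 + 10 * a ^ 3 + 5) ^ 3) hka ?_
    rw [hka]; push_cast; ring
  · rcases qB h2 σ hσ j k r hr0 hk h5' t (by
      field_simp
      linear_combination ht) with h | h
    · exact Or.inl h
    · exact Or.inr ⟨σ, hσ, h⟩

end RG
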