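import Pool.Agent.Lib.MP_87c685_nt_RG.Main

/-!
# Everywhere potentially good reduction
-/

set_option autoImplicit false

open NumberField IsDedekindDomain

namespace RG

variable {K : Type*} [Field K] [NumberField K]

theorem not_int [IsTotallyComplex K] (h2 : Module.finrank ℚ K = 2) (q2 q1 q0 : ℤ)
    (hd : q1 ^ 2 < 4 * q2 * q0) (hn : ¬ (q2 ∣ q1 ∧ q2 ∣ q0)) (x : K) (hx : IsIntegral ℤ x)
    (h : (q2 : K) * x ^ 2 + q1 * x + q0 = 0) : False := by
  obtain ⟨φ⟩ : Nonempty (K →+* ℂ) := inferInstance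
  obtain ⟨T, N, hTN, -, -⟩ := exists_int_trace_norm h2 φ x hx
  have e : ((q2 * T + q1 : ℤ) : K) * x = ((q2 * N - q0 : ℤ) : K) := by
    push_cast
    linear_combination h - (q2 : K) * hTN
  by_cases h0 : q2 * T + q1 = 0
  · rw [h0, Int.cast_zero, zero_mul, eq_comm] at e
    have h1 : q2 * N - q0 = 0 := by exact_mod_cast e
    exact hn ⟨⟨-T, by linarith⟩, ⟨N, by linarith⟩⟩
  · have hK : ((q2 * T + q1 : ℤ) : K) ≠ 0 := by exact_mod_cast h0
    have hxy : x = ((((q2 * N - q0 : ℤ) : ℚ) / ((q2 * T + q1 : ℤ) : ℚ) : ℚ) : K) := by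
      push_cast
      push_cast at e hK
      rw [eq_div_iff hK, mul_comm]
      exact e
    set y : ℚ := ((q2 * N - q0 : ℤ) : ℚ) / ((q2 * T + q1 : ℤ) : ℚ) with hy
    have h3 : (q2 : ℚ) * y ^ 2 + q1 * y + q0 = 0 := by
      rw [hxy] at h
      exact_mod_cast h
    have h4 : (2 * (q2 : ℚ) * y + q1) ^ 2 = q1 ^ 2 - 4 * q2 * q0 := by
      linear_combination 4 * (q2 : ℚ) * h3
    have h5 : ((q1 : ℚ)) ^ 2 < 4 * q2 * q0 := by exact_mod_cast hd
    nlinarith [sq_nonneg (2 * (q2 : ℚ) * y + q1)]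

theorem int_rat (s : K) (hs : IsIntegral ℤ s) (q : ℚ) (hq : s = q) : ∃ n : ℤ, s = n := by
  have : IsIntegral ℤ (algebraMap ℚ K q) := by
    have e : algebraMap ℚ K q = s := by rw [hq]; simp
    rw [e]; exact hs
  have h1 : IsIntegral ℤ q := (isIntegral_algebraMap_iff (algebraMap ℚ K).injective).1 this
  obtain ⟨n, hn⟩ := IsIntegrallyClosed.isIntegral_iff.1 h1
  refine ⟨n, ?_⟩
  rw [hq, ← hn]
  simp

theorem PA_int [IsTotallyComplex K] (h2 : Module.finrank ℚ K = 2) (x : K)
    (hx : IsIntegral ℤ x) : ¬ PA x := by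
  rintro (h | h | h | h | h)
  · exact not_int h2 2 2 5 (by norm_num) (by omega) x hx (by push_cast; exact h)
  · exact not_int h2 28 108 825 (by norm_num) (by omega) x hx (by push_cast; exact h)
  · exact not_int h2 8 (-10) 11 (by norm_num) (by omega) x hx
      (by push_cast; linear_combination h)
  · exact not_int h2 3 (-2) 15 (by norm_num) (by omega) x hx
      (by push_cast; linear_combination h)
  · exact not_int h2 16 30 75 (by norm_num) (by omega) x hx (by push_cast; exact h)

theorem PB_int [IsTotallyComplex K] (h2 : Module.finrank ℚ K = 2) (x : K)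
    (hx : IsIntegral ℤ x) : ¬ PB x := by
  rintro (h | h | h)
  · exact not_int h2 16 14 7 (by norm_num) (by omega) x hx (by push_cast; exact h)
  · exact not_int h2 15 (-98) 163 (by norm_num) (by omega) x hx
      (by push_cast; linear_combination h)
  · exact not_int h2 24 22 199 (by norm_num) (by omega) x hx (by push_cast; exact h)

theorem int_all (r r' s s' : K) (a b c : ℤ) (hrr : r * r' = a) (hss : s * s' = b)
    (hsum : r + r' + s + s' + c = 0) (h1 : IsIntegral ℤ (r * s)) (h2 : IsIntegral ℤ (r' * s))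
    (h3 : IsIntegral ℤ (r * s')) (h4 : IsIntegral ℤ (r' * s')) :
    IsIntegral ℤ r ∧ IsIntegral ℤ r' ∧ IsIntegral ℤ s ∧ IsIntegral ℤ s' := by
  have hi : ∀ x : ℤ, IsIntegral ℤ (x : K) := fun x => isIntegral_algebraMap (R := ℤ) (x := x)
  refine ⟨?_, ?_, ?_, ?_⟩
  · apply int_of_quad r c (a + (r * s + r * s')) (hi c) ((hi a).add (h1.add h3))
    linear_combination r * hsum - hrr
  · apply int_of_quad r' c (a + (r' * s + r' * s')) (hi c) ((hi a).add (h2.add h4))
    linear_combination r' * hsum - hrr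
  · apply int_of_quad s c (b + (r * s + r' * s)) (hi c) ((hi b).add (h1.add h2))
    linear_combination s * hsum - hss
  · apply int_of_quad s' c (b + (r * s' + r' * s')) (hi c) ((hi b).add (h3.add h4))
    linear_combination s' * hsum - hss

theorem goodA [IsTotallyComplex K] (h2 : Module.finrank ℚ K = 2) (j G k : K)
    (h5 : k * j = (k ^ 2 + 10 * k + 5) ^ 3) (h3 : G * j = (G + 27) * (G + 3) ^ 3)
    (hj : ∀ w : HeightOneSpectrum (𝓞 K), w.valuation K j ≤ 1) : j = -32768 := by
  have hT : TwoTypes j G k :=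
    ⟨(True, True), (True, True), fun w hw => absurd hw (not_lt.2 (hj w))⟩
  obtain ⟨r, r', s, s', hrr, hss, hsum, hG, hs, hc⟩ := mainA' h2 j G k h5 h3 hT
  have i1 : IsIntegral ℤ (r * s) := int_of_val _ fun w => by
    by_contra hw
    exact absurd (cuspA1 (w.valuation K) h3 h5 hrr hss hsum hG hs (not_le.1 hw)).1
      (not_lt.2 (hj w))
  have i2 : IsIntegral ℤ (r' * s) := int_of_val _ fun w => by
    by_contra hw
    exact absurd (cuspA2 (w.valuation K) h3 h5 hrr hss hsum hG hs (not_le.1 hw)).1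
      (not_lt.2 (hj w))
  have i3 : IsIntegral ℤ (r * s') := int_of_val _ fun w => by
    by_contra hw
    exact absurd (cuspA3 (w.valuation K) h3 hrr hss hsum hG hs (not_le.1 hw)).1
      (not_lt.2 (hj w))
  have i4 : IsIntegral ℤ (r' * s') := int_of_val _ fun w => by
    by_contra hw
    exact absurd (cuspA4 (w.valuation K) h3 h5 hrr hss hsum hG hs (not_le.1 hw)).1
      (not_lt.2 (hj w))
  obtain ⟨-, -, is, is'⟩ := int_all r r' s s' 9 (-1) 5 (by push_cast; exact hrr)
    (by push_cast; exact hss) (by push_cast; exact hsum) i1 i2 i3 i4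
  rcases hc with ⟨q, hq⟩ | h
  · obtain ⟨n, hn⟩ := int_rat s is q hq
    have hs0 : s ≠ 0 := by
      intro h; rw [h, zero_mul] at hss; norm_num at hss
    have hs' : s' = ((-1 / q : ℚ) : K) := by
      push_cast
      rw [← hq, eq_div_iff hs0, mul_comm]
      exact hss
    obtain ⟨n', hn'⟩ := int_rat s' is' _ hs'
    have hnn : n * n' = -1 := by
      have : ((n * n' : ℤ) : K) = ((-1 : ℤ) : K) := by
        push_cast
        rw [← hn, ← hn', hss]
      exact_mod_cast this
    have hss2 : s' ^ 2 = 1 ∧ s + s' = 0 := by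
      rcases Int.eq_one_or_neg_one_of_mul_eq_neg_one' hnn with ⟨h, h'⟩ | ⟨h, h'⟩
      · rw [hn, hn', h, h']; norm_num
      · rw [hn, hn', h, h']; norm_num
    obtain ⟨e1, e2⟩ := hss2
    have e3 : r' ^ 2 + 5 * r' + 9 = 0 := by linear_combination r' * hsum - r' * e2 - hrr
    have hG1 : G = r' ^ 3 * s' ^ 2 := G_eq hrr hss hG
    have e4 : G = 16 * r' + 45 := by
      rw [hG1, e1]; linear_combination (r' - 5) * e3
    have hG0 := G_ne j G h3
    apply mul_left_cancel₀ hG0
    rw [h3, e4]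
    linear_combination (65536 * r' ^ 2 + 557056 * r' + 1048576) * e3
  · exact absurd h (PA_int h2 _ (is.add is'))

theorem goodB [IsTotallyComplex K] (h2 : Module.finrank ℚ K = 2) (j c t k : K)
    (h5 : k * j = (k ^ 2 + 10 * k + 5) ^ 3) (h3 : c ^ 3 = j)
    (ht : c * t = 3 * (t + 1) * (t - 3))
    (hj : ∀ w : HeightOneSpectrum (𝓞 K), w.valuation K j ≤ 1) : j = -32768 := by
  obtain ⟨r, r', s, s', hrr, hss, hsum, hk, hc, ht1, ht2⟩ := dictB h2 j c t k h5 h3 ht
  have i1 : IsIntegral ℤ (r * s) := int_of_val _ fun w => by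
    by_contra hw
    exact absurd (cuspB1 (w.valuation K) h5 hrr hss hsum hk ht2 (not_le.1 hw)).1
      (not_lt.2 (hj w))
  have i2 : IsIntegral ℤ (r' * s) := int_of_val _ fun w => by
    by_contra hw
    exact absurd (cuspB2 (w.valuation K) hrr hss hsum hk h3 hc ht2 (not_le.1 hw)).1
      (not_lt.2 (hj w))
  have i3 : IsIntegral ℤ (r * s') := int_of_val _ fun w => by
    by_contra hw
    exact absurd (cuspB3 (w.valuation K) h5 hrr hss hsum hk ht1 (not_le.1 hw)).1
      (not_lt.2 (hj w))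
  have i4 : IsIntegral ℤ (r' * s') := int_of_val _ fun w => by
    by_contra hw
    exact absurd (cuspB4 (w.valuation K) hrr hss hsum hk h3 hc ht1 (not_le.1 hw)).1
      (not_lt.2 (hj w))
  obtain ⟨-, -, is, is'⟩ := int_all r r' s s' 5 3 1 (by push_cast; exact hrr)
    (by push_cast; exact hss) (by push_cast; exact hsum) i1 i2 i3 i4
  rcases B_two h2 r r' s s' hrr hss hsum (Or.inl ⟨i1, i2⟩) with ⟨q, hq⟩ | h
  · obtain ⟨n, hn⟩ := int_rat s is q hq
    have hs0 : s ≠ 0 := by
      intro h; rw [h, zero_mul] at hss; norm_num at hss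
    have hs' : s' = ((3 / q : ℚ) : K) := by
      push_cast
      rw [← hq, eq_div_iff hs0, mul_comm]
      exact hss
    obtain ⟨n', hn'⟩ := int_rat s' is' _ hs'
    have hnn : n * n' = 3 := by
      have : ((n * n' : ℤ) : K) = ((3 : ℤ) : K) := by
        push_cast
        rw [← hn, ← hn', hss]
      exact_mod_cast this
    have hsum4 : n + n' = 4 ∨ n + n' = -4 := by
      have hd : n ∣ 3 := ⟨n', hnn.symm⟩
      have h4 : n ≤ 3 := Int.le_of_dvd (by norm_num) hd
      have h6 : -3 ≤ n := by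
        have : -n ≤ 3 := Int.le_of_dvd (by norm_num) ((neg_dvd).2 hd)
        linarith
      interval_cases n <;> omega
    have e2 : s + s' = ((n + n' : ℤ) : K) := by rw [hn, hn']; push_cast; ring
    rcases hsum4 with h | h
    · exfalso
      rw [h] at e2
      push_cast at e2
      exact no5 h2 (2 * r + 5) (by linear_combination 4 * r * hsum - 4 * r * e2 - 4 * hrr)
    · rw [h] at e2
      push_cast at e2
      have e3 : r ^ 2 - 3 * r + 5 = 0 := by linear_combination r * hsum - r * e2 - hrr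
      have e4 : r' = 3 - r := by linear_combination hsum - e2
      have e5 : c = -32 := by
        rw [hc, e4]
        linear_combination (r ^ 3 + 3 * r ^ 2 + 4 * r + 7) * e3
      rw [← h3, e5]; norm_num
  · exact absurd h (PB_int h2 _ (is.add is'))

end RG
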