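import Pool.Agent.Lib.MP_87c685_nt_RG.Iso

/-!
# The conjugate curve
-/

set_option autoImplicit false

open NumberField

namespace RG

variable {K : Type*} [Field K] [NumberField K]

theorem fix_rat (h2 : Module.finrank ℚ K = 2) (σ : K ≃ₐ[ℚ] K) (hσ : σ ≠ 1) (x : K)
    (hx : σ x = x) : ∃ q : ℚ, x = q := by
  by_contra h
  push Not at h
  apply hσ
  apply AlgEquiv.ext
  intro y
  obtain ⟨a, b, rfl⟩ := span_of h2 x h y
  rw [map_add, map_mul, hx, map_ratCast, map_ratCast]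
  rfl

theorem conj_root (h2 : Module.finrank ℚ K = 2) (σ : K ≃ₐ[ℚ] K) (hσ : σ ≠ 1) (x x' : K)
    (a b : ℚ) (hs : x + x' = a) (hp : x * x' = b) (hx : ∀ q : ℚ, x ≠ q) : σ x = x' := by
  have h1 : σ x + σ x' = a := by rw [← map_add, hs, map_ratCast]
  have h3 : σ x * σ x' = b := by rw [← map_mul, hp, map_ratCast]
  have h4 : (σ x - x) * (σ x - x') = 0 := by
    linear_combination σ x * h1 - h3 - σ x * hs + hp
  rcases mul_eq_zero.1 h4 with h | h
  · obtain ⟨q, hq⟩ := fix_rat h2 σ hσ x (sub_eq_zero.1 h)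
    exact absurd hq (hx q)
  · exact sub_eq_zero.1 h

theorem rat_of_eq {j g n : K} (hg : g ≠ 0) (h : j * g = n) (a b : ℚ) (ha : g = a) (hb : n = b) :
    ∃ q : ℚ, j = q := by
  refine ⟨b / a, ?_⟩
  push_cast
  rw [← ha, ← hb, eq_div_iff hg, h]

/-- `X_0(15)`: the conjugate of `E / C₃` is `E / C₅` -/
theorem qA (h2 : Module.finrank ℚ K = 2) (σ : K ≃ₐ[ℚ] K) (hσ : σ ≠ 1) (j G r r' s s' : K)
    (hrr : r * r' = 9) (hss : s * s' = -1) (hsum : r + r' + s + s' + 5 = 0)
    (hG : G * (r ^ 3 * s ^ 2) = 729) (h3 : G * j = (G + 27) * (G + 3) ^ 3)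
    (hs : ∃ q : ℚ, s = q) :
    (∃ q : ℚ, j = q) ∨ ∃ j1 : K, Iso5 j j1 ∧ Iso3 (σ j) j1 := by
  obtain ⟨q, hq⟩ := hs
  have hs0 : s ≠ 0 := by
    rintro rfl; rw [zero_mul] at hss; norm_num at hss
  have hs'q : s' = ((-1 / q : ℚ) : K) := by
    push_cast
    rw [← hq, eq_div_iff hs0, mul_comm]; exact hss
  have hrs0 : r ^ 3 * s ^ 2 ≠ 0 := by
    intro h; rw [h, mul_zero] at hG; norm_num at hG
  have hGe : G = r' ^ 3 * s' ^ 2 := by
    apply mul_right_cancel₀ hrs0
    rw [hG, idG hrr hss]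
  have hG0 : G ≠ 0 := by
    rintro rfl; rw [zero_mul] at hG; norm_num at hG
  have hjG : j * G = (G + 27) * (G + 3) ^ 3 := by rw [mul_comm]; exact h3
  by_cases hr : ∃ a : ℚ, r = a
  · left
    obtain ⟨a, ha⟩ := hr
    have hr0 : r ≠ 0 := by
      rintro rfl; rw [zero_mul] at hrr; norm_num at hrr
    have hr' : r' = ((9 / a : ℚ) : K) := by
      push_cast
      rw [← ha, eq_div_iff hr0, mul_comm]; exact hrr
    have hGr : G = (((9 / a) ^ 3 * (-1 / q) ^ 2 : ℚ) : K) := by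
      rw [hGe, hr', hs'q]; push_cast; ring
    refine rat_of_eq hG0 hjG _
      ((((9 / a) ^ 3 * (-1 / q) ^ 2) + 27) * (((9 / a) ^ 3 * (-1 / q) ^ 2) + 3) ^ 3) hGr ?_
    rw [hGr]; push_cast; ring
  · right
    push Not at hr
    have hσr : σ r = r' := conj_root h2 σ hσ r r' (-5 - q - (-1 / q)) 9
      (by
        have e : (((-5 - q - (-1 / q) : ℚ)) : K) = -5 - s - s' := by
          rw [hs'q, hq]; push_cast; ring
        rw [e]; linear_combination hsum) (by rw [hrr]; norm_num) hr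
    have hσs : σ s = s := by rw [hq, map_ratCast]
    have hσs' : σ s' = s' := by rw [hs'q, map_ratCast]
    have hσr' : σ r' = r := by
      have e : r' = -5 - r - s - s' := by linear_combination hsum
      have e2 : σ r' = -5 - σ r - σ s - σ s' := by
        conv_lhs => rw [e]
        simp only [map_sub, map_neg]
        rw [map_ofNat]
      rw [e2, hσr, hσs, hσs']
      linear_combination -hsum
    have hσG : σ G = r ^ 3 * s' ^ 2 := by
      rw [hGe, map_mul, map_pow, map_pow, hσr', hσs']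
    have hss' : s' * s = -1 := by rw [mul_comm]; exact hss
    have hsum' : r + r' + s' + s + 5 = 0 := by linear_combination hsum
    have hr'0 : r' ≠ 0 := by
      rintro rfl; rw [mul_zero] at hrr; norm_num at hrr
    have hG1 : r' ^ 3 * s ^ 2 ≠ 0 := mul_ne_zero (pow_ne_zero 3 hr'0) (pow_ne_zero 2 hs0)
    refine ⟨(r' ^ 3 * s ^ 2 + 27) * (r' ^ 3 * s ^ 2 + 3) ^ 3 / (r' ^ 3 * s ^ 2), ?_, ?_⟩
    · refine iso5_of _ _ _ _ (id3 hrr hss hsum) ?_ ?_
      · have e := idK hrr hss hsum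
        rw [← hGe, ← hjG] at e
        apply mul_right_cancel₀ hG0
        linear_combination e
      · have e := idK hrr hss' hsum'
        rw [div_mul_eq_mul_div, div_eq_iff hG1]
        linear_combination e
    · refine iso3_of _ _ (σ G) (r' ^ 3 * s ^ 2) ?_ ?_ ?_
      · rw [hσG]
        have e : r ^ 3 * s' ^ 2 * (r' ^ 3 * s ^ 2) = (r * r') ^ 3 * (s * s') ^ 2 := by ring
        rw [e, hrr, hss]; norm_num
      · have e := congrArg σ hjG
        simp only [map_mul, map_add, map_pow, map_ofNat] at e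
        exact e
      · rw [div_mul_cancel₀ _ hG1]

/-- `k = r³` and `r + 5 / r` is rational: the conjugate of `E` is `E / C₅` -/
theorem qB (h2 : Module.finrank ℚ K = 2) (σ : K ≃ₐ[ℚ] K) (hσ : σ ≠ 1) (j k r : K) (hr0 : r ≠ 0)
    (hk : k = r ^ 3) (h5 : k * j = (k ^ 2 + 10 * k + 5) ^ 3) (t : ℚ) (ht : r + 5 / r = t) :
    (∃ q : ℚ, j = q) ∨ Iso5 j (σ j) := by
  have hk0 : k ≠ 0 := by rw [hk]; exact pow_ne_zero 3 hr0
  have hjk : j * k = (k ^ 2 + 10 * k + 5) ^ 3 := by rw [mul_comm]; exact h5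
  by_cases hr : ∃ a : ℚ, r = a
  · left
    obtain ⟨a, ha⟩ := hr
    have hka : k = ((a ^ 3 : ℚ) : K) := by rw [hk, ha]; push_cast; ring
    refine rat_of_eq hk0 hjk _ (((a ^ 3) ^ 2 + 10 * a ^ 3 + 5) ^ 3) hka ?_
    rw [hka]; push_cast; ring
  · right
    push Not at hr
    have hrr : r * (5 / r) = 5 := by field_simp
    have hσr : σ r = 5 / r := conj_root h2 σ hσ r (5 / r) t 5 ht (by rw [hrr]; norm_num) hr
    refine iso5_of j (σ j) k (σ k) ?_ hjk ?_
    · rw [hk, map_pow, hσr, ← mul_pow, hrr]; norm_num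
    · have e := congrArg σ hjk
      simp only [map_mul, map_add, map_pow, map_ofNat] at e
      exact e

end RG
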