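import Pool.Agent.Lib.MP_87c685_nt_RG.TType

/-!
# The curve `u + 9/u + v - 1/v + 5 = 0`, i.e. `X_0(15)`
-/

set_option autoImplicit false

open NumberField

namespace RG

variable {K : Type*} [Field K] [NumberField K]

/-- the exceptional values of `v - 1/v` -/
def PA (x : K) : Prop :=
  2 * x ^ 2 + 2 * x + 5 = 0 ∨ 28 * x ^ 2 + 108 * x + 825 = 0 ∨ 8 * x ^ 2 - 10 * x + 11 = 0 ∨
    3 * x ^ 2 - 2 * x + 15 = 0 ∨ 16 * x ^ 2 + 30 * x + 75 = 0

omit [NumberField K] in
theorem lin_ne [CharZero K] {g : K} (hg : ∀ q : ℚ, g ≠ q) (x y : ℚ) (h : ¬(x = 0 ∧ y = 0)) :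
    (x : K) + y * g ≠ 0 := by
  intro h0
  by_cases hy : y = 0
  · subst hy
    apply h
    refine ⟨?_, rfl⟩
    simpa using h0
  · have hyK : (y : K) ≠ 0 := by exact_mod_cast hy
    apply hg (-x / y)
    push_cast
    rw [eq_div_iff hyK]
    linear_combination h0

/-- if `v - 1/v` is rational, then so is `v` -/
theorem A_rat [IsTotallyComplex K] (h2 : Module.finrank ℚ K = 2) (s s' : K)
    (hss : s * s' = -1) (x : ℚ) (hx : s + s' = x) : ∃ q : ℚ, s = q := by
  apply rat_of_disc h2 s (-x) (-1) _ (by nlinarith [sq_nonneg x])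
  push_cast
  linear_combination s * hx - hss

omit [NumberField K] in
theorem normSq_lt_of (φ : K →+* ℂ) (x : K) (R : ℝ) (N : ℕ) (h : ‖φ x‖ < R) (hN : R ^ 2 ≤ N) :
    Complex.normSq (φ x) < N := by
  rw [Complex.normSq_eq_norm_sq]
  have := norm_nonneg (φ x)
  nlinarith


theorem A_R [IsTotallyComplex K] (h2 : Module.finrank ℚ K = 2) (r r' s s' : K)
    (hrr : r * r' = 9) (hss : s * s' = -1) (hsum : r + r' + s + s' + 5 = 0)
    (hp : IsIntegral ℤ (r * s)) (hp' : IsIntegral ℤ (r * s')) :
    (∃ q : ℚ, s = q) ∨ PA (s + s') := by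
  obtain ⟨φ⟩ : Nonempty (K →+* ℂ) := inferInstance
  by_cases hrq : ∃ q : ℚ, r = q
  · obtain ⟨q, hq⟩ := hrq
    left
    have hr0 : r ≠ 0 := by
      intro h; rw [h, zero_mul] at hrr; norm_num at hrr
    have hr' : r' = 9 / r := by field_simp; linear_combination hrr
    refine A_rat h2 s s' hss (-(q + 9 / q + 5)) ?_
    push_cast
    rw [← hq, ← hr']
    linear_combination hsum
  push Not at hrq
  obtain ⟨hi, hb⟩ := rtype h2 φ 9 (-1) 5 2 (by norm_num) (by norm_num) (by norm_num) 6
    (by
      intro ρ g x y hρ hg hx hy hxy hm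
      norm_num at hg hy hxy hm
      exact ineqAR ρ g x y hρ (by linarith) hx hy hxy (by linarith)) r s s' (by push_cast; exact hss)
    (by push_cast; linear_combination r * hsum - hrr) hp hp' hrq
  have hgq := rat_int_sub r (5 - 2) hrq
  have hzz : (r * s - r * s') ^ 2 = ((45 : ℤ) : K) + ((-30 : ℤ) : K) * (r + ((5 - 2 : ℤ) : K)) +
      ((11 : ℤ) : K) * (r + ((5 - 2 : ℤ) : K)) ^ 2 + ((-2 : ℤ) : K) * (r + ((5 - 2 : ℤ) : K)) ^ 3 +
      (r + ((5 - 2 : ℤ) : K)) ^ 4 := by
    have e : r * (s + s') = -(r ^ 2 + 5 * r + 9) := by linear_combination r * hsum - hrr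
    have hz : (r * s - r * s') ^ 2 = (r * (s + s')) ^ 2 - 4 * r ^ 2 * (s * s') := by ring
    rw [hz, e, hss]
    push_cast
    ring
  obtain ⟨t, n, hS, hg⟩ := use_fam h2 φ _ (r * s - r * s') 45 (-30) 11 (-2) LAR SAR 36 12 loopAR
    (by norm_num) hi hgq (hp.sub hp') hzz (normSq_lt_of φ _ 6 36 hb (by norm_num))
  simp only [SAR, List.mem_cons, Prod.mk.injEq, List.not_mem_nil, or_false] at hS
  rcases hS with ⟨rfl, rfl⟩ | ⟨rfl, rfl⟩ | ⟨rfl, rfl⟩
  · have h0 : r ≠ 0 := by
      intro h; rw [h, zero_mul] at hrr; norm_num at hrr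
    have hl : (r + 3) ^ 2 - 1 * (r + 3) + 3 = 0 := by
      have := hg; push_cast at this; linear_combination this
    have h1 : r' = (-2) + (-1) * (r + 3) := by
      apply mul_left_cancel₀ h0
      linear_combination hrr - (-1) * hl
    left
    have h2' : (s - 1) * (s - (-1)) = 0 := by
      linear_combination s * hsum - hss - s * h1
    rcases mul_eq_zero.1 h2' with h | h
    · exact ⟨1, by push_cast; linear_combination h⟩
    · exact ⟨(-1), by push_cast; linear_combination h⟩
  · have h0 : r ≠ 0 := by
      intro h; rw [h, zero_mul] at hrr; norm_num at hrr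
    have hl : (r + 3) ^ 2 - 0 * (r + 3) + 9 = 0 := by
      have := hg; push_cast at this; linear_combination this
    have h1 : r' = (-3 / 2) + (-1 / 2) * (r + 3) := by
      apply mul_left_cancel₀ h0
      linear_combination hrr - (-1 / 2) * hl
    have h3 : s + s' = (-1 / 2) + (-1 / 2) * (r + 3) := by
      linear_combination hsum - h1
    right
    refine Or.inl <| ?_
    rw [h3]
    linear_combination (1 / 2) * hl
  · have h0 : r ≠ 0 := by
      intro h; rw [h, zero_mul] at hrr; norm_num at hrr
    have hl : (r + 3) ^ 2 - (-2) * (r + 3) + 12 = 0 := by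
      have := hg; push_cast at this; linear_combination this
    have h1 : r' = (-5 / 3) + (-1 / 3) * (r + 3) := by
      apply mul_left_cancel₀ h0
      linear_combination hrr - (-1 / 3) * hl
    have h3 : s + s' = (-1 / 3) + (-2 / 3) * (r + 3) := by
      linear_combination hsum - h1
    right
    refine Or.inr <| Or.inr <| Or.inr <| Or.inl <| ?_
    rw [h3]
    linear_combination (4 / 3) * hl

theorem A_S [IsTotallyComplex K] (h2 : Module.finrank ℚ K = 2) (r r' s s' : K)
    (hrr : r * r' = 9) (hss : s * s' = -1) (hsum : r + r' + s + s' + 5 = 0)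
    (hp : IsIntegral ℤ (s * r)) (hp' : IsIntegral ℤ (s * r')) :
    (∃ q : ℚ, s = q) ∨ PA (s + s') := by
  obtain ⟨φ⟩ : Nonempty (K →+* ℂ) := inferInstance
  by_cases hsq : ∃ q : ℚ, s = q
  · exact Or.inl hsq
  push Not at hsq
  obtain ⟨hi, hb⟩ := rtype h2 φ (-1) 9 5 (-2) (by norm_num) (by norm_num) (by norm_num) 16
    (by
      intro ρ g x y hρ hg hx hy hxy hm
      norm_num at hg hy hxy hm
      exact ineqAS ρ g x y hρ (by linarith) hx hy hxy (by linarith)) s r r' (by push_cast; exact hrr)
    (by push_cast; linear_combination s * hsum - hss) hp hp' hsq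
  have hgq := rat_int_sub s (5 - -2) hsq
  have hzz : (s * r - s * r') ^ 2 = ((-1595 : ℤ) : K) + ((270 : ℤ) : K) * (s + ((5 - -2 : ℤ) : K)) +
      ((71 : ℤ) : K) * (s + ((5 - -2 : ℤ) : K)) ^ 2 +
      ((-18 : ℤ) : K) * (s + ((5 - -2 : ℤ) : K)) ^ 3 + (s + ((5 - -2 : ℤ) : K)) ^ 4 := by
    have e : s * (r + r') = -(s ^ 2 + 5 * s - 1) := by linear_combination s * hsum - hss
    have hz : (s * r - s * r') ^ 2 = (s * (r + r')) ^ 2 - 4 * s ^ 2 * (r * r') := by ring
    rw [hz, e, hrr]
    push_cast
    ring
  obtain ⟨t, n, hS, hg⟩ := use_fam h2 φ _ (s * r - s * r') (-1595) 270 71 (-18) LAS SAS 256 32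
    loopAS (by norm_num) hi hgq (hp.sub hp') hzz (normSq_lt_of φ _ 16 256 hb (by norm_num))
  simp only [SAS, List.mem_cons, Prod.mk.injEq, List.not_mem_nil, or_false] at hS
  rcases hS with ⟨rfl, rfl⟩ | ⟨rfl, rfl⟩ | ⟨rfl, rfl⟩
  · have h0 : s ≠ 0 := by
      intro h; rw [h, zero_mul] at hss; norm_num at hss
    have hl : (s + 7) ^ 2 - 12 * (s + 7) + 37 = 0 := by
      have := hg; push_cast at this; linear_combination this
    have h1 : s' = (-5 / 2) + (1 / 2) * (s + 7) := by
      apply mul_left_cancel₀ h0
      linear_combination hss - (1 / 2) * hl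
    have h3 : s + s' = (-19 / 2) + (3 / 2) * (s + 7) := by
      linear_combination h1
    right
    refine Or.inl <| ?_
    rw [h3]
    linear_combination (9 / 2) * hl
  · have h0 : s ≠ 0 := by
      intro h; rw [h, zero_mul] at hss; norm_num at hss
    have hl : (s + 7) ^ 2 - 10 * (s + 7) + 49 = 0 := by
      have := hg; push_cast at this; linear_combination this
    have h1 : s' = (-3 / 28) + (1 / 28) * (s + 7) := by
      apply mul_left_cancel₀ h0
      linear_combination hss - (1 / 28) * hl
    have h3 : s + s' = (-199 / 28) + (29 / 28) * (s + 7) := by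
      linear_combination h1
    right
    refine Or.inr <| Or.inl <| ?_
    rw [h3]
    linear_combination (841 / 28) * hl
  · have h0 : s ≠ 0 := by
      intro h; rw [h, zero_mul] at hss; norm_num at hss
    have hl : (s + 7) ^ 2 - 15 * (s + 7) + 59 = 0 := by
      have := hg; push_cast at this; linear_combination this
    have h1 : s' = (-8 / 3) + (1 / 3) * (s + 7) := by
      apply mul_left_cancel₀ h0
      linear_combination hss - (1 / 3) * hl
    have h3 : s + s' = (-29 / 3) + (4 / 3) * (s + 7) := by
      linear_combination h1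
    right
    refine Or.inr <| Or.inr <| Or.inr <| Or.inl <| ?_
    rw [h3]
    linear_combination (16 / 3) * hl

theorem A_T [IsTotallyComplex K] (h2 : Module.finrank ℚ K = 2) (r r' s s' : K)
    (hrr : r * r' = 9) (hss : s * s' = -1) (hsum : r + r' + s + s' + 5 = 0)
    (hp : IsIntegral ℤ (r * s)) (hp' : IsIntegral ℤ (r' * s')) :
    (∃ q : ℚ, s = q) ∨ PA (s + s') := by
  obtain ⟨φ⟩ : Nonempty (K →+* ℂ) := inferInstance
  have hs0 : s ≠ 0 := by
    intro h; rw [h, zero_mul] at hss; norm_num at hss
  obtain ⟨hi, hzi, hS, hZ, hb, hE⟩ := ttype h2 φ 9 (-1) 2 2 (by norm_num) (by norm_num) r r' s s'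
    (by push_cast; exact hrr) (by push_cast; exact hss) (by push_cast; linear_combination hsum)
    hp hp'
  have hb' : Complex.normSq (φ (2 * (r + s' + ((2 : ℤ) : K)) + 1)) ≤ ((47 : ℤ) : ℝ) :=
    hb.trans (by norm_num)
  clear hb
  set g : K := r + s' + ((2 : ℤ) : K) with hgdef
  push_cast at hS hZ hE
  have hE : s * (9 + r * s) = -(r * s) * (g + 2 + 1) := by linear_combination hE
  by_cases hgq : ∃ q : ℚ, g = q
  · obtain ⟨q, hq⟩ := hgq
    left
    have h3 : ∃ x : ℚ, r * s = x := by
      refine rat_of_disc h2 (r * s) (q ^ 2 + q + 2) (-9) ?_ (by nlinarith [sq_nonneg (q ^ 2 + q + 2)])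
      push_cast
      rw [← hq]
      linear_combination (r * s) * hS - s * s' * hrr - 9 * hss
    obtain ⟨x, hx⟩ := h3
    by_cases h9 : (9 : K) + r * s = 0
    · have h4 : s = -r' := by
        have hr0 : r ≠ 0 := by
          intro h; rw [h, zero_mul] at hrr; norm_num at hrr
        apply mul_left_cancel₀ hr0
        linear_combination h9 + hrr
      refine ⟨2, ?_⟩
      push_cast
      have h5 : s * (r + s' + 5) = 0 := by linear_combination s * hsum - s * h4
      rcases mul_eq_zero.1 h5 with h | h
      · exact absurd h hs0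
      · linear_combination (1 / 5) * (s * h - h9 - hss)
    · refine ⟨-x * (q + 2 + 1) / (9 + x), ?_⟩
      rw [hx] at h9 hE
      push_cast
      rw [← hq, eq_div_iff h9]
      exact hE
  push Not at hgq
  obtain ⟨t, n, hM, hg⟩ := use_famT h2 φ g (r * s - r' * s') 47 40 4 5 2 LTA STA 16 8 loopTA
    (by
      intro t n h1 h3
      have h4 : (t + 1) ^ 2 < 48 := by nlinarith
      have h5 : -8 ≤ t := by nlinarith
      have h6 : t ≤ 8 := by nlinarith
      refine ⟨?_, by exact_mod_cast h5, by exact_mod_cast h6⟩
      push_cast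
      have : -7 ≤ t := by
        by_contra h7
        have : t = -8 := by omega
        subst this
        norm_num at h4
      omega)
    hi hgq hzi (by rw [hZ]; push_cast; ring) hb'
  simp only [STA, List.mem_cons, Prod.mk.injEq, List.not_mem_nil, or_false] at hM
  rcases hM with ⟨rfl, rfl⟩ | ⟨rfl, rfl⟩ | ⟨rfl, rfl⟩ | ⟨rfl, rfl⟩ | ⟨rfl, rfl⟩ | ⟨rfl, rfl⟩
  · have hl : g ^ 2 - (-1) * g + 2 = 0 := by
      have := hg; push_cast at this; linear_combination this
    have hzz : (r * s - r' * s') ^ 2 = (6 + 0 * g) ^ 2 := by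
      rw [hZ]
      linear_combination (1 * g ^ 2 + 1 * g + 2) * hl
    rcases sq_eq_sq_iff_eq_or_eq_neg.1 hzz with hz | hz
    · have hpp : r * s = 3 + 0 * g := by
        linear_combination (1 / 2) * hS + (1 / 2) * hz - (1 / 2) * hl
      have hne : 9 + (3 + 0 * g) ≠ 0 := by
        have := lin_ne hgq 12 0 (by norm_num)
        push_cast at this
        intro h; apply this; linear_combination h
      have hs1 : s = (-3 / 4) + (-1 / 4) * g := by
        apply mul_left_cancel₀ hne
        rw [hpp] at hE
        linear_combination hE - 0 * hl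
      have hs2 : s' = 1 + (-1 / 2) * g := by
        apply mul_left_cancel₀ hs0
        rw [hss, hs1]
        linear_combination (-1 / 8) * hl
      right
      refine Or.inr <| Or.inr <| Or.inl <| ?_
      rw [hs1, hs2]
      linear_combination (9 / 2) * hl
    · have hpp : r * s = (-3) + 0 * g := by
        linear_combination (1 / 2) * hS + (1 / 2) * hz - (1 / 2) * hl
      have hne : 9 + ((-3) + 0 * g) ≠ 0 := by
        have := lin_ne hgq 6 0 (by norm_num)
        push_cast at this
        intro h; apply this; linear_combination h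
      have hs1 : s = (3 / 2) + (1 / 2) * g := by
        apply mul_left_cancel₀ hne
        rw [hpp] at hE
        linear_combination hE - 0 * hl
      have hs2 : s' = (-1 / 2) + (1 / 4) * g := by
        apply mul_left_cancel₀ hs0
        rw [hss, hs1]
        linear_combination (-1 / 8) * hl
      right
      refine Or.inr <| Or.inr <| Or.inl <| ?_
      rw [hs1, hs2]
      linear_combination (9 / 2) * hl
  · have hl : g ^ 2 - 1 * g + 3 = 0 := by
      have := hg; push_cast at this; linear_combination this
    have hzz : (r * s - r' * s') ^ 2 = (5 + 0 * g) ^ 2 := by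
      rw [hZ]
      linear_combination (1 * g ^ 2 + 3 * g + 5) * hl
    rcases sq_eq_sq_iff_eq_or_eq_neg.1 hzz with hz | hz
    · have hpp : r * s = 3 + (-1) * g := by
        linear_combination (1 / 2) * hS + (1 / 2) * hz - (1 / 2) * hl
      have hne : 9 + (3 + (-1) * g) ≠ 0 := by
        have := lin_ne hgq 12 (-1) (by norm_num)
        push_cast at this
        intro h; apply this; linear_combination h
      have hs1 : s = (-1) + 0 * g := by
        apply mul_left_cancel₀ hne
        rw [hpp] at hE
        linear_combination hE - (-1) * hl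
      have hs2 : s' = 1 + 0 * g := by
        apply mul_left_cancel₀ hs0
        rw [hss, hs1]
        linear_combination 0 * hl
      left
      exact ⟨(-1), by rw [hs1]; push_cast; ring⟩
    · have hpp : r * s = (-2) + (-1) * g := by
        linear_combination (1 / 2) * hS + (1 / 2) * hz - (1 / 2) * hl
      have hne : 9 + ((-2) + (-1) * g) ≠ 0 := by
        have := lin_ne hgq 7 (-1) (by norm_num)
        push_cast at this
        intro h; apply this; linear_combination h
      have hs1 : s = 0 + 1 * g := by
        apply mul_left_cancel₀ hne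
        rw [hpp] at hE
        linear_combination hE - (-2) * hl
      have hs2 : s' = (-1 / 3) + (1 / 3) * g := by
        apply mul_left_cancel₀ hs0
        rw [hss, hs1]
        linear_combination (-1 / 3) * hl
      right
      refine Or.inr <| Or.inr <| Or.inr <| Or.inl <| ?_
      rw [hs1, hs2]
      linear_combination (16 / 3) * hl
  · have hl : g ^ 2 - (-3) * g + 5 = 0 := by
      have := hg; push_cast at this; linear_combination this
    have hzz : (r * s - r' * s') ^ 2 = (5 + 0 * g) ^ 2 := by
      rw [hZ]
      linear_combination (1 * g ^ 2 + (-1) * g + 3) * hl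
    rcases sq_eq_sq_iff_eq_or_eq_neg.1 hzz with hz | hz
    · have hpp : r * s = 4 + 1 * g := by
        linear_combination (1 / 2) * hS + (1 / 2) * hz - (1 / 2) * hl
      have hne : 9 + (4 + 1 * g) ≠ 0 := by
        have := lin_ne hgq 13 1 (by norm_num)
        push_cast at this
        intro h; apply this; linear_combination h
      have hs1 : s = (-2 / 3) + (-1 / 3) * g := by
        apply mul_left_cancel₀ hne
        rw [hpp] at hE
        linear_combination hE - (2 / 3) * hl
      have hs2 : s' = (-1) + (-1) * g := by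
        apply mul_left_cancel₀ hs0
        rw [hss, hs1]
        linear_combination (-1 / 3) * hl
      right
      refine Or.inr <| Or.inr <| Or.inr <| Or.inl <| ?_
      rw [hs1, hs2]
      linear_combination (16 / 3) * hl
    · have hpp : r * s = (-1) + 1 * g := by
        linear_combination (1 / 2) * hS + (1 / 2) * hz - (1 / 2) * hl
      have hne : 9 + ((-1) + 1 * g) ≠ 0 := by
        have := lin_ne hgq 8 1 (by norm_num)
        push_cast at this
        intro h; apply this; linear_combination h
      have hs1 : s = 1 + 0 * g := by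
        apply mul_left_cancel₀ hne
        rw [hpp] at hE
        linear_combination hE - 1 * hl
      have hs2 : s' = (-1) + 0 * g := by
        apply mul_left_cancel₀ hs0
        rw [hss, hs1]
        linear_combination 0 * hl
      left
      exact ⟨1, by rw [hs1]; push_cast; ring⟩
  · have hl : g ^ 2 - 2 * g + 5 = 0 := by
      have := hg; push_cast at this; linear_combination this
    have hz : r * s - r' * s' = 0 := by
      apply pow_eq_zero_iff (two_ne_zero) |>.1
      rw [hZ]
      linear_combination (1 * g ^ 2 + 4 * g + 8) * hl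
    have hpp : r * s = (3 / 2) + (-3 / 2) * g := by
      linear_combination (1 / 2) * hS + (1 / 2) * hz - (1 / 2) * hl
    have hne : 9 + ((3 / 2) + (-3 / 2) * g) ≠ 0 := by
      have := lin_ne hgq (21 / 2) (-3 / 2) (by norm_num)
      push_cast at this
      intro h; apply this; linear_combination h
    have hs1 : s = (-3 / 2) + (1 / 2) * g := by
      apply mul_left_cancel₀ hne
      rw [hpp] at hE
      linear_combination hE - (-9 / 4) * hl
    have hs2 : s' = (1 / 4) + (1 / 4) * g := by
      apply mul_left_cancel₀ hs0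
      rw [hss, hs1]
      linear_combination (-1 / 8) * hl
    right
    refine Or.inl <| ?_
    rw [hs1, hs2]
    linear_combination (9 / 8) * hl
  · have hl : g ^ 2 - (-4) * g + 8 = 0 := by
      have := hg; push_cast at this; linear_combination this
    have hz : r * s - r' * s' = 0 := by
      apply pow_eq_zero_iff (two_ne_zero) |>.1
      rw [hZ]
      linear_combination (1 * g ^ 2 + (-2) * g + 5) * hl
    have hpp : r * s = 3 + (3 / 2) * g := by
      linear_combination (1 / 2) * hS + (1 / 2) * hz - (1 / 2) * hl
    have hne : 9 + (3 + (3 / 2) * g) ≠ 0 := by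
      have := lin_ne hgq 12 (3 / 2) (by norm_num)
      push_cast at this
      intro h; apply this; linear_combination h
    have hs1 : s = 0 + (-1 / 4) * g := by
      apply mul_left_cancel₀ hne
      rw [hpp] at hE
      linear_combination hE - (9 / 8) * hl
    have hs2 : s' = (-2) + (-1 / 2) * g := by
      apply mul_left_cancel₀ hs0
      rw [hss, hs1]
      linear_combination (-1 / 8) * hl
    right
    refine Or.inl <| ?_
    rw [hs1, hs2]
    linear_combination (9 / 8) * hl
  · have hl : g ^ 2 - (-1) * g + 10 = 0 := by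
      have := hg; push_cast at this; linear_combination this
    have hzz : (r * s - r' * s') ^ 2 = (10 + 0 * g) ^ 2 := by
      rw [hZ]
      linear_combination (1 * g ^ 2 + 1 * g + (-6)) * hl
    rcases sq_eq_sq_iff_eq_or_eq_neg.1 hzz with hz | hz
    · have hpp : r * s = 9 + 0 * g := by
        linear_combination (1 / 2) * hS + (1 / 2) * hz - (1 / 2) * hl
      have hne : 9 + (9 + 0 * g) ≠ 0 := by
        have := lin_ne hgq 18 0 (by norm_num)
        push_cast at this
        intro h; apply this; linear_combination h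
      have hs1 : s = (-3 / 2) + (-1 / 2) * g := by
        apply mul_left_cancel₀ hne
        rw [hpp] at hE
        linear_combination hE - 0 * hl
      have hs2 : s' = (1 / 4) + (-1 / 8) * g := by
        apply mul_left_cancel₀ hs0
        rw [hss, hs1]
        linear_combination (-1 / 16) * hl
      right
      refine Or.inr <| Or.inr <| Or.inr <| Or.inr <| ?_
      rw [hs1, hs2]
      linear_combination (25 / 4) * hl
    · have hpp : r * s = (-1) + 0 * g := by
        linear_combination (1 / 2) * hS + (1 / 2) * hz - (1 / 2) * hl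
      have hne : 9 + ((-1) + 0 * g) ≠ 0 := by
        have := lin_ne hgq 8 0 (by norm_num)
        push_cast at this
        intro h; apply this; linear_combination h
      have hs1 : s = (3 / 8) + (1 / 8) * g := by
        apply mul_left_cancel₀ hne
        rw [hpp] at hE
        linear_combination hE - 0 * hl
      have hs2 : s' = (-1) + (1 / 2) * g := by
        apply mul_left_cancel₀ hs0
        rw [hss, hs1]
        linear_combination (-1 / 16) * hl
      right
      refine Or.inr <| Or.inr <| Or.inr <| Or.inr <| ?_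
      rw [hs1, hs2]
      linear_combination (25 / 4) * hl

end RG
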