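import Pool.Agent.Lib.MP_87c685_nt_RG.ACases

/-!
# The curve `r + 5/r + s + 3/s + 1 = 0`, i.e. `X(s3, b5)`
-/

set_option autoImplicit false

open NumberField

namespace RG

variable {K : Type*} [Field K] [NumberField K]

/-- the exceptional values of `s + 3/s` -/
def PB (x : K) : Prop :=
  16 * x ^ 2 + 14 * x + 7 = 0 ∨ 15 * x ^ 2 - 98 * x + 163 = 0 ∨ 24 * x ^ 2 + 22 * x + 199 = 0


theorem B_R [IsTotallyComplex K] (h2 : Module.finrank ℚ K = 2) (r r' s s' : K)
    (hrr : r * r' = 5) (hss : s * s' = 3) (hsum : r + r' + s + s' + 1 = 0)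
    (hp : IsIntegral ℤ (r * s)) (hp' : IsIntegral ℤ (r * s')) :
    (∃ q : ℚ, s = q) ∨ PB (s + s') := by
  obtain ⟨φ⟩ : Nonempty (K →+* ℂ) := inferInstance
  by_cases hrq : ∃ q : ℚ, r = q
  · obtain ⟨q, hq⟩ := hrq
    left
    have hr0 : r ≠ 0 := by
      intro h; rw [h, zero_mul] at hrr; norm_num at hrr
    have hr' : r' = 5 / r := by field_simp; linear_combination hrr
    have hq0 : q ≠ 0 := by
      intro h; apply hr0; rw [hq, h]; simp
    have hx : (q + 5 / q) ^ 2 - 20 = (q - 5 / q) ^ 2 := by field_simp; ring
    have hx' : 20 ≤ (q + 5 / q) ^ 2 := by nlinarith [sq_nonneg (q - 5 / q)]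
    apply rat_of_disc h2 s (q + 5 / q + 1) 3
    · push_cast
      rw [← hq, ← hr']
      linear_combination s * hsum - hss
    · set x := q + 5 / q
      rcases le_total 0 x with h | h
      · nlinarith
      · have : x < -(44641 / 10000) := by
          by_contra h4
          push Not at h4
          nlinarith
        nlinarith
  push Not at hrq
  obtain ⟨hi, hb⟩ := rtype h2 φ 5 3 1 2 (by norm_num) (by norm_num) (by norm_num) 5
    (by
      intro ρ g x y hρ hg hx hy hxy hm
      norm_num at hg hy hxy hm
      exact ineqBR ρ g x y hρ (by linarith) hx hy hxy (by linarith)) r s s' (by push_cast; exact hss)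
    (by push_cast; linear_combination r * hsum - hrr) hp hp' hrq
  have hgq := rat_int_sub r (1 - 2) hrq
  have hzz : (r * s - r * s') ^ 2 = ((37 : ℤ) : K) + ((18 : ℤ) : K) * (r + ((1 - 2 : ℤ) : K)) +
      ((11 : ℤ) : K) * (r + ((1 - 2 : ℤ) : K)) ^ 2 + ((6 : ℤ) : K) * (r + ((1 - 2 : ℤ) : K)) ^ 3 +
      (r + ((1 - 2 : ℤ) : K)) ^ 4 := by
    have e : r * (s + s') = -(r ^ 2 + r + 5) := by linear_combination r * hsum - hrr
    have hz : (r * s - r * s') ^ 2 = (r * (s + s')) ^ 2 - 4 * r ^ 2 * (s * s') := by ring
    rw [hz, e, hss]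
    push_cast
    ring
  obtain ⟨t, n, hS, hg⟩ := use_fam h2 φ _ (r * s - r * s') 37 18 11 6 LBR SBR 25 10 loopBR
    (by norm_num) hi hgq (hp.sub hp') hzz (normSq_lt_of φ _ 5 25 hb (by norm_num))
  simp only [SBR, List.mem_cons, Prod.mk.injEq, List.not_mem_nil, or_false] at hS
  obtain ⟨rfl, rfl⟩ := hS
  · have h0 : r ≠ 0 := by
      intro h; rw [h, zero_mul] at hrr; norm_num at hrr
    have hl : (r + -1) ^ 2 - 1 * (r + -1) + 3 = 0 := by
      have := hg; push_cast at this; linear_combination this
    have h1 : r' = 2 + (-1) * (r + -1) := by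
      apply mul_left_cancel₀ h0
      linear_combination hrr - (-1) * hl
    left
    have h2' : (s - (-1)) * (s - (-3)) = 0 := by
      linear_combination s * hsum - hss - s * h1
    rcases mul_eq_zero.1 h2' with h | h
    · exact ⟨(-1), by push_cast; linear_combination h⟩
    · exact ⟨(-3), by push_cast; linear_combination h⟩

theorem B_S [IsTotallyComplex K] (h2 : Module.finrank ℚ K = 2) (r r' s s' : K)
    (hrr : r * r' = 5) (hss : s * s' = 3) (hsum : r + r' + s + s' + 1 = 0)
    (hp : IsIntegral ℤ (s * r)) (hp' : IsIntegral ℤ (s * r')) :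
    (∃ q : ℚ, s = q) ∨ PB (s + s') := by
  obtain ⟨φ⟩ : Nonempty (K →+* ℂ) := inferInstance
  by_cases hsq : ∃ q : ℚ, s = q
  · exact Or.inl hsq
  push Not at hsq
  obtain ⟨hi, hb⟩ := rtype h2 φ 3 5 1 (-2) (by norm_num) (by norm_num) (by norm_num) 7
    (by
      intro ρ g x y hρ hg hx hy hxy hm
      norm_num at hg hy hxy hm
      exact ineqBS ρ g x y hρ (by linarith) hx hy hxy (by linarith)) s r r' (by push_cast; exact hrr)
    (by push_cast; linear_combination s * hsum - hss) hp hp' hsq
  have hgq := rat_int_sub s (1 - -2) hsq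
  have hzz : (s * r - s * r') ^ 2 = ((-99 : ℤ) : K) + ((30 : ℤ) : K) * (s + ((1 - -2 : ℤ) : K)) +
      ((23 : ℤ) : K) * (s + ((1 - -2 : ℤ) : K)) ^ 2 +
      ((-10 : ℤ) : K) * (s + ((1 - -2 : ℤ) : K)) ^ 3 + (s + ((1 - -2 : ℤ) : K)) ^ 4 := by
    have e : s * (r + r') = -(s ^ 2 + s + 3) := by linear_combination s * hsum - hss
    have hz : (s * r - s * r') ^ 2 = (s * (r + r')) ^ 2 - 4 * s ^ 2 * (r * r') := by ring
    rw [hz, e, hrr]
    push_cast
    ring
  obtain ⟨t, n, hS, hg⟩ := use_fam h2 φ _ (s * r - s * r') (-99) 30 23 (-10) LBS [] 49 14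
    loopBS (by norm_num) hi hgq (hp.sub hp') hzz (normSq_lt_of φ _ 7 49 hb (by norm_num))
  simp at hS

theorem B_T [IsTotallyComplex K] (h2 : Module.finrank ℚ K = 2) (r r' s s' : K)
    (hrr : r * r' = 5) (hss : s * s' = 3) (hsum : r + r' + s + s' + 1 = 0)
    (hp : IsIntegral ℤ (r * s)) (hp' : IsIntegral ℤ (r' * s')) :
    (∃ q : ℚ, s = q) ∨ PB (s + s') := by
  obtain ⟨φ⟩ : Nonempty (K →+* ℂ) := inferInstance
  have hs0 : s ≠ 0 := by
    intro h; rw [h, zero_mul] at hss; norm_num at hss
  obtain ⟨hi, hzi, hS, hZ, hb, hE⟩ := ttype h2 φ 5 3 0 8 (by norm_num) (by norm_num) r r' s s'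
    (by push_cast; exact hrr) (by push_cast; exact hss) (by push_cast; linear_combination hsum)
    hp hp'
  have hb' : Complex.normSq (φ (2 * (r + s' + ((0 : ℤ) : K)) + 1)) ≤ ((95 : ℤ) : ℝ) :=
    hb.trans (by norm_num)
  clear hb
  set g : K := r + s' + ((0 : ℤ) : K) with hgdef
  push_cast at hS hZ hE
  have hE : s * (5 + r * s) = -(r * s) * (g + 0 + 1) := by linear_combination hE
  by_cases hgq : ∃ q : ℚ, g = q
  · obtain ⟨q, hq⟩ := hgq
    left
    have h3 : ∃ x : ℚ, r * s = x := by
      refine rat_of_disc h2 (r * s) (q ^ 2 + q + 8) 15 ?_ ?_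
      · push_cast
        rw [← hq]
        linear_combination (r * s) * hS - s * s' * hrr - 5 * hss
      · have : 31 / 4 ≤ q ^ 2 + q + 8 := by nlinarith [sq_nonneg (q + 1 / 2)]
        nlinarith
    obtain ⟨x, hx⟩ := h3
    by_cases h9 : (5 : K) + r * s = 0
    · have h4 : s = -r' := by
        have hr0 : r ≠ 0 := by
          intro h; rw [h, zero_mul] at hrr; norm_num at hrr
        apply mul_left_cancel₀ hr0
        linear_combination h9 + hrr
      refine ⟨2, ?_⟩
      push_cast
      have h5 : s * (r + s' + 1) = 0 := by linear_combination s * hsum - s * h4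
      rcases mul_eq_zero.1 h5 with h | h
      · exact absurd h hs0
      · linear_combination (s * h - h9 - hss)
    · refine ⟨-x * (q + 0 + 1) / (5 + x), ?_⟩
      rw [hx] at h9 hE
      push_cast
      rw [← hq, eq_div_iff h9]
      exact hE
  push Not at hgq
  obtain ⟨t, n, hM, hg⟩ := use_famT h2 φ g (r * s - r' * s') 95 4 16 17 2 LTB STB 29 10 loopTB
    (by
      intro t n h1 h3
      have h4 : (t + 1) ^ 2 < 96 := by nlinarith
      have h5 : -11 ≤ t := by nlinarith
      have h6 : t ≤ 10 := by nlinarith
      have : -10 ≤ t := by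
        by_contra h7
        have : t = -11 := by omega
        subst this
        norm_num at h4
      refine ⟨?_, by exact_mod_cast this, by exact_mod_cast h6⟩
      push_cast
      omega)
    hi hgq hzi (by rw [hZ]; push_cast; ring) hb'
  simp only [STB, List.mem_cons, Prod.mk.injEq, List.not_mem_nil, or_false] at hM
  rcases hM with ⟨rfl, rfl⟩ | ⟨rfl, rfl⟩ | ⟨rfl, rfl⟩ | ⟨rfl, rfl⟩
  · have hl : g ^ 2 - 1 * g + 3 = 0 := by
      have := hg; push_cast at this; linear_combination this
    have hzz : (r * s - r' * s') ^ 2 = (1 + 4 * g) ^ 2 := by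
      rw [hZ]
      linear_combination (1 * g ^ 2 + 3 * g + 1) * hl
    rcases sq_eq_sq_iff_eq_or_eq_neg.1 hzz with hz | hz
    · have hpp : r * s = (-2) + 1 * g := by
        linear_combination (1 / 2) * hS + (1 / 2) * hz - (1 / 2) * hl
      have hne : 5 + ((-2) + 1 * g) ≠ 0 := by
        have := lin_ne hgq 3 1 (by norm_num)
        push_cast at this
        intro h; apply this; linear_combination h
      have hs1 : s = (4 / 3) + (-1 / 3) * g := by
        apply mul_left_cancel₀ hne
        rw [hpp] at hE
        linear_combination hE - (2 / 3) * hl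
      have hs2 : s' = (9 / 5) + (3 / 5) * g := by
        apply mul_left_cancel₀ hs0
        rw [hss, hs1]
        linear_combination (1 / 5) * hl
      right
      refine Or.inr <| Or.inl <| ?_
      rw [hs1, hs2]
      linear_combination (16 / 15) * hl
    · have hpp : r * s = (-3) + (-3) * g := by
        linear_combination (1 / 2) * hS + (1 / 2) * hz - (1 / 2) * hl
      have hne : 5 + ((-3) + (-3) * g) ≠ 0 := by
        have := lin_ne hgq 2 (-3) (by norm_num)
        push_cast at this
        intro h; apply this; linear_combination h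
      have hs1 : s = (-3) + 0 * g := by
        apply mul_left_cancel₀ hne
        rw [hpp] at hE
        linear_combination hE - (-3) * hl
      have hs2 : s' = (-1) + 0 * g := by
        apply mul_left_cancel₀ hs0
        rw [hss, hs1]
        linear_combination 0 * hl
      left
      exact ⟨(-3), by rw [hs1]; push_cast; ring⟩
  · have hl : g ^ 2 - (-3) * g + 5 = 0 := by
      have := hg; push_cast at this; linear_combination this
    have hzz : (r * s - r' * s') ^ 2 = ((-3) + (-4) * g) ^ 2 := by
      rw [hZ]
      linear_combination (1 * g ^ 2 + (-1) * g + (-1)) * hl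
    rcases sq_eq_sq_iff_eq_or_eq_neg.1 hzz with hz | hz
    · have hpp : r * s = (-3) + (-1) * g := by
        linear_combination (1 / 2) * hS + (1 / 2) * hz - (1 / 2) * hl
      have hne : 5 + ((-3) + (-1) * g) ≠ 0 := by
        have := lin_ne hgq 2 (-1) (by norm_num)
        push_cast at this
        intro h; apply this; linear_combination h
      have hs1 : s = (-1) + 0 * g := by
        apply mul_left_cancel₀ hne
        rw [hpp] at hE
        linear_combination hE - (-1) * hl
      have hs2 : s' = (-3) + 0 * g := by
        apply mul_left_cancel₀ hs0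
        rw [hss, hs1]
        linear_combination 0 * hl
      left
      exact ⟨(-1), by rw [hs1]; push_cast; ring⟩
    · have hpp : r * s = 0 + 3 * g := by
        linear_combination (1 / 2) * hS + (1 / 2) * hz - (1 / 2) * hl
      have hne : 5 + (0 + 3 * g) ≠ 0 := by
        have := lin_ne hgq 5 3 (by norm_num)
        push_cast at this
        intro h; apply this; linear_combination h
      have hs1 : s = (6 / 5) + (-3 / 5) * g := by
        apply mul_left_cancel₀ hne
        rw [hpp] at hE
        linear_combination hE - (6 / 5) * hl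
      have hs2 : s' = (5 / 3) + (1 / 3) * g := by
        apply mul_left_cancel₀ hs0
        rw [hss, hs1]
        linear_combination (1 / 5) * hl
      right
      refine Or.inr <| Or.inl <| ?_
      rw [hs1, hs2]
      linear_combination (16 / 15) * hl
  · have hl : g ^ 2 - (-1) * g + 16 = 0 := by
      have := hg; push_cast at this; linear_combination this
    have hzz : (r * s - r' * s') ^ 2 = (2 + 0 * g) ^ 2 := by
      rw [hZ]
      linear_combination (1 * g ^ 2 + 1 * g + 0) * hl
    rcases sq_eq_sq_iff_eq_or_eq_neg.1 hzz with hz | hz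
    · have hpp : r * s = 5 + 0 * g := by
        linear_combination (1 / 2) * hS + (1 / 2) * hz - (1 / 2) * hl
      have hne : 5 + (5 + 0 * g) ≠ 0 := by
        have := lin_ne hgq 10 0 (by norm_num)
        push_cast at this
        intro h; apply this; linear_combination h
      have hs1 : s = (-1 / 2) + (-1 / 2) * g := by
        apply mul_left_cancel₀ hne
        rw [hpp] at hE
        linear_combination hE - 0 * hl
      have hs2 : s' = 0 + (3 / 8) * g := by
        apply mul_left_cancel₀ hs0
        rw [hss, hs1]
        linear_combination (3 / 16) * hl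
      right
      refine Or.inl <| ?_
      rw [hs1, hs2]
      linear_combination (1 / 4) * hl
    · have hpp : r * s = 3 + 0 * g := by
        linear_combination (1 / 2) * hS + (1 / 2) * hz - (1 / 2) * hl
      have hne : 5 + (3 + 0 * g) ≠ 0 := by
        have := lin_ne hgq 8 0 (by norm_num)
        push_cast at this
        intro h; apply this; linear_combination h
      have hs1 : s = (-3 / 8) + (-3 / 8) * g := by
        apply mul_left_cancel₀ hne
        rw [hpp] at hE
        linear_combination hE - 0 * hl
      have hs2 : s' = 0 + (1 / 2) * g := by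
        apply mul_left_cancel₀ hs0
        rw [hss, hs1]
        linear_combination (3 / 16) * hl
      right
      refine Or.inl <| ?_
      rw [hs1, hs2]
      linear_combination (1 / 4) * hl
  · have hl : g ^ 2 - (-1) * g + 24 = 0 := by
      have := hg; push_cast at this; linear_combination this
    have hzz : (r * s - r' * s') ^ 2 = (14 + 0 * g) ^ 2 := by
      rw [hZ]
      linear_combination (1 * g ^ 2 + 1 * g + (-8)) * hl
    rcases sq_eq_sq_iff_eq_or_eq_neg.1 hzz with hz | hz
    · have hpp : r * s = 15 + 0 * g := by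
        linear_combination (1 / 2) * hS + (1 / 2) * hz - (1 / 2) * hl
      have hne : 5 + (15 + 0 * g) ≠ 0 := by
        have := lin_ne hgq 20 0 (by norm_num)
        push_cast at this
        intro h; apply this; linear_combination h
      have hs1 : s = (-3 / 4) + (-3 / 4) * g := by
        apply mul_left_cancel₀ hne
        rw [hpp] at hE
        linear_combination hE - 0 * hl
      have hs2 : s' = 0 + (1 / 6) * g := by
        apply mul_left_cancel₀ hs0
        rw [hss, hs1]
        linear_combination (1 / 8) * hl
      right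
      refine Or.inr <| Or.inr <| ?_
      rw [hs1, hs2]
      linear_combination (49 / 6) * hl
    · have hpp : r * s = 1 + 0 * g := by
        linear_combination (1 / 2) * hS + (1 / 2) * hz - (1 / 2) * hl
      have hne : 5 + (1 + 0 * g) ≠ 0 := by
        have := lin_ne hgq 6 0 (by norm_num)
        push_cast at this
        intro h; apply this; linear_combination h
      have hs1 : s = (-1 / 6) + (-1 / 6) * g := by
        apply mul_left_cancel₀ hne
        rw [hpp] at hE
        linear_combination hE - 0 * hl
      have hs2 : s' = 0 + (3 / 4) * g := by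
        apply mul_left_cancel₀ hs0
        rw [hss, hs1]
        linear_combination (1 / 8) * hl
      right
      refine Or.inr <| Or.inr <| ?_
      rw [hs1, hs2]
      linear_combination (49 / 6) * hl

end RG
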