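import Mathlib

/-!
# The Runge bound
-/

set_option autoImplicit false

namespace RG

theorem core (γ β β' δ : ℂ) (m c0 κ0 : ℝ) (hκ : κ0 = c0 * m)
    (hprod : β * β' = -κ0 * (γ - m)) (hδ : δ = β * γ - κ0)
    (hrel : (γ - m) * δ = -(β * (β - c0))) (hle : ‖β‖ ≤ ‖β'‖) :
    ‖β‖ ^ 2 ≤ |κ0| * ‖γ - m‖ ∧ ‖δ‖ ≤ ‖β‖ * ‖γ‖ + |κ0| ∧ ‖γ‖ - |m| ≤ ‖γ - m‖ ∧
    ‖δ‖ * (‖γ - m‖ * ‖γ‖ ^ 2 - 2 * |κ0| - |c0| * ‖γ‖ - ‖δ‖) ≤ c0 ^ 2 * |m| * ‖γ - m‖ := by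
  refine ⟨?_, ?_, ?_, ?_⟩
  · have h1 : ‖β‖ * ‖β'‖ = |κ0| * ‖γ - m‖ := by
      rw [← norm_mul, hprod, norm_mul, norm_neg, Complex.norm_real, Real.norm_eq_abs]
    rw [← h1, pow_two]
    exact mul_le_mul_of_nonneg_left hle (norm_nonneg _)
  · rw [hδ]
    calc ‖β * γ - κ0‖ ≤ ‖β * γ‖ + ‖(κ0 : ℂ)‖ := norm_sub_le _ _
      _ = _ := by rw [norm_mul, Complex.norm_real, Real.norm_eq_abs]
  · have := norm_sub_norm_le γ (m : ℂ)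
    rw [Complex.norm_real, Real.norm_eq_abs] at this
    exact this
  · have hid : δ * ((γ - m) * γ ^ 2 - ((c0 : ℂ) * γ - δ - 2 * κ0)) = (c0 ^ 2 * m : ℂ) * (γ - m) := by
      have hκ' : (κ0 : ℂ) = c0 * m := by rw [hκ]; push_cast; ring
      have e : β * γ = δ + κ0 := by rw [hδ]; ring
      rw [hκ'] at e ⊢
      linear_combination γ ^ 2 * hrel - (β * γ + δ + c0 * m - c0 * γ) * e
    have h1 : ‖δ‖ * ‖(γ - m) * γ ^ 2 - ((c0 : ℂ) * γ - δ - 2 * κ0)‖ = c0 ^ 2 * |m| * ‖γ - m‖ := by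
      rw [← norm_mul, hid, norm_mul, norm_mul, norm_pow, Complex.norm_real, Complex.norm_real,
        Real.norm_eq_abs, Real.norm_eq_abs, sq_abs]
    rw [← h1]
    apply mul_le_mul_of_nonneg_left _ (norm_nonneg _)
    have h3 : ‖(γ - m) * γ ^ 2‖ - ‖(c0 : ℂ) * γ - δ - 2 * κ0‖ ≤
        ‖(γ - m) * γ ^ 2 - ((c0 : ℂ) * γ - δ - 2 * κ0)‖ := norm_sub_norm_le _ _
    have h4 : ‖(c0 : ℂ) * γ - δ - 2 * κ0‖ ≤ |c0| * ‖γ‖ + ‖δ‖ + 2 * |κ0| := by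
      calc ‖(c0 : ℂ) * γ - δ - 2 * κ0‖ ≤ ‖(c0 : ℂ) * γ - δ‖ + ‖(2 : ℂ) * κ0‖ := norm_sub_le _ _
        _ ≤ ‖(c0 : ℂ) * γ‖ + ‖δ‖ + ‖(2 : ℂ) * κ0‖ := by
          gcongr
          exact norm_sub_le _ _
        _ = _ := by
          rw [norm_mul, norm_mul, Complex.norm_real, Complex.norm_real, Real.norm_eq_abs,
            Real.norm_eq_abs]
          norm_num
    have h5 : ‖(γ - m) * γ ^ 2‖ = ‖γ - m‖ * ‖γ‖ ^ 2 := by rw [norm_mul, norm_pow]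
    rw [h5] at h3
    linarith

/-- the elementary inequality -/
theorem ineq (ρ g x y κ c P : ℝ) (hx : 1 ≤ x)
    (hy : y ^ 2 ≤ κ * g) (hxy : x ≤ y * ρ + κ)
    (hm : x * (g * ρ ^ 2 - 2 * κ - c * ρ - x) ≤ P * g) (hP : 0 ≤ P * g)
    (h1 : 2 * κ + c * ρ + 2 < g * (ρ ^ 2 - P))
    (h2 : 6 * κ + 2 * c * ρ + ρ ^ 2 < g * (2 * ρ ^ 2 - P - κ)) : False := by
  set Y := g * ρ ^ 2 - 2 * κ - c * ρ - x with hY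
  have hyr : 2 * (y * ρ) ≤ κ * g + ρ ^ 2 := by nlinarith [sq_nonneg (y - ρ)]
  rcases le_total x 2 with hx2 | hx2
  · have hYpos : P * g < Y := by nlinarith
    have hY0 : 0 ≤ Y := by linarith
    nlinarith
  · have hYle : 2 * Y ≤ P * g := by
      rcases le_total 0 Y with h | h
      · nlinarith
      · linarith
    nlinarith

theorem ineqAS (ρ g x y : ℝ) (hρ : 16 ≤ ρ) (hg : ρ - 9 ≤ g) (hx : 1 ≤ x)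
    (hy : y ^ 2 ≤ 45 * g) (hxy : x ≤ y * ρ + 45)
    (hm : x * (g * ρ ^ 2 - 2 * 45 - 5 * ρ - x) ≤ 225 * g) : False := by
  apply ineq ρ g x y 45 5 225 hx hy hxy hm (by linarith)
  · nlinarith [mul_nonneg (sub_nonneg.2 hρ) (sub_nonneg.2 hρ), mul_nonneg (mul_nonneg
      (sub_nonneg.2 hρ) (sub_nonneg.2 hρ)) (sub_nonneg.2 hρ),
      mul_nonneg (sub_nonneg.2 hg) (show 0 ≤ ρ ^ 2 - 225 by nlinarith)]
  · nlinarith [mul_nonneg (sub_nonneg.2 hρ) (sub_nonneg.2 hρ), mul_nonneg (mul_nonneg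
      (sub_nonneg.2 hρ) (sub_nonneg.2 hρ)) (sub_nonneg.2 hρ),
      mul_nonneg (sub_nonneg.2 hg) (show 0 ≤ 2 * ρ ^ 2 - 225 - 45 by nlinarith)]

theorem ineqAR (ρ g x y : ℝ) (hρ : 6 ≤ ρ) (hg : ρ - 1 ≤ g) (hx : 1 ≤ x)
    (hy : y ^ 2 ≤ 5 * g) (hxy : x ≤ y * ρ + 5)
    (hm : x * (g * ρ ^ 2 - 2 * 5 - 5 * ρ - x) ≤ 25 * g) : False := by
  apply ineq ρ g x y 5 5 25 hx hy hxy hm (by linarith)
  · nlinarith [mul_nonneg (sub_nonneg.2 hρ) (sub_nonneg.2 hρ), mul_nonneg (mul_nonneg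
      (sub_nonneg.2 hρ) (sub_nonneg.2 hρ)) (sub_nonneg.2 hρ),
      mul_nonneg (sub_nonneg.2 hg) (show 0 ≤ ρ ^ 2 - 25 by nlinarith)]
  · nlinarith [mul_nonneg (sub_nonneg.2 hρ) (sub_nonneg.2 hρ), mul_nonneg (mul_nonneg
      (sub_nonneg.2 hρ) (sub_nonneg.2 hρ)) (sub_nonneg.2 hρ),
      mul_nonneg (sub_nonneg.2 hg) (show 0 ≤ 2 * ρ ^ 2 - 25 - 5 by nlinarith)]

theorem ineqBR (ρ g x y : ℝ) (hρ : 5 ≤ ρ) (hg : ρ - 3 ≤ g) (hx : 1 ≤ x)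
    (hy : y ^ 2 ≤ 3 * g) (hxy : x ≤ y * ρ + 3)
    (hm : x * (g * ρ ^ 2 - 2 * 3 - 1 * ρ - x) ≤ 3 * g) : False := by
  apply ineq ρ g x y 3 1 3 hx hy hxy hm (by linarith)
  · nlinarith [mul_nonneg (sub_nonneg.2 hρ) (sub_nonneg.2 hρ), mul_nonneg (mul_nonneg
      (sub_nonneg.2 hρ) (sub_nonneg.2 hρ)) (sub_nonneg.2 hρ),
      mul_nonneg (sub_nonneg.2 hg) (show 0 ≤ ρ ^ 2 - 3 by nlinarith)]
  · nlinarith [mul_nonneg (sub_nonneg.2 hρ) (sub_nonneg.2 hρ), mul_nonneg (mul_nonneg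
      (sub_nonneg.2 hρ) (sub_nonneg.2 hρ)) (sub_nonneg.2 hρ),
      mul_nonneg (sub_nonneg.2 hg) (show 0 ≤ 2 * ρ ^ 2 - 3 - 3 by nlinarith)]

theorem ineqBS (ρ g x y : ℝ) (hρ : 7 ≤ ρ) (hg : ρ - 5 ≤ g) (hx : 1 ≤ x)
    (hy : y ^ 2 ≤ 5 * g) (hxy : x ≤ y * ρ + 5)
    (hm : x * (g * ρ ^ 2 - 2 * 5 - 1 * ρ - x) ≤ 5 * g) : False := by
  apply ineq ρ g x y 5 1 5 hx hy hxy hm (by linarith)
  · nlinarith [mul_nonneg (sub_nonneg.2 hρ) (sub_nonneg.2 hρ), mul_nonneg (mul_nonneg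
      (sub_nonneg.2 hρ) (sub_nonneg.2 hρ)) (sub_nonneg.2 hρ),
      mul_nonneg (sub_nonneg.2 hg) (show 0 ≤ ρ ^ 2 - 5 by nlinarith)]
  · nlinarith [mul_nonneg (sub_nonneg.2 hρ) (sub_nonneg.2 hρ), mul_nonneg (mul_nonneg
      (sub_nonneg.2 hρ) (sub_nonneg.2 hρ)) (sub_nonneg.2 hρ),
      mul_nonneg (sub_nonneg.2 hg) (show 0 ≤ 2 * ρ ^ 2 - 5 - 5 by nlinarith)]

end RG
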