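import Mathlib

/-!
# The elliptic curve `w^2 = X (X + 45) (X + 48)` has no rational point with `X > 0`,
# `w` rational and `X, X + 45, X + 48` in general position: complete 2-descent
-/

set_option autoImplicit false

namespace RG

theorem m3 (u v : ℤ) (h : (3 : ℤ) ∣ u ^ 2 + v ^ 2) : (3 : ℤ) ∣ u ∧ (3 : ℤ) ∣ v := by
  have key : ∀ u v : ZMod 3, u ^ 2 + v ^ 2 = 0 → u = 0 ∧ v = 0 := by decide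
  have h1 : ((u ^ 2 + v ^ 2 : ℤ) : ZMod 3) = 0 := (ZMod.intCast_zmod_eq_zero_iff_dvd _ 3).2 h
  push_cast at h1
  obtain ⟨h2, h3⟩ := key _ _ h1
  exact ⟨(ZMod.intCast_zmod_eq_zero_iff_dvd _ 3).1 h2, (ZMod.intCast_zmod_eq_zero_iff_dvd _ 3).1 h3⟩

theorem m5 (u v : ℤ) (h : (5 : ℤ) ∣ 3 * u ^ 2 - v ^ 2) : (5 : ℤ) ∣ u ∧ (5 : ℤ) ∣ v := by
  have key : ∀ u v : ZMod 5, 3 * u ^ 2 - v ^ 2 = 0 → u = 0 ∧ v = 0 := by decide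
  have h1 : ((3 * u ^ 2 - v ^ 2 : ℤ) : ZMod 5) = 0 := (ZMod.intCast_zmod_eq_zero_iff_dvd _ 5).2 h
  push_cast at h1
  obtain ⟨h2, h3⟩ := key _ _ h1
  exact ⟨(ZMod.intCast_zmod_eq_zero_iff_dvd _ 5).1 h2, (ZMod.intCast_zmod_eq_zero_iff_dvd _ 5).1 h3⟩

theorem d3 {d : ℤ} (h : (3 : ℤ) ∣ d ^ 2) : (3 : ℤ) ∣ d := Int.prime_three.dvd_of_dvd_pow h

theorem p5 : Prime (5 : ℤ) := by
  have : Nat.Prime 5 := by norm_num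
  exact Nat.prime_iff_prime_int.1 this

theorem d5 {d : ℤ} (h : (5 : ℤ) ∣ d ^ 2) : (5 : ℤ) ∣ d := p5.dvd_of_dvd_pow h

theorem d2 {d : ℤ} (h : (2 : ℤ) ∣ d ^ 2) : (2 : ℤ) ∣ d := Int.prime_two.dvd_of_dvd_pow h

section cases

variable {n d y z : ℤ} (h3 : ¬ ((3 : ℤ) ∣ n ∧ (3 : ℤ) ∣ d)) (h5 : ¬ ((5 : ℤ) ∣ n ∧ (5 : ℤ) ∣ d))
  (h2 : ¬ ((2 : ℤ) ∣ n ∧ (2 : ℤ) ∣ d))

include h3 in
theorem c12 (hB : n + 45 * d ^ 2 = y ^ 2) (hC : n + 48 * d ^ 2 = 2 * z ^ 2) : False := by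
  obtain ⟨⟨y1, rfl⟩, ⟨z1, rfl⟩⟩ := m3 y z ⟨z ^ 2 - d ^ 2, by linear_combination hC - hB⟩
  have hd := d3 (d := d) ⟨2 * z1 ^ 2 - y1 ^ 2, by linarith⟩
  exact h3 ⟨⟨3 * y1 ^ 2 - 15 * d ^ 2, by linarith⟩, hd⟩

include h3 in
theorem c16 (hB : n + 45 * d ^ 2 = y ^ 2) (hC : n + 48 * d ^ 2 = 6 * z ^ 2) : False := by
  obtain ⟨y1, rfl⟩ := d3 (d := y) ⟨2 * z ^ 2 - d ^ 2, by linarith⟩
  obtain ⟨⟨z1, rfl⟩, hd⟩ := m3 z d ⟨z ^ 2 - y1 ^ 2, by linarith⟩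
  exact h3 ⟨⟨3 * y1 ^ 2 - 15 * d ^ 2, by linarith⟩, hd⟩

include h3 in
theorem c31 (hB : n + 45 * d ^ 2 = 3 * y ^ 2) (hC : n + 48 * d ^ 2 = z ^ 2) : False := by
  obtain ⟨z1, rfl⟩ := d3 (d := z) ⟨y ^ 2 + d ^ 2, by linarith⟩
  obtain ⟨⟨y1, rfl⟩, hd⟩ := m3 y d ⟨z1 ^ 2, by linarith⟩
  exact h3 ⟨⟨9 * y1 ^ 2 - 15 * d ^ 2, by linarith⟩, hd⟩

include h3 in
theorem c32 (hB : n + 45 * d ^ 2 = 3 * y ^ 2) (hC : n + 48 * d ^ 2 = 2 * z ^ 2) : False := by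
  obtain ⟨z1, rfl⟩ := d3 (d := z) ⟨z ^ 2 - y ^ 2 - d ^ 2, by linarith⟩
  obtain ⟨⟨y1, rfl⟩, hd⟩ := m3 y d ⟨2 * z1 ^ 2, by linarith⟩
  exact h3 ⟨⟨9 * y1 ^ 2 - 15 * d ^ 2, by linarith⟩, hd⟩

include h3 in
theorem c51 (hB : n + 45 * d ^ 2 = 5 * y ^ 2) (hC : n + 48 * d ^ 2 = z ^ 2) : False := by
  obtain ⟨⟨y1, rfl⟩, ⟨z1, rfl⟩⟩ := m3 y z ⟨d ^ 2 + 2 * y ^ 2, by linarith⟩
  have hd := d3 (d := d) ⟨z1 ^ 2 - 5 * y1 ^ 2, by linarith⟩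
  exact h3 ⟨⟨15 * y1 ^ 2 - 15 * d ^ 2, by linarith⟩, hd⟩

include h3 in
theorem c56 (hB : n + 45 * d ^ 2 = 5 * y ^ 2) (hC : n + 48 * d ^ 2 = 6 * z ^ 2) : False := by
  obtain ⟨y1, rfl⟩ := d3 (d := y) ⟨2 * y ^ 2 - 2 * z ^ 2 + d ^ 2, by linarith⟩
  obtain ⟨⟨z1, rfl⟩, hd⟩ := m3 z d ⟨z ^ 2 - 5 * y1 ^ 2, by linarith⟩
  exact h3 ⟨⟨15 * y1 ^ 2 - 15 * d ^ 2, by linarith⟩, hd⟩

include h5 in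
theorem c151 (hB : n + 45 * d ^ 2 = 15 * y ^ 2) (hC : n + 48 * d ^ 2 = z ^ 2) : False := by
  obtain ⟨z1, rfl⟩ := d3 (d := z) ⟨5 * y ^ 2 + d ^ 2, by linarith⟩
  obtain ⟨hz, hd⟩ := m5 z1 d ⟨y ^ 2, by linarith⟩
  exact h5 ⟨⟨3 * y ^ 2 - 9 * d ^ 2, by linarith⟩, hd⟩

include h5 in
theorem c156 (hB : n + 45 * d ^ 2 = 15 * y ^ 2) (hC : n + 48 * d ^ 2 = 6 * z ^ 2) : False := by
  obtain ⟨hd, hz⟩ := m5 d z ⟨z ^ 2 - 3 * y ^ 2, by linarith⟩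
  exact h5 ⟨⟨3 * y ^ 2 - 9 * d ^ 2, by linarith⟩, hd⟩

include h3 in
theorem c152 {x : ℤ} (hA : n = 30 * x ^ 2) (hB : n + 45 * d ^ 2 = 15 * y ^ 2) : False := by
  have e : y ^ 2 - 2 * x ^ 2 = 3 * d ^ 2 := by linarith
  obtain ⟨⟨y1, rfl⟩, ⟨x1, rfl⟩⟩ := m3 y x ⟨x ^ 2 + d ^ 2, by linarith⟩
  have hd := d3 (d := d) ⟨y1 ^ 2 - 2 * x1 ^ 2, by linarith⟩
  exact h3 ⟨⟨90 * x1 ^ 2, by linarith⟩, hd⟩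

include h5 in
theorem c13 {x : ℤ} (hA : n = 3 * x ^ 2) (hB : n + 45 * d ^ 2 = y ^ 2) : False := by
  obtain ⟨y1, rfl⟩ := d3 (d := y) ⟨x ^ 2 + 15 * d ^ 2, by linarith⟩
  obtain ⟨x1, rfl⟩ := d3 (d := x) ⟨y1 ^ 2 - 5 * d ^ 2, by linarith⟩
  obtain ⟨⟨x2, rfl⟩, ⟨y2, rfl⟩⟩ := m5 x1 y1 ⟨-d ^ 2, by linarith⟩
  have hd := d5 (d := d) ⟨y2 ^ 2 - 3 * x2 ^ 2, by linarith⟩
  exact h5 ⟨⟨135 * x2 ^ 2, by linarith⟩, hd⟩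

include h5 in
theorem c33 {x : ℤ} (hA : n = x ^ 2) (hB : n + 45 * d ^ 2 = 3 * y ^ 2) : False := by
  obtain ⟨x1, rfl⟩ := d3 (d := x) ⟨y ^ 2 - 15 * d ^ 2, by linarith⟩
  obtain ⟨y1, rfl⟩ := d3 (d := y) ⟨x1 ^ 2 + 5 * d ^ 2, by linarith⟩
  obtain ⟨⟨y2, rfl⟩, ⟨x2, rfl⟩⟩ := m5 y1 x1 ⟨d ^ 2, by linarith⟩
  have hd := d5 (d := d) ⟨3 * y2 ^ 2 - x2 ^ 2, by linarith⟩
  exact h5 ⟨⟨45 * x2 ^ 2, by linarith⟩, hd⟩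

include h3 in
theorem c36 {x : ℤ} (hA : n = 2 * x ^ 2) (hB : n + 45 * d ^ 2 = 3 * y ^ 2) : False := by
  obtain ⟨x1, rfl⟩ := d3 (d := x) ⟨x ^ 2 + 15 * d ^ 2 - y ^ 2, by linarith⟩
  obtain ⟨y1, rfl⟩ := d3 (d := y) ⟨2 * x1 ^ 2 + 5 * d ^ 2, by linarith⟩
  obtain ⟨⟨x2, rfl⟩, hd⟩ := m3 x1 d ⟨x1 ^ 2 + 2 * d ^ 2 - y1 ^ 2, by linarith⟩
  exact h3 ⟨⟨54 * x2 ^ 2, by linarith⟩, hd⟩

include h3 in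
theorem c153 {x : ℤ} (hA : n = 5 * x ^ 2) (hB : n + 45 * d ^ 2 = 15 * y ^ 2) : False := by
  obtain ⟨x1, rfl⟩ := d3 (d := x) ⟨y ^ 2 - 3 * d ^ 2, by linarith⟩
  obtain ⟨y1, rfl⟩ := d3 (d := y) ⟨x1 ^ 2 + d ^ 2, by linarith⟩
  obtain ⟨⟨x2, rfl⟩, hd⟩ := m3 x1 d ⟨y1 ^ 2, by linarith⟩
  exact h3 ⟨⟨135 * x2 ^ 2, by linarith⟩, hd⟩

theorem odd_sq {u : ℤ} (h : ¬ (2 : ℤ) ∣ u) : ∃ m : ℤ, u ^ 2 = 8 * m + 1 := by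
  obtain ⟨w, rfl⟩ : ∃ w, u = 2 * w + 1 := ⟨u / 2, by omega⟩
  have h1 : (2 : ℤ) ∣ w * (w + 1) := Int.even_mul_succ_self w |>.two_dvd
  obtain ⟨m, hm⟩ := h1
  exact ⟨m, by linear_combination 4 * hm⟩

theorem sq_mod (u : ℤ) : ∃ m : ℤ, u ^ 2 = 8 * m + 1 ∨ u ^ 2 = 8 * m ∨ u ^ 2 = 8 * m + 4 := by
  by_cases h : (2 : ℤ) ∣ u
  · obtain ⟨w, rfl⟩ := h
    by_cases h' : (2 : ℤ) ∣ w
    · obtain ⟨t, rfl⟩ := h'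
      exact ⟨2 * t ^ 2, Or.inr (Or.inl (by ring))⟩
    · obtain ⟨m, hm⟩ := odd_sq h'
      exact ⟨4 * m, Or.inr (Or.inr (by linear_combination 4 * hm))⟩
  · obtain ⟨m, hm⟩ := odd_sq h
    exact ⟨m, Or.inl hm⟩

include h2 in
theorem c52 {x : ℤ} (hA : n = 10 * x ^ 2) (hB : n + 45 * d ^ 2 = 5 * y ^ 2)
    (hC : n + 48 * d ^ 2 = 2 * z ^ 2) : False := by
  have e1 : y ^ 2 = 2 * x ^ 2 + 9 * d ^ 2 := by linarith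
  have e2 : z ^ 2 = 5 * x ^ 2 + 24 * d ^ 2 := by linarith
  by_cases hd : (2 : ℤ) ∣ d
  · exact h2 ⟨⟨5 * x ^ 2, by linarith⟩, hd⟩
  · obtain ⟨m, hm⟩ := odd_sq hd
    obtain ⟨a, ha⟩ := sq_mod x
    obtain ⟨b, hb⟩ := sq_mod y
    obtain ⟨c, hc⟩ := sq_mod z
    have hx : (2 : ℤ) ∣ x ^ 2 := by
      rcases ha with ha | ha | ha <;> rcases hb with hb | hb | hb <;> omega
    obtain ⟨x1, rfl⟩ := d2 hx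
    obtain ⟨z1, rfl⟩ := d2 (d := z) ⟨10 * x1 ^ 2 + 12 * d ^ 2, by linarith⟩
    have e3 : z1 ^ 2 = 5 * x1 ^ 2 + 6 * d ^ 2 := by linarith
    obtain ⟨a', ha'⟩ := sq_mod x1
    obtain ⟨c', hc'⟩ := sq_mod z1
    rcases ha' with ha' | ha' | ha' <;> rcases hc' with hc' | hc' | hc' <;> omega

end cases

/-- parity -/
theorem e_even {x y z e : ℤ} (h1 : x ^ 2 + 45 * e ^ 2 = y ^ 2) (h3 : x ^ 2 + 48 * e ^ 2 = z ^ 2) :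
    (2 : ℤ) ∣ e := by
  by_contra he
  obtain ⟨m, hm⟩ := odd_sq he
  obtain ⟨a, ha⟩ := sq_mod x
  obtain ⟨b, hb⟩ := sq_mod y
  have hx : (2 : ℤ) ∣ x ^ 2 := by
    rcases ha with ha | ha | ha <;> rcases hb with hb | hb | hb <;> omega
  obtain ⟨x1, rfl⟩ := d2 hx
  obtain ⟨z1, rfl⟩ := d2 (d := z) ⟨2 * x1 ^ 2 + 24 * e ^ 2, by linarith⟩
  have e3 : z1 ^ 2 = x1 ^ 2 + 12 * e ^ 2 := by linarith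
  have e4 : y ^ 2 = 4 * x1 ^ 2 + 45 * e ^ 2 := by linarith
  clear h1 h3 hx ha
  obtain ⟨a', ha'⟩ := sq_mod x1
  obtain ⟨c', hc'⟩ := sq_mod z1
  rcases ha' with ha' | ha' | ha' <;> rcases hb with hb | hb | hb <;>
    rcases hc' with hc' | hc' | hc' <;> omega

end RG
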