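import Pool.Agent.Lib.MP_87c685_nt_RG.Desc

/-!
# Complete 2-descent and infinite descent for `w^2 = X (X + 45) (X + 48)`
-/

set_option autoImplicit false

namespace RG

theorem prime_of_sqfree {A k y b p : ℕ} (h : A * (y ^ 2 * b) = k ^ 2) (hy : y ≠ 0)
    (hb : Squarefree b) (hp : p.Prime) (hpb : p ∣ b) : p ∣ A := by
  have h1 : y ^ 2 ∣ k ^ 2 := ⟨A * b, by rw [← h]; ring⟩
  obtain ⟨l, rfl⟩ := (Nat.pow_dvd_pow_iff (by norm_num)).1 h1
  have h2 : A * b = l ^ 2 := by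
    apply Nat.eq_of_mul_eq_mul_left (show 0 < y ^ 2 by positivity)
    linarith
  by_contra hA
  have h3 : p ∣ l := hp.dvd_of_dvd_pow (n := 2) (by rw [← h2]; exact Dvd.dvd.mul_left hpb A)
  have h4 : p ^ 2 ∣ A * b := by rw [h2]; exact pow_dvd_pow_of_dvd h3 2
  have h5 : Nat.Coprime (p ^ 2) A := Nat.Coprime.pow_left 2 ((Nat.Prime.coprime_iff_not_dvd hp).2 hA)
  have h6 : p ^ 2 ∣ b := h5.dvd_of_dvd_mul_left h4
  exact (Nat.squarefree_iff_prime_squarefree.1 hb) p hp (by rwa [← pow_two])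

theorem dvd_of_primes {b m : ℕ} (hb : Squarefree b) (hm : m ≠ 0)
    (h : ∀ p : ℕ, p.Prime → p ∣ b → p ∣ m) : b ∣ m := by
  rw [← Nat.prod_primeFactors_of_squarefree hb]
  refine dvd_trans (Finset.prod_dvd_prod_of_subset _ m.primeFactors _ ?_)
    (Nat.prod_primeFactors_dvd m)
  intro p hp
  exact Nat.mem_primeFactors.2 ⟨Nat.prime_of_mem_primeFactors hp,
    h p (Nat.prime_of_mem_primeFactors hp) (Nat.dvd_of_mem_primeFactors hp), hm⟩

theorem prime5 : Nat.Prime 5 := by norm_num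

theorem sf10 : Squarefree 10 :=
  (Nat.squarefree_mul (show Nat.Coprime 2 5 by norm_num)).2
    ⟨Nat.prime_two.squarefree, prime5.squarefree⟩

theorem sf15 : Squarefree 15 :=
  (Nat.squarefree_mul (show Nat.Coprime 3 5 by norm_num)).2
    ⟨Nat.prime_three.squarefree, prime5.squarefree⟩

theorem sf30 : Squarefree 30 :=
  (Nat.squarefree_mul (show Nat.Coprime 2 15 by norm_num)).2
    ⟨Nat.prime_two.squarefree, sf15⟩

theorem desc_int (n d k : ℕ) (hn : 0 < n) (hd : 0 < d) (hnd : Nat.Coprime n d)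
    (h : n * (n + 45 * d ^ 2) * (n + 48 * d ^ 2) = k ^ 2) :
    (∃ x y z : ℕ, n = x ^ 2 ∧ n + 45 * d ^ 2 = y ^ 2 ∧ n + 48 * d ^ 2 = z ^ 2) ∨
    (∃ x y z : ℕ, n = 15 * x ^ 2 ∧ n + 45 * d ^ 2 = 5 * y ^ 2 ∧ n + 48 * d ^ 2 = 3 * z ^ 2) := by
  obtain ⟨b, y, hB, hb⟩ := Nat.sq_mul_squarefree (n + 45 * d ^ 2)
  obtain ⟨c, z, hC, hc⟩ := Nat.sq_mul_squarefree (n + 48 * d ^ 2)
  have hy : y ≠ 0 := by
    rintro rfl
    have : 0 < n + 45 * d ^ 2 := by positivity
    rw [← hB] at this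
    simp at this
  have hz : z ≠ 0 := by
    rintro rfl
    have : 0 < n + 48 * d ^ 2 := by positivity
    rw [← hC] at this
    simp at this
  have ncop : ∀ p : ℕ, p.Prime → p ∣ n → ¬ p ∣ d := fun p hp h1 h2 =>
    Nat.Prime.one_lt hp |>.ne' (Nat.dvd_one.1 (hnd ▸ Nat.dvd_gcd h1 h2))
  have hb15 : b ∣ 15 := by
    apply dvd_of_primes hb (by norm_num)
    intro p hp hpb
    have h1 : p ∣ n * (n + 48 * d ^ 2) := prime_of_sqfree (A := n * (n + 48 * d ^ 2)) (k := k)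
      (y := y) (b := b) (by rw [hB, ← h]; ring) hy hb hp hpb
    have hpB : p ∣ n + 45 * d ^ 2 := by rw [← hB]; exact Dvd.dvd.mul_left hpb _
    rcases (Nat.Prime.dvd_mul hp).1 h1 with h2 | h2
    · have h3 : p ∣ 45 * d ^ 2 := (Nat.dvd_add_right h2).1 hpB
      rcases (Nat.Prime.dvd_mul hp).1 h3 with h4 | h4
      · have h5 : p ∣ 3 * 15 := h4
        rcases (Nat.Prime.dvd_mul hp).1 h5 with h6 | h6
        · exact h6.trans (by norm_num)
        · exact h6
      · exact absurd (hp.dvd_of_dvd_pow h4) (ncop p hp h2)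
    · have h3 : p ∣ 3 * d ^ 2 := by
        have : n + 48 * d ^ 2 = (n + 45 * d ^ 2) + 3 * d ^ 2 := by ring
        rw [this] at h2
        exact (Nat.dvd_add_right hpB).1 h2
      rcases (Nat.Prime.dvd_mul hp).1 h3 with h4 | h4
      · exact h4.trans (by norm_num)
      · exfalso
        have h5 := hp.dvd_of_dvd_pow h4
        have h6 : p ∣ n := by
          have : p ∣ 45 * d ^ 2 := Dvd.dvd.mul_left (dvd_pow h5 (by norm_num)) _
          exact (Nat.dvd_add_left this).1 hpB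
        exact ncop p hp h6 h5
  have hc6 : c ∣ 6 := by
    apply dvd_of_primes hc (by norm_num)
    intro p hp hpc
    have h1 : p ∣ n * (n + 45 * d ^ 2) := prime_of_sqfree (A := n * (n + 45 * d ^ 2)) (k := k)
      (y := z) (b := c) (by rw [hC, ← h]) hz hc hp hpc
    have hpC : p ∣ n + 48 * d ^ 2 := by rw [← hC]; exact Dvd.dvd.mul_left hpc _
    rcases (Nat.Prime.dvd_mul hp).1 h1 with h2 | h2
    · have h3 : p ∣ 48 * d ^ 2 := (Nat.dvd_add_right h2).1 hpC
      rcases (Nat.Prime.dvd_mul hp).1 h3 with h4 | h4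
      · have h5 : p ∣ 6 ^ 5 := h4.trans (by norm_num)
        exact hp.dvd_of_dvd_pow h5
      · exact absurd (hp.dvd_of_dvd_pow h4) (ncop p hp h2)
    · have h3 : p ∣ 3 * d ^ 2 := by
        have : n + 48 * d ^ 2 = (n + 45 * d ^ 2) + 3 * d ^ 2 := by ring
        rw [this] at hpC
        exact (Nat.dvd_add_right h2).1 hpC
      rcases (Nat.Prime.dvd_mul hp).1 h3 with h4 | h4
      · exact h4.trans (by norm_num)
      · exfalso
        have h5 := hp.dvd_of_dvd_pow h4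
        have h6 : p ∣ n := by
          have : p ∣ 48 * d ^ 2 := Dvd.dvd.mul_left (dvd_pow h5 (by norm_num)) _
          exact (Nat.dvd_add_left this).1 hpC
        exact ncop p hp h6 h5
  obtain ⟨m, hm⟩ : ∃ m, n * (b * c) = m ^ 2 := by
    have h1 : (y * z) ^ 2 ∣ k ^ 2 := ⟨n * (b * c), by rw [← h, ← hB, ← hC]; ring⟩
    obtain ⟨m, rfl⟩ := (Nat.pow_dvd_pow_iff (by norm_num)).1 h1
    refine ⟨m, ?_⟩
    apply Nat.eq_of_mul_eq_mul_left (show 0 < (y * z) ^ 2 by positivity)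
    rw [← mul_pow, ← h, ← hB, ← hC]; ring
  have hb' : b = 1 ∨ b = 3 ∨ b = 5 ∨ b = 15 := by
    have h1 : b ∈ Nat.divisors 15 := Nat.mem_divisors.2 ⟨hb15, by norm_num⟩
    have e : Nat.divisors 15 = {1, 3, 5, 15} := by decide
    rw [e] at h1
    simpa using h1
  have hc' : c = 1 ∨ c = 2 ∨ c = 3 ∨ c = 6 := by
    have h1 : c ∈ Nat.divisors 6 := Nat.mem_divisors.2 ⟨hc6, by norm_num⟩
    have e : Nat.divisors 6 = {1, 2, 3, 6} := by decide
    rw [e] at h1
    simpa using h1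
  have h3 : ¬ ((3 : ℤ) ∣ (n : ℤ) ∧ (3 : ℤ) ∣ (d : ℤ)) := fun ⟨h1, h2⟩ =>
    ncop 3 (by norm_num) (by exact_mod_cast h1) (by exact_mod_cast h2)
  have h5 : ¬ ((5 : ℤ) ∣ (n : ℤ) ∧ (5 : ℤ) ∣ (d : ℤ)) := fun ⟨h1, h2⟩ =>
    ncop 5 (by norm_num) (by exact_mod_cast h1) (by exact_mod_cast h2)
  have h2 : ¬ ((2 : ℤ) ∣ (n : ℤ) ∧ (2 : ℤ) ∣ (d : ℤ)) := fun ⟨h1, h2⟩ =>
    ncop 2 (by norm_num) (by exact_mod_cast h1) (by exact_mod_cast h2)
  have root : ∀ s t : ℕ, n * (s * t ^ 2) = m ^ 2 → 0 < t → Squarefree s →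
      ∃ x, n = s * x ^ 2 := by
    intro s t h1 ht hs
    have h4 : t ^ 2 ∣ m ^ 2 := ⟨n * s, by rw [← h1]; ring⟩
    obtain ⟨m', rfl⟩ := (Nat.pow_dvd_pow_iff (by norm_num)).1 h4
    have h6 : n * s = m' ^ 2 := by
      apply Nat.eq_of_mul_eq_mul_left (show 0 < t ^ 2 by positivity)
      linarith
    have h7 : s ∣ m' := (hs.dvd_pow_iff_dvd (n := 2) two_ne_zero).1 (by rw [← h6]; exact dvd_mul_left s n)
    obtain ⟨x, rfl⟩ := h7
    refine ⟨x, ?_⟩
    have hs0 : 0 < s := Nat.pos_of_ne_zero hs.ne_zero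
    apply Nat.eq_of_mul_eq_mul_left hs0
    linarith
  have cB : ∀ b : ℕ, y ^ 2 * b = n + 45 * d ^ 2 → (n : ℤ) + 45 * (d : ℤ) ^ 2 = (b : ℤ) * (y : ℤ) ^ 2 := by
    intro b h; exact_mod_cast (by rw [← h]; ring : n + 45 * d ^ 2 = b * y ^ 2)
  have cC : ∀ c : ℕ, z ^ 2 * c = n + 48 * d ^ 2 → (n : ℤ) + 48 * (d : ℤ) ^ 2 = (c : ℤ) * (z : ℤ) ^ 2 := by
    intro b h; exact_mod_cast (by rw [← h]; ring : n + 48 * d ^ 2 = b * z ^ 2)
  have kB := cB b hB
  have kC := cC c hC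
  rcases hb' with rfl | rfl | rfl | rfl <;> rcases hc' with rfl | rfl | rfl | rfl
  · left
    obtain ⟨x, hx⟩ := root 1 1 (by linarith) (by norm_num) squarefree_one
    exact ⟨x, y, z, by linarith, by linarith, by linarith⟩
  · exact (c12 (y := (y : ℤ)) (z := (z : ℤ)) h3 (by push_cast at kB; linarith) (by push_cast at kC; linarith)).elim
  · obtain ⟨x, hx⟩ := root 3 1 (by linarith) (by norm_num) Nat.prime_three.squarefree
    exact (c13 (y := (y : ℤ)) h5 (x := (x : ℤ)) (by rw [hx]; push_cast; ring) (by push_cast at kB; linarith)).elim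
  · exact (c16 (y := (y : ℤ)) (z := (z : ℤ)) h3 (by push_cast at kB; linarith) (by push_cast at kC; linarith)).elim
  · exact (c31 (y := (y : ℤ)) (z := (z : ℤ)) h3 (by push_cast at kB; linarith) (by push_cast at kC; linarith)).elim
  · exact (c32 (y := (y : ℤ)) (z := (z : ℤ)) h3 (by push_cast at kB; linarith) (by push_cast at kC; linarith)).elim
  · obtain ⟨x, hx⟩ := root 1 3 (by linarith) (by norm_num) squarefree_one
    exact (c33 (y := (y : ℤ)) h5 (x := (x : ℤ)) (by rw [hx]; push_cast; ring) (by push_cast at kB; linarith)).elim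
  · obtain ⟨x, hx⟩ := root 2 3 (by linarith) (by norm_num) (Nat.prime_two.squarefree)
    exact (c36 (y := (y : ℤ)) h3 (x := (x : ℤ)) (by rw [hx]; push_cast; ring) (by push_cast at kB; linarith)).elim
  · exact (c51 (y := (y : ℤ)) (z := (z : ℤ)) h3 (by push_cast at kB; linarith) (by push_cast at kC; linarith)).elim
  · obtain ⟨x, hx⟩ := root 10 1 (by linarith) (by norm_num) sf10
    exact (c52 (y := (y : ℤ)) (z := (z : ℤ)) h2 (x := (x : ℤ)) (by rw [hx]; push_cast; ring) (by push_cast at kB; linarith)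
      (by push_cast at kC; linarith)).elim
  · right
    obtain ⟨x, hx⟩ := root 15 1 (by linarith) (by norm_num) sf15
    exact ⟨x, y, z, by linarith, by linarith, by linarith⟩
  · exact (c56 (y := (y : ℤ)) (z := (z : ℤ)) h3 (by push_cast at kB; linarith) (by push_cast at kC; linarith)).elim
  · exact (c151 (y := (y : ℤ)) (z := (z : ℤ)) h5 (by push_cast at kB; linarith) (by push_cast at kC; linarith)).elim
  · obtain ⟨x, hx⟩ := root 30 1 (by linarith) (by norm_num) sf30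
    exact (c152 (y := (y : ℤ)) h3 (x := (x : ℤ)) (by rw [hx]; push_cast; ring) (by push_cast at kB; linarith)).elim
  · obtain ⟨x, hx⟩ := root 5 3 (by linarith) (by norm_num) prime5.squarefree
    exact (c153 (y := (y : ℤ)) h3 (x := (x : ℤ)) (by rw [hx]; push_cast; ring) (by push_cast at kB; linarith)).elim
  · exact (c156 (y := (y : ℤ)) (z := (z : ℤ)) h5 (by push_cast at kB; linarith) (by push_cast at kC; linarith)).elim

end RG
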