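import Pool.Agent.Lib.MP_87c685_nt_RG.Desc2

/-!
# Infinite descent for `w^2 = X (X + 45) (X + 48)`
-/

set_option autoImplicit false

namespace RG

theorem sq_of_coprime {a b c : ℕ} (h : Nat.Coprime a b) (he : a * b = c ^ 2) :
    ∃ d, a = d ^ 2 := by
  have hu : IsUnit (GCDMonoid.gcd a b) := by
    have : GCDMonoid.gcd a b = 1 := h
    rw [this]; exact isUnit_one
  obtain ⟨d, hd⟩ := exists_associated_pow_of_mul_eq_pow hu he
  exact ⟨d, (associated_iff_eq.1 hd).symm⟩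

theorem natsq {N : ℕ} {q : ℚ} (h : (N : ℚ) = q ^ 2) : ∃ k : ℕ, N = k ^ 2 := by
  have : IsSquare ((N : ℕ) : ℚ) := ⟨q, by rw [h]; ring⟩
  obtain ⟨k, hk⟩ := Rat.isSquare_natCast_iff.1 this
  exact ⟨k, by rw [hk]; ring⟩

theorem desc_rat (X w : ℚ) (hX : 0 < X) (h : X * (X + 45) * (X + 48) = w ^ 2) :
    (∃ a b c : ℚ, X = a ^ 2 ∧ X + 45 = b ^ 2 ∧ X + 48 = c ^ 2) ∨
    (∃ a b c : ℚ, X = 15 * a ^ 2 ∧ X + 45 = 5 * b ^ 2 ∧ X + 48 = 3 * c ^ 2) := by
  obtain ⟨n, hn⟩ : ∃ n : ℕ, (n : ℤ) = X.num := ⟨X.num.toNat, Int.toNat_of_nonneg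
    (Rat.num_nonneg.2 hX.le)⟩
  have hnq : X = (n : ℚ) / (X.den : ℚ) := by
    have : (n : ℚ) = (X.num : ℚ) := by exact_mod_cast congrArg (Int.cast : ℤ → ℚ) hn
    rw [this]; exact (Rat.num_div_den X).symm
  have hn0 : 0 < n := by
    have : 0 < X.num := Rat.num_pos.2 hX
    rw [← hn] at this
    exact_mod_cast this
  set q := X.den with hq
  have hq0 : 0 < q := X.den_pos
  have hcop : Nat.Coprime n q := by
    have := X.reduced
    rw [← hn] at this
    simpa using this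
  have hqQ : (q : ℚ) ≠ 0 := by exact_mod_cast hq0.ne'
  have e1 : (((q * (n * (n + 45 * q) * (n + 48 * q)) : ℕ)) : ℚ) = (w * (q : ℚ) ^ 2) ^ 2 := by
    rw [mul_pow, ← h, hnq]
    push_cast
    field_simp
  obtain ⟨k, hk⟩ := natsq e1
  have hc1 : Nat.Coprime q (n + 45 * q) := by
    have : Nat.Coprime q n := hcop.symm
    simpa using (Nat.coprime_add_mul_left_right q n 45).2 this
  have hc2 : Nat.Coprime q (n + 48 * q) := by
    have : Nat.Coprime q n := hcop.symm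
    simpa using (Nat.coprime_add_mul_left_right q n 48).2 this
  have hc3 : Nat.Coprime q (n * (n + 45 * q) * (n + 48 * q)) :=
    Nat.Coprime.mul_right (Nat.Coprime.mul_right hcop.symm hc1) hc2
  obtain ⟨d, hd⟩ := sq_of_coprime hc3 hk
  obtain ⟨k', hk'⟩ := sq_of_coprime hc3.symm (by rw [mul_comm]; exact hk)
  have hd0 : 0 < d := by
    rcases Nat.eq_zero_or_pos d with h | h
    · rw [h] at hd; simp at hd; omega
    · exact h
  have hcd : Nat.Coprime n d := by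
    rw [hd] at hcop
    exact Nat.Coprime.coprime_dvd_right (dvd_pow_self d two_ne_zero) hcop
  rw [hd] at hk'
  have hdQ : (d : ℚ) ≠ 0 := by exact_mod_cast hd0.ne'
  have hXd : X = (n : ℚ) / (d : ℚ) ^ 2 := by
    rw [hnq, hd]; push_cast; rfl
  rcases desc_int n d k' hn0 hd0 hcd hk' with ⟨x, y, z, h1, h2, h3⟩ | ⟨x, y, z, h1, h2, h3⟩
  · left
    have h1' : (n : ℚ) = (x : ℚ) ^ 2 := by exact_mod_cast h1
    have h2' : (n : ℚ) + 45 * (d : ℚ) ^ 2 = (y : ℚ) ^ 2 := by exact_mod_cast h2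
    have h3' : (n : ℚ) + 48 * (d : ℚ) ^ 2 = (z : ℚ) ^ 2 := by exact_mod_cast h3
    refine ⟨x / d, y / d, z / d, ?_, ?_, ?_⟩
    · rw [hXd, h1']; field_simp
    · rw [hXd, div_pow, ← h2']; field_simp
    · rw [hXd, div_pow, ← h3']; field_simp
  · right
    have h1' : (n : ℚ) = 15 * (x : ℚ) ^ 2 := by exact_mod_cast h1
    have h2' : (n : ℚ) + 45 * (d : ℚ) ^ 2 = 5 * (y : ℚ) ^ 2 := by exact_mod_cast h2
    have h3' : (n : ℚ) + 48 * (d : ℚ) ^ 2 = 3 * (z : ℚ) ^ 2 := by exact_mod_cast h3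
    refine ⟨x / d, y / d, z / d, ?_, ?_, ?_⟩
    · rw [hXd, h1']; field_simp
    · rw [hXd, div_pow, mul_div_assoc', ← h2']; field_simp
    · rw [hXd, div_pow, mul_div_assoc', ← h3']; field_simp

/-- in both cases, after translating by a point of order two, all three are squares -/
theorem desc_rat' (X w : ℚ) (hX : 0 < X) (h : X * (X + 45) * (X + 48) = w ^ 2) :
    ∃ Y a b c : ℚ, 0 < Y ∧ Y = a ^ 2 ∧ Y + 45 = b ^ 2 ∧ Y + 48 = c ^ 2 ∧
      (Y = X ∨ Y * X = 2160) := by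
  rcases desc_rat X w hX h with ⟨a, b, c, h1, h2, h3⟩ | ⟨a, b, c, h1, h2, h3⟩
  · exact ⟨X, a, b, c, hX, h1, h2, h3, Or.inl rfl⟩
  · have hX0 : X ≠ 0 := hX.ne'
    have ha0 : a ≠ 0 := by
      rintro rfl
      rw [h1] at hX; norm_num at hX
    refine ⟨2160 / X, 12 / a, 3 * c / a, 4 * b / a, by positivity, ?_, ?_, ?_, Or.inr ?_⟩
    · rw [h1]; field_simp; norm_num
    · have e : (X + 48) * 45 = (2160 / X + 45) * X := by field_simp; ring
      have e2 : (3 * c / a) ^ 2 * X = (X + 48) * 45 := by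
        rw [h3, h1]; field_simp; ring
      exact mul_right_cancel₀ hX0 (by rw [← e, e2])
    · have e : (X + 45) * 48 = (2160 / X + 48) * X := by field_simp; ring
      have e2 : (4 * b / a) ^ 2 * X = (X + 45) * 48 := by
        rw [h2, h1]; field_simp; ring
      exact mul_right_cancel₀ hX0 (by rw [← e, e2])
    · field_simp

/-- integral form of a point with all three coordinates squares -/
theorem int_form (Y a b c : ℚ) (hY : 0 < Y) (h1 : Y = a ^ 2) (h2 : Y + 45 = b ^ 2)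
    (h3 : Y + 48 = c ^ 2) : ∃ x y z e : ℕ, 0 < x ∧ 0 < e ∧ Nat.Coprime x e ∧
      x ^ 2 + 45 * e ^ 2 = y ^ 2 ∧ x ^ 2 + 48 * e ^ 2 = z ^ 2 ∧ Y * (e : ℚ) ^ 2 = (x : ℚ) ^ 2 := by
  have ha : 0 < |a| := by
    apply abs_pos.2
    rintro rfl
    rw [h1] at hY; norm_num at hY
  obtain ⟨n, hn⟩ : ∃ n : ℕ, (n : ℤ) = (|a|).num := ⟨(|a|).num.toNat, Int.toNat_of_nonneg
    (Rat.num_nonneg.2 ha.le)⟩
  have hnq : |a| = (n : ℚ) / ((|a|).den : ℚ) := by
    have : (n : ℚ) = ((|a|).num : ℚ) := by exact_mod_cast congrArg (Int.cast : ℤ → ℚ) hn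
    rw [this]; exact (Rat.num_div_den _).symm
  have hn0 : 0 < n := by
    have : 0 < (|a|).num := Rat.num_pos.2 ha
    rw [← hn] at this
    exact_mod_cast this
  have hcop : Nat.Coprime n (|a|).den := by
    have := (|a|).reduced
    rw [← hn] at this
    simpa using this
  have hq0 : 0 < (|a|).den := (|a|).den_pos
  generalize (|a|).den = e at *
  have heQ : (e : ℚ) ≠ 0 := by exact_mod_cast hq0.ne'
  have hYe : Y * (e : ℚ) ^ 2 = (n : ℚ) ^ 2 := by
    rw [h1, ← sq_abs, hnq, div_pow]; field_simp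
  obtain ⟨y, hy⟩ := natsq (N := n ^ 2 + 45 * e ^ 2) (q := b * e) (by
    push_cast; rw [← hYe, mul_pow, ← h2]; ring)
  obtain ⟨z, hz⟩ := natsq (N := n ^ 2 + 48 * e ^ 2) (q := c * e) (by
    push_cast; rw [← hYe, mul_pow, ← h3]; ring)
  exact ⟨n, y, z, e, hn0, hq0, hcop, hy, hz, hYe⟩

end RG
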