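import Pool.Agent.Lib.MP_87c685_nt_RG.Pell

/-!
# Solutions of `5 A² = Y² + 20` with `Y` integral
-/

set_option autoImplicit false

open NumberField

namespace RG

/-- the action of the square of the fundamental unit, in coordinates `2 Y`, `5 A - Y` -/
def stp (R : Type*) [CommRing R] : Equiv.Perm (R × R × R × R) where
  toFun v := (2 * v.1 + v.2.2.1, 2 * v.2.1 + v.2.2.2, v.1 + v.2.2.1, v.2.1 + v.2.2.2)
  invFun v := (v.1 - v.2.2.1, v.2.1 - v.2.2.2, 2 * v.2.2.1 - v.1, 2 * v.2.2.2 - v.2.1)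
  left_inv v := by
    obtain ⟨a, b, c, d⟩ := v
    simp only [Prod.mk.injEq]
    refine ⟨?_, ?_, ?_, ?_⟩ <;> ring
  right_inv v := by
    obtain ⟨a, b, c, d⟩ := v
    simp only [Prod.mk.injEq]
    refine ⟨?_, ?_, ?_, ?_⟩ <;> ring

theorem stp_app {R : Type*} [CommRing R] (a b c d : R) :
    stp R (a, b, c, d) = (2 * a + c, 2 * b + d, a + c, b + d) := rfl

theorem stp_inv {R : Type*} [CommRing R] (a b c d : R) :
    (stp R)⁻¹ (a, b, c, d) = (a - c, b - d, 2 * c - a, 2 * d - b) := rfl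

variable {K : Type*} [Field K] [NumberField K]

theorem base0 [IsTotallyComplex K] (h2 : Module.finrank ℚ K = 2) (φ : K →+* ℂ) (A Y : K)
    (hAY : 5 * A ^ 2 = Y ^ 2 + 20) (hY : IsIntegral ℤ Y)
    (hP : 5 * Complex.normSq (φ A) + Complex.normSq (φ Y) = 20)
    (h15 : ∀ x : K, x ^ 2 ≠ -15) (h5 : ∀ x : K, x ^ 2 ≠ -5) :
    Y = 0 ∧ (A = 2 ∨ A = -2) := by
  have hc : 5 * φ A ^ 2 - φ Y ^ 2 = 20 := by
    have := congrArg φ hAY
    simp only [map_mul, map_pow, map_add, map_ofNat] at this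
    linear_combination this
  have hre : 5 * ((φ A).re ^ 2 - (φ A).im ^ 2) - ((φ Y).re ^ 2 - (φ Y).im ^ 2) = 20 := by
    have := congrArg Complex.re hc
    simp only [pow_two, Complex.sub_re, Complex.mul_re, Complex.mul_im, Complex.re_ofNat,
      Complex.im_ofNat] at this
    linear_combination this
  simp only [Complex.normSq_apply] at hP
  have ha : (φ A).im = 0 := by nlinarith [sq_nonneg (φ A).im, sq_nonneg (φ Y).re]
  have hy : (φ Y).re = 0 := by nlinarith [sq_nonneg (φ A).im, sq_nonneg (φ Y).re]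
  obtain ⟨q, hq⟩ := rat_of_im h2 φ A ha
  obtain ⟨t, β, hβ, ht, hβ'⟩ := exists_int_trace_norm h2 φ Y hY
  have ht0 : t = 0 := by
    rw [hy, mul_zero] at ht; exact_mod_cast ht.symm
  rw [ht0, Int.cast_zero, zero_mul, sub_zero] at hβ
  have hY2 : Y ^ 2 = -(β : K) := by linear_combination hβ
  have hβ0 : 0 ≤ β := by
    have := Complex.normSq_nonneg (φ Y)
    rw [hβ'] at this
    exact_mod_cast this
  have e1 : (5 * q) ^ 2 = ((5 * (20 - β) : ℤ) : ℚ) := by
    have : (((5 * q) ^ 2 : ℚ) : K) = (((5 * (20 - β) : ℤ) : ℚ) : K) := by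
      push_cast
      rw [← hq]
      linear_combination 5 * hAY + 5 * hY2
    exact_mod_cast this
  obtain ⟨n, hn⟩ := rat_int_sq _ _ e1
  rw [hn] at e1
  have e2 : n ^ 2 = 5 * (20 - β) := by exact_mod_cast e1
  obtain ⟨m, rfl⟩ := five_dvd ⟨_, e2⟩
  have hqm : q = m := by
    have : 5 * q = 5 * (m : ℚ) := by rw [hn]; push_cast; ring
    linarith
  have e3 : 5 * m ^ 2 = 20 - β := by linarith
  have hA : A = m := by rw [hq, hqm]; simp
  have hm1 : m ≤ 2 := by nlinarith
  have hm2 : -2 ≤ m := by nlinarith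
  have hβm : (β : K) = 20 - 5 * (m : K) ^ 2 := by
    have : β = 20 - 5 * m ^ 2 := by linarith
    rw [this]; push_cast; ring
  interval_cases m
  · refine ⟨?_, Or.inr (by rw [hA]; norm_num)⟩
    rw [hβm] at hY2
    norm_num at hY2
    exact hY2
  · exact absurd (show Y ^ 2 = -15 by rw [hY2, hβm]; norm_num) (h15 Y)
  · exact absurd (show (Y / 2) ^ 2 = -5 by rw [div_pow, hY2, hβm]; norm_num) (h5 _)
  · exact absurd (show Y ^ 2 = -15 by rw [hY2, hβm]; norm_num) (h15 Y)
  · refine ⟨?_, Or.inl (by rw [hA]; norm_num)⟩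
    rw [hβm] at hY2
    norm_num at hY2
    exact hY2

theorem base1 [IsTotallyComplex K] (h2 : Module.finrank ℚ K = 2) (φ : K →+* ℂ) (A Y : K) (r : ℤ)
    (hAY : 5 * A ^ 2 = Y ^ 2 + 20) (hY : IsIntegral ℤ Y) (hr : r = 1 ∨ r = -1)
    (hP : 5 * Complex.normSq (φ A) + Complex.normSq (φ Y) = 30)
    (hR : 2 * ((φ A).re * (φ Y).re + (φ A).im * (φ Y).im) = 10 * r)
    (h1 : ∀ x : K, x ^ 2 ≠ -1) (h5 : ∀ x : K, x ^ 2 ≠ -5) :
    ∃ t : ℤ, ((t = 1 ∨ t = -1) ∨ (t = 3 ∨ t = -3)) ∧ (2 * Y - t) ^ 2 = 5 * (t : K) ^ 2 - 100 ∧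
      5 * A = r * (Y + 2 * t) := by
  have hr2 : (r : ℝ) ^ 2 = 1 := by rcases hr with h | h <;> rw [h] <;> norm_num
  have hr2' : (r : K) ^ 2 = 1 := by rcases hr with h | h <;> rw [h] <;> norm_num
  have hc : 5 * φ A ^ 2 - φ Y ^ 2 = 20 := by
    have := congrArg φ hAY
    simp only [map_mul, map_pow, map_add, map_ofNat] at this
    linear_combination this
  have hre : 5 * ((φ A).re ^ 2 - (φ A).im ^ 2) - ((φ Y).re ^ 2 - (φ Y).im ^ 2) = 20 := by
    have := congrArg Complex.re hc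
    simp only [pow_two, Complex.sub_re, Complex.mul_re, Complex.mul_im, Complex.re_ofNat,
      Complex.im_ofNat] at this
    linear_combination this
  simp only [Complex.normSq_apply] at hP
  have key : 5 * ((φ Y).re - r * (φ A).re) ^ 2 + ((φ Y).im - 5 * r * (φ A).im) ^ 2 = 0 := by
    linear_combination (3 : ℝ) * hP - 2 * hre - 5 * (r : ℝ) * hR + (5 * (φ A).re ^ 2 +
      25 * (φ A).im ^ 2 - 50) * hr2
  have k1 : (φ Y).re = r * (φ A).re := by
    nlinarith [sq_nonneg ((φ Y).re - r * (φ A).re), sq_nonneg ((φ Y).im - 5 * r * (φ A).im)]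
  have k2 : (φ Y).im = 5 * r * (φ A).im := by
    nlinarith [sq_nonneg ((φ Y).re - r * (φ A).re), sq_nonneg ((φ Y).im - 5 * r * (φ A).im)]
  obtain ⟨t, β, hβ, ht, hβ'⟩ := exists_int_trace_norm h2 φ Y hY
  have hA : 5 * A = r * (Y + 2 * t) := by
    apply φ.injective
    rw [map_mul, map_mul, map_add, map_mul, map_intCast, map_intCast, map_ofNat, map_ofNat]
    apply Complex.ext
    · simp only [Complex.mul_re, Complex.add_re, Complex.re_ofNat, Complex.im_ofNat,
        Complex.intCast_re, Complex.intCast_im]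
      rw [← ht, k1]
      linear_combination (-5 : ℝ) * (φ A).re * hr2
    · simp only [Complex.mul_im, Complex.add_im, Complex.re_ofNat, Complex.im_ofNat,
        Complex.intCast_re, Complex.intCast_im, Complex.add_re, Complex.mul_re]
      rw [k2]
      linear_combination (-5 : ℝ) * (φ A).im * hr2
  have hare : 4 * (φ A).re ^ 2 = (t : ℝ) ^ 2 := by
    rw [← ht, k1]
    linear_combination (-4 : ℝ) * (φ A).re ^ 2 * hr2
  have hβt : β = 25 - t ^ 2 := by
    have h3 : (β : ℝ) = 25 - (t : ℝ) ^ 2 := by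
      rw [← hβ', Complex.normSq_apply]
      linear_combination (1 / 2) * hP + (1 / 2) * hre - (5 / 4) * hare +
        ((2 * (φ Y).re + t) / 4) * ht
    exact_mod_cast h3
  have htb : t ^ 2 ≤ 20 := by
    have h3 : (t : ℝ) ^ 2 ≤ 20 := by nlinarith [sq_nonneg (φ Y).im]
    exact_mod_cast h3
  have hq : (2 * Y - t) ^ 2 = 5 * (t : K) ^ 2 - 100 := by
    rw [hβt] at hβ
    push_cast at hβ
    linear_combination 4 * hβ
  have ht1 : t ≤ 4 := by nlinarith
  have ht2 : -4 ≤ t := by nlinarith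
  refine ⟨t, ?_, hq, hA⟩
  interval_cases t
  · exact absurd (show ((2 * Y - ((-4 : ℤ) : K)) / 2) ^ 2 = -5 by
      rw [div_pow, hq]; norm_num) (h5 _)
  · simp
  · exact absurd (show ((2 * Y - ((-2 : ℤ) : K)) / 4) ^ 2 = -5 by
      rw [div_pow, hq]; norm_num) (h5 _)
  · simp
  · exact absurd (show ((2 * Y - ((0 : ℤ) : K)) / 10) ^ 2 = -1 by
      rw [div_pow, hq]; norm_num) (h1 _)
  · simp
  · exact absurd (show ((2 * Y - ((2 : ℤ) : K)) / 4) ^ 2 = -5 by
      rw [div_pow, hq]; norm_num) (h5 _)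
  · simp
  · exact absurd (show ((2 * Y - ((4 : ℤ) : K)) / 2) ^ 2 = -5 by
      rw [div_pow, hq]; norm_num) (h5 _)

/-- the exceptional solutions, over `ℚ(√-95)` (`T = ±1`) and `ℚ(√-55)` (`T = ±3`) -/
def Exc (A Y : K) : Prop :=
  ∃ (D : K) (T k : ℤ), (((T = 1 ∨ T = -1) ∧ D ^ 2 = -95) ∨ ((T = 3 ∨ T = -3) ∧ D ^ 2 = -55)) ∧
    2 * Y = (((stp ℤ) ^ k) (T, 1, 2 * T, 0)).1 + (((stp ℤ) ^ k) (T, 1, 2 * T, 0)).2.1 * D ∧
    5 * A - Y = (((stp ℤ) ^ k) (T, 1, 2 * T, 0)).2.2.1 +
      (((stp ℤ) ^ k) (T, 1, 2 * T, 0)).2.2.2 * D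

theorem pell_main [IsTotallyComplex K] (h2 : Module.finrank ℚ K = 2)
    (h1 : ∀ x : K, x ^ 2 ≠ -1) (h5 : ∀ x : K, x ^ 2 ≠ -5) (h15 : ∀ x : K, x ^ 2 ≠ -15)
    (A Y : K) (hAY : 5 * A ^ 2 = Y ^ 2 + 20) (hY : IsIntegral ℤ Y) :
    (∃ a y : ℚ, A = a ∧ Y = y) ∨ Exc A Y := by
  obtain ⟨φ⟩ : Nonempty (K →+* ℂ) := inferInstance
  refine pell_ind h2 φ (fun A Y => (∃ a y : ℚ, A = a ∧ Y = y) ∨ Exc A Y) ?_ ?_ ?_ A Y hAY hY
  · rintro A Y (⟨a, y, ha, hy⟩ | ⟨D, T, k, hT, e1, e2⟩)
    · left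
      refine ⟨(3 * a - y) / 2, (-5 * a + 3 * y) / 2, ?_, ?_⟩
      · push_cast; rw [← ha, ← hy]; ring
      · push_cast; rw [← ha, ← hy]; ring
    · right
      refine ⟨D, T, k - 1, hT, ?_, ?_⟩
      · rw [show k - 1 = -1 + k by ring, zpow_add, zpow_neg_one, Equiv.Perm.mul_apply]
        generalize ((stp ℤ) ^ k) (T, 1, 2 * T, 0) = v at e1 e2
        obtain ⟨a, b, c, d⟩ := v
        simp only [stp_inv] at e1 e2 ⊢
        push_cast
        linear_combination e1 - e2
      · rw [show k - 1 = -1 + k by ring, zpow_add, zpow_neg_one, Equiv.Perm.mul_apply]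
        generalize ((stp ℤ) ^ k) (T, 1, 2 * T, 0) = v at e1 e2
        obtain ⟨a, b, c, d⟩ := v
        simp only [stp_inv] at e1 e2 ⊢
        push_cast
        linear_combination 2 * e2 - e1
  · rintro A Y (⟨a, y, ha, hy⟩ | ⟨D, T, k, hT, e1, e2⟩)
    · left
      refine ⟨(3 * a + y) / 2, (5 * a + 3 * y) / 2, ?_, ?_⟩
      · push_cast; rw [← ha, ← hy]; ring
      · push_cast; rw [← ha, ← hy]; ring
    · right
      refine ⟨D, T, k + 1, hT, ?_, ?_⟩
      · rw [add_comm k 1, zpow_add, zpow_one, Equiv.Perm.mul_apply]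
        generalize ((stp ℤ) ^ k) (T, 1, 2 * T, 0) = v at e1 e2
        obtain ⟨a, b, c, d⟩ := v
        simp only [stp_app] at e1 e2 ⊢
        push_cast
        linear_combination 2 * e1 + e2
      · rw [add_comm k 1, zpow_add, zpow_one, Equiv.Perm.mul_apply]
        generalize ((stp ℤ) ^ k) (T, 1, 2 * T, 0) = v at e1 e2
        obtain ⟨a, b, c, d⟩ := v
        simp only [stp_app] at e1 e2 ⊢
        push_cast
        linear_combination e1 + e2
  · intro A Y p r hAY hY hp hpr hP hR hr1 hr2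
    have hr : r = 0 ∨ (r = 1 ∨ r = -1) := by omega
    rcases hr with hr | hr
    · left
      have hp2 : p = 2 := by
        rw [hr] at hpr
        nlinarith
      rw [hp2] at hP
      obtain ⟨hY0, hA⟩ := base0 h2 φ A Y hAY hY (by rw [hP]; norm_num) h15 h5
      rcases hA with hA | hA
      · exact ⟨2, 0, by rw [hA]; norm_num, by rw [hY0]; norm_num⟩
      · exact ⟨-2, 0, by rw [hA]; norm_num, by rw [hY0]; norm_num⟩
    · right
      have hp2 : p = 3 := by
        rcases hr with hr | hr <;> rw [hr] at hpr <;> nlinarith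
      rw [hp2] at hP
      obtain ⟨t, ht, hq, hA⟩ := base1 h2 φ A Y r hAY hY hr (by rw [hP]; norm_num) hR h1 h5
      rcases hr with hr | hr
      · refine ⟨2 * Y - t, t, 0, ?_, ?_, ?_⟩
        · rw [hq]
          rcases ht with (h | h) | (h | h)
          · left; refine ⟨Or.inl h, ?_⟩; rw [h]; norm_num
          · left; refine ⟨Or.inr h, ?_⟩; rw [h]; norm_num
          · right; refine ⟨Or.inl h, ?_⟩; rw [h]; norm_num
          · right; refine ⟨Or.inr h, ?_⟩; rw [h]; norm_num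
        · rw [zpow_zero, Equiv.Perm.one_apply]
          push_cast
          ring
        · rw [zpow_zero, Equiv.Perm.one_apply]
          push_cast
          rw [hr] at hA
          push_cast at hA
          linear_combination hA
      · refine ⟨2 * Y - t, -t, -1, ?_, ?_, ?_⟩
        · rw [hq]
          rcases ht with (h | h) | (h | h)
          · left; refine ⟨Or.inr (by rw [h]), ?_⟩; rw [h]; norm_num
          · left; refine ⟨Or.inl (by rw [h]; norm_num), ?_⟩; rw [h]; norm_num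
          · right; refine ⟨Or.inr (by rw [h]), ?_⟩; rw [h]; norm_num
          · right; refine ⟨Or.inl (by rw [h]; norm_num), ?_⟩; rw [h]; norm_num
        · rw [zpow_neg_one, stp_inv]
          push_cast
          ring
        · rw [zpow_neg_one, stp_inv]
          push_cast
          rw [hr] at hA
          push_cast at hA
          linear_combination hA

end RG
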