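import Pool.Agent.Lib.MP_87c685_nt_RG.Good
import Pool.Agent.Lib.MP_87c685_nt_RG.Pell2
import Pool.Agent.Lib.MP_87c685_nt_RG.Conj

/-!
# The fields `ℚ(√-55)` and `ℚ(√-95)`
-/

set_option autoImplicit false

open NumberField IsDedekindDomain

namespace RG

theorem sf_dvd {p : ℤ} (hp : Prime p) (h5 : IsCoprime 5 p) {n : ℤ} (h : 5 * p ∣ n ^ 2) :
    5 * p ∣ n := by
  have h1 : (5 : ℤ) ∣ n := five_dvd ((Dvd.intro _ rfl).trans h)
  have h2 : p ∣ n := hp.dvd_of_dvd_pow ((Dvd.intro_left _ rfl).trans h)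
  exact h5.mul_dvd h1 h2

theorem sf55 {n : ℤ} (h : (55 : ℤ) ∣ n ^ 2) : (55 : ℤ) ∣ n := by
  have := sf_dvd (p := 11) (Nat.prime_iff_prime_int.1 (by norm_num))
    ⟨-2, 1, by norm_num⟩ (n := n) (by simpa using h)
  simpa using this

theorem sf95 {n : ℤ} (h : (95 : ℤ) ∣ n ^ 2) : (95 : ℤ) ∣ n := by
  have := sf_dvd (p := 19) (Nat.prime_iff_prime_int.1 (by norm_num))
    ⟨4, -1, by norm_num⟩ (n := n) (by simpa using h)
  simpa using this

variable {K : Type*} [Field K] [NumberField K]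

/-- integral elements of `ℚ(√-d)` -/
theorem coords [IsTotallyComplex K] (h2 : Module.finrank ℚ K = 2) (D : K) (d : ℤ) (hd0 : 0 < d)
    (hd : ∀ n : ℤ, d ∣ n ^ 2 → d ∣ n) (hD : D ^ 2 = -(d : K)) (z : K) (hz : IsIntegral ℤ z) :
    ∃ T N b : ℤ, z ^ 2 - T * z + N = 0 ∧ 0 ≤ N ∧ 2 * z = T + b * D ∧
      T ^ 2 + d * b ^ 2 = 4 * N := by
  obtain ⟨φ⟩ : Nonempty (K →+* ℂ) := inferInstance
  obtain ⟨T, N, hTN, -, hN⟩ := exists_int_trace_norm h2 φ z hz
  have hN0 : 0 ≤ N := by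
    have := Complex.normSq_nonneg (φ z)
    rw [hN] at this
    exact_mod_cast this
  have hDq : ∀ q : ℚ, D ≠ q := by
    intro q hq
    have h1 : ((q ^ 2 : ℚ) : K) = ((-(d : ℚ) : ℚ) : K) := by
      push_cast; rw [← hq, hD]
    have h3 : q ^ 2 = -(d : ℚ) := by exact_mod_cast h1
    have h4 : (0 : ℚ) < d := by exact_mod_cast hd0
    nlinarith [sq_nonneg q]
  obtain ⟨a, b, hab⟩ := span_of h2 D hDq (2 * z - T)
  have hsq : (2 * z - T) ^ 2 = (((T ^ 2 - 4 * N : ℤ) : ℚ) : K) := by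
    push_cast
    linear_combination 4 * hTN
  have h6 : ((a ^ 2 - d * b ^ 2 - ((T ^ 2 - 4 * N : ℤ) : ℚ) : ℚ) : K) +
      ((2 * a * b : ℚ) : K) * D = 0 := by
    rw [hab] at hsq
    push_cast at hsq ⊢
    linear_combination hsq - (b : K) ^ 2 * hD
  obtain ⟨e1, e2⟩ := lin_indep hDq _ _ h6
  have h7 : a = 0 ∨ b = 0 := by
    rcases mul_eq_zero.1 e2 with h | h
    · rcases mul_eq_zero.1 h with h | h
      · norm_num at h
      · exact Or.inl h
    · exact Or.inr h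
  rcases h7 with h7 | h7
  · rw [h7] at e1 hab
    have e3 : (d * b) ^ 2 = ((d * (4 * N - T ^ 2) : ℤ) : ℚ) := by
      push_cast at e1 ⊢
      linear_combination (-(d : ℚ)) * e1
    obtain ⟨n, hn⟩ := rat_int_sq _ _ e3
    rw [hn] at e3
    have e4 : n ^ 2 = d * (4 * N - T ^ 2) := by exact_mod_cast e3
    obtain ⟨m, rfl⟩ := hd n ⟨_, e4⟩
    have hbm : b = m := by
      have h8 : (d : ℚ) * b = d * m := by rw [hn]; push_cast; ring
      have h9 : (d : ℚ) ≠ 0 := by exact_mod_cast hd0.ne'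
      exact mul_left_cancel₀ h9 h8
    refine ⟨T, N, m, hTN, hN0, ?_, ?_⟩
    · rw [hbm] at hab
      push_cast at hab
      linear_combination hab
    · have e5 : d * (d * m ^ 2) = d * (4 * N - T ^ 2) := by linarith
      have e6 := mul_left_cancel₀ hd0.ne' e5
      linarith
  · rw [h7] at e1 hab
    have hzq : 2 * z = ((a + T : ℚ) : K) := by
      push_cast
      push_cast at hab
      linear_combination hab
    obtain ⟨n, hn⟩ := int_rat z hz ((a + T) / 2) (by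
      push_cast; push_cast at hzq; linear_combination (1 / 2) * hzq)
    have ha : a ^ 2 = ((T ^ 2 - 4 * N : ℤ) : ℚ) := by
      push_cast at e1 ⊢; linear_combination e1
    obtain ⟨u, hu⟩ := rat_int_sq _ _ ha
    refine ⟨2 * n, n ^ 2, 0, ?_, sq_nonneg n, ?_, by ring⟩
    · rw [hn]; push_cast; ring
    · rw [hn]; push_cast; ring

theorem small_norm (T b : ℤ) (d : ℤ) (hd : d = 55 ∨ d = 95) (i : ℕ) (hi : i ≤ 6)
    (h : T ^ 2 + d * b ^ 2 = 4 * 3 ^ i) : b = 0 := by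
  have key : ∀ i < 7, ∀ t < 55, ∀ b < 8, b ≠ 0 → t * t + 55 * (b * b) ≠ 4 * 3 ^ i ∧
      t * t + 95 * (b * b) ≠ 4 * 3 ^ i := by decide +kernel
  by_contra hb
  have h3 : (4 * 3 ^ i : ℤ) ≤ 2916 := by
    have : (3 : ℤ) ^ i ≤ 3 ^ 6 := pow_le_pow_right₀ (by norm_num) hi
    norm_num at this
    linarith
  have hd' : 55 ≤ d := by rcases hd with h | h <;> rw [h] <;> norm_num
  have hb1 : 1 ≤ b ^ 2 := by
    have : 0 < b ^ 2 := by positivity
    omega
  have hT : T.natAbs < 55 := by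
    have h4 : T ^ 2 < 55 ^ 2 := by nlinarith
    have h5 := sq_lt_sq.1 h4
    rw [abs_of_pos (show (0 : ℤ) < 55 by norm_num), Int.abs_eq_natAbs] at h5
    omega
  have hB : b.natAbs < 8 := by
    have h4 : b ^ 2 < 8 ^ 2 := by nlinarith [sq_nonneg T]
    have h5 := sq_lt_sq.1 h4
    rw [abs_of_pos (show (0 : ℤ) < 8 by norm_num), Int.abs_eq_natAbs] at h5
    omega
  obtain ⟨k1, k2⟩ := key i (by omega) _ hT _ hB (by omega)
  have e : ∀ c : ℤ, T ^ 2 + c * b ^ 2 = ((T.natAbs * T.natAbs : ℕ) : ℤ) +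
      c * ((b.natAbs * b.natAbs : ℕ) : ℤ) := by
    intro c
    push_cast
    rw [abs_mul_abs_self, abs_mul_abs_self]
    ring
  rcases hd with h' | h'
  all_goals rw [h', e] at h
  · exact k1 (by exact_mod_cast h)
  · exact k2 (by exact_mod_cast h)

/-- divisors of small powers of 3 are rational -/
theorem prod3 [IsTotallyComplex K] (h2 : Module.finrank ℚ K = 2) (D : K) (d : ℤ)
    (hd : d = 55 ∨ d = 95) (hD : D ^ 2 = -(d : K)) (z z' : K) (hz : IsIntegral ℤ z)
    (hz' : IsIntegral ℤ z') (n : ℕ) (hn : n ≤ 6) (h : z * z' = 3 ^ n) : ∃ q : ℚ, z = q := by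
  have hd0 : 0 < d := by rcases hd with h | h <;> rw [h] <;> norm_num
  have hsf : ∀ n : ℤ, d ∣ n ^ 2 → d ∣ n := by
    intro n
    rcases hd with h | h <;> rw [h]
    · exact sf55
    · exact sf95
  have hDq : ∀ q : ℚ, D ≠ q := by
    intro q hq
    have h1 : ((q ^ 2 : ℚ) : K) = ((-(d : ℚ) : ℚ) : K) := by
      push_cast; rw [← hq, hD]
    have h3 : q ^ 2 = -(d : ℚ) := by exact_mod_cast h1
    have h4 : (0 : ℚ) < d := by exact_mod_cast hd0
    nlinarith [sq_nonneg q]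
  obtain ⟨T, N, b, -, hN0, e1, e2⟩ := coords h2 D d hd0 hsf hD z hz
  obtain ⟨T', N', b', -, hN0', e1', e2'⟩ := coords h2 D d hd0 hsf hD z' hz'
  have h6 : (((T * T' - d * (b * b') - 4 * 3 ^ n : ℤ) : ℚ) : K) +
      (((T * b' + T' * b : ℤ) : ℚ) : K) * D = 0 := by
    push_cast
    linear_combination (-(2 * z')) * e1 - (T + b * D) * e1' + 4 * h - (b : K) * b' * hD
  obtain ⟨e3, e4⟩ := lin_indep hDq _ _ h6
  have e5 : T * T' - d * (b * b') = 4 * 3 ^ n := by
    have : T * T' - d * (b * b') - 4 * 3 ^ n = 0 := by exact_mod_cast e3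
    linarith
  have e6 : T * b' + T' * b = 0 := by exact_mod_cast e4
  have hNN : N * N' = 9 ^ n := by
    have h9 : (9 : ℤ) ^ n = 3 ^ n * 3 ^ n := by rw [← mul_pow]; norm_num
    have : 16 * (N * N') = 16 * 9 ^ n := by
      rw [h9]
      linear_combination (-(4 * N')) * e2 - (T ^ 2 + d * b ^ 2) * e2' +
        (T * T' - d * (b * b') + 4 * 3 ^ n) * e5 + d * (T * b' + T' * b) * e6
    linarith
  have hdvd : N.natAbs ∣ 3 ^ (2 * n) := by
    have h9 : (9 : ℤ) ^ n = 3 ^ (2 * n) := by rw [pow_mul]; norm_num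
    have : N ∣ 3 ^ (2 * n) := ⟨N', by rw [hNN, h9]⟩
    have := Int.natAbs_dvd_natAbs.2 this
    simpa [Int.natAbs_pow] using this
  have hdvd' : N'.natAbs ∣ 3 ^ (2 * n) := by
    have h9 : (9 : ℤ) ^ n = 3 ^ (2 * n) := by rw [pow_mul]; norm_num
    have : N' ∣ 3 ^ (2 * n) := ⟨N, by rw [mul_comm N', hNN, h9]⟩
    have := Int.natAbs_dvd_natAbs.2 this
    simpa [Int.natAbs_pow] using this
  obtain ⟨i, -, hi⟩ := (Nat.dvd_prime_pow Nat.prime_three).1 hdvd
  obtain ⟨i', -, hi'⟩ := (Nat.dvd_prime_pow Nat.prime_three).1 hdvd'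
  have hNi : N = 3 ^ i := by
    have : (N.natAbs : ℤ) = N := Int.natAbs_of_nonneg hN0
    rw [← this, hi]; push_cast; rfl
  have hNi' : N' = 3 ^ i' := by
    have : (N'.natAbs : ℤ) = N' := Int.natAbs_of_nonneg hN0'
    rw [← this, hi']; push_cast; rfl
  have hsum : i + i' = 2 * n := by
    have h9 : (9 : ℤ) ^ n = 3 ^ (2 * n) := by rw [pow_mul]; norm_num
    rw [hNi, hNi', ← pow_add, h9] at hNN
    exact pow_right_injective₀ (a := (3 : ℤ)) (by norm_num) (by norm_num) hNN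
  have hz0 : z ≠ 0 := by
    rintro rfl
    rw [zero_mul] at h
    exact pow_ne_zero n (three_ne (K := K)) h.symm
  have hz0' : z' ≠ 0 := by
    rintro rfl
    rw [mul_zero] at h
    exact pow_ne_zero n (three_ne (K := K)) h.symm
  rcases le_total i n with hin | hin
  · have hb := small_norm T b d hd i (hin.trans hn) (by rw [e2, hNi])
    refine ⟨T / 2, ?_⟩
    rw [hb] at e1
    push_cast at e1 ⊢
    linear_combination (1 / 2) * e1
  · have hb := small_norm T' b' d hd i' (by omega) (by rw [e2', hNi'])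
    have e7 : z' = ((T' / 2 : ℚ) : K) := by
      rw [hb] at e1'
      push_cast at e1' ⊢
      linear_combination (1 / 2) * e1'
    refine ⟨3 ^ n / (T' / 2), ?_⟩
    rw [Rat.cast_div, ← e7, eq_div_iff hz0', h]
    push_cast
    rfl

/-- a 3-isogeny over the exceptional fields -/
theorem exc_b3 [IsTotallyComplex K] (h2 : Module.finrank ℚ K = 2) (D : K) (d : ℤ)
    (hd : d = 55 ∨ d = 95) (hD : D ^ 2 = -(d : K)) (j g : K)
    (hjv : ∀ w : HeightOneSpectrum (𝓞 K), w.valuation K j ≤ 1)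
    (h3 : j * g = (g + 27) * (g + 3) ^ 3) : ∃ q : ℚ, j = q := by
  have hj : IsIntegral ℤ j := int_of_val j hjv
  have hg : IsIntegral ℤ g := int_of_val g fun w => by
    by_contra hw
    rw [not_le] at hw
    have := G_large (w.valuation K) (by rw [mul_comm]; exact h3) hw
    have h1 := hjv w
    rw [this] at h1
    exact absurd h1 (not_le.2 (one_lt_pow₀ hw (by norm_num)))
  have hz' : IsIntegral ℤ (-(g ^ 3 + ((36 : ℤ) : K) * g ^ 2 + ((270 : ℤ) : K) * g +
      ((756 : ℤ) : K) - j)) :=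
    (((((hg.pow 3).add ((int_num _).mul (hg.pow 2))).add ((int_num _).mul hg)).add
      (int_num _)).sub hj).neg
  obtain ⟨q, hq⟩ := prod3 h2 D d hd hD g _ hg hz' 6 le_rfl (by push_cast; linear_combination h3)
  have hg0 : g ≠ 0 := by
    rintro rfl
    rw [mul_zero] at h3
    norm_num at h3
  refine ⟨(q + 27) * (q + 3) ^ 3 / q, ?_⟩
  push_cast
  rw [← hq, eq_div_iff hg0, h3]

/-- the normaliser of a split Cartan subgroup modulo 3 over the exceptional fields -/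
theorem exc_s3 [IsTotallyComplex K] (h2 : Module.finrank ℚ K = 2) (D : K) (d : ℤ)
    (hd : d = 55 ∨ d = 95) (hD : D ^ 2 = -(d : K)) (j c x : K) (hj : IsIntegral ℤ j)
    (hc : c ^ 3 = j) (h3 : c * x = (x + 3) * (x - 9)) : ∃ q : ℚ, j = q := by
  have hci : IsIntegral ℤ c := IsIntegral.of_pow (n := 3) (by norm_num) (by rw [hc]; exact hj)
  have hx : IsIntegral ℤ x := by
    apply int_of_quad x (((-6 : ℤ) : K) - c) ((-27 : ℤ) : K) ((int_num _).sub hci) (int_num _)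
    push_cast
    linear_combination -h3
  have hz' : IsIntegral ℤ (x - ((6 : ℤ) : K) - c) := (hx.sub (int_num _)).sub hci
  obtain ⟨q, hq⟩ := prod3 h2 D d hd hD x _ hx hz' 3 (by norm_num)
    (by push_cast; linear_combination -h3)
  have hx0 : x ≠ 0 := by
    rintro rfl
    rw [mul_zero] at h3
    norm_num at h3
  refine ⟨((q + 3) * (q - 9) / q) ^ 3, ?_⟩
  push_cast
  rw [← hq, ← h3, mul_div_cancel_right₀ _ hx0, hc]

end RG
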