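import Pool.Agent.Lib.MP_87c685_nt_RG.Exc1

/-!
# The sieve over the fields `ℚ(√-55)` and `ℚ(√-95)`
-/

set_option autoImplicit false

open NumberField IsDedekindDomain

namespace RG

/-- the action of the square of the fundamental unit, in coordinates `2 Y`, `5 A - Y` -/
def st2 (S : Type*) [CommRing S] : Equiv.Perm (S × S) where
  toFun v := (2 * v.1 + v.2, v.1 + v.2)
  invFun v := (v.1 - v.2, 2 * v.2 - v.1)
  left_inv v := by
    obtain ⟨a, b⟩ := v
    simp only [Prod.mk.injEq]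
    refine ⟨?_, ?_⟩ <;> ring
  right_inv v := by
    obtain ⟨a, b⟩ := v
    simp only [Prod.mk.injEq]
    refine ⟨?_, ?_⟩ <;> ring

/-- iterates of the step modulo `M` -/
def orb (M y m : ℕ) : ℕ → ℕ × ℕ
  | 0 => (y % M, m % M)
  | n + 1 => ((2 * (orb M y m n).1 + (orb M y m n).2) % M,
      ((orb M y m n).1 + (orb M y m n).2) % M)

theorem orb_spec (M y m n : ℕ) : ((st2 (ZMod M)) ^ n) ((y : ZMod M), (m : ZMod M)) =
    (((orb M y m n).1 : ZMod M), ((orb M y m n).2 : ZMod M)) := by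
  induction n with
  | zero => simp [orb]
  | succ n ih =>
    rw [pow_succ', Equiv.Perm.mul_apply, ih]
    simp [orb, st2]

/-- the pair of the point number `k` in a commutative ring -/
def pt2 (S : Type*) [CommRing S] (R : S) (T k : ℤ) : S × S :=
  ((st2 S) ^ k) ((T : S) + R, 2 * (T : S))

theorem pt2_period {S : Type*} [CommRing S] (R : S) (T : ℤ) (n : ℕ) (hn : 0 < n)
    (h : ((st2 S) ^ n) ((T : S) + R, 2 * (T : S)) = ((T : S) + R, 2 * (T : S))) (k : ℤ) :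
    pt2 S R T k = ((st2 S) ^ (k % n).toNat) ((T : S) + R, 2 * (T : S)) := by
  have h0 : 0 ≤ k % n := Int.emod_nonneg _ (by omega)
  have e : k = ((k % n).toNat : ℤ) + n * (k / n) := by
    rw [Int.toNat_of_nonneg h0]
    exact (Int.emod_add_mul_ediv k n).symm
  unfold pt2
  rw [← zpow_natCast (st2 S) n] at h
  conv_lhs => rw [e, zpow_add, zpow_mul, Equiv.Perm.mul_apply, zpow_natCast,
    Equiv.Perm.zpow_apply_eq_self_of_apply_eq_self h]

theorem semi {S : Type*} [CommRing S] (R : S) (k : ℤ) : ∀ v : ℤ × ℤ × ℤ × ℤ,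
    ((((((stp ℤ) ^ k) v).1 : S) + ((((stp ℤ) ^ k) v).2.1 : S) * R),
      (((((stp ℤ) ^ k) v).2.2.1 : S) + ((((stp ℤ) ^ k) v).2.2.2 : S) * R)) =
    ((st2 S) ^ k) ((v.1 : S) + v.2.1 * R, (v.2.2.1 : S) + v.2.2.2 * R) := by
  induction k using Int.induction_on with
  | zero => intro v; simp
  | succ k ih =>
    intro v
    rw [zpow_add_one, zpow_add_one, Equiv.Perm.mul_apply, Equiv.Perm.mul_apply, ih]
    obtain ⟨a, b, c, d⟩ := v
    congr 1
    simp only [stp_app, st2, Equiv.coe_fn_mk, Prod.mk.injEq]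
    push_cast
    constructor <;> ring
  | pred k ih =>
    intro v
    rw [zpow_sub_one, zpow_sub_one, Equiv.Perm.mul_apply, Equiv.Perm.mul_apply, ih]
    obtain ⟨a, b, c, d⟩ := v
    congr 1
    rw [stp_inv]
    apply Eq.symm
    apply Equiv.Perm.inv_eq_iff_eq.2
    simp only [st2, Equiv.coe_fn_mk, Prod.mk.injEq]
    push_cast
    constructor <;> ring

/-- the right-hand side of the equation `100 E³ = 800 j` -/
def FF {S : Type*} [CommRing S] (v : S × S) : S :=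
  (2 * v.2 + v.1 + 20) * (v.2 + v.1 + 10) * (3 * v.2 - v.1 - 10) ^ 3

theorem s11 : ∀ k < 5, ¬ ((∃ E G : ZMod 11, G ^ 2 = -3 * (E ^ 2 + 24 * E + 576) ∧
    100 * E ^ 3 = FF (((orb 11 3 2 k).1 : ZMod 11), ((orb 11 3 2 k).2 : ZMod 11))) ∧
    ∃ E G : ZMod 11, G ^ 2 = -3 * (E ^ 2 + 24 * E + 576) ∧
    100 * E ^ 3 = FF (((orb 11 10 2 k).1 : ZMod 11), ((orb 11 10 2 k).2 : ZMod 11))) := by
  decide +kernel

theorem s81a : ∀ E G : ZMod 81, G ^ 2 = -3 * (E ^ 2 + 24 * E + 576) → 100 * E ^ 3 = 54 := by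
  decide +kernel

theorem s81b : ∀ k < 108, FF (((orb 81 37 79 k).1 : ZMod 81), ((orb 81 37 79 k).2 : ZMod 81)) = 54 →
    FF (((orb 81 42 79 k).1 : ZMod 81), ((orb 81 42 79 k).2 : ZMod 81)) = 54 → k % 12 = 2 := by
  decide +kernel

theorem s107 : ∀ k < 36, k % 12 = 2 → ∀ E : ZMod 107,
    100 * E ^ 3 = FF (((orb 107 35 105 k).1 : ZMod 107), ((orb 107 35 105 k).2 : ZMod 107)) →
    ∀ G : ZMod 107, G ^ 2 ≠ -3 * (E ^ 2 + 24 * E + 576) := by
  decide +kernel

end RG
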