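import Pool.Agent.Lib.MP_87c685_nt_RG.Exc2

/-!
# Nonsplit Cartan subgroups modulo 3 over `ℚ(√-55)` and `ℚ(√-95)`
-/

set_option autoImplicit false

open NumberField IsDedekindDomain

namespace RG

/-- the two equations, transferred from `K` to any root of `X² = δ` in a commutative ring -/
theorem pull {K : Type*} [Field K] [CharZero K] (δ : ℤ) (hδ : ∀ n : ℤ, δ ≠ n * n) (D : K)
    (hD : D * D = (δ : K)) (e f g h a b c d : ℤ)
    (h1 : ((g : K) + h * D) ^ 2 = -3 * (((e : K) + f * D) ^ 2 + 24 * ((e : K) + f * D) + 576))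
    (h2 : 100 * ((e : K) + f * D) ^ 3 = FF ((a : K) + b * D, (c : K) + d * D))
    {S : Type*} [CommRing S] (R : S) (hR : R * R = (δ : S)) :
    ((g : S) + h * R) ^ 2 = -3 * (((e : S) + f * R) ^ 2 + 24 * ((e : S) + f * R) + 576) ∧
    100 * ((e : S) + f * R) ^ 3 = FF ((a : S) + b * R, (c : S) + d * R) := by
  have inj := Zsqrtd.lift_injective ⟨D, hD⟩ hδ
  have k1 : (⟨g, h⟩ : ℤ√δ) ^ 2 = -3 * ((⟨e, f⟩ : ℤ√δ) ^ 2 + 24 * (⟨e, f⟩ : ℤ√δ) + 576) := by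
    apply inj
    simp only [map_pow, map_mul, map_add, map_neg, map_ofNat, Zsqrtd.lift_apply_apply]
    exact h1
  have k2 : 100 * (⟨e, f⟩ : ℤ√δ) ^ 3 = FF ((⟨a, b⟩ : ℤ√δ), (⟨c, d⟩ : ℤ√δ)) := by
    apply inj
    simp only [FF, map_pow, map_mul, map_add, map_sub, map_ofNat, Zsqrtd.lift_apply_apply]
    exact h2
  constructor
  · have := congrArg (Zsqrtd.lift ⟨R, hR⟩) k1
    simpa only [map_pow, map_mul, map_add, map_neg, map_ofNat, Zsqrtd.lift_apply_apply] using this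
  · have := congrArg (Zsqrtd.lift ⟨R, hR⟩) k2
    simpa only [FF, map_pow, map_mul, map_add, map_sub, map_neg, map_ofNat,
      Zsqrtd.lift_apply_apply] using this

/-- the two equations at the point number `k`, in `ZMod M` -/
theorem pullZ {K : Type*} [Field K] [CharZero K] (δ : ℤ) (hδ : ∀ n : ℤ, δ ≠ n * n) (D : K)
    (hD : D * D = (δ : K)) (e f g h T k : ℤ)
    (h1 : ((g : K) + h * D) ^ 2 = -3 * (((e : K) + f * D) ^ 2 + 24 * ((e : K) + f * D) + 576))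
    (h2 : 100 * ((e : K) + f * D) ^ 3 =
      FF (((((stp ℤ) ^ k) (T, 1, 2 * T, 0)).1 : K) + (((stp ℤ) ^ k) (T, 1, 2 * T, 0)).2.1 * D,
        ((((stp ℤ) ^ k) (T, 1, 2 * T, 0)).2.2.1 : K) +
          (((stp ℤ) ^ k) (T, 1, 2 * T, 0)).2.2.2 * D))
    (M R y m n : ℕ) (hR : (R : ZMod M) * (R : ZMod M) = (δ : ZMod M)) (hn : 0 < n)
    (hy : (y : ZMod M) = (T : ZMod M) + R) (hm : (m : ZMod M) = 2 * (T : ZMod M))
    (hper : orb M y m n = (y % M, m % M)) :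
    ∃ E G : ZMod M, G ^ 2 = -3 * (E ^ 2 + 24 * E + 576) ∧
      100 * E ^ 3 = FF (((orb M y m (k % n).toNat).1 : ZMod M),
        ((orb M y m (k % n).toNat).2 : ZMod M)) := by
  obtain ⟨k1, k2⟩ := pull δ hδ D hD e f g h _ _ _ _ h1 h2 (R : ZMod M) hR
  rw [semi] at k2
  refine ⟨_, _, k1, ?_⟩
  rw [k2]
  congr 1
  have h3 : ((st2 (ZMod M)) ^ n) ((T : ZMod M) + R, 2 * (T : ZMod M)) =
      ((T : ZMod M) + R, 2 * (T : ZMod M)) := by
    rw [← hy, ← hm, orb_spec, hper]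
    simp
  have h4 := pt2_period (R : ZMod M) T n hn h3 k
  rw [pt2] at h4
  push_cast
  rw [one_mul, zero_mul, add_zero, h4, ← hy, ← hm, orb_spec]

theorem no_sq (δ : ℤ) (h : δ < 0) : ∀ n : ℤ, δ ≠ n * n := by
  intro n hn
  nlinarith [mul_self_nonneg n]

theorem exc_C95 {K : Type*} [Field K] [CharZero K] (D : K) (hD : D * D = ((-95 : ℤ) : K))
    (e f g h T k : ℤ) (hT : T = 1 ∨ T = -1)
    (h1 : ((g : K) + h * D) ^ 2 = -3 * (((e : K) + f * D) ^ 2 + 24 * ((e : K) + f * D) + 576))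
    (h2 : 100 * ((e : K) + f * D) ^ 3 =
      FF (((((stp ℤ) ^ k) (T, 1, 2 * T, 0)).1 : K) + (((stp ℤ) ^ k) (T, 1, 2 * T, 0)).2.1 * D,
        ((((stp ℤ) ^ k) (T, 1, 2 * T, 0)).2.2.1 : K) +
          (((stp ℤ) ^ k) (T, 1, 2 * T, 0)).2.2.2 * D)) : False := by
  rcases hT with rfl | rfl
  · have a1 := pullZ (-95) (no_sq _ (by norm_num)) D hD e f g h 1 k h1 h2 11 2 3 2 5
      (by decide) (by norm_num) (by decide) (by decide) (by decide)
    have a2 := pullZ (-95) (no_sq _ (by norm_num)) D hD e f g h 1 k h1 h2 11 9 10 2 5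
      (by decide) (by norm_num) (by decide) (by decide) (by decide)
    exact s11 _ (by omega) ⟨a1, a2⟩
  · obtain ⟨E, G, b1, b2⟩ := pullZ (-95) (no_sq _ (by norm_num)) D hD e f g h (-1) k h1 h2
      81 38 37 79 108 (by decide) (by norm_num) (by decide) (by decide) (by decide +kernel)
    obtain ⟨E', G', b1', b2'⟩ := pullZ (-95) (no_sq _ (by norm_num)) D hD e f g h (-1) k h1 h2
      81 43 42 79 108 (by decide) (by norm_num) (by decide) (by decide) (by decide +kernel)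
    rw [s81a E G b1] at b2
    rw [s81a E' G' b1'] at b2'
    have hk := s81b _ (by omega) b2.symm b2'.symm
    obtain ⟨E1, G1, c1, c2⟩ := pullZ (-95) (no_sq _ (by norm_num)) D hD e f g h (-1) k h1 h2
      107 36 35 105 36 (by decide) (by norm_num) (by decide) (by decide) (by decide +kernel)
    exact s107 _ (by omega) (by omega) E1 c2 G1 c1

theorem cart9 : ∀ e f g h : ZMod 9, g ^ 2 - 55 * h ^ 2 = -3 * (e ^ 2 - 55 * f ^ 2 + 24 * e + 576) →
    g * h = -3 * (e * f + 12 * f) → 3 * e = 0 ∧ 3 * f = 0 := by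
  decide +kernel

theorem norm3 : ∀ b d : ZMod 3, (20 ^ 2 + 55 * (2 * d + b) ^ 2) * (10 ^ 2 + 55 * (d + b) ^ 2) *
    ((-10) ^ 2 + 55 * (3 * d - b) ^ 2) ^ 3 ≠ 0 := by
  decide +kernel

theorem three_dvd_of {n : ℤ} (h : 3 * ((n : ℤ) : ZMod 9) = 0) : (3 : ℤ) ∣ n := by
  have h1 : ((3 * n : ℤ) : ZMod 9) = 0 := by push_cast; exact h
  have h2 : (9 : ℤ) ∣ 3 * n := (ZMod.intCast_zmod_eq_zero_iff_dvd _ 9).1 h1
  omega

theorem exc_C55 {K : Type*} [Field K] [CharZero K] (D : K) (hD : D * D = ((-55 : ℤ) : K))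
    (e f g h T k : ℤ) (hT : T = 3 ∨ T = -3)
    (h1 : ((g : K) + h * D) ^ 2 = -3 * (((e : K) + f * D) ^ 2 + 24 * ((e : K) + f * D) + 576))
    (h2 : 100 * ((e : K) + f * D) ^ 3 =
      FF (((((stp ℤ) ^ k) (T, 1, 2 * T, 0)).1 : K) + (((stp ℤ) ^ k) (T, 1, 2 * T, 0)).2.1 * D,
        ((((stp ℤ) ^ k) (T, 1, 2 * T, 0)).2.2.1 : K) +
          (((stp ℤ) ^ k) (T, 1, 2 * T, 0)).2.2.2 * D)) : False := by
  have h3T : ((T : ℤ) : ZMod 3) = 0 := by
    rcases hT with rfl | rfl <;> decide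
  have hs := semi (0 : ZMod 3) k (T, 1, 2 * T, 0)
  have hz : ((st2 (ZMod 3)) ^ k) (0, 0) = (0, 0) :=
    Equiv.Perm.zpow_apply_eq_self_of_apply_eq_self (by simp [st2]) k
  push_cast at hs
  simp only [mul_zero, add_zero, h3T, hz, Prod.mk.injEq] at hs
  obtain ⟨k1, k2⟩ := pull (-55) (no_sq _ (by norm_num)) D hD e f g h _ _ _ _ h1 h2
    (Zsqrtd.sqrtd : ℤ√(-55)) (Zsqrtd.dmuld)
  generalize ((stp ℤ) ^ k) (T, 1, 2 * T, 0) = v at hs k2
  obtain ⟨a, b, c, d⟩ := v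
  simp only at hs k2
  have mk : ∀ x y : ℤ, ((x : ℤ√(-55)) + (y : ℤ√(-55)) * Zsqrtd.sqrtd) = ⟨x, y⟩ := by
    intro x y
    ext <;> simp
  rw [mk, mk] at k1
  simp only [FF, mk] at k2
  have r1 : g ^ 2 - 55 * h ^ 2 = -3 * (e ^ 2 - 55 * f ^ 2 + 24 * e + 576) := by
    have := congrArg Zsqrtd.re k1
    simp [pow_two] at this
    linarith
  have i1 : g * h = -3 * (e * f + 12 * f) := by
    have := congrArg Zsqrtd.im k1
    simp [pow_two] at this
    linarith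
  obtain ⟨he, hf⟩ := cart9 (e : ZMod 9) f g h (by exact_mod_cast congrArg (Int.cast : ℤ → ZMod 9) r1)
    (by exact_mod_cast congrArg (Int.cast : ℤ → ZMod 9) i1)
  obtain ⟨e', rfl⟩ := three_dvd_of he
  obtain ⟨f', rfl⟩ := three_dvd_of hf
  have p1 : 2 * (⟨c, d⟩ : ℤ√(-55)) + ⟨a, b⟩ + 20 = ⟨2 * c + a + 20, 2 * d + b⟩ := by
    ext <;> simp
  have p2 : (⟨c, d⟩ : ℤ√(-55)) + ⟨a, b⟩ + 10 = ⟨c + a + 10, d + b⟩ := by
    ext <;> simp
  have p3 : 3 * (⟨c, d⟩ : ℤ√(-55)) - ⟨a, b⟩ - 10 = ⟨3 * c - a - 10, 3 * d - b⟩ := by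
    ext <;> simp
  have p4 : (100 : ℤ√(-55)) = ⟨100, 0⟩ := by
    ext <;> simp
  rw [p1, p2, p3, p4] at k2
  have n2 := congrArg Zsqrtd.norm k2
  simp only [pow_succ, pow_zero, one_mul, Zsqrtd.norm_mul] at n2
  simp only [Zsqrtd.norm_def] at n2
  have n3 := congrArg (Int.cast : ℤ → ZMod 3) n2
  push_cast at n3
  rw [hs.1, hs.2] at n3
  apply norm3 b d
  have z3 : (3 : ZMod 3) = 0 := by decide
  have z55 : (-55 : ZMod 3) = -1 := by decide
  have z56 : (55 : ZMod 3) = 1 := by decide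
  rw [z55] at n3
  simp only [z3, z56, zero_mul, mul_zero, add_zero, sub_zero, zero_add] at n3 ⊢
  linear_combination -n3

end RG
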