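import Pool.Agent.Lib.MP_87c685_nt_RG.ValC

/-!
# Primes at which 5 is not a square
-/

set_option autoImplicit false

namespace RG

variable {K : Type*} [Field K] {Γ₀ : Type*} [LinearOrderedCommGroupWithZero Γ₀]
  (v : Valuation K Γ₀)

/-- On the curve of the normaliser of a nonsplit Cartan subgroup modulo 5, `j` is integral at all
primes at which 5 is not a square. -/
theorem v_ns [CharZero K] {s j : K} (h : j * (s ^ 2 - 5) ^ 5 =
    8000 * (s + 1) * s ^ 3 * (s ^ 2 - 5 * s + 10) ^ 3) (hf : v 20 ≤ v (s ^ 2 - 5)) :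
    v j ≤ 1 := by
  have h20 : v (20 : K) = v 4 * v 5 := by rw [← map_mul]; norm_num
  have hpos : 0 < v (s ^ 2 - 5) := lt_of_lt_of_le (v_pos v (by norm_num)) hf
  have h8000 : v (8000 : K) = v 2 ^ 6 * v 5 ^ 3 := by
    have : (8000 : K) = 2 ^ 6 * 5 ^ 3 := by norm_num
    rw [this, map_mul, map_pow, map_pow]
  have key : v j * v (s ^ 2 - 5) ^ 5 = v 2 ^ 6 * v 5 ^ 3 * v (s + 1) * v s ^ 3 *
      v (s ^ 2 - 5 * s + 10) ^ 3 := by
    rw [← map_pow, ← map_mul, h, map_mul, map_mul, map_mul, map_pow, map_pow, h8000]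
  have fin : ∀ c : Γ₀, 0 < c → c ≤ v (s ^ 2 - 5) ^ 5 → v j * v (s ^ 2 - 5) ^ 5 ≤ c → v j ≤ 1 := by
    intro c hc h1 h2
    have h3 : v j * c ≤ 1 * c := by
      calc v j * c ≤ v j * v (s ^ 2 - 5) ^ 5 := mul_le_mul_right h1 _
        _ ≤ c := h2
        _ = 1 * c := (one_mul c).symm
    exact le_of_mul_le_mul_right h3 hc
  have h2le : v (2 : K) ≤ 1 := v_ofNat v 2
  have h5le : v (5 : K) ≤ 1 := v_ofNat v 5
  have h2pos : 0 < v (2 : K) := v_pos v (by norm_num)
  have h5pos : 0 < v (5 : K) := v_pos v (by norm_num)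
  rcases lt_or_ge 1 (v s) with hs | hs
  · have hspos : 0 < v s := lt_trans zero_lt_one hs
    have e1 : v (s ^ 2 - 5) = v s ^ 2 := by
      have e : s ^ 2 - 5 = s ^ 2 + (-5) := by ring
      rw [e, Valuation.map_add_eq_of_lt_left v, map_pow]
      rw [Valuation.map_neg, map_pow]
      exact lt_of_le_of_lt h5le (one_lt_pow₀ hs (by norm_num))
    have e2 : v (s + 1) = v s :=
      Valuation.map_add_eq_of_lt_left v (by rw [map_one]; exact hs)
    have e3 : v (s ^ 2 - 5 * s + 10) ≤ v s ^ 2 := by
      have e : s ^ 2 - 5 * s + 10 = s ^ 2 + (-(5 * s) + 10) := by ring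
      rw [e]
      have hs2 : v s ≤ v s ^ 2 := by
        rw [pow_two]
        calc v s = v s * 1 := (mul_one _).symm
          _ ≤ v s * v s := mul_le_mul_right hs.le _
      apply v.map_add_le (by rw [map_pow])
      apply v.map_add_le
      · rw [Valuation.map_neg, map_mul]
        calc v 5 * v s ≤ 1 * v s := mul_le_mul_left h5le _
          _ = v s := one_mul _
          _ ≤ _ := hs2
      · exact (v_ofNat v 10).trans (hs.le.trans hs2)
    apply fin ((v s ^ 2) ^ 5) (pow_pos (pow_pos hspos 2) 5) (by rw [e1])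
    rw [key, e2]
    calc v 2 ^ 6 * v 5 ^ 3 * v s * v s ^ 3 * v (s ^ 2 - 5 * s + 10) ^ 3
        ≤ 1 * 1 * v s * v s ^ 3 * (v s ^ 2) ^ 3 := by
          apply mul_le_mul' _ (pow_le_pow_left₀ zero_le e3 3)
          apply mul_le_mul' _ le_rfl
          apply mul_le_mul' _ le_rfl
          exact mul_le_mul' (pow_le_one₀ zero_le h2le) (pow_le_one₀ zero_le h5le)
      _ = (v s ^ 2) ^ 5 := by
        rw [one_mul, one_mul, ← pow_mul, ← pow_mul, ← pow_succ', ← pow_add]
  · rcases h5le.eq_or_lt with h5 | h5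
    · have h4 : v (4 : K) = v 2 ^ 2 := by rw [← map_pow]; norm_num
      rw [h20, h5, mul_one, h4] at hf
      rw [h5, one_pow, mul_one] at key
      have e6 : v ((s + 1) * (s - 6)) ≤ v (s + 1) := by
        have e : v (s - 6) ≤ 1 := by
          rw [sub_eq_add_neg]
          exact v.map_add_le hs (by rw [Valuation.map_neg]; exact v_ofNat v 6)
        rw [map_mul]
        calc v (s + 1) * v (s - 6) ≤ v (s + 1) * 1 := mul_le_mul_right e _
          _ = _ := mul_one _
      have e7 : v (16 : K) ≤ v 2 := by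
        have : (16 : K) = 2 * 8 := by norm_num
        rw [this, map_mul]
        calc v (2 : K) * v 8 ≤ v 2 * 1 := mul_le_mul_right (v_ofNat v 8) _
          _ = _ := mul_one _
      have e8 : s ^ 2 - 5 * s + 10 = (s + 1) * (s - 6) + 16 := by ring
      rcases lt_or_ge (v 2) (v (s + 1)) with ha | ha
      · have hapos : 0 < v (s + 1) := lt_trans h2pos ha
        have e1 : v (s - 1) = v (s + 1) := by
          have e : s - 1 = (s + 1) + (-2) := by ring
          rw [e, Valuation.map_add_eq_of_lt_left v (by rw [Valuation.map_neg]; exact ha)]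
        have e2 : v (s ^ 2 - 5) = v (s + 1) ^ 2 := by
          have e : s ^ 2 - 5 = (s + 1) * (s - 1) + (-4) := by ring
          rw [e, Valuation.map_add_eq_of_lt_left v, map_mul, e1, pow_two]
          rw [Valuation.map_neg, map_mul, e1, h4, ← pow_two]
          exact pow_lt_pow_left₀ ha zero_le (by norm_num)
        have e3 : v (s ^ 2 - 5 * s + 10) ≤ v (s + 1) := by
          rw [e8]
          exact v.map_add_le e6 (e7.trans ha.le)
        apply fin ((v (s + 1) ^ 2) ^ 5) (pow_pos (pow_pos hapos 2) 5) (by rw [e2])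
        rw [key]
        calc v 2 ^ 6 * v (s + 1) * v s ^ 3 * v (s ^ 2 - 5 * s + 10) ^ 3
            ≤ v (s + 1) ^ 6 * v (s + 1) * 1 * v (s + 1) ^ 3 := by
              apply mul_le_mul' _ (pow_le_pow_left₀ zero_le e3 3)
              apply mul_le_mul' _ (pow_le_one₀ zero_le hs)
              exact mul_le_mul' (pow_le_pow_left₀ zero_le ha.le 6) le_rfl
          _ = (v (s + 1) ^ 2) ^ 5 := by
            rw [mul_one, ← pow_succ, ← pow_add, ← pow_mul]
      · have e3 : v (s ^ 2 - 5 * s + 10) ≤ v 2 := by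
          rw [e8]
          exact v.map_add_le (e6.trans ha) e7
        apply fin ((v 2 ^ 2) ^ 5) (pow_pos (pow_pos h2pos 2) 5) (pow_le_pow_left₀ zero_le hf 5)
        rw [key]
        calc v 2 ^ 6 * v (s + 1) * v s ^ 3 * v (s ^ 2 - 5 * s + 10) ^ 3
            ≤ v 2 ^ 6 * v 2 * 1 * v 2 ^ 3 := by
              apply mul_le_mul' _ (pow_le_pow_left₀ zero_le e3 3)
              apply mul_le_mul' _ (pow_le_one₀ zero_le hs)
              exact mul_le_mul' le_rfl ha
          _ = (v 2 ^ 2) ^ 5 := by
            rw [mul_one, ← pow_succ, ← pow_add, ← pow_mul]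
    · have h4 : v (4 : K) = 1 := by
        by_contra hne
        have h1 : v (4 : K) < 1 := lt_of_le_of_ne (v_ofNat v 4) hne
        have e : (1 : K) = 5 + (-4) := by norm_num
        have h3 : v (1 : K) < 1 := by
          rw [e]
          exact v.map_add_lt h5 (by rw [Valuation.map_neg]; exact h1)
        rw [map_one] at h3
        exact lt_irrefl _ h3
      rw [h20, h4, one_mul] at hf
      have hs1 : v (s + 1) ≤ 1 := v.map_add_le hs (by rw [map_one])
      have h10 : v (10 : K) ≤ v 5 := by
        have : (10 : K) = 2 * 5 := by norm_num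
        rw [this, map_mul]
        calc v (2 : K) * v 5 ≤ 1 * v 5 := mul_le_mul_left h2le _
          _ = _ := one_mul _
      have h5s : v (5 * s) ≤ v 5 := by
        rw [map_mul]
        calc v (5 : K) * v s ≤ v 5 * 1 := mul_le_mul_right hs _
          _ = _ := mul_one _
      have e8 : s ^ 2 - 5 * s + 10 = s ^ 2 + (-(5 * s) + 10) := by ring
      have h2one : v (2 : K) ^ 6 ≤ 1 := pow_le_one₀ zero_le h2le
      rcases lt_or_ge (v 5) (v s ^ 2) with ha | ha
      · have e2 : v (s ^ 2 - 5) = v s ^ 2 := by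
          have e : s ^ 2 - 5 = s ^ 2 + (-5) := by ring
          rw [e, Valuation.map_add_eq_of_lt_left v, map_pow]
          rw [Valuation.map_neg, map_pow]
          exact ha
        have e3 : v (s ^ 2 - 5 * s + 10) ≤ v s ^ 2 := by
          rw [e8]
          apply v.map_add_le (by rw [map_pow])
          exact v.map_add_le (by rw [Valuation.map_neg]; exact h5s.trans ha.le) (h10.trans ha.le)
        have hspos : 0 < v s := by
          apply zero_lt_iff.2
          intro h0
          rw [h0] at ha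
          simp at ha
        have h53 : v (5 : K) ^ 3 ≤ v s := by
          calc v (5 : K) ^ 3 ≤ v 5 := by
                rw [pow_succ]
                calc v (5 : K) ^ 2 * v 5 ≤ 1 * v 5 :=
                      mul_le_mul_left (pow_le_one₀ zero_le h5le) _
                  _ = _ := one_mul _
            _ ≤ v s ^ 2 := ha.le
            _ = v s * v s := pow_two _
            _ ≤ v s * 1 := mul_le_mul_right hs _
            _ = v s := mul_one _
        apply fin ((v s ^ 2) ^ 5) (pow_pos (pow_pos hspos 2) 5) (by rw [e2])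
        rw [key]
        calc v 2 ^ 6 * v 5 ^ 3 * v (s + 1) * v s ^ 3 * v (s ^ 2 - 5 * s + 10) ^ 3
            ≤ 1 * v s * 1 * v s ^ 3 * (v s ^ 2) ^ 3 := by
              apply mul_le_mul' _ (pow_le_pow_left₀ zero_le e3 3)
              apply mul_le_mul' _ le_rfl
              exact mul_le_mul' (mul_le_mul' h2one h53) hs1
          _ = (v s ^ 2) ^ 5 := by
            rw [one_mul, mul_one, ← pow_mul, ← pow_mul, ← pow_succ', ← pow_add]
      · have e3 : v (s ^ 2 - 5 * s + 10) ≤ v 5 := by
          rw [e8]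
          apply v.map_add_le (by rw [map_pow]; exact ha)
          exact v.map_add_le (by rw [Valuation.map_neg]; exact h5s) h10
        apply fin (v 5 ^ 5) (pow_pos h5pos 5) (pow_le_pow_left₀ zero_le hf 5)
        rw [key]
        calc v 2 ^ 6 * v 5 ^ 3 * v (s + 1) * v s ^ 3 * v (s ^ 2 - 5 * s + 10) ^ 3
            ≤ 1 * v 5 ^ 3 * 1 * 1 * v 5 ^ 3 := by
              apply mul_le_mul' _ (pow_le_pow_left₀ zero_le e3 3)
              apply mul_le_mul' _ (pow_le_one₀ zero_le hs)
              exact mul_le_mul' (mul_le_mul' h2one le_rfl) hs1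
          _ = v 5 ^ 5 * v 5 := by
            rw [one_mul, mul_one, mul_one, ← pow_add, ← pow_succ]
          _ ≤ v 5 ^ 5 * 1 := mul_le_mul_right h5le _
          _ = v 5 ^ 5 := mul_one _

end RG
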