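import Pool.Agent.Lib.MP_87c685_nt_RG.Exc3
import Pool.Agent.Lib.MP_87c685_nt_RG.ValD
import Pool.Agent.Lib.MP_87c685_nt_RG.Final

/-!
# Everywhere potentially good reduction
-/

set_option autoImplicit false

open NumberField IsDedekindDomain

namespace RG

variable {K : Type*} [Field K] [NumberField K]

theorem exc_C [IsTotallyComplex K] (h2 : Module.finrank ℚ K = 2) (A Y : K) (hE : Exc A Y)
    (j c y : K) (hj : IsIntegral ℤ j) (hc : c ^ 3 = j)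
    (hy : y ^ 2 = -3 * (c ^ 2 + 12 * c + 144)) (h800 : 800 * j = FF (2 * Y, 5 * A - Y)) :
    False := by
  have hci : IsIntegral ℤ c := IsIntegral.of_pow (n := 3) (by norm_num) (by rw [hc]; exact hj)
  have hyi : IsIntegral ℤ y := by
    apply IsIntegral.of_pow (n := 2) (by norm_num)
    rw [hy]
    have h : IsIntegral ℤ (((-3 : ℤ) : K) * (c ^ 2 + ((12 : ℤ) : K) * c + ((144 : ℤ) : K))) :=
      (int_num _).mul (((hci.pow 2).add ((int_num _).mul hci)).add (int_num _))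
    push_cast at h
    exact h
  obtain ⟨D, T, k, ⟨hT, hD⟩ | ⟨hT, hD⟩, e1, e2⟩ := hE
  · obtain ⟨e, -, f, -, -, he, -⟩ := coords h2 D 95 (by norm_num) (fun n => sf95)
      (by push_cast; exact hD) c hci
    obtain ⟨g, -, h, -, -, hg, -⟩ := coords h2 D 95 (by norm_num) (fun n => sf95)
      (by push_cast; exact hD) y hyi
    apply exc_C95 D (by push_cast; rw [← hD]; ring) e f g h T k hT
    · rw [← he, ← hg]
      linear_combination 4 * hy
    · rw [← he, ← e1, ← e2, ← h800, ← hc]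
      ring
  · obtain ⟨e, -, f, -, -, he, -⟩ := coords h2 D 55 (by norm_num) (fun n => sf55)
      (by push_cast; exact hD) c hci
    obtain ⟨g, -, h, -, -, hg, -⟩ := coords h2 D 55 (by norm_num) (fun n => sf55)
      (by push_cast; exact hD) y hyi
    apply exc_C55 D (by push_cast; rw [← hD]; ring) e f g h T k hT
    · rw [← he, ← hg]
      linear_combination 4 * hy
    · rw [← he, ← e1, ← e2, ← h800, ← hc]
      ring

/-- the image modulo 5 is in the normaliser of a nonsplit Cartan subgroup -/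
theorem ns5_main [IsTotallyComplex K] (h2 : Module.finrank ℚ K = 2)
    (h1 : ∀ x : K, x ^ 2 ≠ -1) (h5 : ∀ x : K, x ^ 2 ≠ -5) (h15 : ∀ x : K, x ^ 2 ≠ -15)
    (j s : K) (hs : j * (s ^ 2 - 5) ^ 5 = 8000 * (s + 1) * s ^ 3 * (s ^ 2 - 5 * s + 10) ^ 3)
    (hjv : ∀ w : HeightOneSpectrum (𝓞 K), w.valuation K j ≤ 1)
    (h3 : (∃ g : K, j * g = (g + 27) * (g + 3) ^ 3) ∨
      (∃ c x : K, c ^ 3 = j ∧ c * x = (x + 3) * (x - 9)) ∨
      (∃ c y : K, c ^ 3 = j ∧ y ^ 2 = -3 * (c ^ 2 + 12 * c + 144))) : ∃ q : ℚ, j = q := by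
  have hj : IsIntegral ℤ j := int_of_val j hjv
  have h0 : s ^ 2 - 5 ≠ 0 := by
    intro h
    exact no5 h2 s (by linear_combination h)
  have hY : IsIntegral ℤ (20 * s / (s ^ 2 - 5)) :=
    int_of_val _ fun w => v_Y (w.valuation K) hs (hjv w) h0
  have hAY : 5 * (2 * (s ^ 2 + 5) / (s ^ 2 - 5)) ^ 2 = (20 * s / (s ^ 2 - 5)) ^ 2 + 20 := by
    field_simp
    ring
  have h800 : 800 * j = FF (2 * (20 * s / (s ^ 2 - 5)),
      5 * (2 * (s ^ 2 + 5) / (s ^ 2 - 5)) - 20 * s / (s ^ 2 - 5)) := by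
    have hj' : j = 8000 * (s + 1) * s ^ 3 * (s ^ 2 - 5 * s + 10) ^ 3 / (s ^ 2 - 5) ^ 5 := by
      rw [eq_div_iff (pow_ne_zero 5 h0), hs]
    rw [hj', FF]
    field_simp
    ring
  have hA2 : 2 * (s ^ 2 + 5) / (s ^ 2 - 5) - 2 = 20 / (s ^ 2 - 5) := by
    field_simp
    ring
  rcases pell_main h2 h1 h5 h15 _ _ hAY hY with ⟨a, y, ha, hy⟩ | hE
  · have hsq : s = ((y / (a - 2) : ℚ) : K) := by
      push_cast
      rw [← ha, ← hy, hA2]
      field_simp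
    refine ⟨8000 * (y / (a - 2) + 1) * (y / (a - 2)) ^ 3 * ((y / (a - 2)) ^ 2 -
      5 * (y / (a - 2)) + 10) ^ 3 / ((y / (a - 2)) ^ 2 - 5) ^ 5, ?_⟩
    generalize y / (a - 2) = u at hsq
    push_cast
    rw [← hsq, eq_div_iff (pow_ne_zero 5 h0), hs]
  · have hD : ∃ (D : K) (d : ℤ), (d = 55 ∨ d = 95) ∧ D ^ 2 = -(d : K) := by
      obtain ⟨D, T, k, ⟨hT, hD⟩ | ⟨hT, hD⟩, -⟩ := hE
      · exact ⟨D, 95, Or.inr rfl, by push_cast; exact hD⟩
      · exact ⟨D, 55, Or.inl rfl, by push_cast; exact hD⟩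
    obtain ⟨D, d, hd, hD⟩ := hD
    rcases h3 with ⟨g, hg⟩ | ⟨c, x, hc, hx⟩ | ⟨c, y, hc, hy⟩
    · exact exc_b3 h2 D d hd hD j g hjv hg
    · exact exc_s3 h2 D d hd hD j c x hj hc hx
    · exact (exc_C h2 _ _ hE j c y hj hc hy h800).elim

/-- **Everywhere potentially good reduction.** -/
theorem good_main [IsTotallyComplex K] (h2 : Module.finrank ℚ K = 2)
    (h1 : ∀ x : K, x ^ 2 ≠ -1) (h5 : ∀ x : K, x ^ 2 ≠ -5) (h15 : ∀ x : K, x ^ 2 ≠ -15)
    (j : K) (hjv : ∀ w : HeightOneSpectrum (𝓞 K), w.valuation K j ≤ 1)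
    (h3 : (∃ g : K, j * g = (g + 27) * (g + 3) ^ 3) ∨
      (∃ c x : K, c ^ 3 = j ∧ c * x = (x + 3) * (x - 9)) ∨
      (∃ c y : K, c ^ 3 = j ∧ y ^ 2 = -3 * (c ^ 2 + 12 * c + 144)))
    (h5' : (∃ k : K, j * k = (k ^ 2 + 10 * k + 5) ^ 3) ∨ j = 8000 ∨
      ∃ s : K, j * (s ^ 2 - 5) ^ 5 = 8000 * (s + 1) * s ^ 3 * (s ^ 2 - 5 * s + 10) ^ 3) :
    (∃ q : ℚ, j = q) ∨ ∃ σ : K ≃ₐ[ℚ] K, σ ≠ 1 ∧ Iso5 j (σ j) := by
  rcases h5' with ⟨k, hk⟩ | h | ⟨s, hs⟩
  · rcases h3 with ⟨g, hg⟩ | ⟨c, x, hc, hx⟩ | ⟨c, y, hc, hy⟩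
    · left
      refine ⟨-32768, ?_⟩
      rw [goodA h2 j g k (by rw [mul_comm]; exact hk) (by rw [mul_comm]; exact hg) hjv]
      norm_num
    · left
      refine ⟨-32768, ?_⟩
      rw [goodB h2 j c (x / 3) k (by rw [mul_comm]; exact hk) hc
        (by linear_combination (1 / 3) * hx) hjv]
      norm_num
    · exact finalC h2 j c y k hk hc hy
  · left
    exact ⟨8000, by rw [h]; norm_num⟩
  · exact Or.inl (ns5_main h2 h1 h5 h15 j s hs hjv h3)

omit [NumberField K] in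
/-- the first four exceptional quadratics have their roots in `ℚ(i)` -/
theorem drop4 [CharZero K] (h1 : ∀ x : K, x ^ 2 ≠ -1) (j : K)
    (h : ∃ p ∈ exceptions, (p.1 : K) * j ^ 2 + (p.2.1 : K) * j + (p.2.2 : K) = 0) :
    ∃ p ∈ exceptions.drop 4, (p.1 : K) * j ^ 2 + (p.2.1 : K) * j + (p.2.2 : K) = 0 := by
  obtain ⟨p, hp, he⟩ := h
  rw [← List.take_append_drop 4 exceptions, List.mem_append] at hp
  rcases hp with hp | hp
  · exfalso
    simp only [exceptions, List.take, List.mem_cons, List.not_mem_nil, or_false] at hp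
    rcases hp with rfl | rfl | rfl | rfl
    · apply h1 ((2 * 32 * j + (-159425064)) / 109361448)
      rw [div_pow, div_eq_iff (by norm_num)]
      push_cast at he
      linear_combination (4 * 32) * he
    · apply h1 ((2 * 8 * j + (7884)) / 346572)
      rw [div_pow, div_eq_iff (by norm_num)]
      push_cast at he
      linear_combination (4 * 8) * he
    · apply h1 ((2 * 2 * j + (125226)) / 396522)
      rw [div_pow, div_eq_iff (by norm_num)]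
      push_cast at he
      linear_combination (4 * 2) * he
    · apply h1 ((2 * 32768 * j + (12213504)) / 3932928)
      rw [div_pow, div_eq_iff (by norm_num)]
      push_cast at he
      linear_combination (4 * 32768) * he
  · exact ⟨p, hp, he⟩

/-- **At most two primes of potentially multiplicative reduction, at which 5 is not a square.** -/
theorem two_main [IsTotallyComplex K] (h2 : Module.finrank ℚ K = 2)
    (h1 : ∀ x : K, x ^ 2 ≠ -1) (h5 : ∀ x : K, x ^ 2 ≠ -5) (h15 : ∀ x : K, x ^ 2 ≠ -15)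
    (j : K) (hj : ∃ P Q : HeightOneSpectrum (𝓞 K), ∀ w : HeightOneSpectrum (𝓞 K),
      1 < w.valuation K j → (w = P ∨ w = Q) ∧
        ∀ x : K, w.valuation K 20 ≤ w.valuation K (x ^ 2 - 5))
    (h3 : (∃ g : K, j * g = (g + 27) * (g + 3) ^ 3) ∨
      (∃ c x : K, c ^ 3 = j ∧ c * x = (x + 3) * (x - 9)) ∨
      (∃ c y : K, c ^ 3 = j ∧ y ^ 2 = -3 * (c ^ 2 + 12 * c + 144)))
    (h5' : (∃ k : K, j * k = (k ^ 2 + 10 * k + 5) ^ 3) ∨ j = 8000 ∨
      ∃ s : K, j * (s ^ 2 - 5) ^ 5 = 8000 * (s + 1) * s ^ 3 * (s ^ 2 - 5 * s + 10) ^ 3) :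
    (∃ q : ℚ, j = q) ∨
      (∃ σ : K ≃ₐ[ℚ] K, σ ≠ 1 ∧ (Iso5 j (σ j) ∨ ∃ j1 : K, Iso5 j j1 ∧ Iso3 (σ j) j1)) ∨
      ((∃ w : HeightOneSpectrum (𝓞 K), 1 < w.valuation K j) ∧
        ∃ p ∈ exceptions.drop 4, (p.1 : K) * j ^ 2 + (p.2.1 : K) * j + (p.2.2 : K) = 0) := by
  by_cases hjv : ∀ w : HeightOneSpectrum (𝓞 K), w.valuation K j ≤ 1
  · rcases good_main h2 h1 h5 h15 j hjv h3 h5' with h | ⟨σ, hσ, h⟩
    · exact Or.inl h
    · exact Or.inr (Or.inl ⟨σ, hσ, Or.inl h⟩)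
  have hw : ∃ w : HeightOneSpectrum (𝓞 K), 1 < w.valuation K j := by
    push Not at hjv
    exact hjv
  obtain ⟨P, Q, hPQ⟩ := hj
  rcases h5' with ⟨k, hk⟩ | h | ⟨s, hs⟩
  · rcases h3 with ⟨g, hg⟩ | ⟨c, x, hc, hx⟩ | ⟨c, y, hc, hy⟩
    · rcases finalA h2 j g k hk hg (twoTypes_of_two j g k P Q fun w hw => (hPQ w hw).1) with
        h | ⟨σ, hσ, h⟩ | h
      · exact Or.inl h
      · exact Or.inr (Or.inl ⟨σ, hσ, Or.inr h⟩)
      · exact Or.inr (Or.inr ⟨hw, drop4 h1 j h⟩)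
    · rcases finalB h2 j c x k hk hc hx (twoTypes_of_two j x k P Q fun w hw => (hPQ w hw).1) with
        h | ⟨σ, hσ, h⟩ | h
      · exact Or.inl h
      · exact Or.inr (Or.inl ⟨σ, hσ, Or.inl h⟩)
      · exact Or.inr (Or.inr ⟨hw, drop4 h1 j h⟩)
    · rcases finalC h2 j c y k hk hc hy with h | ⟨σ, hσ, h⟩
      · exact Or.inl h
      · exact Or.inr (Or.inl ⟨σ, hσ, Or.inl h⟩)
  · exact Or.inl ⟨8000, by rw [h]; norm_num⟩
  · exfalso
    apply hjv
    intro w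
    by_contra hw'
    exact hw' (v_ns (w.valuation K) hs ((hPQ w (not_le.1 hw')).2 s))

end RG
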