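import Pool.Agent.Lib.MP_87c685_nt_RG.CK

/-!
# Isogenies of degree 3 and 5 through Hauptmoduln, and the conjugate curve
-/

set_option autoImplicit false

open NumberField

namespace RG

section ring

variable {K : Type*} [Field K] [CharZero K]

/-- `j` and `j'` are the `j`-invariants of two curves linked by a cyclic 3-isogeny -/
def Iso3 (j j' : K) : Prop :=
  ∃ g : K, g ≠ 0 ∧ j * g = (g + 27) * (g + 3) ^ 3 ∧ j' * g ^ 3 = (g + 27) * (g + 243) ^ 3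

/-- `j` and `j'` are the `j`-invariants of two curves linked by a cyclic 5-isogeny -/
def Iso5 (j j' : K) : Prop :=
  ∃ k : K, k ≠ 0 ∧ j * k = (k ^ 2 + 10 * k + 5) ^ 3 ∧
    j' * k ^ 5 = (k ^ 2 + 250 * k + 3125) ^ 3

theorem idH {r p s t : K} (hrr : r * p = 9) (hsum : r + p + s + t + 5 = 0) :
    p ^ 2 + (5 + s + t) * p + 9 = 0 := by
  have : r = -5 - p - s - t := by linear_combination hsum
  rw [this] at hrr
  linear_combination -hrr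

theorem id1 {r p s t : K} (hrr : r * p = 9) (hss : s * t = -1)
    (hsum : r + p + s + t + 5 = 0) :
    (2 - 1 / 3 * r * s + p + s) * ((p ^ 3 * t ^ 2) + 3) = (-9 - s - p * t - p ^ 2 * t) ^ 2 + 10 * (-9 - s - p * t - p ^ 2 * t) + 5 := by
  have h2 := idH hrr hsum
  have h1 : s * t + 1 = 0 := by rw [hss]; ring
  have hr : r = -5 - p - s - t := by linear_combination hsum
  subst hr
  linear_combination
    (1/3 * p ^ 2 * s * t ^ 2 + p * s * t ^ 2 - s ^ 2 * t ^ 2 - s * t ^ 3 - 8 * s * t ^ 2 - 2 *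
    s * t - t ^ 2 - 8 * t) * h2 +
    (p * s ^ 2 * t + 2 * p * s * t ^ 2 + 13 * p * s * t + p * s + p * t ^ 3 + 13 * p * t ^ 2 +
    32 * p * t + 3 * p + 9 * s * t + 9 * t ^ 2 + 72 * t + 10) * h1

theorem id2 {r p s t : K} (hrr : r * p = 9) (hss : s * t = -1)
    (hsum : r + p + s + t + 5 = 0) :
    (2 - 1 / 3 * r * s + p + s) ^ 3 * (p ^ 3 * t ^ 2) = (-9 - s - p * t - p ^ 2 * t) * ((p ^ 3 * t ^ 2) + 27) := by
  have h2 := idH hrr hsum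
  have h1 : s * t + 1 = 0 := by rw [hss]; ring
  have hr : r = -5 - p - s - t := by linear_combination hsum
  subst hr
  linear_combination
    (1/27 * p ^ 4 * s ^ 3 * t ^ 2 + 1/3 * p ^ 4 * s ^ 2 * t ^ 2 + p ^ 4 * s * t ^ 2 + p ^ 4 * t
    ^ 2 + 2/27 * p ^ 3 * s ^ 4 * t ^ 2 + 2/27 * p ^ 3 * s ^ 3 * t ^ 3 + 28/27 * p ^ 3 * s ^ 3 *
    t ^ 2 + 1/3 * p ^ 3 * s ^ 2 * t ^ 3 + 13/3 * p ^ 3 * s ^ 2 * t ^ 2 + 6 * p ^ 3 * s * t ^ 2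
    + p ^ 3 * t ^ 2 + 1/27 * p ^ 2 * s ^ 5 * t ^ 2 + 2/27 * p ^ 2 * s ^ 4 * t ^ 3 + 19/27 * p ^
    2 * s ^ 4 * t ^ 2 + 1/27 * p ^ 2 * s ^ 3 * t ^ 4 + 19/27 * p ^ 2 * s ^ 3 * t ^ 3 + 106/27 *
    p ^ 2 * s ^ 3 * t ^ 2 + 2/3 * p ^ 2 * s ^ 2 * t ^ 3 + 16/3 * p ^ 2 * s ^ 2 * t ^ 2 - 2 * p
    ^ 2 * s * t ^ 3 - 4 * p ^ 2 * s * t ^ 2 - 2 * p ^ 2 * t ^ 2 - 1/3 * p * s ^ 4 * t ^ 2 - 1/3
    * p * s ^ 3 * t ^ 3 - 14/3 * p * s ^ 3 * t ^ 2 + p * s ^ 2 * t ^ 3 - 15 * p * s ^ 2 * t ^ 2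
    + 2 * p * s * t ^ 4 + 18 * p * s * t ^ 3 + p * s * t ^ 2 + 2 * p * t ^ 3 + 18 * p * t ^ 2 -
    s ^ 3 * t ^ 3 + 3 * s ^ 3 * t ^ 2 - 3 * s ^ 2 * t ^ 4 - 14 * s ^ 2 * t ^ 3 + 26 * s ^ 2 * t
    ^ 2 - 2 * s * t ^ 5 - 28 * s * t ^ 4 - 75 * s * t ^ 3 + 13 * s * t ^ 2 - 2 * t ^ 4 - 28 * t
    ^ 3 - 72 * t ^ 2 + 27 * t) * h2 +
    (p * s ^ 3 * t ^ 2 + 4 * p * s ^ 2 * t ^ 3 + 19 * p * s ^ 2 * t ^ 2 + 5 * p * s * t ^ 4 +
    57 * p * s * t ^ 3 + 106 * p * s * t ^ 2 - 27 * p * s * t + 2 * p * t ^ 5 + 38 * p * t ^ 4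
    + 194 * p * t ^ 3 + 171 * p * t ^ 2 - 108 * p * t + 9 * s ^ 2 * t ^ 2 - 27 * s ^ 2 * t + 27
    * s * t ^ 3 + 126 * s * t ^ 2 - 243 * s * t + 27 * s + 18 * t ^ 4 + 252 * t ^ 3 + 648 * t ^
    2 - 243 * t + 243) * h1

theorem id3 {r p s t : K} (hrr : r * p = 9) (hss : s * t = -1)
    (hsum : r + p + s + t + 5 = 0) :
    (-9 - s - p * t - p ^ 2 * t) * (-9 - t - p * s - p ^ 2 * s) = 125 := by
  have h2 := idH hrr hsum
  have h1 : s * t + 1 = 0 := by rw [hss]; ring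
  have hr : r = -5 - p - s - t := by linear_combination hsum
  subst hr
  linear_combination
    (p ^ 2 * s * t - p * s ^ 2 * t - p * s * t ^ 2 - 3 * p * s * t + s ^ 3 * t + 2 * s ^ 2 * t
    ^ 2 + 8 * s ^ 2 * t + s ^ 2 + s * t ^ 3 + 8 * s * t ^ 2 + 7 * s * t + 9 * s + t ^ 2 + 9 *
    t) * h2 +
    (-p * s ^ 3 - 3 * p * s ^ 2 * t - 13 * p * s ^ 2 - 3 * p * s * t ^ 2 - 26 * p * s * t - 36
    * p * s - p * t ^ 3 - 13 * p * t ^ 2 - 36 * p * t - 9 * s ^ 2 - 18 * s * t - 72 * s - 9 * t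
    ^ 2 - 72 * t - 44) * h1

theorem idG {r p s t : K} (hrr : r * p = 9) (hss : s * t = -1) :
    p ^ 3 * t ^ 2 * (r ^ 3 * s ^ 2) = 729 := by
  have h1 : p ^ 3 * t ^ 2 * (r ^ 3 * s ^ 2) = (r * p) ^ 3 * (s * t) ^ 2 := by ring
  rw [h1, hrr, hss]; norm_num

/-- the point `(r, s)` of `X_0(15)` gives the two Hauptmoduln of the same `j` -/
theorem idK {r p s t : K} (hrr : r * p = 9) (hss : s * t = -1)
    (hsum : r + p + s + t + 5 = 0) :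
    (-9 - s - p * t - p ^ 2 * t) * ((p ^ 3 * t ^ 2 + 27) * (p ^ 3 * t ^ 2 + 3) ^ 3) =
      p ^ 3 * t ^ 2 * ((-9 - s - p * t - p ^ 2 * t) ^ 2 +
        10 * (-9 - s - p * t - p ^ 2 * t) + 5) ^ 3 := by
  rw [← id1 hrr hss hsum]
  linear_combination -(p ^ 3 * t ^ 2 + 3) ^ 3 * id2 hrr hss hsum

theorem iso5_of (j j' k k' : K) (hkk : k * k' = 125) (h : j * k = (k ^ 2 + 10 * k + 5) ^ 3)
    (h' : j' * k' = (k' ^ 2 + 10 * k' + 5) ^ 3) : Iso5 j j' := by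
  have hk0 : k ≠ 0 := by
    rintro rfl; rw [zero_mul] at hkk; norm_num at hkk
  have hk0' : k' ≠ 0 := by
    rintro rfl; rw [mul_zero] at hkk; norm_num at hkk
  refine ⟨k, hk0, h, ?_⟩
  have e1 : (k ^ 2 + 250 * k + 3125) * k' ^ 2 = 3125 * (k' ^ 2 + 10 * k' + 5) := by
    linear_combination (k * k' + 125 + 250 * k') * hkk
  have e2 : (j' * k ^ 5 - (k ^ 2 + 250 * k + 3125) ^ 3) * k' ^ 6 = 0 := by
    have e3 : j' * k ^ 5 * k' ^ 6 = (k * k') ^ 5 * (j' * k') := by ring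
    have e4 : (k ^ 2 + 250 * k + 3125) ^ 3 * k' ^ 6 =
      ((k ^ 2 + 250 * k + 3125) * k' ^ 2) ^ 3 := by ring
    rw [sub_mul, e3, e4, e1, hkk, h']
    ring
  rcases mul_eq_zero.1 e2 with e | e
  · exact sub_eq_zero.1 e
  · exact absurd e (pow_ne_zero 6 hk0')

theorem iso3_of (j j' g g' : K) (hgg : g * g' = 729) (h : j * g = (g + 27) * (g + 3) ^ 3)
    (h' : j' * g' = (g' + 27) * (g' + 3) ^ 3) : Iso3 j j' := by
  have hg0 : g ≠ 0 := by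
    rintro rfl; rw [zero_mul] at hgg; norm_num at hgg
  have hg0' : g' ≠ 0 := by
    rintro rfl; rw [mul_zero] at hgg; norm_num at hgg
  refine ⟨g, hg0, h, ?_⟩
  have e1 : (g + 27) * g' = 27 * (g' + 27) := by linear_combination hgg
  have e2 : (g + 243) * g' = 243 * (g' + 3) := by linear_combination hgg
  have e3 : (j' * g ^ 3 - (g + 27) * (g + 243) ^ 3) * g' ^ 4 = 0 := by
    have e4 : j' * g ^ 3 * g' ^ 4 = (g * g') ^ 3 * (j' * g') := by ring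
    have e5 : (g + 27) * (g + 243) ^ 3 * g' ^ 4 =
      ((g + 27) * g') * ((g + 243) * g') ^ 3 := by ring
    rw [sub_mul, e4, e5, e1, e2, hgg, h']
    ring
  rcases mul_eq_zero.1 e3 with e | e
  · exact sub_eq_zero.1 e
  · exact absurd e (pow_ne_zero 4 hg0')

end ring

end RG
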