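import Pool.Agent.Lib.MP_87c685_nt_RG.Conj

/-!
# The exceptional `j`-invariants
-/

set_option autoImplicit false
set_option linter.style.longLine false

open NumberField

namespace RG

/-- the exceptional `j`-invariants, as roots of `p X² + q X + r` -/
def exceptions : List (ℤ × ℤ × ℤ) :=
  [(32, -159425064, 292002166719225),
   (8, 7884, 3755447145),
   (2, 125226, 21613905945),
   (32768, 12213504, 1256085225),
   (351232, -440584014058293824, 164523373380706168868312637025),
   (1075648, 56960663824, 24263227724889505),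
   (18990246039772, -22706636264837444, 16516478170024689505),
   (7516192768, 38861485441024, 548570711939517025),
   (32, -960012, 16175081889),
   (34359738368, -131940637007904, 219266044589529729),
   (33554432, 114874356169728, 605420374231998136449),
   (128, -711234, 1291467969),
   (3, -127171, 6833986225),
   (14348907, -20629720639, 7464396532945),
   (243, 11634636299, 1375084218587268145),
   (27, -81289, 120670225),
   (1024, -86839516886, 2125794492560777401),
   (1125899906842624, 49809492452645167264, 583191665374505588364601),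
   (16777216, 5425081893376, 735993917749900909),
   (281474976710656, 169491000700854065896, 1570325792525939337046938109),
   (823974609375, -16656317478667648, 241573426180015108096),
   (1793613375, 14061494493279872, 69110871581730353360896),
   (231928233984, 1559159537772824, 5822100926091310141),
   (30091839012864, -95711103412447713800896, 87216691077900033802570367118541)]

variable {K : Type*} [Field K] [NumberField K]

theorem jA1 {r r' s s' G j : K} (hrr : r * r' = 9) (hss : s * s' = -1)
    (hsum : r + r' + s + s' + 5 = 0) (hG : G = r' ^ 3 * s' ^ 2) (hG0 : G ≠ 0)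
    (h3 : j * G = (G + 27) * (G + 3) ^ 3)
    (hx : 2 * (s + s') ^ 2 + 2 * (s + s') + 5 = 0) :
    (∃ q : ℚ, j = q) ∨ ∃ p ∈ exceptions, (p.1 : K) * j ^ 2 + (p.2.1 : K) * j + (p.2.2 : K) = 0 := by
  obtain ⟨w, hw1⟩ : ∃ w : K, w = 4 * (s + s') + 2 := ⟨_, rfl⟩
  have hw : w ^ 2 = (-36) := by
    rw [hw1]; linear_combination 8 * hx
  have hxw : s + s' = (-1 / 2) + (1 / 4) * w := by rw [hw1]; ring
  have e1 : (s - s' - ((3 / 2) + (-1 / 12) * w)) * (s - s' + ((3 / 2) + (-1 / 12) * w)) = 0 := by
    linear_combination (s + s' + ((-1 / 2) + (1 / 4) * w)) * hxw - 4 * hss + (1 / 18) * hw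
  have hrx : r + r' = (-9 / 2) + (-1 / 4) * w := by linear_combination hsum - hxw
  have e2 : (r - r' - ((3 / 2) + (3 / 4) * w)) * (r - r' + ((3 / 2) + (3 / 4) * w)) = 0 := by
    linear_combination (r + r' + ((-9 / 2) + (-1 / 4) * w)) * hrx - 4 * hrr + (-1 / 2) * hw
  rcases mul_eq_zero.1 e1 with f1 | f1 <;> rcases mul_eq_zero.1 e2 with f2 | f2
  · have hs' : s' = (-1) + (1 / 6) * w := by linear_combination (1 / 2) * hxw - (1 / 2) * f1
    have hr' : r' = (-3) + (-1 / 2) * w := by linear_combination (1 / 2) * hrx - (1 / 2) * f2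
    have hg : G = (-108) + (-18) * w := by
      rw [hG, hr', hs']; linear_combination ((9 / 4) + (3 / 8) * w + (-1 / 48) * w ^ 2 + (-1 / 288) * w ^ 3) * hw
    have hj : j = (19928133 / 8) + (-4556727 / 16) * w := by
      apply mul_right_cancel₀ hG0
      rw [h3, hg]; linear_combination ((80621649 / 8) + 2309472 * w + 104976 * w ^ 2) * hw
    refine Or.inr ⟨(32, -159425064, 292002166719225), by simp [exceptions], ?_⟩
    rw [hj]; push_cast; linear_combination ((20763760952529 / 8)) * hw
  · have hs' : s' = (-1) + (1 / 6) * w := by linear_combination (1 / 2) * hxw - (1 / 2) * f1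
    have hr' : r' = (-3 / 2) + (1 / 4) * w := by linear_combination (1 / 2) * hrx - (1 / 2) * f2
    have hg : G = (27 / 2) + (-9 / 4) * w := by
      rw [hG, hr', hs']; linear_combination ((-15 / 32) + (9 / 64) * w + (-5 / 384) * w ^ 2 + (1 / 2304) * w ^ 3) * hw
    have hj : j = (-1971 / 4) + (-28881 / 8) * w := by
      apply mul_right_cancel₀ hG0
      rw [h3, hg]; linear_combination ((335259 / 64) + (-32805 / 32) * w + (6561 / 256) * w ^ 2) * hw
    refine Or.inr ⟨(8, 7884, 3755447145), by simp [exceptions], ?_⟩
    rw [hj]; push_cast; linear_combination ((834112161 / 8)) * hw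
  · have hs' : s' = (1 / 2) + (1 / 12) * w := by linear_combination (1 / 2) * hxw - (1 / 2) * f1
    have hr' : r' = (-3) + (-1 / 2) * w := by linear_combination (1 / 2) * hrx - (1 / 2) * f2
    have hg : G = 27 + (9 / 2) * w := by
      rw [hG, hr', hs']; linear_combination ((-15 / 16) + (-9 / 32) * w + (-5 / 192) * w ^ 2 + (-1 / 1152) * w ^ 3) * hw
    have hj : j = (-62613 / 2) + (66087 / 4) * w := by
      apply mul_right_cancel₀ hG0
      rw [h3, hg]; linear_combination ((511839 / 8) + 13122 * w + (6561 / 16) * w ^ 2) * hw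
    refine Or.inr ⟨(2, 125226, 21613905945), by simp [exceptions], ?_⟩
    rw [hj]; push_cast; linear_combination ((4367491569 / 8)) * hw
  · have hs' : s' = (1 / 2) + (1 / 12) * w := by linear_combination (1 / 2) * hxw - (1 / 2) * f1
    have hr' : r' = (-3 / 2) + (1 / 4) * w := by linear_combination (1 / 2) * hrx - (1 / 2) * f2
    have hg : G = (-27 / 8) + (9 / 16) * w := by
      rw [hG, hr', hs']; linear_combination ((9 / 128) + (-3 / 256) * w + (-1 / 1536) * w ^ 2 + (1 / 9216) * w ^ 3) * hw
    have hj : j = (-47709 / 256) + (5121 / 512) * w := by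
      apply mul_right_cancel₀ hG0
      rw [h3, hg]; linear_combination ((-286821 / 16384) + (32805 / 8192) * w + (6561 / 65536) * w ^ 2) * hw
    refine Or.inr ⟨(32768, 12213504, 1256085225), by simp [exceptions], ?_⟩
    rw [hj]; push_cast; linear_combination ((26224641 / 8)) * hw

theorem jA2 {r r' s s' G j : K} (hrr : r * r' = 9) (hss : s * s' = -1)
    (hsum : r + r' + s + s' + 5 = 0) (hG : G = r' ^ 3 * s' ^ 2) (hG0 : G ≠ 0)
    (h3 : j * G = (G + 27) * (G + 3) ^ 3)
    (hx : 28 * (s + s') ^ 2 + 108 * (s + s') + 825 = 0) :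
    (∃ q : ℚ, j = q) ∨ ∃ p ∈ exceptions, (p.1 : K) * j ^ 2 + (p.2.1 : K) * j + (p.2.2 : K) = 0 := by
  obtain ⟨w, hw1⟩ : ∃ w : K, w = 56 * (s + s') + 108 := ⟨_, rfl⟩
  have hw : w ^ 2 = (-80736) := by
    rw [hw1]; linear_combination 112 * hx
  have hxw : s + s' = (-27 / 14) + (1 / 56) * w := by rw [hw1]; ring
  have e1 : (s - s' - ((29 / 14) + (-27 / 1624) * w)) * (s - s' + ((29 / 14) + (-27 / 1624) * w)) = 0 := by
    linear_combination (s + s' + ((-27 / 14) + (1 / 56) * w)) * hxw - 4 * hss + (1 / 23548) * hw
  have hrx : r + r' = (-43 / 14) + (-1 / 56) * w := by linear_combination hsum - hxw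
  have e2 : (r - r' - ((29 / 14) + (43 / 1624) * w)) * (r - r' + ((29 / 14) + (43 / 1624) * w)) = 0 := by
    linear_combination (r + r' + ((-43 / 14) + (-1 / 56) * w)) * hrx - 4 * hrr + (-9 / 23548) * hw
  rcases mul_eq_zero.1 e1 with f1 | f1 <;> rcases mul_eq_zero.1 e2 with f2 | f2
  · have hs' : s' = (-2) + (1 / 58) * w := by linear_combination (1 / 2) * hxw - (1 / 2) * f1
    have hr' : r' = (-18 / 7) + (-9 / 406) * w := by linear_combination (1 / 2) * hrx - (1 / 2) * f2
    have hg : G = (-23328 / 7) + (-5832 / 203) * w := by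
      rw [hG, hr', hs']; linear_combination ((11664 / 288463) + (2916 / 8365427) * w + (-729 / 1940779064) * w ^ 2 + (-729 / 225130371424) * w ^ 3) * hw
    have hj : j = (6884125219660841 / 10976) + (1227486390258007 / 1273216) * w := by
      apply mul_right_cancel₀ hG0
      rw [h3, hg]; linear_combination ((885247362300498111 / 32307856) + (18459315561646080 / 58557989) * w + (1156831381426176 / 1698181681) * w ^ 2) * hw
    refine Or.inr ⟨(351232, -440584014058293824, 164523373380706168868312637025), by simp [exceptions], ?_⟩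
    rw [hj]; push_cast; linear_combination ((1506722838268632262116027612049 / 4615408)) * hw
  · have hs' : s' = (-2) + (1 / 58) * w := by linear_combination (1 / 2) * hxw - (1 / 2) * f1
    have hr' : r' = (-1 / 2) + (1 / 232) * w := by linear_combination (1 / 2) * hrx - (1 / 2) * f2
    have hg : G = (-121 / 2) + (-19 / 232) * w := by
      rw [hG, hr', hs']; linear_combination ((5 / 6728) + (1 / 780448) * w + (-5 / 362127872) * w ^ 2 + (1 / 42006833152) * w ^ 3) * hw
    have hj : j = (-3560041489 / 134456) + (-8114987913 / 15596896) * w := by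
      apply mul_right_cancel₀ hG0
      rw [h3, hg]; linear_combination ((213640861701 / 3618479872) + (706477 / 6243584) * w + (130321 / 2897022976) * w ^ 2) * hw
    refine Or.inr ⟨(1075648, 56960663824, 24263227724889505), by simp [exceptions], ?_⟩
    rw [hj]; push_cast; linear_combination ((65853028828136095569 / 226154992)) * hw
  · have hs' : s' = (1 / 14) + (1 / 1624) * w := by linear_combination (1 / 2) * hxw - (1 / 2) * f1
    have hr' : r' = (-18 / 7) + (-9 / 406) * w := by linear_combination (1 / 2) * hrx - (1 / 2) * f2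
    have hg : G = (-176418 / 16807) + (13851 / 974806) * w := by
      rw [hG, hr', hs']; linear_combination ((3645 / 28269374) + (-729 / 3279247384) * w + (-3645 / 1521570786176) * w ^ 2 + (-729 / 176502211196416) * w ^ 3) * hw
    have hj : j = (5676659066209361 / 9495123019886) + (-2774543142148093 / 1101434270306776) * w := by
      apply mul_right_cancel₀ hG0
      rw [h3, hg]; linear_combination ((-9012373498397188089 / 1073684735300667085456) + (-66844812507052905 / 3892107165464918184778) * w + (36806499623740401 / 902968862387861018868496) * w ^ 2) * hw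
    refine Or.inr ⟨(18990246039772, -22706636264837444, 16516478170024689505), by simp [exceptions], ?_⟩
    rw [hj]; push_cast; linear_combination ((7698089647641012999078343536649 / 63883187677793008)) * hw
  · have hs' : s' = (1 / 14) + (1 / 1624) * w := by linear_combination (1 / 2) * hxw - (1 / 2) * f1
    have hr' : r' = (-1 / 2) + (1 / 232) * w := by linear_combination (1 / 2) * hrx - (1 / 2) * f2
    have hg : G = (-1 / 32) + (1 / 3712) * w := by
      rw [hG, hr', hs']; linear_combination ((1 / 2637376) + (-1 / 305935616) * w + (-1 / 283908251648) * w ^ 2 + (1 / 32933357191168) * w ^ 3) * hw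
    have hj : j = (-592979209 / 229376) + (-762492693 / 26607616) * w := by
      apply mul_right_cancel₀ hG0
      rw [h3, hg]; linear_combination ((764403861 / 98767470592) + (287 / 409179521024) * w + (1 / 189859297755136) * w ^ 2) * hw
    refine Or.inr ⟨(7516192768, 38861485441024, 548570711939517025), by simp [exceptions], ?_⟩
    rw [hj]; push_cast; linear_combination ((581395106878392249 / 94192)) * hw

theorem jA3 {r r' s s' G j : K} (hrr : r * r' = 9) (hss : s * s' = -1)
    (hsum : r + r' + s + s' + 5 = 0) (hG : G = r' ^ 3 * s' ^ 2) (hG0 : G ≠ 0)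
    (h3 : j * G = (G + 27) * (G + 3) ^ 3)
    (hx : 8 * (s + s') ^ 2 - 10 * (s + s') + 11 = 0) :
    (∃ q : ℚ, j = q) ∨ ∃ p ∈ exceptions, (p.1 : K) * j ^ 2 + (p.2.1 : K) * j + (p.2.2 : K) = 0 := by
  obtain ⟨w, hw1⟩ : ∃ w : K, w = 16 * (s + s') + (-10) := ⟨_, rfl⟩
  have hw : w ^ 2 = (-252) := by
    rw [hw1]; linear_combination 32 * hx
  have hxw : s + s' = (5 / 8) + (1 / 16) * w := by rw [hw1]; ring
  have e1 : (s - s' - ((15 / 8) + (1 / 48) * w)) * (s - s' + ((15 / 8) + (1 / 48) * w)) = 0 := by
    linear_combination (s + s' + ((5 / 8) + (1 / 16) * w)) * hxw - 4 * hss + (1 / 288) * hw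
  have hrx : r + r' = (-45 / 8) + (-1 / 16) * w := by linear_combination hsum - hxw
  have e2 : (r - r' - ((15 / 8) + (3 / 16) * w)) * (r - r' + ((15 / 8) + (3 / 16) * w)) = 0 := by
    linear_combination (r + r' + ((-45 / 8) + (-1 / 16) * w)) * hrx - 4 * hrr + (-1 / 32) * hw
  rcases mul_eq_zero.1 e1 with f1 | f1 <;> rcases mul_eq_zero.1 e2 with f2 | f2
  · have hs' : s' = (-5 / 8) + (1 / 48) * w := by linear_combination (1 / 2) * hxw - (1 / 2) * f1
    have hr' : r' = (-15 / 4) + (-1 / 8) * w := by linear_combination (1 / 2) * hrx - (1 / 2) * f2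
    have hg : G = (-135 / 4) + (-9 / 8) * w := by
      rw [hG, hr', hs']; linear_combination ((855 / 16384) + (57 / 32768) * w + (-5 / 196608) * w ^ 2 + (-1 / 1179648) * w ^ 3) * hw
    have hj : j = (240003 / 16) + (-33759 / 32) * w := by
      apply mul_right_cancel₀ hG0
      rw [h3, hg]; linear_combination ((2854683 / 1024) + (72171 / 512) * w + (6561 / 4096) * w ^ 2) * hw
    refine Or.inr ⟨(32, -960012, 16175081889), by simp [exceptions], ?_⟩
    rw [hj]; push_cast; linear_combination ((1139670081 / 32)) * hw
  · have hs' : s' = (-5 / 8) + (1 / 48) * w := by linear_combination (1 / 2) * hxw - (1 / 2) * f1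
    have hr' : r' = (-15 / 8) + (1 / 16) * w := by linear_combination (1 / 2) * hrx - (1 / 2) * f2
    have hg : G = (7425 / 2048) + (801 / 4096) * w := by
      rw [hG, hr', hs']; linear_combination ((-3225 / 131072) + (243 / 262144) * w + (-25 / 1572864) * w ^ 2 + (1 / 9437184) * w ^ 3) * hw
    have hj : j = (4123144906497 / 2147483648) + (444169751841 / 4294967296) * w := by
      apply mul_right_cancel₀ hG0
      rw [h3, hg]; linear_combination ((543461712964803 / 70368744177664) + (13288491522657 / 35184372088832) * w + (411651843201 / 281474976710656) * w ^ 2) * hw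
    refine Or.inr ⟨(34359738368, -131940637007904, 219266044589529729), by simp [exceptions], ?_⟩
    rw [hj]; push_cast; linear_combination ((197286768450495522889281 / 536870912)) * hw
  · have hs' : s' = (5 / 4) + (1 / 24) * w := by linear_combination (1 / 2) * hxw - (1 / 2) * f1
    have hr' : r' = (-15 / 4) + (-1 / 8) * w := by linear_combination (1 / 2) * hrx - (1 / 2) * f2
    have hg : G = (7425 / 64) + (-801 / 128) * w := by
      rw [hG, hr', hs']; linear_combination ((-3225 / 4096) + (-243 / 8192) * w + (-25 / 49152) * w ^ 2 + (-1 / 294912) * w ^ 3) * hw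
    have hj : j = (-112181988447 / 65536) + (-32098313601 / 131072) * w := by
      apply mul_right_cancel₀ hG0
      rw [h3, hg]; linear_combination ((117091671144003 / 67108864) + (-4111893130401 / 33554432) * w + (411651843201 / 268435456) * w ^ 2) * hw
    refine Or.inr ⟨(33554432, 114874356169728, 605420374231998136449), by simp [exceptions], ?_⟩
    rw [hj]; push_cast; linear_combination ((1030301736028141587201 / 512)) * hw
  · have hs' : s' = (5 / 4) + (1 / 24) * w := by linear_combination (1 / 2) * hxw - (1 / 2) * f1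
    have hr' : r' = (-15 / 8) + (1 / 16) * w := by linear_combination (1 / 2) * hrx - (1 / 2) * f2
    have hg : G = (-135 / 8) + (9 / 16) * w := by
      rw [hG, hr', hs']; linear_combination ((855 / 32768) + (-57 / 65536) * w + (-5 / 393216) * w ^ 2 + (1 / 2359296) * w ^ 3) * hw
    have hj : j = (355617 / 128) + (-24831 / 256) * w := by
      apply mul_right_cancel₀ hG0
      rw [h3, hg]; linear_combination ((1289763 / 16384) + (-45927 / 8192) * w + (6561 / 65536) * w ^ 2) * hw
    refine Or.inr ⟨(128, -711234, 1291467969), by simp [exceptions], ?_⟩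
    rw [hj]; push_cast; linear_combination ((616578561 / 512)) * hw

theorem jA4 {r r' s s' G j : K} (hrr : r * r' = 9) (hss : s * s' = -1)
    (hsum : r + r' + s + s' + 5 = 0) (hG : G = r' ^ 3 * s' ^ 2) (hG0 : G ≠ 0)
    (h3 : j * G = (G + 27) * (G + 3) ^ 3)
    (hx : 3 * (s + s') ^ 2 - 2 * (s + s') + 15 = 0) :
    (∃ q : ℚ, j = q) ∨ ∃ p ∈ exceptions, (p.1 : K) * j ^ 2 + (p.2.1 : K) * j + (p.2.2 : K) = 0 := by
  obtain ⟨w, hw1⟩ : ∃ w : K, w = 6 * (s + s') + (-2) := ⟨_, rfl⟩
  have hw : w ^ 2 = (-176) := by
    rw [hw1]; linear_combination 12 * hx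
  have hxw : s + s' = (1 / 3) + (1 / 6) * w := by rw [hw1]; ring
  have e1 : (s - s' - ((2 / 3) + (1 / 12) * w)) * (s - s' + ((2 / 3) + (1 / 12) * w)) = 0 := by
    linear_combination (s + s' + ((1 / 3) + (1 / 6) * w)) * hxw - 4 * hss + (1 / 48) * hw
  have hrx : r + r' = (-16 / 3) + (-1 / 6) * w := by linear_combination hsum - hxw
  have e2 : (r - r' - ((8 / 3) + (1 / 3) * w)) * (r - r' + ((8 / 3) + (1 / 3) * w)) = 0 := by
    linear_combination (r + r' + ((-16 / 3) + (-1 / 6) * w)) * hrx - 4 * hrr + (-1 / 12) * hw
  rcases mul_eq_zero.1 e1 with f1 | f1 <;> rcases mul_eq_zero.1 e2 with f2 | f2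
  · have hs' : s' = (-1 / 6) + (1 / 24) * w := by linear_combination (1 / 2) * hxw - (1 / 2) * f1
    have hr' : r' = (-4) + (-1 / 4) * w := by linear_combination (1 / 2) * hrx - (1 / 2) * f2
    have hg : G = (-83 / 2) + (13 / 8) * w := by
      rw [hG, hr', hs']; linear_combination ((65 / 288) + (-7 / 1152) * w + (-5 / 4608) * w ^ 2 + (-1 / 36864) * w ^ 3) * hw
    have hj : j = (127171 / 6) + (77363 / 24) * w := by
      apply mul_right_cancel₀ hG0
      rw [h3, hg]; linear_combination ((7449013 / 768) + (-142805 / 256) * w + (28561 / 4096) * w ^ 2) * hw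
    refine Or.inr ⟨(3, -127171, 6833986225), by simp [exceptions], ?_⟩
    rw [hj]; push_cast; linear_combination ((5985033769 / 192)) * hw
  · have hs' : s' = (-1 / 6) + (1 / 24) * w := by linear_combination (1 / 2) * hxw - (1 / 2) * f1
    have hr' : r' = (-4 / 3) + (1 / 12) * w := by linear_combination (1 / 2) * hrx - (1 / 2) * f2
    have hg : G = (67 / 486) + (-253 / 1944) * w := by
      rw [hG, hr', hs']; linear_combination ((-1 / 864) + (31 / 31104) * w + (-7 / 124416) * w ^ 2 + (1 / 995328) * w ^ 3) * hw
    have hj : j = (20629720639 / 28697814) + (-507968593 / 114791256) * w := by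
      apply mul_right_cancel₀ hG0
      rw [h3, hg]; linear_combination ((1249910719981 / 297538935552) + (-71918784157 / 892616806656) * w + (4097152081 / 14281868906496) * w ^ 2) * hw
    refine Or.inr ⟨(14348907, -20629720639, 7464396532945), by simp [exceptions], ?_⟩
    rw [hj]; push_cast; linear_combination ((258032091474399649 / 918330048)) * hw
  · have hs' : s' = (1 / 2) + (1 / 8) * w := by linear_combination (1 / 2) * hxw - (1 / 2) * f1
    have hr' : r' = (-4) + (-1 / 4) * w := by linear_combination (1 / 2) * hrx - (1 / 2) * f2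
    have hg : G = (67 / 2) + (253 / 8) * w := by
      rw [hG, hr', hs']; linear_combination ((-9 / 32) + (-31 / 128) * w + (-7 / 512) * w ^ 2 + (-1 / 4096) * w ^ 3) * hw
    have hj : j = (-11634636299 / 486) + (-10449954757 / 1944) * w := by
      apply mul_right_cancel₀ hG0
      rw [h3, hg]; linear_combination ((284501890453 / 62208) + (1376513545 / 256) * w + (4097152081 / 4096) * w ^ 2) * hw
    refine Or.inr ⟨(243, 11634636299, 1375084218587268145), by simp [exceptions], ?_⟩
    rw [hj]; push_cast; linear_combination ((109201554423346929049 / 15552)) * hw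
  · have hs' : s' = (1 / 2) + (1 / 8) * w := by linear_combination (1 / 2) * hxw - (1 / 2) * f1
    have hr' : r' = (-4 / 3) + (1 / 12) * w := by linear_combination (1 / 2) * hrx - (1 / 2) * f2
    have hg : G = (-83 / 6) + (-13 / 24) * w := by
      rw [hG, hr', hs']; linear_combination ((65 / 864) + (7 / 3456) * w + (-5 / 13824) * w ^ 2 + (1 / 110592) * w ^ 3) * hw
    have hj : j = (81289 / 54) + (24167 / 216) * w := by
      apply mul_right_cancel₀ hG0
      rw [h3, hg]; linear_combination ((160381 / 6912) + (63713 / 20736) * w + (28561 / 331776) * w ^ 2) * hw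
    refine Or.inr ⟨(27, -81289, 120670225), by simp [exceptions], ?_⟩
    rw [hj]; push_cast; linear_combination ((584043889 / 1728)) * hw

theorem jA5 {r r' s s' G j : K} (hrr : r * r' = 9) (hss : s * s' = -1)
    (hsum : r + r' + s + s' + 5 = 0) (hG : G = r' ^ 3 * s' ^ 2) (hG0 : G ≠ 0)
    (h3 : j * G = (G + 27) * (G + 3) ^ 3)
    (hx : 16 * (s + s') ^ 2 + 30 * (s + s') + 75 = 0) :
    (∃ q : ℚ, j = q) ∨ ∃ p ∈ exceptions, (p.1 : K) * j ^ 2 + (p.2.1 : K) * j + (p.2.2 : K) = 0 := by
  obtain ⟨w, hw1⟩ : ∃ w : K, w = 32 * (s + s') + 30 := ⟨_, rfl⟩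
  have hw : w ^ 2 = (-3900) := by
    rw [hw1]; linear_combination 64 * hx
  have hxw : s + s' = (-15 / 16) + (1 / 32) * w := by rw [hw1]; ring
  have e1 : (s - s' - ((25 / 16) + (-3 / 160) * w)) * (s - s' + ((25 / 16) + (-3 / 160) * w)) = 0 := by
    linear_combination (s + s' + ((-15 / 16) + (1 / 32) * w)) * hxw - 4 * hss + (1 / 1600) * hw
  have hrx : r + r' = (-65 / 16) + (-1 / 32) * w := by linear_combination hsum - hxw
  have e2 : (r - r' - ((25 / 16) + (13 / 160) * w)) * (r - r' + ((25 / 16) + (13 / 160) * w)) = 0 := by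
    linear_combination (r + r' + ((-65 / 16) + (-1 / 32) * w)) * hrx - 4 * hrr + (-9 / 1600) * hw
  rcases mul_eq_zero.1 e1 with f1 | f1 <;> rcases mul_eq_zero.1 e2 with f2 | f2
  · have hs' : s' = (-5 / 4) + (1 / 40) * w := by linear_combination (1 / 2) * hxw - (1 / 2) * f1
    have hr' : r' = (-45 / 16) + (-9 / 160) * w := by linear_combination (1 / 2) * hrx - (1 / 2) * f2
    have hg : G = (-3645 / 16) + (-729 / 160) * w := by
      rw [hG, hr', hs']; linear_combination ((64881 / 1310720) + (64881 / 65536000) * w + (-729 / 131072000) * w ^ 2 + (-729 / 6553600000) * w ^ 3) * hw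
    have hj : j = (43419758443 / 1024) + (-546821245 / 2048) * w := by
      apply mul_right_cancel₀ hG0
      rw [h3, hg]; linear_combination ((20066444974251 / 6553600) + (1356359131989 / 16384000) * w + (282429536481 / 655360000) * w ^ 2) * hw
    refine Or.inr ⟨(1024, -86839516886, 2125794492560777401), by simp [exceptions], ?_⟩
    rw [hj]; push_cast; linear_combination ((299013473983350025 / 4096)) * hw
  · have hs' : s' = (-5 / 4) + (1 / 40) * w := by linear_combination (1 / 2) * hxw - (1 / 2) * f1
    have hr' : r' = (-5 / 4) + (1 / 40) * w := by linear_combination (1 / 2) * hrx - (1 / 2) * f2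
    have hg : G = (475 / 64) + (-319 / 640) * w := by
      rw [hG, hr', hs']; linear_combination ((-11 / 4096) + (211 / 1024000) * w + (-1 / 409600) * w ^ 2 + (1 / 102400000) * w ^ 3) * hw
    have hj : j = (-1680914269 / 32768) := by
      apply mul_right_cancel₀ hG0
      rw [h3, hg]; linear_combination ((180543450351 / 1677721600) + (-34117308709 / 4194304000) * w + (10355301121 / 167772160000) * w ^ 2) * hw
    exact Or.inl ⟨(-1680914269 / 32768), by rw [hj]; push_cast; ring⟩
  · have hs' : s' = (5 / 16) + (1 / 160) * w := by linear_combination (1 / 2) * hxw - (1 / 2) * f1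
    have hr' : r' = (-45 / 16) + (-9 / 160) * w := by linear_combination (1 / 2) * hrx - (1 / 2) * f2
    have hg : G = (346275 / 65536) + (232551 / 655360) * w := by
      rw [hG, hr', hs']; linear_combination ((-8019 / 4194304) + (-153819 / 1048576000) * w + (-729 / 419430400) * w ^ 2 + (-729 / 104857600000) * w ^ 3) * hw
    have hj : j = (-1556546639145161477 / 70368744177664) + (12071013356699539 / 140737488355328) * w := by
      apply mul_right_cancel₀ hG0
      rw [h3, hg]; linear_combination ((63961315151826762910251 / 1844674407370955161600) + (11772709169367033770949 / 4611686018427387904000) * w + (2924642895725209695201 / 184467440737095516160000) * w ^ 2) * hw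
    refine Or.inr ⟨(1125899906842624, 49809492452645167264, 583191665374505588364601), by simp [exceptions], ?_⟩
    rw [hj]; push_cast; linear_combination ((145709363457618671960575122812521 / 17592186044416)) * hw
  · have hs' : s' = (5 / 16) + (1 / 160) * w := by linear_combination (1 / 2) * hxw - (1 / 2) * f1
    have hr' : r' = (-5 / 4) + (1 / 40) * w := by linear_combination (1 / 2) * hrx - (1 / 2) * f2
    have hg : G = (-5 / 4) + (1 / 40) * w := by
      rw [hG, hr', hs']; linear_combination ((89 / 327680) + (-89 / 16384000) * w + (-1 / 32768000) * w ^ 2 + (1 / 1638400000) * w ^ 3) * hw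
    have hj : j = (1331 / 8) := by
      apply mul_right_cancel₀ hG0
      rw [h3, hg]; linear_combination ((2271 / 25600) + (31 / 64000) * w + (1 / 2560000) * w ^ 2) * hw
    exact Or.inl ⟨(1331 / 8), by rw [hj]; push_cast; ring⟩

theorem jB1 {r r' s s' k j : K} (hrr : r * r' = 5)
    (hsum : r + r' + s + s' + 1 = 0) (hk : k = r ^ 3) (hk0 : k ≠ 0)
    (h5 : j * k = (k ^ 2 + 10 * k + 5) ^ 3)
    (hx : 16 * (s + s') ^ 2 + 14 * (s + s') + 7 = 0) :
    ∃ p ∈ exceptions, (p.1 : K) * j ^ 2 + (p.2.1 : K) * j + (p.2.2 : K) = 0 := by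
  obtain ⟨w, hw1⟩ : ∃ w : K, w = 32 * (s + s') + 14 := ⟨_, rfl⟩
  have hw : w ^ 2 = (-252) := by
    rw [hw1]; linear_combination 64 * hx
  have hxw : s + s' = (-7 / 16) + (1 / 32) * w := by rw [hw1]; ring
  have hrx : r + r' = (-9 / 16) + (-1 / 32) * w := by linear_combination hsum - hxw
  have e2 : (r - r' - ((1 / 16) + (9 / 32) * w)) * (r - r' + ((1 / 16) + (9 / 32) * w)) = 0 := by
    linear_combination (r + r' + ((-9 / 16) + (-1 / 32) * w)) * hrx - 4 * hrr + (-5 / 64) * hw
  rcases mul_eq_zero.1 e2 with f2 | f2
  · have hr : r = (-1 / 4) + (1 / 8) * w := by linear_combination (1 / 2) * hrx + (1 / 2) * f2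
    have hg : k = (47 / 16) + (-15 / 32) * w := by
      rw [hk, hr]; linear_combination ((-3 / 256) + (1 / 512) * w) * hw
    have hj : j = (-10595863073 / 65536) + (1099365825 / 131072) * w := by
      apply mul_right_cancel₀ hk0
      rw [h5, hg]; linear_combination ((147656487375 / 67108864) + (-37738288125 / 67108864) * w + (672046875 / 16777216) * w ^ 2 + (-289321875 / 268435456) * w ^ 3 + (11390625 / 1073741824) * w ^ 4) * hw
    refine ⟨(16777216, 5425081893376, 735993917749900909), by simp [exceptions], ?_⟩
    rw [hj]; push_cast; linear_combination ((1208605217177930625 / 1024)) * hw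
  · have hr : r = (-5 / 16) + (-5 / 32) * w := by linear_combination (1 / 2) * hrx + (1 / 2) * f2
    have hg : k = (5875 / 1024) + (1875 / 2048) * w := by
      rw [hk, hr]; linear_combination ((-375 / 16384) + (-125 / 32768) * w) * hw
    have hj : j = (-21186375087606758237 / 70368744177664) + (-20769559915822994685 / 140737488355328) * w := by
      apply mul_right_cancel₀ hk0
      rw [h5, hg]; linear_combination ((47445657144830143284375 / 4611686018427387904) + (30340096204669189453125 / 4611686018427387904) * w + (1181078592681884765625 / 1152921504606846976) * w ^ 2 + (764403820037841796875 / 18446744073709551616) * w ^ 3 + (43451786041259765625 / 73786976294838206464) * w ^ 4) * hw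
    refine ⟨(281474976710656, 169491000700854065896, 1570325792525939337046938109), by simp [exceptions], ?_⟩
    rw [hj]; push_cast; linear_combination ((431374619096961282065345423801538249225 / 70368744177664)) * hw

theorem jB2 {r r' s s' k j : K} (hrr : r * r' = 5)
    (hsum : r + r' + s + s' + 1 = 0) (hk : k = r ^ 3) (hk0 : k ≠ 0)
    (h5 : j * k = (k ^ 2 + 10 * k + 5) ^ 3)
    (hx : 15 * (s + s') ^ 2 - 98 * (s + s') + 163 = 0) :
    ∃ p ∈ exceptions, (p.1 : K) * j ^ 2 + (p.2.1 : K) * j + (p.2.2 : K) = 0 := by
  obtain ⟨w, hw1⟩ : ∃ w : K, w = 30 * (s + s') + (-98) := ⟨_, rfl⟩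
  have hw : w ^ 2 = (-176) := by
    rw [hw1]; linear_combination 60 * hx
  have hxw : s + s' = (49 / 15) + (1 / 30) * w := by rw [hw1]; ring
  have hrx : r + r' = (-64 / 15) + (-1 / 30) * w := by linear_combination hsum - hxw
  have e2 : (r - r' - ((16 / 15) + (2 / 15) * w)) * (r - r' + ((16 / 15) + (2 / 15) * w)) = 0 := by
    linear_combination (r + r' + ((-64 / 15) + (-1 / 30) * w)) * hrx - 4 * hrr + (-1 / 60) * hw
  rcases mul_eq_zero.1 e2 with f2 | f2
  · have hr : r = (-8 / 5) + (1 / 20) * w := by linear_combination (1 / 2) * hrx + (1 / 2) * f2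
    have hg : k = (-248 / 125) + (181 / 500) * w := by
      rw [hk, hr]; linear_combination ((-3 / 250) + (1 / 8000) * w) * hw
    have hj : j = (8328158739333824 / 823974609375) + (-858421322851232 / 823974609375) * w := by
      apply mul_right_cancel₀ hk0
      rw [h5, hg]; linear_combination ((35124763577444881 / 329589843750000) + (-3431115782307811 / 122070312500000) * w + (55949175814609 / 61035156250000) * w ^ 2 + (219712860983031 / 1953125000000000) * w ^ 3 + (35161828327081 / 15625000000000000) * w ^ 4) * hw
    refine ⟨(823974609375, -16656317478667648, 241573426180015108096), by simp [exceptions], ?_⟩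
    rw [hj]; push_cast; linear_combination ((736887167525659082262003917824 / 823974609375)) * hw
  · have hr : r = (-8 / 3) + (-1 / 12) * w := by linear_combination (1 / 2) * hrx + (1 / 2) * f2
    have hg : k = (-248 / 27) + (-181 / 108) * w := by
      rw [hk, hr]; linear_combination ((-1 / 18) + (-1 / 1728) * w) * hw
    have hj : j = (-7030747246639936 / 1793613375) + (-650728511243552 / 1793613375) * w := by
      apply mul_right_cancel₀ hk0
      rw [h5, hg]; linear_combination ((-52837153321622591 / 258280326000) + (-697468227161899 / 12397455648) * w + (-7129819772803 / 3099363912) * w ^ 2 + (21951859673813 / 66119763456) * w ^ 3 + (35161828327081 / 1586874322944) * w ^ 4) * hw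
    refine ⟨(1793613375, 14061494493279872, 69110871581730353360896), by simp [exceptions], ?_⟩
    rw [hj]; push_cast; linear_combination ((423447595345249581681461576704 / 1793613375)) * hw

theorem jB3 {r r' s s' k j : K} (hrr : r * r' = 5)
    (hsum : r + r' + s + s' + 1 = 0) (hk : k = r ^ 3) (hk0 : k ≠ 0)
    (h5 : j * k = (k ^ 2 + 10 * k + 5) ^ 3)
    (hx : 24 * (s + s') ^ 2 + 22 * (s + s') + 199 = 0) :
    ∃ p ∈ exceptions, (p.1 : K) * j ^ 2 + (p.2.1 : K) * j + (p.2.2 : K) = 0 := by
  obtain ⟨w, hw1⟩ : ∃ w : K, w = 48 * (s + s') + 22 := ⟨_, rfl⟩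
  have hw : w ^ 2 = (-18620) := by
    rw [hw1]; linear_combination 96 * hx
  have hxw : s + s' = (-11 / 24) + (1 / 48) * w := by rw [hw1]; ring
  have hrx : r + r' = (-13 / 24) + (-1 / 48) * w := by linear_combination hsum - hxw
  have e2 : (r - r' - ((7 / 24) + (13 / 336) * w)) * (r - r' + ((7 / 24) + (13 / 336) * w)) = 0 := by
    linear_combination (r + r' + ((-13 / 24) + (-1 / 48) * w)) * hrx - 4 * hrr + (-5 / 4704) * hw
  rcases mul_eq_zero.1 e2 with f2 | f2
  · have hr : r = (-1 / 8) + (1 / 112) * w := by linear_combination (1 / 2) * hrx + (1 / 2) * f2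
    have hg : k = (71 / 128) + (-23 / 1792) * w := by
      rw [hk, hr]; linear_combination ((-3 / 100352) + (1 / 1404928) * w) * hw
    have hj : j = (-194894942221603 / 57982058496) + (-22102705386445 / 811748818944) * w := by
      apply mul_right_cancel₀ hk0
      rw [h5, hg]; linear_combination ((3929118573901765 / 23274462136762368) + (-25419022825005 / 6034119813234688) * w + (114551514145 / 10559709673160704) * w ^ 2 + (-13728719619 / 1182687483393998848) * w ^ 3 + (148035889 / 33115249535031967744) * w ^ 4) * hw
    refine ⟨(231928233984, 1559159537772824, 5822100926091310141), by simp [exceptions], ?_⟩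
    rw [hj]; push_cast; linear_combination ((488529585399984816789738025 / 2841120866304)) * hw
  · have hr : r = (-5 / 12) + (-5 / 168) * w := by linear_combination (1 / 2) * hrx + (1 / 2) * f2
    have hg : k = (8875 / 432) + (2875 / 6048) * w := by
      rw [hk, hr]; linear_combination ((-125 / 112896) + (-125 / 4741632) * w) * hw
    have hj : j = (1495485990819495528139 / 940369969152) + (-58626409585984481957 / 13165179568128) * w := by
      apply mul_right_cancel₀ hk0
      rw [h5, hg]; linear_combination ((-739348630557032431997875 / 424656032149536768) + (-304290415554244091796875 / 8917776675140272128) * w + (4398718949691162109375 / 15606109181495476224) * w ^ 2 + (2167512359771728515625 / 582628076109164445696) * w ^ 3 + (564712100982666015625 / 48940758393169813438464) * w ^ 4) * hw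
    refine ⟨(30091839012864, -95711103412447713800896, 87216691077900033802570367118541), by simp [exceptions], ?_⟩
    rw [hj]; push_cast; linear_combination ((3437055900943613157106217920413658549849 / 5759766061056)) * hw

end RG
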