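import Pool.Agent.Lib.MP_87c685_nt_RG.RType

/-!
# The Pell conic `5 A² = Y² + 20` over imaginary quadratic fields
-/

set_option autoImplicit false

open NumberField

namespace RG

variable {K : Type*} [Field K] [NumberField K]

theorem rat_int_sq (q : ℚ) (M : ℤ) (h : q ^ 2 = M) : ∃ n : ℤ, q = n := by
  have h1 : IsIntegral ℤ q := by
    have h3 : IsIntegral ℤ (q ^ 2) := by
      rw [h]; exact isIntegral_algebraMap (R := ℤ) (x := M)
    exact IsIntegral.of_pow (by norm_num) h3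
  obtain ⟨n, hn⟩ := IsIntegrallyClosed.isIntegral_iff.1 h1
  exact ⟨n, by simpa using hn.symm⟩

theorem five_dvd {n : ℤ} (h : (5 : ℤ) ∣ n ^ 2) : (5 : ℤ) ∣ n := by
  have h5 : Prime (5 : ℤ) := Nat.prime_iff_prime_int.1 (by norm_num)
  exact h5.dvd_of_dvd_pow h

/-- the size of `(A, Y)` and its real companion are integers -/
theorem P_int [IsTotallyComplex K] (h2 : Module.finrank ℚ K = 2) (φ : K →+* ℂ) (A Y : K)
    (hAY : 5 * A ^ 2 = Y ^ 2 + 20) (hY : IsIntegral ℤ Y) :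
    ∃ p r : ℤ, 0 ≤ p ∧ p ^ 2 = 5 * r ^ 2 + 4 ∧
      5 * Complex.normSq (φ A) + Complex.normSq (φ Y) = 10 * p ∧
      2 * ((φ A).re * (φ Y).re + (φ A).im * (φ Y).im) = 10 * r := by
  obtain ⟨-, α, -, -, hα⟩ := exists_trace_norm h2 φ A
  obtain ⟨-, β, -, -, hβ⟩ := exists_int_trace_norm h2 φ Y hY
  obtain ⟨-, γ, -, -, hγ⟩ := exists_trace_norm h2 φ (A + Y)
  have h5A : IsIntegral ℤ (5 * A ^ 2) := by
    rw [hAY]
    exact (hY.pow 2).add (by simpa using (isIntegral_algebraMap (R := ℤ) (A := K) (x := 20)))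
  obtain ⟨-, M, -, -, hM⟩ := exists_int_trace_norm h2 φ _ h5A
  have hMα : (5 * α) ^ 2 = M := by
    have e : Complex.normSq (φ (5 * A ^ 2)) = 25 * Complex.normSq (φ A) ^ 2 := by
      rw [map_mul, map_pow, map_mul, map_pow, map_ofNat]
      have : Complex.normSq (5 : ℂ) = 25 := by
        rw [show (5 : ℂ) = ((5 : ℝ) : ℂ) by norm_num, Complex.normSq_ofReal]; norm_num
      rw [this]
    rw [e, hα] at hM
    have : ((5 * α) ^ 2 : ℝ) = (M : ℝ) := by rw [← hM]; ring
    exact_mod_cast this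
  obtain ⟨n0, hn0⟩ := rat_int_sq _ _ hMα
  -- the identity
  have hc : 5 * φ A ^ 2 - φ Y ^ 2 = 20 := by
    have := congrArg φ hAY
    simp only [map_mul, map_pow, map_add, map_ofNat] at this
    linear_combination this
  have hre : 5 * ((φ A).re ^ 2 - (φ A).im ^ 2) - ((φ Y).re ^ 2 - (φ Y).im ^ 2) = 20 := by
    have := congrArg Complex.re hc
    simp only [pow_two, Complex.sub_re, Complex.mul_re, Complex.mul_im, Complex.re_ofNat,
      Complex.im_ofNat] at this
    linear_combination this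
  have him : 5 * (2 * (φ A).re * (φ A).im) - 2 * (φ Y).re * (φ Y).im = 0 := by
    have := congrArg Complex.im hc
    simp only [pow_two, Complex.sub_im, Complex.mul_re, Complex.mul_im, Complex.re_ofNat,
      Complex.im_ofNat] at this
    linear_combination this
  have hρ : 2 * ((φ A).re * (φ Y).re + (φ A).im * (φ Y).im) = ((γ - α - β : ℚ) : ℝ) := by
    push_cast
    rw [← hγ, ← hα, ← hβ, map_add]
    simp only [Complex.normSq_apply, Complex.add_re, Complex.add_im]
    ring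
  have key : (5 * Complex.normSq (φ A) + Complex.normSq (φ Y)) ^ 2 -
      5 * (2 * ((φ A).re * (φ Y).re + (φ A).im * (φ Y).im)) ^ 2 = 400 := by
    simp only [Complex.normSq_apply]
    linear_combination (5 * ((φ A).re ^ 2 - (φ A).im ^ 2) - ((φ Y).re ^ 2 - (φ Y).im ^ 2) + 20) *
      hre + (5 * (2 * (φ A).re * (φ A).im) - 2 * (φ Y).re * (φ Y).im) * him
  rw [hρ, hα, hβ] at key
  have key2 : (5 * α + β) ^ 2 - 5 * (γ - α - β) ^ 2 = 400 := by exact_mod_cast key
  rw [hn0] at key2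
  have h5ρ : (5 * (γ - α - β)) ^ 2 = ((5 * ((n0 + β) ^ 2 - 400) : ℤ) : ℚ) := by
    push_cast
    linear_combination (-5) * key2
  obtain ⟨n2, hn2⟩ := rat_int_sq _ _ h5ρ
  have e1 : n2 ^ 2 = 5 * ((n0 + β) ^ 2 - 400) := by
    rw [hn2] at h5ρ; exact_mod_cast h5ρ
  obtain ⟨n3, rfl⟩ := five_dvd ⟨_, e1⟩
  obtain ⟨n4, hn4⟩ := five_dvd (n := n0 + β) ⟨n3 ^ 2 + 80, by linarith⟩
  have e2 : n3 ^ 2 = 5 * n4 ^ 2 - 80 := by
    rw [hn4] at e1; linarith
  obtain ⟨n5, rfl⟩ := five_dvd (n := n3) ⟨n4 ^ 2 - 16, by linarith⟩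
  have e3 : n4 ^ 2 = 5 * n5 ^ 2 + 16 := by linarith
  have hev : (2 : ℤ) ∣ n5 ∧ (2 : ℤ) ∣ n4 := by
    have key : ∀ a b : ZMod 8, a ^ 2 = 5 * b ^ 2 + 16 → (b = 0 ∨ b = 2 ∨ b = 4 ∨ b = 6) ∧
      (a = 0 ∨ a = 2 ∨ a = 4 ∨ a = 6) := by decide
    have h1 : ((n4 : ℤ) : ZMod 8) ^ 2 = 5 * ((n5 : ℤ) : ZMod 8) ^ 2 + 16 := by
      exact_mod_cast congrArg (Int.cast : ℤ → ZMod 8) e3
    have h8 : ∀ n : ℤ, (((n : ℤ) : ZMod 8) = 0 ∨ ((n : ℤ) : ZMod 8) = 2 ∨
        ((n : ℤ) : ZMod 8) = 4 ∨ ((n : ℤ) : ZMod 8) = 6) → (2 : ℤ) ∣ n := by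
      intro n hn
      have h9 : ∀ m : ℤ, ((n : ℤ) : ZMod 8) = ((m : ℤ) : ZMod 8) → (8 : ℤ) ∣ m - n := fun m h =>
        (ZMod.intCast_eq_intCast_iff_dvd_sub n m 8).1 h
      rcases hn with h | h | h | h
      · have := h9 0 (by simpa using h); omega
      · have := h9 2 (by simpa using h); omega
      · have := h9 4 (by simpa using h); omega
      · have := h9 6 (by simpa using h); omega
    obtain ⟨hb, ha⟩ := key _ _ h1
    exact ⟨h8 _ hb, h8 _ ha⟩
  obtain ⟨⟨r, rfl⟩, ⟨p, rfl⟩⟩ := hev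
  have hP : 5 * Complex.normSq (φ A) + Complex.normSq (φ Y) = 10 * p := by
    rw [hα, hβ]
    have : (5 * α + β : ℚ) = 10 * p := by
      rw [hn0]
      have : (n0 : ℚ) + β = ((5 * (2 * p) : ℤ) : ℚ) := by exact_mod_cast hn4
      rw [this]; push_cast; ring
    exact_mod_cast this
  refine ⟨p, r, ?_, by linarith, hP, ?_⟩
  · have h1 : (0 : ℝ) ≤ 10 * p := by
      rw [← hP]
      have := Complex.normSq_nonneg (φ A)
      have := Complex.normSq_nonneg (φ Y)
      positivity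
    have h3 : (0 : ℝ) ≤ p := by linarith
    exact_mod_cast h3
  · rw [hρ]
    have h1 : (γ - α - β : ℚ) = 10 * r := by
      have h3 : 5 * (γ - α - β) = 5 * (5 * (2 * (r : ℚ))) := by
        rw [hn2]; push_cast; ring
      linarith
    rw [h1]; push_cast; ring

omit [NumberField K] in
theorem int_num (n : ℤ) : IsIntegral ℤ (n : K) := isIntegral_algebraMap (R := ℤ) (x := n)

/-- multiplication by the square of the fundamental unit of `ℚ(√5)` -/
theorem step_int (A Y Y' : K) (hAY : 5 * A ^ 2 = Y ^ 2 + 20) (hY : IsIntegral ℤ Y)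
    (h : (2 * Y' - 3 * Y) ^ 2 = 25 * A ^ 2) : IsIntegral ℤ Y' := by
  apply int_of_quad Y' (((-3 : ℤ) : K) * Y) (Y ^ 2 + ((-25 : ℤ) : K)) ((int_num _).mul hY)
    ((hY.pow 2).add (int_num _))
  push_cast
  linear_combination (1 / 4) * h + (5 / 4) * hAY

theorem re_im_step (φ : K →+* ℂ) (A Y : K) (a b c d : ℤ) :
    5 * Complex.normSq (φ ((a * A + b * Y) / 2)) + Complex.normSq (φ ((c * A + d * Y) / 2)) =
      ((5 * a ^ 2 + c ^ 2) * Complex.normSq (φ A) + (5 * b ^ 2 + d ^ 2) *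
        Complex.normSq (φ Y) + (5 * a * b + c * d) *
        (2 * ((φ A).re * (φ Y).re + (φ A).im * (φ Y).im))) / 4 := by
  have e : ∀ u v : ℤ, Complex.normSq (φ ((u * A + v * Y) / 2)) =
      (u ^ 2 * Complex.normSq (φ A) + v ^ 2 * Complex.normSq (φ Y) +
        u * v * (2 * ((φ A).re * (φ Y).re + (φ A).im * (φ Y).im))) / 4 := by
    intro u v
    rw [map_div₀, map_add, map_mul, map_mul, map_intCast, map_intCast, map_ofNat, map_div₀]
    have : Complex.normSq (2 : ℂ) = 4 := by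
      rw [show (2 : ℂ) = ((2 : ℝ) : ℂ) by norm_num, Complex.normSq_ofReal]; norm_num
    rw [this]
    simp only [Complex.normSq_apply, Complex.add_re, Complex.add_im, Complex.mul_re,
      Complex.mul_im, Complex.intCast_re, Complex.intCast_im]
    ring
  rw [e, e]
  ring

theorem pell_ind [IsTotallyComplex K] (h2 : Module.finrank ℚ K = 2) (φ : K →+* ℂ)
    (C : K → K → Prop)
    (hf : ∀ A Y : K, C ((3 * A + Y) / 2) ((5 * A + 3 * Y) / 2) → C A Y)
    (hb : ∀ A Y : K, C ((3 * A - Y) / 2) ((-5 * A + 3 * Y) / 2) → C A Y)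
    (base : ∀ (A Y : K) (p r : ℤ), 5 * A ^ 2 = Y ^ 2 + 20 → IsIntegral ℤ Y → 0 ≤ p →
      p ^ 2 = 5 * r ^ 2 + 4 → 5 * Complex.normSq (φ A) + Complex.normSq (φ Y) = 10 * p →
      2 * ((φ A).re * (φ Y).re + (φ A).im * (φ Y).im) = 10 * r → -1 ≤ r → r ≤ 1 → C A Y) :
    ∀ A Y : K, 5 * A ^ 2 = Y ^ 2 + 20 → IsIntegral ℤ Y → C A Y := by
  have main : ∀ (n : ℕ) (A Y : K) (p r : ℤ), p.toNat ≤ n → 5 * A ^ 2 = Y ^ 2 + 20 →
      IsIntegral ℤ Y → 0 ≤ p → p ^ 2 = 5 * r ^ 2 + 4 →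
      5 * Complex.normSq (φ A) + Complex.normSq (φ Y) = 10 * p →
      2 * ((φ A).re * (φ Y).re + (φ A).im * (φ Y).im) = 10 * r → C A Y := by
    intro n
    induction n with
    | zero =>
      intro A Y p r hn _ _ hp hpr _ _
      exfalso
      have : p = 0 := by omega
      rw [this] at hpr
      nlinarith [sq_nonneg r]
    | succ n ih =>
      intro A Y p r hn hAY hY hp hpr hP hR
      by_cases h1 : -1 ≤ r ∧ r ≤ 1
      · exact base A Y p r hAY hY hp hpr hP hR h1.1 h1.2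
      · by_cases h3 : 2 ≤ r
        · apply hb
          have hY' : IsIntegral ℤ ((-5 * A + 3 * Y) / 2) := by
            apply step_int A Y _ hAY hY
            ring
          have hAY' : 5 * ((3 * A - Y) / 2) ^ 2 = ((-5 * A + 3 * Y) / 2) ^ 2 + 20 := by
            linear_combination hAY
          obtain ⟨p', r', hp', hpr', hP', hR'⟩ := P_int h2 φ _ _ hAY' hY'
          apply ih _ _ p' r' _ hAY' hY' hp' hpr' hP' hR'
          have e := re_im_step φ A Y 3 (-1) (-5) 3
          push_cast at e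
          rw [show (3 * A + -1 * Y) / 2 = (3 * A - Y) / 2 by ring, hP'] at e
          have e2 : (2 * p' : ℝ) = 7 * p - 15 * r := by
            linarith
          have e3 : 2 * p' = 7 * p - 15 * r := by exact_mod_cast e2
          have e4 : p < 3 * r := by nlinarith
          omega
        · apply hf
          have hY' : IsIntegral ℤ ((5 * A + 3 * Y) / 2) := by
            apply step_int A Y _ hAY hY
            ring
          have hAY' : 5 * ((3 * A + Y) / 2) ^ 2 = ((5 * A + 3 * Y) / 2) ^ 2 + 20 := by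
            linear_combination hAY
          obtain ⟨p', r', hp', hpr', hP', hR'⟩ := P_int h2 φ _ _ hAY' hY'
          apply ih _ _ p' r' _ hAY' hY' hp' hpr' hP' hR'
          have e := re_im_step φ A Y 3 1 5 3
          push_cast at e
          rw [show (3 * A + 1 * Y) / 2 = (3 * A + Y) / 2 by ring, hP'] at e
          have e2 : (2 * p' : ℝ) = 7 * p + 15 * r := by
            linarith
          have e3 : 2 * p' = 7 * p + 15 * r := by exact_mod_cast e2
          have hr : r ≤ -2 := by omega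
          have e4 : p < -(3 * r) := by nlinarith
          omega
  intro A Y hAY hY
  obtain ⟨p, r, hp, hpr, hP, hR⟩ := P_int h2 φ A Y hAY hY
  exact main p.toNat A Y p r le_rfl hAY hY hp hpr hP hR

end RG
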