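import Mathlib

/-!
# Imaginary quadratic fields: integral elements, traces and norms
-/

set_option autoImplicit false

open NumberField

namespace RG

variable {K : Type*} [Field K] [NumberField K]

theorem exists_root (h2 : Module.finrank ℚ K = 2) : ∃ (t : K) (r : ℚ), t ^ 2 = (r : K) ∧
      ∀ q : ℚ, t ≠ (q : K) := by
  have hx : ∃ x : K, x ∉ (algebraMap ℚ K).range := by
    by_contra h
    push Not at h
    have h1 : (⊥ : Subalgebra ℚ K) = ⊤ := by
      rw [eq_top_iff]
      intro x _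
      exact Algebra.mem_bot.2 (h x)
    have h3 := Subalgebra.bot_eq_top_iff_finrank_eq_one.1 h1
    omega
  obtain ⟨x, hx⟩ := hx
  have hint : IsIntegral ℚ x := Algebra.IsIntegral.isIntegral x
  have hd : (minpoly ℚ x).natDegree ∣ 2 := by
    have := minpoly.degree_dvd hint
    rwa [h2] at this
  have hd1 : (minpoly ℚ x).natDegree ≠ 1 := fun h => hx (minpoly.natDegree_eq_one_iff.1 h)
  have hd2 : (minpoly ℚ x).natDegree = 2 := by
    have := (Nat.dvd_prime Nat.prime_two).1 hd
    tauto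
  have hm := minpoly.aeval ℚ x
  rw [Polynomial.aeval_eq_sum_range, hd2] at hm
  have hc : (minpoly ℚ x).coeff 2 = 1 := by
    have := minpoly.monic hint
    rw [Polynomial.Monic, Polynomial.leadingCoeff, hd2] at this
    exact this
  simp only [Finset.sum_range_succ, Finset.range_zero, Finset.sum_empty, zero_add, pow_zero,
    pow_one, hc, one_smul] at hm
  set b := (minpoly ℚ x).coeff 0 with hb
  set a := (minpoly ℚ x).coeff 1 with ha
  have hm' : (b : K) + (a : K) * x + x ^ 2 = 0 := by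
    have e1 : b • (1 : K) = (b : K) := by
      rw [Algebra.smul_def, mul_one]; rfl
    have e2 : a • x = (a : K) * x := by
      rw [Algebra.smul_def]; rfl
    rw [e1, e2] at hm
    exact hm
  refine ⟨x + ((a / 2 : ℚ) : K), a ^ 2 / 4 - b, ?_, ?_⟩
  · push_cast
    have : x ^ 2 = -(b : K) - (a : K) * x := by linear_combination hm'
    ring_nf
    rw [this]
    ring
  · intro q hq
    apply hx
    refine ⟨q - a / 2, ?_⟩
    have : x = (q : K) - ((a / 2 : ℚ) : K) := by rw [← hq]; ring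
    rw [this]
    simp [map_sub, map_div₀]

theorem span_of (h2 : Module.finrank ℚ K = 2) (s : K) (hs : ∀ q : ℚ, s ≠ (q : K)) (y : K) :
    ∃ a b : ℚ, y = (a : K) + (b : K) * s := by
  have hli : LinearIndependent ℚ ![(1 : K), s] := by
    rw [LinearIndependent.pair_iff]
    intro u v huv
    have huv' : (u : K) + (v : K) * s = 0 := by
      have e1 : u • (1 : K) = (u : K) := by rw [Algebra.smul_def, mul_one]; rfl
      have e2 : v • s = (v : K) * s := by rw [Algebra.smul_def]; rfl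
      rw [e1, e2] at huv
      exact huv
    by_cases hv : v = 0
    · subst hv
      refine ⟨?_, rfl⟩
      simpa using huv'
    · exfalso
      have hvK : (v : K) ≠ 0 := by exact_mod_cast hv
      apply hs (-u / v)
      push_cast
      rw [eq_div_iff hvK]
      linear_combination huv'
  have htop := hli.span_eq_top_of_card_eq_finrank (by rw [h2]; simp)
  have hy : y ∈ Submodule.span ℚ (Set.range ![(1 : K), s]) := by rw [htop]; trivial
  simp only [Matrix.range_cons, Matrix.range_empty, Set.union_empty, Set.singleton_union] at hy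
  obtain ⟨a, b, hab⟩ := Submodule.mem_span_pair.1 hy
  refine ⟨a, b, ?_⟩
  rw [← hab]
  have e1 : a • (1 : K) = (a : K) := by rw [Algebra.smul_def, mul_one]; rfl
  have e2 : b • s = (b : K) * s := by rw [Algebra.smul_def]; rfl
  rw [e1, e2]

theorem root_neg [IsTotallyComplex K]
    (h2 : Module.finrank ℚ K = 2) (d : ℚ) (s : K) (hs2 : s ^ 2 = (d : K))
    (hs : ∀ q : ℚ, s ≠ (q : K)) : d < 0 := by
  by_contra hd
  push Not at hd
  obtain ⟨φ⟩ : Nonempty (K →+* ℂ) := inferInstance
  have hφs : (starRingEnd ℂ) (φ s) = φ s := by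
    have h3 : (φ s) ^ 2 = ((d : ℝ) : ℂ) := by
      rw [← map_pow, hs2]; simp
    have h4 : (φ s) ^ 2 = ((Real.sqrt d : ℝ) : ℂ) ^ 2 := by
      rw [h3, ← Complex.ofReal_pow, Real.sq_sqrt (by exact_mod_cast hd)]
    rcases sq_eq_sq_iff_eq_or_eq_neg.1 h4 with h | h
    · rw [h, Complex.conj_ofReal]
    · rw [h, map_neg, Complex.conj_ofReal]
  have hreal : ComplexEmbedding.IsReal φ := by
    rw [ComplexEmbedding.isReal_iff]
    ext y
    obtain ⟨a, b, rfl⟩ := span_of h2 s hs y
    rw [ComplexEmbedding.conjugate_coe_eq]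
    simp only [map_add, map_mul, map_ratCast, hφs]
  have h5 : (InfinitePlace.mk φ).IsReal := ⟨φ, hreal, rfl⟩
  have h6 : (InfinitePlace.mk φ).IsComplex := IsTotallyComplex.isComplex _
  exact (InfinitePlace.not_isReal_iff_isComplex.2 h6) h5

/-- An element of `K` which is a root of a rational quadratic polynomial with non-negative
discriminant is rational. -/
theorem rat_of_disc [IsTotallyComplex K] (h2 : Module.finrank ℚ K = 2) (z : K) (p q : ℚ)
    (hz : z ^ 2 + p * z + q = 0) (hd : 0 ≤ p ^ 2 - 4 * q) : ∃ x : ℚ, z = x := by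
  by_contra h
  push Not at h
  have h1 : (2 * z + p) ^ 2 = ((p ^ 2 - 4 * q : ℚ) : K) := by
    push_cast
    linear_combination 4 * hz
  have := root_neg h2 _ _ h1 (by
    intro x hx
    apply h ((x - p) / 2)
    push_cast
    rw [← hx]; ring)
  linarith

theorem rat_of_sq [IsTotallyComplex K] (h2 : Module.finrank ℚ K = 2) (z : K) (q : ℚ)
    (hz : z ^ 2 = q) (hd : 0 ≤ q) : ∃ x : ℚ, z = x := by
  apply rat_of_disc h2 z 0 (-q) _ (by linarith)
  push_cast
  linear_combination hz

/-- Elements with a real image are rational. -/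
theorem rat_of_im [IsTotallyComplex K] (h2 : Module.finrank ℚ K = 2) (φ : K →+* ℂ) (z : K)
    (hz : (φ z).im = 0) : ∃ x : ℚ, z = x := by
  obtain ⟨t, r, ht, htq⟩ := exists_root h2
  have hr := root_neg h2 r t ht htq
  obtain ⟨a, b, rfl⟩ := span_of h2 t htq z
  have h1 : (φ t) ^ 2 = (r : ℂ) := by rw [← map_pow, ht]; simp
  have him : (φ t).im ≠ 0 := by
    intro h0
    have h3 : ((φ t) ^ 2).re = (φ t).re ^ 2 := by
      rw [pow_two, Complex.mul_re, h0]; ring
    rw [h1] at h3
    have h4 : ((r : ℂ)).re = (r : ℝ) := by simp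
    rw [h4] at h3
    have : (r : ℝ) < 0 := by exact_mod_cast hr
    nlinarith [sq_nonneg (φ t).re]
  have h5 : (φ ((a : K) + (b : K) * t)).im = (b : ℝ) * (φ t).im := by
    rw [map_add, map_mul, map_ratCast, map_ratCast]
    simp
  rw [h5] at hz
  have hb : b = 0 := by
    rcases mul_eq_zero.1 hz with h | h
    · exact_mod_cast h
    · exact absurd h him
  exact ⟨a, by rw [hb]; simp⟩

/-- The conjugate of `z`: trace and norm. -/
theorem exists_trace_norm [IsTotallyComplex K] (h2 : Module.finrank ℚ K = 2) (φ : K →+* ℂ)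
    (z : K) : ∃ T N : ℚ, z ^ 2 - T * z + N = 0 ∧ 2 * (φ z).re = T ∧
      Complex.normSq (φ z) = N := by
  obtain ⟨t, r, ht, htq⟩ := exists_root h2
  have hr := root_neg h2 r t ht htq
  obtain ⟨a, b, rfl⟩ := span_of h2 t htq z
  have h1 : (φ t) ^ 2 = (r : ℂ) := by rw [← map_pow, ht]; simp
  have hre : (φ t).re = 0 := by
    have h3 : ((φ t) ^ 2).im = 2 * (φ t).re * (φ t).im := by
      rw [pow_two, Complex.mul_im]; ring
    rw [h1] at h3
    have h4 : ((r : ℂ)).im = 0 := by simp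
    rw [h4] at h3
    have h5 : ((φ t) ^ 2).re = (φ t).re ^ 2 - (φ t).im ^ 2 := by
      rw [pow_two, Complex.mul_re]; ring
    rw [h1] at h5
    have h6 : ((r : ℂ)).re = (r : ℝ) := by simp
    rw [h6] at h5
    have hr' : (r : ℝ) < 0 := by exact_mod_cast hr
    by_contra h0
    have h7 : (φ t).im = 0 := by
      rcases mul_eq_zero.1 h3.symm with h | h
      · exfalso; apply h0; linarith
      · exact h
    rw [h7] at h5
    nlinarith [sq_nonneg (φ t).re]
  have him : (φ t).im ^ 2 = -(r : ℝ) := by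
    have h5 : ((φ t) ^ 2).re = (φ t).re ^ 2 - (φ t).im ^ 2 := by
      rw [pow_two, Complex.mul_re]; ring
    rw [h1, hre] at h5
    have h6 : ((r : ℂ)).re = (r : ℝ) := by simp
    rw [h6] at h5
    linarith
  have e1 : (φ ((a : K) + (b : K) * t)).re = a := by
    rw [map_add, map_mul, map_ratCast, map_ratCast]
    simp [hre]
  have e2 : (φ ((a : K) + (b : K) * t)).im = (b : ℝ) * (φ t).im := by
    rw [map_add, map_mul, map_ratCast, map_ratCast]
    simp
  refine ⟨2 * a, a ^ 2 - b ^ 2 * r, ?_, ?_, ?_⟩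
  · push_cast
    linear_combination (b : K) ^ 2 * ht
  · rw [e1]; push_cast; ring
  · rw [Complex.normSq_apply, e1, e2]
    push_cast
    linear_combination (b : ℝ) ^ 2 * him

/-- An integral element: integral trace and norm. -/
theorem exists_int_trace_norm [IsTotallyComplex K] (h2 : Module.finrank ℚ K = 2) (φ : K →+* ℂ)
    (z : K) (hz : IsIntegral ℤ z) : ∃ T N : ℤ, z ^ 2 - T * z + N = 0 ∧ 2 * (φ z).re = T ∧
      Complex.normSq (φ z) = N := by
  obtain ⟨T, N, h, hT, hN⟩ := exists_trace_norm h2 φ z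
  have hi : IsIntegral ℤ (φ z) := hz.map φ.toIntAlgHom
  have hi' : IsIntegral ℤ ((starRingEnd ℂ) (φ z)) := hi.map (starRingEnd ℂ).toIntAlgHom
  have hTi : IsIntegral ℤ (T : ℂ) := by
    have : ((T : ℝ) : ℂ) = φ z + (starRingEnd ℂ) (φ z) := by
      rw [Complex.add_conj, ← hT]
    have h3 : (T : ℂ) = φ z + (starRingEnd ℂ) (φ z) := by rw [← this]; simp
    rw [h3]
    exact hi.add hi'
  have hNi : IsIntegral ℤ (N : ℂ) := by
    have : ((N : ℝ) : ℂ) = φ z * (starRingEnd ℂ) (φ z) := by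
      rw [Complex.mul_conj, ← hN]
    have h3 : (N : ℂ) = φ z * (starRingEnd ℂ) (φ z) := by rw [← this]; simp
    rw [h3]
    exact hi.mul hi'
  have hTQ : IsIntegral ℤ T := by
    have : IsIntegral ℤ (algebraMap ℚ ℂ T) := by simpa using hTi
    exact (isIntegral_algebraMap_iff (algebraMap ℚ ℂ).injective).1 this
  have hNQ : IsIntegral ℤ N := by
    have : IsIntegral ℤ (algebraMap ℚ ℂ N) := by simpa using hNi
    exact (isIntegral_algebraMap_iff (algebraMap ℚ ℂ).injective).1 this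
  obtain ⟨T', hT'⟩ := IsIntegrallyClosed.isIntegral_iff.1 hTQ
  obtain ⟨N', hN'⟩ := IsIntegrallyClosed.isIntegral_iff.1 hNQ
  have hT'' : (T' : ℚ) = T := by simpa using hT'
  have hN'' : (N' : ℚ) = N := by simpa using hN'
  refine ⟨T', N', ?_, ?_, ?_⟩
  · rw [← hT'', ← hN''] at h
    push_cast at h
    exact h
  · rw [hT, ← hT'']; simp
  · rw [hN, ← hN'']; simp

theorem disc_lt [IsTotallyComplex K] (h2 : Module.finrank ℚ K = 2) (φ : K →+* ℂ)
    (z : K) (T N : ℤ) (hT : 2 * (φ z).re = T) (hN : Complex.normSq (φ z) = N)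
    (hz : ∀ q : ℚ, z ≠ q) : T ^ 2 < 4 * N := by
  have h1 : (φ z).im ≠ 0 := by
    intro h
    obtain ⟨x, hx⟩ := rat_of_im h2 φ z h
    exact hz x hx
  have h3 : 0 < (φ z).im ^ 2 := by positivity
  rw [Complex.normSq_apply] at hN
  have h4 : ((T : ℝ)) ^ 2 < 4 * N := by
    rw [← hT, ← hN]
    nlinarith
  exact_mod_cast h4

theorem norm_ge_one [IsTotallyComplex K] (h2 : Module.finrank ℚ K = 2) (φ : K →+* ℂ)
    (z : K) (hz : IsIntegral ℤ z) (h0 : z ≠ 0) : 1 ≤ ‖φ z‖ := by
  obtain ⟨T, N, -, -, hN⟩ := exists_int_trace_norm h2 φ z hz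
  have h1 : 0 < Complex.normSq (φ z) := Complex.normSq_pos.2 ((map_ne_zero φ).2 h0)
  rw [hN] at h1
  have h3 : 1 ≤ N := by exact_mod_cast h1
  have h4 : (1 : ℝ) ≤ ‖φ z‖ ^ 2 := by
    rw [← Complex.normSq_eq_norm_sq, hN]
    exact_mod_cast h3
  nlinarith [norm_nonneg (φ z)]

/-- Square roots of `A + B g`. -/
theorem sqrt_cond [IsTotallyComplex K] (h2 : Module.finrank ℚ K = 2) (φ : K →+* ℂ)
    (g z : K) (τ ν A B : ℤ) (hτ : 2 * (φ g).re = τ) (hν : Complex.normSq (φ g) = ν)
    (hg : ∀ q : ℚ, g ≠ q) (hz : IsIntegral ℤ z) (hzz : z ^ 2 = A + B * g) :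
    ∃ M m : ℤ, 0 ≤ M ∧ M ^ 2 = A ^ 2 + A * B * τ + B ^ 2 * ν ∧ m ^ 2 = 2 * A + B * τ + 2 * M ∧
      z ^ 2 - m * z + M = 0 ∧ (m = 0 → B = 0 ∧ ∃ k : ℤ, k ^ 2 = A * (τ ^ 2 - 4 * ν)) := by
  obtain ⟨m, M, h, hm, hM⟩ := exists_int_trace_norm h2 φ z hz
  have hM0 : 0 ≤ M := by
    have := Complex.normSq_nonneg (φ z)
    rw [hM] at this
    exact_mod_cast this
  have hφ : φ z ^ 2 = (A : ℂ) + B * φ g := by
    rw [← map_pow, hzz]; simp
  have hre : (φ z ^ 2).re = A + B * (φ g).re := by rw [hφ]; simp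
  have hns : Complex.normSq (φ z ^ 2) = A ^ 2 + A * B * τ + B ^ 2 * ν := by
    rw [hφ, Complex.normSq_apply]
    have e1 : ((A : ℂ) + B * φ g).re = A + B * (φ g).re := by simp
    have e2 : ((A : ℂ) + B * φ g).im = B * (φ g).im := by simp
    rw [e1, e2, ← hτ, ← hν, Complex.normSq_apply]
    ring
  have hre2 : (φ z ^ 2).re = (φ z).re ^ 2 - (φ z).im ^ 2 := by
    rw [pow_two, Complex.mul_re]; ring
  have c1 : M ^ 2 = A ^ 2 + A * B * τ + B ^ 2 * ν := by
    rw [map_pow, hM] at hns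
    exact_mod_cast hns
  have c2 : m ^ 2 = 2 * A + B * τ + 2 * M := by
    have : (m : ℝ) ^ 2 = 2 * A + B * τ + 2 * M := by
      rw [← hm, ← hM, ← hτ, Complex.normSq_apply]
      rw [hre2] at hre
      linear_combination 2 * hre
    exact_mod_cast this
  refine ⟨M, m, hM0, c1, c2, h, ?_⟩
  intro hm0
  subst hm0
  have hz2 : z ^ 2 = -(M : K) := by
    push_cast at h
    linear_combination h
  have hB : B = 0 := by
    by_contra hB
    have hBK : (B : K) ≠ 0 := by exact_mod_cast hB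
    apply hg ((-M - A) / B)
    push_cast
    rw [eq_div_iff hBK]
    linear_combination hz2 - hzz
  refine ⟨hB, ?_⟩
  subst hB
  have hAM : A = -M := by
    have : (A : K) = ((-M : ℤ) : K) := by
      push_cast
      push_cast at hzz
      linear_combination hz2 - hzz
    exact_mod_cast this
  obtain ⟨x, y, hxy⟩ := span_of h2 g hg z
  have hgq : g ^ 2 - τ * g + ν = 0 := by
    obtain ⟨T, N, h1, hT, hN⟩ := exists_trace_norm h2 φ g
    have e1 : (T : ℝ) = τ := by rw [← hT, ← hτ]
    have e2 : (N : ℝ) = ν := by rw [← hN, ← hν]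
    have e1' : T = τ := by exact_mod_cast e1
    have e2' : N = ν := by exact_mod_cast e2
    rw [e1', e2'] at h1
    push_cast at h1
    exact h1
  have hre0 : 2 * x + y * τ = 0 := by
    have h3 : (φ z).re = x + y * (φ g).re := by
      rw [hxy, map_add, map_mul, map_ratCast, map_ratCast]; simp
    have h4 : (2 : ℝ) * x + y * τ = 0 := by
      rw [← hτ]
      push_cast at hm
      linear_combination hm - 2 * h3
    exact_mod_cast h4
  have hx : x = -(y * τ) / 2 := by linarith
  have hsq : (A : ℚ) = y ^ 2 * (τ ^ 2 - 4 * ν) / 4 := by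
    have : ((A : ℚ) : K) = ((y ^ 2 * (τ ^ 2 - 4 * ν) / 4 : ℚ) : K) := by
      have hz3 : z = (y : K) * (g - (τ : K) / 2) := by
        rw [hxy, hx]; push_cast; ring
      have : (A : K) = z ^ 2 := by rw [hzz]; push_cast; ring
      push_cast
      rw [this, hz3]
      linear_combination (y : K) ^ 2 * hgq
    exact_mod_cast this
  have hk : (y * (τ ^ 2 - 4 * ν) / 2) ^ 2 = ((A * (τ ^ 2 - 4 * ν) : ℤ) : ℚ) := by
    push_cast
    rw [hsq]; ring
  have hIs : IsSquare ((A * (τ ^ 2 - 4 * ν) : ℤ) : ℚ) :=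
    ⟨y * (τ ^ 2 - 4 * ν) / 2, by rw [← pow_two]; exact hk.symm⟩
  obtain ⟨k, hk⟩ := (Rat.isSquare_intCast_iff).1 hIs
  exact ⟨k, by rw [hk]; ring⟩

end RG
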