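import Pool.Agent.Lib.MP_87c685_nt_RG.Use
import Pool.Agent.Lib.MP_87c685_nt_RG.Bound

/-!
# Two integral functions sharing a variable
-/

set_option autoImplicit false

open NumberField

namespace RG

variable {K : Type*} [Field K] [NumberField K]

theorem int_of_quad (r e f : K) (he : IsIntegral ℤ e) (hf : IsIntegral ℤ f)
    (h : r ^ 2 + e * r + f = 0) : IsIntegral ℤ r := by
  obtain ⟨e', rfl⟩ : ∃ e' : 𝓞 K, (e' : K) = e := ⟨⟨e, he⟩, rfl⟩
  obtain ⟨f', rfl⟩ : ∃ f' : 𝓞 K, (f' : K) = f := ⟨⟨f, hf⟩, rfl⟩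
  have h1 : IsIntegral (𝓞 K) r := by
    refine ⟨Polynomial.X ^ 2 + (Polynomial.C e' * Polynomial.X + Polynomial.C f'), ?_, ?_⟩
    · apply Polynomial.monic_X_pow_add
      exact lt_of_le_of_lt Polynomial.degree_linear_le (by norm_num)
    · simp only [Polynomial.eval₂_add, Polynomial.eval₂_mul, Polynomial.eval₂_pow,
        Polynomial.eval₂_X, Polynomial.eval₂_C]
      rw [← h]; ring
  exact isIntegral_trans r h1

theorem rat_int_sub (r : K) (d : ℤ) (h : ∀ q : ℚ, r ≠ q) : ∀ q : ℚ, r + d ≠ q := by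
  intro q hq
  apply h (q - d)
  push_cast
  rw [← hq]; ring

theorem rtype_aux [IsTotallyComplex K] (h2 : Module.finrank ℚ K = 2) (φ : K →+* ℂ)
    (a b c mp : ℤ) (hmp : c * mp = a - b)
    (hκ : b * c = (mp * (c - mp) - a + 2 * b) * (c - 2 * mp)) (hκ0 : b * c ≠ 0)
    (R : ℝ)
    (hR : ∀ ρ g x y : ℝ, R ≤ ρ → ρ - |((c - 2 * mp : ℤ) : ℝ)| ≤ g → 1 ≤ x →
      y ^ 2 ≤ |((b * c : ℤ) : ℝ)| * g → x ≤ y * ρ + |((b * c : ℤ) : ℝ)| →
      x * (g * ρ ^ 2 - 2 * |((b * c : ℤ) : ℝ)| - |((mp * (c - mp) - a + 2 * b : ℤ) : ℝ)| * ρ - x)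
        ≤ ((mp * (c - mp) - a + 2 * b : ℤ) : ℝ) ^ 2 * |((c - 2 * mp : ℤ) : ℝ)| * g → False)
    (r s s' : K) (hss : s * s' = b) (hr : r * (r + s + s' + c) = -a)
    (hri : IsIntegral ℤ r) (hp : IsIntegral ℤ (r * s)) (hrq : ∀ q : ℚ, r ≠ q)
    (hle : ‖φ (r * s + b)‖ ≤ ‖φ (r * s' + b)‖) : ‖φ (r + ((c - mp : ℤ) : K))‖ < R := by
  set m : ℤ := c - 2 * mp with hm
  set c0 : ℤ := mp * (c - mp) - a + 2 * b with hc0
  set β : K := r * s + b with hβ
  set β' : K := r * s' + b with hβ'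
  set γ : K := r + ((c - mp : ℤ) : K) with hγ
  have hmK : (m : K) = c - 2 * mp := by rw [hm]; push_cast; ring
  have hc0K : (c0 : K) = mp * (c - mp) - a + 2 * b := by rw [hc0]; push_cast; ring
  have hγK : γ = r + (c - mp) := by rw [hγ]; push_cast; ring
  have hmpK : (c : K) * mp = a - b := by exact_mod_cast congrArg (Int.cast : ℤ → K) hmp
  have hκK : (b : K) * c = c0 * m := by exact_mod_cast congrArg (Int.cast : ℤ → K) hκ
  have e1 : β * β' = -((b : K) * c) * (γ - m) := by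
    rw [hβ, hβ', hγK, hmK]
    linear_combination r ^ 2 * hss + (b : K) * hr + b * hmpK
  have e2 : β + β' = -(γ ^ 2 - m * γ - c0) := by
    rw [hβ, hβ', hγK, hmK, hc0K]
    linear_combination hr
  set δ : K := β * γ - (b : K) * c with hδ
  have e3 : (γ - m) * δ = -(β * (β - c0)) := by
    rw [hδ]
    linear_combination β * e2 - e1
  have hγi : IsIntegral ℤ γ := hri.add (isIntegral_algebraMap (R := ℤ) (x := c - mp))
  have hβi : IsIntegral ℤ β := hp.add (isIntegral_algebraMap (R := ℤ) (x := b))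
  have hδi : IsIntegral ℤ δ := by
    have h1 : IsIntegral ℤ (((b * c : ℤ) : K)) := isIntegral_algebraMap (R := ℤ) (x := b * c)
    have h3 : δ = β * γ - ((b * c : ℤ) : K) := by rw [hδ]; push_cast; ring
    rw [h3]
    exact (hβi.mul hγi).sub h1
  have hbcK : (b : K) * c ≠ 0 := by exact_mod_cast hκ0
  have hδ0 : δ ≠ 0 := by
    intro h
    rw [h, mul_zero, eq_comm, neg_eq_zero] at e3
    rcases mul_eq_zero.1 e3 with h3 | h3
    · apply hbcK
      rw [h3] at hδ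
      linear_combination hδ - h
    · have h4 : β = c0 := by linear_combination h3
      have h5 : (c0 : K) * (γ - m) = 0 := by
        rw [← h4]
        rw [h] at hδ
        linear_combination -hδ + hκK - m * h4
      rcases mul_eq_zero.1 h5 with h6 | h6
      · apply hbcK
        rw [hκK, h6, zero_mul]
      · apply hrq (((m - (c - mp) : ℤ)) : ℚ)
        push_cast
        rw [hγK] at h6
        linear_combination h6
  have hx := norm_ge_one h2 φ δ hδi hδ0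
  by_contra hcon
  push Not at hcon
  have f1 : φ β * φ β' = -((b * c : ℤ) : ℝ) * (φ γ - ((m : ℤ) : ℝ)) := by
    rw [← map_mul, e1]
    simp
  have f2 : φ δ = φ β * φ γ - (((b * c : ℤ) : ℝ) : ℂ) := by
    rw [hδ]; simp
  have f3 : (φ γ - ((m : ℝ) : ℂ)) * φ δ = -(φ β * (φ β - ((c0 : ℝ) : ℂ))) := by
    have := congrArg φ e3
    simpa using this
  have hκR : ((b * c : ℤ) : ℝ) = (c0 : ℝ) * (m : ℝ) := by
    exact_mod_cast congrArg (Int.cast : ℤ → ℝ) hκ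
  obtain ⟨g1, g2, g3, g4⟩ := core (φ γ) (φ β) (φ β') (φ δ) (m : ℝ) (c0 : ℝ) ((b * c : ℤ) : ℝ)
    hκR (by rw [f1]) f2 f3 hle
  exact hR ‖φ γ‖ ‖φ γ - ((m : ℝ) : ℂ)‖ ‖φ δ‖ ‖φ β‖ hcon g3 hx g1 g2 g4

theorem rtype [IsTotallyComplex K] (h2 : Module.finrank ℚ K = 2) (φ : K →+* ℂ)
    (a b c mp : ℤ) (hmp : c * mp = a - b)
    (hκ : b * c = (mp * (c - mp) - a + 2 * b) * (c - 2 * mp)) (hκ0 : b * c ≠ 0)
    (R : ℝ)
    (hR : ∀ ρ g x y : ℝ, R ≤ ρ → ρ - |((c - 2 * mp : ℤ) : ℝ)| ≤ g → 1 ≤ x →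
      y ^ 2 ≤ |((b * c : ℤ) : ℝ)| * g → x ≤ y * ρ + |((b * c : ℤ) : ℝ)| →
      x * (g * ρ ^ 2 - 2 * |((b * c : ℤ) : ℝ)| - |((mp * (c - mp) - a + 2 * b : ℤ) : ℝ)| * ρ - x)
        ≤ ((mp * (c - mp) - a + 2 * b : ℤ) : ℝ) ^ 2 * |((c - 2 * mp : ℤ) : ℝ)| * g → False)
    (r s s' : K) (hss : s * s' = b) (hr : r * (r + s + s' + c) = -a)
    (hp : IsIntegral ℤ (r * s)) (hp' : IsIntegral ℤ (r * s')) (hrq : ∀ q : ℚ, r ≠ q) :
    IsIntegral ℤ (r + ((c - mp : ℤ) : K)) ∧ ‖φ (r + ((c - mp : ℤ) : K))‖ < R := by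
  have hri : IsIntegral ℤ r := by
    apply int_of_quad r c (a + (r * s + r * s'))
    · exact isIntegral_algebraMap (R := ℤ) (x := c)
    · exact (isIntegral_algebraMap (R := ℤ) (x := a)).add (hp.add hp')
    · linear_combination hr
  refine ⟨hri.add (isIntegral_algebraMap (R := ℤ) (x := c - mp)), ?_⟩
  rcases le_total ‖φ (r * s + b)‖ ‖φ (r * s' + b)‖ with h | h
  · exact rtype_aux h2 φ a b c mp hmp hκ hκ0 R hR r s s' hss hr hri hp hrq h
  · exact rtype_aux h2 φ a b c mp hmp hκ hκ0 R hR r s' s (by rw [mul_comm]; exact hss)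
      (by linear_combination hr) hri hp' hrq h

end RG
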