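import Mathlib

/-!
# Finite searches: squares of the form `A + B g` with `g` a quadratic integer of small norm
-/

set_option autoImplicit false

namespace RG

/-- bit `n mod q` of `m`. -/
def bitT (m : ℕ) (q : ℕ) (n : ℤ) : Bool := Nat.testBit m ((n % (q : ℤ)).toNat)

theorem bitT_sq (m q : ℕ) (hq : 0 < q)
    (h : ((List.range q).all fun x => Nat.testBit m (x * x % q)) = true) (k : ℤ) :
    bitT m q (k ^ 2) = true := by
  unfold bitT
  have h0 : (0 : ℤ) ≤ k % q := Int.emod_nonneg _ (by exact_mod_cast hq.ne')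
  have h1 : k % q < q := Int.emod_lt_of_pos _ (by exact_mod_cast hq)
  obtain ⟨x, hx⟩ := Int.eq_ofNat_of_zero_le h0
  have hxq : x < q := by rw [hx] at h1; exact_mod_cast h1
  have h2 : k ^ 2 % (q : ℤ) = ((x * x % q : ℕ) : ℤ) := by
    rw [pow_two, Int.mul_emod, hx]
    push_cast
    rfl
  rw [h2, Int.toNat_natCast]
  rw [List.all_eq_true] at h
  exact h x (List.mem_range.2 hxq)

/-- a test for being a square: modulo `64, 63, 65, 11, 17, ...` -/
def sqT (n : ℤ) : Bool :=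
  bitT 144680414395695635 64 n && bitT 288872697407275667 63 n &&
  bitT 20863489977805260307 65 n && bitT 571 11 n && bitT 107287 17 n && bitT 199411 19 n &&
  bitT 340831 23 n && bitT 332473075 29 n && bitT 303908791 31 n && bitT 96068509339 37 n &&
  bitT 1870503675703 41 n && bitT 3678700564051 43 n && bitT 4626135339999 47 n &&
  bitT 5310023542746835 53 n && bitT 156326468341437115 59 n && bitT 1662926210933060155 61 n

theorem sqT_sq (k : ℤ) : sqT (k ^ 2) = true := by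
  unfold sqT
  rw [bitT_sq _ 64 (by norm_num) (by decide +kernel), bitT_sq _ 63 (by norm_num) (by decide +kernel),
    bitT_sq _ 65 (by norm_num) (by decide +kernel), bitT_sq _ 11 (by norm_num) (by decide +kernel),
    bitT_sq _ 17 (by norm_num) (by decide +kernel), bitT_sq _ 19 (by norm_num) (by decide +kernel),
    bitT_sq _ 23 (by norm_num) (by decide +kernel), bitT_sq _ 29 (by norm_num) (by decide +kernel),
    bitT_sq _ 31 (by norm_num) (by decide +kernel), bitT_sq _ 37 (by norm_num) (by decide +kernel),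
    bitT_sq _ 41 (by norm_num) (by decide +kernel), bitT_sq _ 43 (by norm_num) (by decide +kernel),
    bitT_sq _ 47 (by norm_num) (by decide +kernel), bitT_sq _ 53 (by norm_num) (by decide +kernel),
    bitT_sq _ 59 (by norm_num) (by decide +kernel), bitT_sq _ 61 (by norm_num) (by decide +kernel)]
  rfl

/-- the coefficients of `c0 + c1 g + c2 g^2 + c3 g^3 + g^4 = A + B g` for `g^2 = t g - n` -/
def cA (c0 c2 c3 t n : ℤ) : ℤ := c0 - n * (c2 + c3 * t + (t * t - n))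

def cB (c1 c2 c3 t n : ℤ) : ℤ := c1 + c2 * t + c3 * (t * t - n) + t * (t * t - 2 * n)

/-- the test for one pair `(t, n)`: with `A`, `B`; `L` lists the pairs with square norm together
with the square root of the norm and `S` lists the solutions -/
def chk (A B : ℤ) (t n : ℤ) (L : List (ℤ × ℤ × ℤ)) (S : List (ℤ × ℤ)) : Bool :=
  (!sqT (A * A + A * B * t + B * B * n)) ||
  (S.any fun e => e.1 == t && e.2 == n) ||
  (L.any fun e => e.1 == t && e.2.1 == n && decide (0 ≤ e.2.2) &&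
    (e.2.2 * e.2.2 == A * A + A * B * t + B * B * n) &&
    ((!sqT (2 * A + B * t + 2 * e.2.2)) ||
      ((2 * A + B * t + 2 * e.2.2 == 0) && !sqT (A * (t * t - 4 * n)))))

theorem chk_spec (A B t n : ℤ) (L : List (ℤ × ℤ × ℤ)) (S : List (ℤ × ℤ))
    (h : chk A B t n L S = true) (M m : ℤ) (hM0 : 0 ≤ M)
    (hM : M ^ 2 = A ^ 2 + A * B * t + B ^ 2 * n) (hm : m ^ 2 = 2 * A + B * t + 2 * M)
    (h0 : m = 0 → B = 0 ∧ ∃ k : ℤ, k ^ 2 = A * (t ^ 2 - 4 * n)) : (t, n) ∈ S := by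
  unfold chk at h
  rw [Bool.or_eq_true, Bool.or_eq_true] at h
  have eN : A * A + A * B * t + B * B * n = M ^ 2 := by rw [hM]; ring
  rcases h with (h | h) | h
  · rw [eN, sqT_sq] at h
    exact absurd h (by decide)
  · rw [List.any_eq_true] at h
    obtain ⟨e, he, h1⟩ := h
    rw [Bool.and_eq_true, beq_iff_eq, beq_iff_eq] at h1
    obtain ⟨h1, h2⟩ := h1
    have : e = (t, n) := Prod.ext h1 h2
    rw [← this]; exact he
  · rw [List.any_eq_true] at h
    obtain ⟨e, -, h1⟩ := h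
    simp only [Bool.and_eq_true, Bool.or_eq_true, beq_iff_eq, decide_eq_true_eq,
      Bool.not_eq_true'] at h1
    obtain ⟨⟨⟨⟨-, -⟩, hpos⟩, hsq⟩, hor⟩ := h1
    have hMe : e.2.2 = M := by
      rw [eN] at hsq
      have : e.2.2 ^ 2 = M ^ 2 := by rw [← hsq]; ring
      exact (pow_left_inj₀ hpos hM0 (by norm_num)).1 this
    rw [hMe, ← hm, sqT_sq] at hor
    rcases hor with hor | hor
    · exact absurd hor (by decide)
    · obtain ⟨h3, h4⟩ := hor
      have hm0 : m = 0 := pow_eq_zero_iff (two_ne_zero) |>.1 h3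
      obtain ⟨-, k, hk⟩ := h0 hm0
      have : A * (t * t - 4 * n) = k ^ 2 := by rw [hk]; ring
      rw [this, sqT_sq] at h4
      exact absurd h4 (by decide)

/-- loop over `0 ≤ n < N`, `|t| ≤ w` -/
def loop (f : ℤ → ℤ → Bool) (N w : ℕ) : Bool :=
  (List.range N).all fun n => (List.range (2 * w + 1)).all fun i =>
    f ((i : ℤ) - (w : ℤ)) (n : ℤ)

theorem loop_spec (f : ℤ → ℤ → Bool) (N w : ℕ) (h : loop f N w = true) (t n : ℤ)
    (hn0 : 0 ≤ n) (hn : n < N) (ht1 : -(w : ℤ) ≤ t) (ht2 : t ≤ w) : f t n = true := by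
  unfold loop at h
  obtain ⟨n', rfl⟩ := Int.eq_ofNat_of_zero_le hn0
  obtain ⟨i, hi⟩ := Int.eq_ofNat_of_zero_le (show 0 ≤ t + w by linarith)
  rw [List.all_eq_true] at h
  have h1 := h n' (List.mem_range.2 (by exact_mod_cast hn))
  rw [List.all_eq_true] at h1
  have h2 := h1 i (List.mem_range.2 (by omega))
  have : t = (i : ℤ) - w := by omega
  rw [this]; exact h2

/-- the search for the polynomial `c0 + c1 g + c2 g^2 + c3 g^3 + g^4` -/
def fam (c0 c1 c2 c3 : ℤ) (L : List (ℤ × ℤ × ℤ)) (S : List (ℤ × ℤ)) (t n : ℤ) : Bool :=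
  decide (4 * n ≤ t * t) || chk (cA c0 c2 c3 t n) (cB c1 c2 c3 t n) t n L S

def LAS : List (ℤ × ℤ × ℤ) := [(3, 11, 1760), (1, 13, 2660), (2, 29, 4147), (-6, 34, 7749),
  (8, 34, 1463), (10, 35, 605), (12, 43, 297), (14, 50, 25), (11, 51, 1312), (8, 66, 5225),
  (16, 68, 145), (-9, 71, 18848), (17, 77, 220), (15, 79, 1440), (18, 86, 305), (10, 90, 7315),
  (19, 95, 400), (19, 99, 704), (20, 104, 505), (21, 113, 620), (22, 122, 745), (15, 123, 7888),
  (20, 124, 2635), (12, 142, 16335), (24, 181, 7749), (-26, 203, 100949), (15, 219, 36080),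
  (27, 243, 18848)]

def SAS : List (ℤ × ℤ) := [(12, 37), (10, 49), (15, 59)]

set_option maxRecDepth 100000 in
theorem loopAS : loop (fam (-1595) 270 71 (-18) LAS SAS) 256 32 = true := by decide +kernel

def LAR : List (ℤ × ℤ × ℤ) := [(-1, 3, 60), (2, 3, 21), (3, 3, 12), (2, 6, 45), (-2, 7, 65),
  (5, 7, 44), (-3, 9, 108), (-1, 9, 24), (3, 9, 72), (5, 9, 60), (-1, 11, 12), (4, 12, 117),
  (-1, 13, 40), (-4, 15, 225), (0, 15, 105), (5, 15, 180), (-4, 17, 261), (-6, 18, 495),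
  (6, 18, 261), (-8, 21, 855), (-3, 21, 300), (-2, 21, 261), (5, 21, 348), (7, 21, 360),
  (8, 24, 477), (-1, 27, 492), (3, 27, 540), (9, 27, 612), (5, 29, 660), (10, 30, 765),
  (11, 33, 936)]

def SAR : List (ℤ × ℤ) := [(1, 3), (0, 9), (-2, 12)]

set_option maxRecDepth 100000 in
theorem loopAR : loop (fam 45 (-30) 11 (-2) LAR SAR) 36 12 = true := by decide +kernel

def LBR : List (ℤ × ℤ × ℤ) := [(2, 2, 65), (-1, 3, 28), (0, 3, 13), (0, 4, 15), (-1, 5, 40),
  (-2, 6, 55), (-3, 7, 60), (-4, 8, 55), (-5, 9, 40), (-1, 9, 104), (5, 9, 340), (-6, 10, 15),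
  (3, 11, 260), (-8, 17, 35), (2, 17, 455), (-5, 19, 260), (6, 23, 1105)]

def SBR : List (ℤ × ℤ) := [(1, 3)]

set_option maxRecDepth 100000 in
theorem loopBR : loop (fam 37 18 11 6 LBR SBR) 25 10 = true := by decide +kernel

def LBS : List (ℤ × ℤ × ℤ) := [(3, 3, 48), (4, 6, 57), (5, 9, 60), (6, 12, 57), (-5, 15, 1056),
  (7, 15, 48), (8, 18, 33), (9, 21, 12), (-5, 23, 1824), (10, 26, 21), (11, 31, 32),
  (10, 33, 231), (7, 43, 1408)]

set_option maxRecDepth 100000 in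
theorem loopBS : loop (fam (-99) 30 23 (-10) LBS []) 49 14 = true := by decide +kernel

/-- the search for the polynomial `c0 + c1 g + c2 g^2 + c3 g^3 + g^4` with `|2 g + 1|^2 <= b` -/
def famT (b c0 c1 c2 c3 : ℤ) (L : List (ℤ × ℤ × ℤ)) (S : List (ℤ × ℤ)) (t n : ℤ) : Bool :=
  decide (4 * n ≤ t * t) || decide (b < 4 * n + 2 * t + 1) ||
    chk (cA c0 c2 c3 t n) (cB c1 c2 c3 t n) t n L S

def LTA : List (ℤ × ℤ × ℤ) := [(-1, 1, 37), (0, 2, 34), (-2, 3, 34), (-1, 3, 37), (-1, 4, 40),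
  (-1, 5, 45), (-1, 6, 52), (0, 6, 50), (-2, 7, 50), (-1, 7, 61), (-1, 8, 72), (3, 8, 56),
  (-1, 9, 85), (-1, 11, 117), (-5, 12, 56), (-1, 12, 136)]

def STA : List (ℤ × ℤ) := [(-1, 2), (1, 3), (-3, 5), (2, 5), (-4, 8), (-1, 10)]

set_option maxRecDepth 100000 in
theorem loopTA : loop (famT 47 40 4 5 2 LTA STA) 16 8 = true := by decide +kernel

def LTB : List (ℤ × ℤ × ℤ) := [(-1, 1, 11), (-1, 2, 24), (-1, 3, 35), (-1, 4, 44), (-1, 5, 51), (-1, 6, 56), (3, 6, 136),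
  (-1, 7, 59), (-1, 8, 60), (0, 8, 68), (-2, 9, 68), (-1, 9, 59), (1, 9, 95), (-5, 10, 136), (-1,
  10, 56), (-3, 11, 95), (-1, 11, 51), (2, 11, 150), (-1, 12, 44), (-1, 13, 35), (6, 13, 448),
  (-4, 14, 150), (-1, 14, 24), (3, 14, 248), (-1, 15, 11), (-1, 17, 21), (-5, 18, 248), (-1, 18,
  40), (4, 18, 410), (-1, 19, 61), (-8, 20, 448), (-1, 20, 84), (-1, 21, 109), (-1, 22, 136),
  (-6, 23, 410), (-1, 23, 165)]

def STB : List (ℤ × ℤ) := [(1, 3), (-3, 5), (-1, 16), (-1, 24)]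

set_option maxRecDepth 100000 in
theorem loopTB : loop (famT 95 4 16 17 2 LTB STB) 29 10 = true := by decide +kernel

end RG
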