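import Pool.Agent.Lib.MP_87c685_nt_RG.RType

/-!
# Two integral functions with constant product
-/

set_option autoImplicit false

open NumberField

namespace RG

variable {K : Type*} [Field K] [NumberField K]

theorem ttype [IsTotallyComplex K] (h2 : Module.finrank ℚ K = 2) (φ : K →+* ℂ)
    (a b k T : ℤ) (hT : T = a + b - k - k ^ 2) (hab : a * b ≠ 0)
    (r r' s s' : K) (hrr : r * r' = a) (hss : s * s' = b) (hsum : r + r' + s + s' + (2 * k + 1) = 0)
    (hp : IsIntegral ℤ (r * s)) (hp' : IsIntegral ℤ (r' * s')) :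
    IsIntegral ℤ (r + s' + k) ∧ IsIntegral ℤ (r * s - r' * s') ∧
    r * s + r' * s' = -((r + s' + k) ^ 2 + (r + s' + k) + T) ∧
    (r * s - r' * s') ^ 2 = ((r + s' + k) ^ 2 + (r + s' + k) + T) ^ 2 - 4 * (a * b) ∧
    Complex.normSq (φ (2 * (r + s' + k) + 1)) ≤ 4 * (1 + |((a * b : ℤ) : ℝ)|) +
      |((4 * T - 1 : ℤ) : ℝ)| ∧ s * (a + r * s) = -(r * s) * (r + s' + k + k + 1) := by
  have hTK : (T : K) = a + b - k - k ^ 2 := by rw [hT]; push_cast; ring
  have e1 : r * s + r' * s' = -((r + s' + k) ^ 2 + (r + s' + k) + T) := by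
    rw [hTK]
    linear_combination (r + s') * hsum - hrr - hss
  have e2 : (r * s) * (r' * s') = a * b := by
    linear_combination (s * s') * hrr + a * hss
  have hi : ∀ x : ℤ, IsIntegral ℤ (x : K) := fun x => isIntegral_algebraMap (R := ℤ) (x := x)
  have hli : IsIntegral ℤ (r + s' + k) := by
    apply int_of_quad (r + s' + k) 1 (T + (r * s + r' * s')) isIntegral_one
    · exact (hi T).add (hp.add hp')
    · linear_combination e1
  refine ⟨hli, hp.sub hp', e1, ?_, ?_, ?_⟩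
  · linear_combination (r * s + r' * s' - ((r + s' + k) ^ 2 + (r + s' + k) + T)) * e1 - 4 * e2
  · have habK : (a : K) * b ≠ 0 := by exact_mod_cast hab
    have hne : r * s ≠ 0 := by
      intro h; apply habK; rw [← e2, h, zero_mul]
    have hne' : r' * s' ≠ 0 := by
      intro h; apply habK; rw [← e2, h, mul_zero]
    have n1 := norm_ge_one h2 φ _ hp hne
    have n2 := norm_ge_one h2 φ _ hp' hne'
    have n3 : ‖φ (r * s)‖ * ‖φ (r' * s')‖ = |((a * b : ℤ) : ℝ)| := by
      rw [← norm_mul, ← map_mul, e2]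
      have : φ ((a : K) * b) = (((a * b : ℤ) : ℝ) : ℂ) := by simp
      rw [this, Complex.norm_real, Real.norm_eq_abs]
    have n4 : ‖φ (r * s)‖ + ‖φ (r' * s')‖ ≤ 1 + |((a * b : ℤ) : ℝ)| := by
      rw [← n3]; nlinarith
    rw [Complex.normSq_eq_norm_sq, ← norm_pow, ← map_pow]
    have e3 : (2 * (r + s' + k) + 1) ^ 2 = -4 * (r * s + r' * s') - ((4 * T - 1 : ℤ) : K) := by
      push_cast
      linear_combination 4 * e1
    rw [e3, map_sub, map_mul, map_add]
    have e4 : φ ((4 * T - 1 : ℤ) : K) = (((4 * T - 1 : ℤ) : ℝ) : ℂ) := by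
      rw [map_intCast]; norm_cast
    have e5 : φ (-4) = -4 := by rw [map_neg, map_ofNat]
    rw [e4, e5]
    calc ‖-4 * (φ (r * s) + φ (r' * s')) - (((4 * T - 1 : ℤ) : ℝ) : ℂ)‖
        ≤ ‖(-4 : ℂ) * (φ (r * s) + φ (r' * s'))‖ + ‖(((4 * T - 1 : ℤ) : ℝ) : ℂ)‖ :=
          norm_sub_le _ _
      _ ≤ 4 * (‖φ (r * s)‖ + ‖φ (r' * s')‖) + |((4 * T - 1 : ℤ) : ℝ)| := by
        rw [norm_mul, Complex.norm_real, Real.norm_eq_abs]
        have : ‖(-4 : ℂ)‖ = 4 := by simp
        rw [this]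
        gcongr
        exact norm_add_le _ _
      _ ≤ _ := by linarith
  · linear_combination (r * s) * hsum - s * hrr

end RG
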