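import Pool.Agent.Lib.MP_87c685_nt_RG.Quad
import Pool.Agent.Lib.MP_87c685_nt_RG.Search

/-!
# Applying the finite searches
-/

set_option autoImplicit false

open NumberField

namespace RG

variable {K : Type*} [Field K] [NumberField K]

theorem use_chk [IsTotallyComplex K] (h2 : Module.finrank ℚ K = 2) (φ : K →+* ℂ)
    (g z : K) (c0 c1 c2 c3 : ℤ) (L : List (ℤ × ℤ × ℤ)) (S : List (ℤ × ℤ)) (t n : ℤ)
    (hgg : g ^ 2 - t * g + n = 0) (ht : 2 * (φ g).re = t) (hn : Complex.normSq (φ g) = n)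
    (hgq : ∀ q : ℚ, g ≠ q) (hz : IsIntegral ℤ z)
    (hzz : z ^ 2 = c0 + c1 * g + c2 * g ^ 2 + c3 * g ^ 3 + g ^ 4)
    (h : chk (cA c0 c2 c3 t n) (cB c1 c2 c3 t n) t n L S = true) : (t, n) ∈ S := by
  have hAB : z ^ 2 = ((cA c0 c2 c3 t n : ℤ) : K) + ((cB c1 c2 c3 t n : ℤ) : K) * g := by
    rw [hzz]
    unfold cA cB
    push_cast
    linear_combination ((c2 : K) + c3 * (g + t) + g ^ 2 + t * g + (t * t - n)) * hgg
  obtain ⟨M, m, hM0, hM, hm, -, h0⟩ := sqrt_cond h2 φ g z t n _ _ ht hn hgq hz hAB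
  exact chk_spec _ _ _ _ _ _ h M m hM0 hM hm h0

theorem use_fam [IsTotallyComplex K] (h2 : Module.finrank ℚ K = 2) (φ : K →+* ℂ)
    (g z : K) (c0 c1 c2 c3 : ℤ) (L : List (ℤ × ℤ × ℤ)) (S : List (ℤ × ℤ)) (N w : ℕ)
    (hl : loop (fam c0 c1 c2 c3 L S) N w = true) (hNw : 4 * (N : ℤ) ≤ ((w : ℤ) + 1) ^ 2)
    (hg : IsIntegral ℤ g) (hgq : ∀ q : ℚ, g ≠ q) (hz : IsIntegral ℤ z)
    (hzz : z ^ 2 = c0 + c1 * g + c2 * g ^ 2 + c3 * g ^ 3 + g ^ 4)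
    (hb : Complex.normSq (φ g) < N) : ∃ t n : ℤ, (t, n) ∈ S ∧ g ^ 2 - t * g + n = 0 := by
  obtain ⟨t, n, hgg, ht, hn⟩ := exists_int_trace_norm h2 φ g hg
  have hd := disc_lt h2 φ g t n ht hn hgq
  have hn0 : 0 ≤ n := by
    have := Complex.normSq_nonneg (φ g)
    rw [hn] at this
    exact_mod_cast this
  have hnN : n < N := by
    rw [hn] at hb
    exact_mod_cast hb
  have h1 : t ^ 2 < ((w : ℤ) + 1) ^ 2 := by linarith
  have hw0 : (0 : ℤ) ≤ w := by positivity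
  have h3 := abs_lt_of_sq_lt_sq h1 (by linarith)
  have h4 := abs_lt.1 h3
  have h5 := loop_spec _ N w hl t n hn0 hnN (by linarith [h4.1]) (by linarith [h4.2])
  unfold fam at h5
  rw [Bool.or_eq_true, decide_eq_true_eq] at h5
  rcases h5 with h5 | h5
  · nlinarith
  · exact ⟨t, n, use_chk h2 φ g z c0 c1 c2 c3 L S t n hgg ht hn hgq hz hzz h5, hgg⟩

theorem use_famT [IsTotallyComplex K] (h2 : Module.finrank ℚ K = 2) (φ : K →+* ℂ)
    (g z : K) (b c0 c1 c2 c3 : ℤ) (L : List (ℤ × ℤ × ℤ)) (S : List (ℤ × ℤ)) (N w : ℕ)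
    (hl : loop (famT b c0 c1 c2 c3 L S) N w = true)
    (hw : ∀ t n : ℤ, t ^ 2 < 4 * n → 4 * n + 2 * t + 1 ≤ b → n < N ∧ -(w : ℤ) ≤ t ∧ t ≤ w)
    (hg : IsIntegral ℤ g) (hgq : ∀ q : ℚ, g ≠ q) (hz : IsIntegral ℤ z)
    (hzz : z ^ 2 = c0 + c1 * g + c2 * g ^ 2 + c3 * g ^ 3 + g ^ 4)
    (hb : Complex.normSq (φ (2 * g + 1)) ≤ b) : ∃ t n : ℤ, (t, n) ∈ S ∧ g ^ 2 - t * g + n = 0 := by
  obtain ⟨t, n, hgg, ht, hn⟩ := exists_int_trace_norm h2 φ g hg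
  have hd := disc_lt h2 φ g t n ht hn hgq
  have hn0 : 0 ≤ n := by
    have := Complex.normSq_nonneg (φ g)
    rw [hn] at this
    exact_mod_cast this
  have hbd : 4 * n + 2 * t + 1 ≤ b := by
    have e : Complex.normSq (φ (2 * g + 1)) = 4 * n + 2 * t + 1 := by
      rw [map_add, map_mul, map_one, map_ofNat, Complex.normSq_apply]
      have e1 : ((OfNat.ofNat 2 : ℂ) * φ g + 1).re = 2 * (φ g).re + 1 := by simp
      have e2 : ((OfNat.ofNat 2 : ℂ) * φ g + 1).im = 2 * (φ g).im := by simp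
      rw [e1, e2, ← ht, ← hn, Complex.normSq_apply]
      ring
    rw [e] at hb
    exact_mod_cast hb
  obtain ⟨h3, h4, h5⟩ := hw t n hd hbd
  have h6 := loop_spec _ N w hl t n hn0 h3 h4 h5
  unfold famT at h6
  rw [Bool.or_eq_true, Bool.or_eq_true, decide_eq_true_eq, decide_eq_true_eq] at h6
  rcases h6 with (h6 | h6) | h6
  · nlinarith
  · linarith
  · exact ⟨t, n, use_chk h2 φ g z c0 c1 c2 c3 L S t n hgg ht hn hgq hz hzz h6, hgg⟩

end RG
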