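import Mathlib

/-!
# Valuations at the cusps of `X_0(15)`
-/

set_option autoImplicit false

namespace RG

variable {K : Type*} [Field K] {Γ₀ : Type*} [LinearOrderedCommGroupWithZero Γ₀]
  (v : Valuation K Γ₀)

theorem v_int (n : ℤ) : v (n : K) ≤ 1 := (intCast_mem v.integer n : (n : K) ∈ v.integer)

theorem v_nat (n : ℕ) : v (n : K) ≤ 1 := (natCast_mem v.integer n : (n : K) ∈ v.integer)

theorem v_ofNat (n : ℕ) [n.AtLeastTwo] : v (OfNat.ofNat n : K) ≤ 1 :=
  (ofNat_mem v.integer n : (OfNat.ofNat n : K) ∈ v.integer)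

theorem v_pos {x : K} (h : x ≠ 0) : 0 < v x := zero_lt_iff.2 ((Valuation.ne_zero_iff v).2 h)

theorem v_small {x y a : K} (h : x * y = a) (ha : v a ≤ 1) (hx : 1 < v x) : v y < 1 := by
  by_contra hy
  push Not at hy
  have h1 : 1 < v x * v y := one_lt_mul_of_lt_of_le hx hy
  rw [← map_mul, h] at h1
  exact absurd ha (not_le.2 h1)

theorem v_eq_of_sum {x y z : K} (h : x + y + z = 0) (hz : v z ≤ 1) (hy : 1 < v y) : v x = v y := by
  have e : x = -(y + z) := by linear_combination h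
  rw [e, Valuation.map_neg]
  exact Valuation.map_add_eq_of_lt_left v (lt_of_le_of_lt hz hy)

theorem v_pair {r r' s s' a b c : K} (ha : v a ≤ 1) (hb : v b ≤ 1) (hc : v c ≤ 1)
    (hrr : r * r' = a) (hss : s * s' = b) (hsum : r + r' + s + s' + c = 0)
    (h : 1 < v (r * s)) : 1 < v r ∧ v s = v r ∧ v r' < 1 ∧ v s' < 1 := by
  have key : ∀ r r' s s' a b : K, v a ≤ 1 → v b ≤ 1 → r * r' = a → s * s' = b →
      r + r' + s + s' + c = 0 → 1 < v (r * s) → 1 < v r := by
    intro r r' s s' a b ha hb hrr hss hsum h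
    by_contra hr
    push Not at hr
    have hs : 1 < v s := by
      by_contra hs
      push Not at hs
      rw [map_mul] at h
      exact absurd (mul_le_one' hr hs) (not_le.2 h)
    have hs' := v_small v hss hb hs
    by_cases hr' : v r' ≤ 1
    · have h1 : v s ≤ 1 := by
        have e : s = -(r + r' + s' + c) := by linear_combination hsum
        rw [e, Valuation.map_neg]
        exact v.map_add_le (v.map_add_le (v.map_add_le hr hr') hs'.le) hc
      exact absurd h1 (not_le.2 hs)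
    · push Not at hr'
      have h1 : v r' = v s := by
        apply v_eq_of_sum v (z := r + s' + c) _ _ hs
        · linear_combination hsum
        · exact v.map_add_le (v.map_add_le hr hs'.le) hc
      rw [map_mul, ← h1, ← map_mul, hrr] at h
      exact absurd ha (not_le.2 h)
  have hr := key r r' s s' a b ha hb hrr hss hsum h
  have hs := key s s' r r' b a hb ha hss hrr (by linear_combination hsum)
    (by rw [mul_comm]; exact h)
  have hr' := v_small v hrr ha hr
  have hs' := v_small v hss hb hs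
  refine ⟨hr, ?_, hr', hs'⟩
  apply v_eq_of_sum v (z := r' + s' + c) _ _ hr
  · linear_combination hsum
  · exact v.map_add_le (v.map_add_le hr'.le hs'.le) hc

theorem v_quad {k a b : K} (ha : v a ≤ 1) (hb : v b ≤ 1) (hk : 1 < v k) :
    v (k ^ 2 + a * k + b) = v k ^ 2 := by
  have h1 : v (a * k + b) < v (k ^ 2) := by
    have h3 : v (k ^ 2) = v k * v k := by rw [map_pow, pow_two]
    have h4 : v k < v k * v k := lt_mul_of_one_lt_left (lt_trans zero_lt_one hk) hk
    rw [h3]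
    apply lt_of_le_of_lt _ h4
    apply v.map_add_le
    · rw [map_mul]
      calc v a * v k ≤ 1 * v k := mul_le_mul_left ha _
        _ = v k := one_mul _
    · exact hb.trans hk.le
  rw [add_assoc, Valuation.map_add_eq_of_lt_left v h1, map_pow]

theorem v_add_large {k a : K} (ha : v a ≤ 1) (hk : 1 < v k) : v (k + a) = v k :=
  Valuation.map_add_eq_of_lt_left v (lt_of_le_of_lt ha hk)

theorem three_ne [CharZero K] : (3 : K) ≠ 0 := by norm_num

theorem G_small [CharZero K] {G j : K} (h3 : G * j = (G + 27) * (G + 3) ^ 3) (hG : v G ≤ 1)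
    (hj : 1 < v j) : v G < v 3 ∧ v (G + 3) = v 3 := by
  have key : v G < v 3 := by
    by_contra h
    push Not at h
    have hpos : 0 < v G := lt_of_lt_of_le (v_pos v three_ne) h
    have h27 : v (27 : K) ≤ v G := by
      have : (27 : K) = 9 * 3 := by norm_num
      rw [this, map_mul]
      calc v (9 : K) * v 3 ≤ 1 * v 3 := mul_le_mul_left (v_ofNat v 9) _
        _ = v 3 := one_mul _
        _ ≤ v G := h
    have e1 : v (G + 27) ≤ v G := v.map_add_le le_rfl h27
    have e2 : v (G + 3) ≤ v G := v.map_add_le le_rfl h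
    have e3 : v G * v j ≤ v G * 1 := by
      rw [← map_mul, h3, map_mul, map_pow]
      exact mul_le_mul' e1 (pow_le_one' (e2.trans hG) 3)
    have e4 : v j ≤ 1 := le_of_mul_le_mul_left e3 hpos
    exact absurd e4 (not_le.2 hj)
  exact ⟨key, Valuation.map_add_eq_of_lt_right v key⟩

theorem G_large {G j : K} (h3 : G * j = (G + 27) * (G + 3) ^ 3) (hG : 1 < v G) :
    v j = v G ^ 3 := by
  have e : v G * v j = v G * v G ^ 3 := by
    rw [← map_mul, h3, map_mul, map_pow, v_add_large v (v_ofNat v 27) hG,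
      v_add_large v (v_ofNat v 3) hG]
  exact mul_left_cancel₀ (ne_of_gt (lt_trans zero_lt_one hG)) e

theorem k_small {k j : K} (h5 : k * j = (k ^ 2 + 10 * k + 5) ^ 3) (hk : v k ≤ 1)
    (hj : 1 < v j) : v k < 1 := by
  by_contra h
  push Not at h
  have h1 : 1 < v k * v j := by
    rw [mul_comm]; exact one_lt_mul_of_lt_of_le hj h
  rw [← map_mul, h5, map_pow] at h1
  have h4 : v (k ^ 2 + 10 * k + 5) ≤ 1 := by
    apply v.map_add_le (v.map_add_le _ _) (v_ofNat v 5)
    · rw [map_pow]; exact pow_le_one' hk 2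
    · rw [map_mul]; exact mul_le_one' (v_ofNat v 10) hk
  exact absurd (pow_le_one' h4 3) (not_le.2 h1)

theorem k_large {k j : K} (h5 : k * j = (k ^ 2 + 10 * k + 5) ^ 3) (hk : 1 < v k) :
    v j = v k ^ 5 := by
  have e : v k * v j = v k * v k ^ 5 := by
    rw [← map_mul, h5, map_pow, v_quad v (v_ofNat v 10) (v_ofNat v 5) hk, ← pow_mul, ← pow_succ']
  exact mul_left_cancel₀ (ne_of_gt (lt_trans zero_lt_one hk)) e

theorem k_unit {k : K} (hk : v k < 1) : v (k ^ 2 + 4 * k - 1) = 1 := by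
  have e : k ^ 2 + 4 * k - 1 = k * (k + 4) + (-1) := by ring
  have h1 : v (k * (k + 4)) < v (-1 : K) := by
    rw [Valuation.map_neg, map_one, map_mul]
    calc v k * v (k + 4) ≤ v k * 1 := mul_le_mul_right (v.map_add_le hk.le (v_ofNat v 4)) _
      _ = v k := mul_one _
      _ < 1 := hk
  rw [e, Valuation.map_add_eq_of_lt_right v h1, Valuation.map_neg, map_one]

theorem v_lt_of_mul {x y a : K} {g : Γ₀} (h : x * y = a) (hy : v y = g)
    (ha : v a < g) : v x < 1 := by
  by_contra hx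
  push Not at hx
  have h1 : g ≤ v x * v y := by
    rw [hy]
    calc g = 1 * g := (one_mul _).symm
      _ ≤ v x * g := mul_le_mul_left hx _
  rw [← map_mul, h] at h1
  exact absurd ha (not_lt.2 h1)

/-- the value of the function `v` at the four kinds of cusps -/
theorem s_case_a [CharZero K] {G j k s : K} (h3 : G * j = (G + 27) * (G + 3) ^ 3)
    (h5 : k * j = (k ^ 2 + 10 * k + 5) ^ 3)
    (hs : s * ((G + 3) * (k ^ 2 + 4 * k - 1)) = G ^ 2 + 18 * G - 3 * k * (k ^ 2 + 13 * k + 35))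
    (hG : v G ≤ 1) (hj : 1 < v j) (hk : v k ≤ 1) : v s < 1 := by
  obtain ⟨g1, g2⟩ := G_small v h3 hG hj
  have k1 := k_small v h5 hk hj
  have k2 := k_unit v k1
  have p3 : 0 < v (3 : K) := v_pos v three_ne
  apply v_lt_of_mul v hs (g := v 3) (by rw [map_mul, g2, k2, mul_one])
  have e1 : v (G ^ 2 + 18 * G) < v 3 := by
    have : G ^ 2 + 18 * G = G * (G + 18) := by ring
    rw [this, map_mul]
    calc v G * v (G + 18) ≤ v G * 1 := mul_le_mul_right (v.map_add_le hG (v_ofNat v 18)) _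
      _ = v G := mul_one _
      _ < v 3 := g1
  have e2 : v (3 * k * (k ^ 2 + 13 * k + 35)) < v 3 := by
    rw [map_mul, map_mul]
    have h4 : v (k ^ 2 + 13 * k + 35) ≤ 1 := by
      apply v.map_add_le (v.map_add_le _ _) (v_ofNat v 35)
      · rw [map_pow]; exact pow_le_one' hk 2
      · rw [map_mul]; exact mul_le_one' (v_ofNat v 13) hk
    calc v 3 * v k * v (k ^ 2 + 13 * k + 35) ≤ v 3 * v k * 1 := mul_le_mul_right h4 _
      _ = v 3 * v k := mul_one _
      _ < v 3 * 1 := (mul_lt_mul_iff_right₀ p3).2 k1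
      _ = v 3 := mul_one _
  rw [sub_eq_add_neg]
  exact v.map_add_lt e1 (by rw [Valuation.map_neg]; exact e2)

theorem s_case_b [CharZero K] {G j k s : K} (h3 : G * j = (G + 27) * (G + 3) ^ 3)
    (hs : s * ((G + 3) * (k ^ 2 + 4 * k - 1)) = G ^ 2 + 18 * G - 3 * k * (k ^ 2 + 13 * k + 35))
    (hG : v G ≤ 1) (hj : 1 < v j) (hk : 1 < v k) : 1 < v s := by
  obtain ⟨g1, g2⟩ := G_small v h3 hG hj
  have p3 : 0 < v (3 : K) := v_pos v three_ne
  have k2 : v (k ^ 2 + 4 * k - 1) = v k ^ 2 := by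
    rw [sub_eq_add_neg]
    exact v_quad v (v_ofNat v 4) (by rw [Valuation.map_neg, map_one]) hk
  have k3 := v_quad v (v_ofNat (K := K) v 13) (v_ofNat v 35) hk
  have e2 : v (3 * k * (k ^ 2 + 13 * k + 35)) = v 3 * v k ^ 3 := by
    rw [map_mul, map_mul, k3, mul_assoc, ← pow_succ']
  have e1 : v (G ^ 2 + 18 * G) < v 3 := by
    have : G ^ 2 + 18 * G = G * (G + 18) := by ring
    rw [this, map_mul]
    calc v G * v (G + 18) ≤ v G * 1 := mul_le_mul_right (v.map_add_le hG (v_ofNat v 18)) _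
      _ = v G := mul_one _
      _ < v 3 := g1
  have e3 : v 3 < v 3 * v k ^ 3 := by
    calc v 3 = v 3 * 1 := (mul_one _).symm
      _ < v 3 * v k ^ 3 := (mul_lt_mul_iff_right₀ p3).2 (one_lt_pow₀ hk (by norm_num))
  have e4 : v (G ^ 2 + 18 * G - 3 * k * (k ^ 2 + 13 * k + 35)) = v 3 * v k ^ 3 := by
    rw [sub_eq_add_neg, Valuation.map_add_eq_of_lt_right v, Valuation.map_neg, e2]
    rw [Valuation.map_neg, e2]
    exact e1.trans e3
  have e5 : v s * (v 3 * v k ^ 2) = v k * (v 3 * v k ^ 2) := by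
    have : v (s * ((G + 3) * (k ^ 2 + 4 * k - 1))) = v 3 * v k ^ 3 := by rw [hs, e4]
    rw [map_mul, map_mul, g2, k2] at this
    rw [this, pow_succ' (v k) 2]
    rw [mul_left_comm]
  have pk : 0 < v k := lt_trans zero_lt_one hk
  have := mul_right_cancel₀ (ne_of_gt (mul_pos p3 (pow_pos pk 2))) e5
  rw [this]; exact hk

theorem s_case_d [CharZero K] {G j k s : K} (h3 : G * j = (G + 27) * (G + 3) ^ 3)
    (h5 : k * j = (k ^ 2 + 10 * k + 5) ^ 3)
    (hs : s * ((G + 3) * (k ^ 2 + 4 * k - 1)) = G ^ 2 + 18 * G - 3 * k * (k ^ 2 + 13 * k + 35))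
    (hG : 1 < v G) (hk : v k ≤ 1) : 1 < v s := by
  have hj : 1 < v j := by rw [G_large v h3 hG]; exact one_lt_pow₀ hG (by norm_num)
  have k1 := k_small v h5 hk hj
  have k2 := k_unit v k1
  have g2 := v_add_large v (v_ofNat (K := K) v 3) hG
  have e4 : v (G ^ 2 + 18 * G - 3 * k * (k ^ 2 + 13 * k + 35)) = v G ^ 2 := by
    rw [sub_eq_add_neg]
    apply v_quad v (v_ofNat v 18) _ hG
    rw [Valuation.map_neg, map_mul, map_mul]
    have h4 : v (k ^ 2 + 13 * k + 35) ≤ 1 := by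
      apply v.map_add_le (v.map_add_le _ _) (v_ofNat v 35)
      · rw [map_pow]; exact pow_le_one' hk 2
      · rw [map_mul]; exact mul_le_one' (v_ofNat v 13) hk
    exact mul_le_one' (mul_le_one' (v_ofNat v 3) hk) h4
  have e5 : v s * v G = v G * v G := by
    have : v (s * ((G + 3) * (k ^ 2 + 4 * k - 1))) = v G ^ 2 := by rw [hs, e4]
    rw [map_mul, map_mul, g2, k2, mul_one, pow_two] at this
    exact this
  have := mul_right_cancel₀ (ne_of_gt (lt_trans zero_lt_one hG)) e5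
  rw [this]; exact hG

theorem s_case_c [CharZero K] {G j k s : K} (h3 : G * j = (G + 27) * (G + 3) ^ 3)
    (h5 : k * j = (k ^ 2 + 10 * k + 5) ^ 3)
    (hs : s * ((G + 3) * (k ^ 2 + 4 * k - 1)) = G ^ 2 + 18 * G - 3 * k * (k ^ 2 + 13 * k + 35))
    (hG : 1 < v G) (hk : 1 < v k) : v s < 1 := by
  have j1 := G_large v h3 hG
  have j2 := k_large v h5 hk
  have hyx : v G ^ 3 = v k ^ 5 := by rw [← j1, j2]
  have k2 : v (k ^ 2 + 4 * k - 1) = v k ^ 2 := by
    rw [sub_eq_add_neg]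
    exact v_quad v (v_ofNat v 4) (by rw [Valuation.map_neg, map_one]) hk
  have k3 := v_quad v (v_ofNat (K := K) v 13) (v_ofNat v 35) hk
  have g2 := v_add_large v (v_ofNat (K := K) v 3) hG
  have pk : 0 < v k := lt_trans zero_lt_one hk
  have e3 : v k ^ 3 ≤ v G ^ 2 := by
    by_contra h
    push Not at h
    have h6 : (v G ^ 2) ^ 3 < (v k ^ 3) ^ 3 := pow_lt_pow_left₀ h zero_le (by norm_num)
    have h7 : (v G ^ 2) ^ 3 = v k ^ 10 := by
      rw [← pow_mul, mul_comm 2 3, pow_mul, hyx, ← pow_mul]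
    rw [h7, ← pow_mul] at h6
    exact absurd h6 (not_lt.2 (pow_le_pow_right₀ hk.le (by norm_num)))
  have e4 : v (G ^ 2 + 18 * G - 3 * k * (k ^ 2 + 13 * k + 35)) ≤ v G ^ 2 := by
    rw [sub_eq_add_neg]
    apply v.map_add_le
    · have := v_quad v (v_ofNat (K := K) v 18) (show v (0 : K) ≤ 1 by rw [map_zero]; exact zero_le) hG
      rw [add_zero] at this
      exact this.le
    · rw [Valuation.map_neg, map_mul, map_mul, k3]
      calc v 3 * v k * v k ^ 2 = v 3 * v k ^ 3 := by rw [mul_assoc, ← pow_succ']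
        _ ≤ 1 * v k ^ 3 := mul_le_mul_left (v_ofNat v 3) _
        _ = v k ^ 3 := one_mul _
        _ ≤ v G ^ 2 := e3
  by_contra hs1
  push Not at hs1
  have e5 : v G * v k ^ 2 ≤ v G * v G := by
    calc v G * v k ^ 2 = 1 * (v G * v k ^ 2) := (one_mul _).symm
      _ ≤ v s * (v G * v k ^ 2) := mul_le_mul_left hs1 _
      _ = v (s * ((G + 3) * (k ^ 2 + 4 * k - 1))) := by rw [map_mul, map_mul, g2, k2]
      _ ≤ v G ^ 2 := by rw [hs]; exact e4
      _ = v G * v G := pow_two _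
  have e6 : v k ^ 2 ≤ v G := le_of_mul_le_mul_left e5 (lt_trans zero_lt_one hG)
  have e7 : (v k ^ 2) ^ 3 ≤ v G ^ 3 := pow_le_pow_left₀ zero_le e6 3
  rw [hyx, ← pow_mul] at e7
  exact absurd e7 (not_le.2 (pow_lt_pow_right₀ hk (by norm_num)))

theorem h_large [CharZero K] {G h j : K} (h3 : G * j = (G + 27) * (G + 3) ^ 3)
    (hGh : G * h = 729) (hh : 1 < v h) : v G < 1 ∧ 1 < v j := by
  have hG : v G < 1 := v_small v (show h * G = 729 by rw [mul_comm]; exact hGh) (v_ofNat v 729) hh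
  refine ⟨hG, ?_⟩
  have e1 : h ^ 3 * j = (h + 27) * (h + 243) ^ 3 := by
    have h729 : (729 : K) ≠ 0 := by norm_num
    apply mul_left_cancel₀ h729
    calc 729 * (h ^ 3 * j) = h ^ 4 * (G * j) := by rw [← hGh]; ring
      _ = (G * h + 27 * h) * (G * h + 3 * h) ^ 3 := by rw [h3]; ring
      _ = _ := by rw [hGh]; ring
  have e2 : v h ^ 3 * v j = v h ^ 3 * v h := by
    rw [← map_pow, ← map_mul, e1, map_mul, map_pow, v_add_large v (v_ofNat v 27) hh,
      v_add_large v (v_ofNat v 243) hh, map_pow, mul_comm]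
  have p : 0 < v h := lt_trans zero_lt_one hh
  rw [mul_left_cancel₀ (ne_of_gt (pow_pos p 3)) e2]
  exact hh

section cusps

variable [CharZero K] {G j k r r' s s' : K} (h3 : G * j = (G + 27) * (G + 3) ^ 3)
    (h5 : k * j = (k ^ 2 + 10 * k + 5) ^ 3) (hrr : r * r' = 9) (hss : s * s' = -1)
    (hsum : r + r' + s + s' + 5 = 0) (hG : G * (r ^ 3 * s ^ 2) = 729)
    (hs : s * ((G + 3) * (k ^ 2 + 4 * k - 1)) = G ^ 2 + 18 * G - 3 * k * (k ^ 2 + 13 * k + 35))

include h3 h5 hrr hss hsum hG hs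

theorem cuspA1 (h : 1 < v (r * s)) : 1 < v j ∧ ¬ 1 < v G ∧ 1 < v k := by
  obtain ⟨h1, h2, -, -⟩ := v_pair v (v_ofNat v 9) (by rw [Valuation.map_neg, map_one])
    (v_ofNat v 5) hrr hss hsum h
  have hh : 1 < v (r ^ 3 * s ^ 2) := by
    rw [map_mul, map_pow, map_pow, h2, ← pow_add]
    exact one_lt_pow₀ h1 (by norm_num)
  obtain ⟨g1, g2⟩ := h_large v h3 hG hh
  refine ⟨g2, not_lt.2 g1.le, ?_⟩
  by_contra hk
  have := s_case_a v h3 h5 hs g1.le g2 (not_lt.1 hk)
  rw [h2] at this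
  exact absurd h1 (not_lt.2 this.le)

omit h5 in
theorem cuspA3 (h : 1 < v (r * s')) : 1 < v j ∧ ¬ 1 < v G ∧ ¬ 1 < v k := by
  obtain ⟨h1, h2, -, h4⟩ := v_pair v (v_ofNat v 9) (by rw [Valuation.map_neg, map_one])
    (v_ofNat v 5) hrr (show s' * s = -1 by rw [mul_comm]; exact hss)
    (show r + r' + s' + s + 5 = 0 by linear_combination hsum) h
  have hrs : v (r * s) = 1 := by
    rw [map_mul, ← h2, ← map_mul, mul_comm, hss, Valuation.map_neg, map_one]
  have hh : 1 < v (r ^ 3 * s ^ 2) := by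
    have e : r ^ 3 * s ^ 2 = r * (r * s) ^ 2 := by ring
    rw [e, map_mul, map_pow, hrs, one_pow, mul_one]
    exact h1
  obtain ⟨g1, g2⟩ := h_large v h3 hG hh
  refine ⟨g2, not_lt.2 g1.le, ?_⟩
  intro hk
  have := s_case_b v h3 hs g1.le g2 hk
  exact absurd this (not_lt.2 h4.le)

omit h3 h5 hs hsum in
theorem G_eq : G = r' ^ 3 * s' ^ 2 := by
  have hr0 : r ≠ 0 := by
    intro h; rw [h] at hrr; norm_num at hrr
  have hs0 : s ≠ 0 := by
    intro h; rw [h] at hss; norm_num at hss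
  apply mul_right_cancel₀ (mul_ne_zero (pow_ne_zero 3 hr0) (pow_ne_zero 2 hs0))
  rw [hG]
  calc (729 : K) = (r * r') ^ 3 * (s * s') ^ 2 := by rw [hrr, hss]; norm_num
    _ = _ := by ring

theorem cuspA2 (h : 1 < v (r' * s)) : 1 < v j ∧ 1 < v G ∧ ¬ 1 < v k := by
  obtain ⟨h1, h2, -, h4⟩ := v_pair v (v_ofNat v 9) (by rw [Valuation.map_neg, map_one])
    (v_ofNat v 5) (show r' * r = 9 by rw [mul_comm]; exact hrr) hss
    (show r' + r + s + s' + 5 = 0 by linear_combination hsum) h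
  have hrs : v (r' * s') = 1 := by
    rw [map_mul, ← h2, ← map_mul, hss, Valuation.map_neg, map_one]
  have hh : 1 < v G := by
    rw [G_eq hrr hss hG]
    have e : r' ^ 3 * s' ^ 2 = r' * (r' * s') ^ 2 := by ring
    rw [e, map_mul, map_pow, hrs, one_pow, mul_one]
    exact h1
  refine ⟨?_, hh, ?_⟩
  · rw [G_large v h3 hh]; exact one_lt_pow₀ hh (by norm_num)
  · intro hk
    have := s_case_c v h3 h5 hs hh hk
    rw [h2] at this
    exact absurd h1 (not_lt.2 this.le)

theorem cuspA4 (h : 1 < v (r' * s')) : 1 < v j ∧ 1 < v G ∧ 1 < v k := by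
  obtain ⟨h1, h2, -, h4⟩ := v_pair v (v_ofNat v 9) (by rw [Valuation.map_neg, map_one])
    (v_ofNat v 5) (show r' * r = 9 by rw [mul_comm]; exact hrr)
    (show s' * s = -1 by rw [mul_comm]; exact hss)
    (show r' + r + s' + s + 5 = 0 by linear_combination hsum) h
  have hh : 1 < v G := by
    rw [G_eq hrr hss hG, map_mul, map_pow, map_pow, h2, ← pow_add]
    exact one_lt_pow₀ h1 (by norm_num)
  refine ⟨?_, hh, ?_⟩
  · rw [G_large v h3 hh]; exact one_lt_pow₀ hh (by norm_num)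
  · by_contra hk
    have := s_case_d v h3 h5 hs hh (not_lt.1 hk)
    exact absurd this (not_lt.2 h4.le)

end cusps

end RG
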