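import Pool.Agent.Lib.MP_87c685_nt_RG.ValA

/-!
# Integral points on the modular curve of the normaliser of a nonsplit Cartan modulo 5
-/

set_option autoImplicit false

namespace RG

variable {K : Type*} [Field K] {Γ₀ : Type*} [LinearOrderedCommGroupWithZero Γ₀]
  (v : Valuation K Γ₀)

theorem v_both {x y : K} {g : Γ₀} (hg : 0 < g) (hx : v x ≤ g) (hy : v y ≤ g)
    (h : v (x * y) = g * g) : v x = g := by
  by_contra hne
  have h1 : v x < g := lt_of_le_of_ne hx hne
  have h2 : v x * v y < g * g := by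
    calc v x * v y ≤ v x * g := mul_le_mul_right hy _
      _ < g * g := (mul_lt_mul_iff_left₀ hg).2 h1
  rw [← map_mul, h] at h2
  exact lt_irrefl _ h2

theorem v_caseA [CharZero K] {s j : K} (h : j * (s ^ 2 - 5) ^ 5 =
    8000 * (s + 1) * s ^ 3 * (s ^ 2 - 5 * s + 10) ^ 3) (hj : v j ≤ 1) (h5 : v (5 : K) = 1) :
    v 4 ≤ v (s ^ 2 - 5) := by
  by_contra hD
  push Not at hD
  have h2pos : 0 < v (2 : K) := v_pos v (by norm_num)
  have h2le : v (2 : K) ≤ 1 := v_ofNat v 2
  have h4 : v (4 : K) = v 2 * v 2 := by rw [← map_mul]; norm_num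
  have h42 : v (4 : K) ≤ v 2 := by
    rw [h4]
    calc v (2 : K) * v 2 ≤ v 2 * 1 := mul_le_mul_right h2le _
      _ = v 2 := mul_one _
  have h41 : v (4 : K) ≤ 1 := h42.trans h2le
  have hs2 : v (s ^ 2) = 1 := by
    have e : s ^ 2 = (s ^ 2 - 5) + 5 := by ring
    rw [e, Valuation.map_add_eq_of_lt_right v (by rw [h5]; exact lt_of_lt_of_le hD h41), h5]
  have hs : v s = 1 := by
    rw [map_pow] at hs2
    exact pow_eq_one_iff_of_nonneg zero_le two_ne_zero |>.1 hs2
  have hprod : v ((s + 1) * (s - 1)) = v 2 * v 2 := by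
    have e : (s + 1) * (s - 1) = (s ^ 2 - 5) + 4 := by ring
    rw [e, Valuation.map_add_eq_of_lt_right v hD, h4]
  have hs1 : v (s + 1) = v 2 := by
    rcases lt_trichotomy (v (s + 1)) (v 2) with hlt | heq | hgt
    · exfalso
      have e : v (s - 1) = v 2 := by
        have e1 : s - 1 = (s + 1) + (-2) := by ring
        rw [e1, Valuation.map_add_eq_of_lt_right v (by rw [Valuation.map_neg]; exact hlt),
          Valuation.map_neg]
      rw [map_mul, e] at hprod
      exact absurd (mul_right_cancel₀ (ne_of_gt h2pos) hprod) (ne_of_lt hlt)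
    · exact heq
    · exfalso
      have e : v (s - 1) = v (s + 1) := by
        have e1 : s - 1 = (s + 1) + (-2) := by ring
        rw [e1, Valuation.map_add_eq_of_lt_left v (by rw [Valuation.map_neg]; exact hgt)]
      rw [map_mul, e] at hprod
      have : v 2 * v 2 < v (s + 1) * v (s + 1) := mul_lt_mul'' hgt hgt h2pos.le h2pos.le
      rw [hprod] at this
      exact lt_irrefl _ this
  have hs3 : v (s - 3) = v 2 := by
    apply v_both v (y := s + 3) h2pos
    · have e1 : s - 3 = (s + 1) + (-4) := by ring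
      rw [e1]
      exact v.map_add_le hs1.le (by rw [Valuation.map_neg]; exact h42)
    · have e1 : s + 3 = (s + 1) + 2 := by ring
      rw [e1]
      exact v.map_add_le hs1.le le_rfl
    · have e1 : (s - 3) * (s + 3) = (s ^ 2 - 5) + (-4) := by ring
      rw [e1, Valuation.map_add_eq_of_lt_right v (by rw [Valuation.map_neg]; exact hD),
        Valuation.map_neg, h4]
  have hq : v (s ^ 2 - 5 * s + 10) = v 2 := by
    have e1 : s ^ 2 - 5 * s + 10 = (s ^ 2 - 5) + -(5 * (s - 3)) := by ring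
    have e2 : v (-(5 * (s - 3))) = v 2 := by rw [Valuation.map_neg, map_mul, h5, hs3, one_mul]
    rw [e1, Valuation.map_add_eq_of_lt_right v (by rw [e2]; exact lt_of_lt_of_le hD h42), e2]
  have h8000 : v (8000 : K) = v 2 ^ 6 := by
    have : (8000 : K) = 2 ^ 6 * 5 ^ 3 := by norm_num
    rw [this, map_mul, map_pow, map_pow, h5, one_pow, mul_one]
  have h1 : v j * v (s ^ 2 - 5) ^ 5 = v 4 ^ 5 := by
    rw [← map_pow, ← map_mul, h, map_mul, map_mul, map_mul, map_pow, map_pow, h8000, hs1, hs, hq,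
      h4, one_pow, mul_one, ← pow_succ, ← pow_add, ← pow_two, ← pow_mul]
  have h3 : v 4 ^ 5 ≤ v (s ^ 2 - 5) ^ 5 := by
    rw [← h1]
    calc v j * v (s ^ 2 - 5) ^ 5 ≤ 1 * v (s ^ 2 - 5) ^ 5 := mul_le_mul_left hj _
      _ = _ := one_mul _
  exact absurd h3 (not_le.2 (pow_lt_pow_left₀ hD zero_le (by norm_num)))

theorem v_caseB [CharZero K] {s j : K} (h : j * (s ^ 2 - 5) ^ 5 =
    8000 * (s + 1) * s ^ 3 * (s ^ 2 - 5 * s + 10) ^ 3) (hj : v j ≤ 1) (h5 : v (5 : K) < 1)
    (hs : v s ≤ 1) : v 5 * v s ≤ v (s ^ 2 - 5) := by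
  by_contra hD
  push Not at hD
  have h5pos : 0 < v (5 : K) := v_pos v (by norm_num)
  have unit : ∀ a b : K, a + b * 5 = 1 → v a ≤ 1 → v b ≤ 1 → v a = 1 := by
    intro a b hab ha hb
    by_contra hne
    have h1 : v a < 1 := lt_of_le_of_ne ha hne
    have h2 : v (b * 5) < 1 := by
      rw [map_mul]
      calc v b * v 5 ≤ 1 * v 5 := mul_le_mul_left hb _
        _ = v 5 := one_mul _
        _ < 1 := h5
    have h3 : v (a + b * 5) < 1 := v.map_add_lt h1 h2
    rw [hab, map_one] at h3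
    exact lt_irrefl _ h3
  have u64 : v (64 : K) = 1 := by
    have hu4 : v (4 : K) = 1 := by
      have e := unit (-4) 1 (by norm_num) (by rw [Valuation.map_neg]; exact v_ofNat v 4)
        (by rw [map_one])
      rwa [Valuation.map_neg] at e
    have : (64 : K) = 4 ^ 3 := by norm_num
    rw [this, map_pow, hu4, one_pow]
  have u3 : v (3 : K) = 1 := by
    have hu6 : v (6 : K) = 1 := by
      exact unit 6 (-1) (by norm_num) (v_ofNat v 6) (by rw [Valuation.map_neg, map_one])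
    have e : (6 : K) = 2 * 3 := by norm_num
    by_contra hne
    have h1 : v (3 : K) < 1 := lt_of_le_of_ne (v_ofNat v 3) hne
    rw [e, map_mul] at hu6
    have h2 : v (2 : K) * v 3 < 1 := by
      calc v (2 : K) * v 3 ≤ 1 * v 3 := mul_le_mul_left (v_ofNat v 2) _
        _ = v 3 := one_mul _
        _ < 1 := h1
    rw [hu6] at h2
    exact lt_irrefl _ h2
  have hDs : v (s ^ 2 - 5) < v 5 := by
    apply lt_of_lt_of_le hD
    calc v 5 * v s ≤ v 5 * 1 := mul_le_mul_right hs _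
      _ = v 5 := mul_one _
  have hs2 : v s ^ 2 = v 5 := by
    have e : s ^ 2 = (s ^ 2 - 5) + 5 := by ring
    rw [← map_pow, e, Valuation.map_add_eq_of_lt_right v hDs]
  have hs1 : v s < 1 := by
    by_contra hge
    push Not at hge
    have : v s = 1 := le_antisymm hs hge
    rw [this, one_pow] at hs2
    exact absurd hs2.symm (ne_of_lt h5)
  have hspos : 0 < v s := by
    rcases eq_or_lt_of_le (zero_le : (0 : Γ₀) ≤ v s) with h0 | h0
    · rw [← h0] at hs2
      exfalso
      rw [zero_pow two_ne_zero] at hs2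
      exact absurd hs2 (ne_of_lt h5pos)
    · exact h0
  have e1 : v (s + 1) = 1 := by
    rw [Valuation.map_add_eq_of_lt_right v (by rw [map_one]; exact hs1), map_one]
  have e2 : v (s ^ 2 - 5 * s + 10) = v 5 := by
    have e3 : s ^ 2 - 5 * s + 10 = (s ^ 2 - 5) + 5 * (-s + 3) := by ring
    have e4 : v (-s + 3) = 1 := by
      rw [Valuation.map_add_eq_of_lt_right v (by rw [Valuation.map_neg, u3]; exact hs1), u3]
    have e5 : v (5 * (-s + 3)) = v 5 := by rw [map_mul, e4, mul_one]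
    rw [e3, Valuation.map_add_eq_of_lt_right v (by rw [e5]; exact hDs), e5]
  have h8000 : v (8000 : K) = v 5 ^ 3 := by
    have : (8000 : K) = 64 * 5 ^ 3 := by norm_num
    rw [this, map_mul, map_pow, u64, one_mul]
  have h1 : v j * v (s ^ 2 - 5) ^ 5 = v 5 ^ 3 * v s ^ 3 * v 5 ^ 3 := by
    rw [← map_pow v (s ^ 2 - 5), ← map_mul, h, map_mul, map_mul, map_mul, map_pow, map_pow, h8000,
      e1, e2, mul_one]
  have h3 : v 5 ^ 3 * v s ^ 3 * v 5 ^ 3 ≤ v (s ^ 2 - 5) ^ 5 := by
    rw [← h1]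
    calc v j * v (s ^ 2 - 5) ^ 5 ≤ 1 * v (s ^ 2 - 5) ^ 5 := mul_le_mul_left hj _
      _ = _ := one_mul _
  have h4 : v (s ^ 2 - 5) ^ 5 < (v 5 * v s) ^ 5 := pow_lt_pow_left₀ hD zero_le (by norm_num)
  have h6 : v 5 ^ 3 * v s ^ 3 * v 5 ^ 3 = (v 5 * v s) ^ 5 := by
    rw [← hs2, ← pow_mul, ← pow_add, ← pow_add, ← pow_succ, ← pow_mul]
  rw [h6] at h3
  exact absurd h3 (not_le.2 h4)

/-- `j` integral forces `20 s / (s² - 5)` integral -/
theorem v_Y [CharZero K] {s j : K} (h : j * (s ^ 2 - 5) ^ 5 =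
    8000 * (s + 1) * s ^ 3 * (s ^ 2 - 5 * s + 10) ^ 3) (hj : v j ≤ 1) (h0 : s ^ 2 - 5 ≠ 0) :
    v (20 * s / (s ^ 2 - 5)) ≤ 1 := by
  have hpos : 0 < v (s ^ 2 - 5) := v_pos v h0
  rw [map_div₀]
  apply (div_le_one₀ hpos).2
  have h20 : v (20 : K) = v 4 * v 5 := by rw [← map_mul]; norm_num
  rcases le_or_gt (v s) 1 with hs | hs
  · rw [map_mul, h20]
    rcases (v_ofNat v 5).eq_or_lt with h5 | h5
    · rw [h5, mul_one]
      calc v 4 * v s ≤ v 4 * 1 := mul_le_mul_right hs _
        _ = v 4 := mul_one _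
        _ ≤ _ := v_caseA v h hj h5
    · calc v 4 * v 5 * v s = v 4 * (v 5 * v s) := mul_assoc _ _ _
        _ ≤ 1 * (v 5 * v s) := mul_le_mul_left (v_ofNat v 4) _
        _ = v 5 * v s := one_mul _
        _ ≤ _ := v_caseB v h hj h5 hs
  · have h1 : v (s ^ 2 - 5) = v s * v s := by
      have e : s ^ 2 - 5 = s * s + (-5) := by ring
      rw [e, Valuation.map_add_eq_of_lt_left v, map_mul]
      rw [Valuation.map_neg, map_mul]
      exact lt_of_le_of_lt (v_ofNat v 5) (one_lt_mul_of_lt_of_le hs hs.le)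
    rw [h1, map_mul]
    calc v 20 * v s ≤ v s * v s := mul_le_mul_left ((v_ofNat v 20).trans hs.le) _

end RG
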